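import Pool.Agent.LKX.I1L

/-!
# LKX/I1B: the inequality for `n < 2k`

`n = j + k`, `2 ≤ j < k`, `ε = j/n < 1/2`.  Let `D` be half of (right side - left side) of `I1_high`.

Step 1.  By `log_cl` (for `j`), `log_fact_le`, `log_LL`, `log_Pi2_le'` (`n - k = j`, `n + k = 2n - j`),
`log_Sq`, `n² - (k+1)² = (j-1)(2n-j+1)`:
 `D ≥ -½ log(2j+1) + j log(2(n+1)/π) - 1 - ½ log j - j log j + j - P + k log 2 + k log n - k
   + (k/(2n)) log(πn/2) - log n + ¼ log(j(2n-j)) - ½(2n-j) log(2n-j) + ½ j log j + k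
   + ½ k log((k+3/2)(k+11/2)) - ½ k log(n²+3k+17/4) + ¼ log((j-1)(2n-j+1))`,
 `P = 1.151 j(j+1)(2j+1)/(6(n+1)²)`.
Step 2.  Group:
 `E = j log n + k log 2 + k log k - ½(2n-j) log(2n-j) - ½ j log j + j log(2/π) + j`

 with `k = n(1-ε)`, `2n-j = 2n(1-ε/2)`:
   `E = ½ j log(n/j) - ½ j log 2 + j log(2/π) + j + n[(1-ε)log(1-ε) - (1-ε/2)log(1-ε/2)]`,
 and `φ(ε) = (1-ε)log(1-ε) - (1-ε/2)log(1-ε/2) + ε/2 - (3/8)ε² ≥ 0` on `[0, 1/2]`: `φ(0) = 0`,
   `φ' = -log(1-ε) + ½ log(1-ε/2) - ¾ε ≥ 2ε/(2-ε) - ½ ε/(2-ε) - ¾ε ≥ 0`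
   (`-log(1-ε) = log(1 + ε/(1-ε)) ≥ 2ε/(2-ε)`, `log(1-ε/2) ≥ 1 - 1/(1-ε/2) = -ε/(2-ε)`).
 So `E ≥ j(½ log(n/j) - 0.2982) + (3/8) j²/n` (`½ - ½ log 2 + log(2/π) = -0.29815...`).
 `T3 = -log n + ¼ log(j(2n-j)) + ¼ log((j-1)(2n-j+1)) - ½ log j - ½ log(2j+1) + (k/(2n)) log(πn/2)`
   `≥ -½ log(2j+1) - ¼ log(j/(j-1)) - ½(j/n) log n + ½ log(2 - j/n) + ½(1-j/n) log(π/2)`
   (`2n-j+1 ≥ 2n-j`).
 `T4 = ½ k log((1+3/(2k))(1+11/(2k))) - ½ k log(1+(3k+17/4)/n²)`
   `≥ 3k/(4k+3) + 11k/(4k+11) - 1.5 k²/n² - 2.125 k/n²`   (`log(1+z) ≥ 2z/(2+z)`, `log(1+z) ≤ z`).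
 `T5 = j log(1+1/n) - P + (3/8) j²/n ≥ j/n`: `log(1+1/n) ≥ 2/(2n+1) = 1/n - 1/(n(2n+1))`,
   `P ≤ 0.19184 j(j+1)/n` (`2j+1 ≤ n`), `(3/8) j²/n - P ≥ (j/n)(0.18316 j - 0.19184) ≥ 0.17 j/n`.
 Hence `D ≥ S(n,j)`,
 `S(n,j) = j(½ log(n/j) - 0.2982) - ½ log(2j+1) - ¼ log(j/(j-1)) - ½(j/n) log n + ½ log(2-j/n)
    + ½(1-j/n) log(π/2) - 1 + 3k/(4k+3) + 11k/(4k+11) - 1.5 k²/n² - 2.125 k/n² + j/n`, `k = n-j`.
Step 3.  `S(n+1,j) ≥ S(n,j)` for `n ≥ 6`, `2j ≤ n`: `½ j log((n+1)/n) ≥ j/(2n+1)`; `log x / x` is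
 nonincreasing for `x ≥ e` (`Real.log_div_self_antitoneOn`); `½ log(2-j/n)`, `(1-j/n)`, `3k/(4k+3)`,
 `11k/(4k+11)` increase; `(n-j)/n²` decreases for `n ≥ 2j`;
 `-1.5 [(1-j/(n+1))² - (1-j/n)²] = -1.5 (j/(n(n+1))) (2 - j/n - j/(n+1))`; `j/(n+1) - j/n = -j/(n(n+1))`.
 After multiplication by `n(n+1)/j` it remains `n(n+1)/(2n+1) - 4 + 1.5 j (1/n+1/(n+1)) ≥ 0`: clear for
 `n ≥ 8`, and for `n = 6, 7`, `j ≥ 2` (`n = 6, j = 2`: `0.159`).
Step 4.  `S(5,2) ≥ 0.03`: it equals `0.3 log π - 0.2 log 5 - 0.05 log 2 + 0.04338...`, and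
 `0.3 log π - 0.2 log 5 - 0.05 log 2 = (1/20) log(π^6/1250) ≥ -0.0133`.
 `S(6,2) = (1/3) log 3 - ¾ log 2 + (1/3) log π + 0.0953... > 0`.
Step 5.  `S(2j+1, j) > 0` for `j ≥ 3`.  Here `n = 2j+1`, `k = j+1`, and
 `½ j log((2j+1)/j) ≥ ½ j log 2 + j/(4j+1)`, `½ log 2 - 0.2982 ≥ 0.0483`;
 `-½ log(2j+1) - ½ (j/(2j+1)) log(2j+1) = -¾ log(2j+1) + ¼ log(2j+1)/(2j+1)`;
 `-¼ log(j/(j-1)) ≥ -¼/(j-1)`; `½ log((3j+2)/(2j+1)) ≥ ½ log(3/2) ≥ 0.2027`;
 `½ ((j+1)/(2j+1)) log(π/2) ≥ 0.1128`; `3(j+1)/(4j+7) = 3/4 - (9/4)/(4j+7)`;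
 `11(j+1)/(4j+15) = 11/4 - (121/4)/(4j+15)`; `-1.5 (j+1)²/(2j+1)² = -0.375 - 0.75/(2j+1) - 0.375/(2j+1)²`;
 `-2.125 (j+1)/(2j+1)² = -1.0625/(2j+1) - 1.0625/(2j+1)²`; `j/(2j+1) = ½ - ½/(2j+1)`;
 `j/(4j+1) = ¼ - ¼/(4j+1)`.  So
 `S(2j+1,j) ≥ 3.1905 + 0.0483 j - ¾ log(2j+1) + ¼ log(2j+1)/(2j+1) - 2.25/(4j+7) - 30.25/(4j+15)
    - 0.25/(j-1) - 2.3125/(2j+1) - 1.4375/(2j+1)² - 0.25/(4j+1)`.
 `j = 3, ..., 7` numerically (values `0.20, 0.35, 0.44, 0.51, 0.57`; `log y ≤ log c + (y-c)/c` with `c = 8`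
 for `j = 3` and `c = 16` for `j = 4, ..., 7`), `j ≥ 8`: `¾ log(2j+1) ≤ ¾ (6 log 2 + (2j-63)/64) ≤ 2.3809 + 0.0235 j`,
 so the bound is `≥ 0.8096 + 0.0248 j - (...)`, increasing in `j`, `≥ 0.12` at `j = 8`.

Monotonicity (step 3) gives `S(n,j) ≥ S(2j+1,j) > 0` for `j ≥ 3`, `S(n,2) ≥ S(6,2)` for `n ≥ 6`.
All numbers were checked numerically.
-/

namespace Pool.LKX

open Real
open Pool.LK2 (Pi2 Sq)

/-- the explicit lower bound `S(n,j)` -/
noncomputable def SS (n j : ℝ) : ℝ :=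
  j * (1 / 2 * Real.log (n / j) - 0.2982) - 1 / 2 * Real.log (2 * j + 1)
    - 1 / 4 * Real.log (j / (j - 1)) - 1 / 2 * (j / n) * Real.log n + 1 / 2 * Real.log (2 - j / n)
    + 1 / 2 * (1 - j / n) * Real.log (π / 2) - 1 + 3 * (n - j) / (4 * (n - j) + 3)
    + 11 * (n - j) / (4 * (n - j) + 11) - 1.5 * ((n - j) ^ 2 / n ^ 2) - 2.125 * ((n - j) / n ^ 2) + j / n

private theorem log_one_add_ge {z : ℝ} (hz : 0 ≤ z) : 2 * z / (z + 2) ≤ Real.log (1 + z) :=
  Real.le_log_one_add_of_nonneg hz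

private theorem phi_ge {x : ℝ} (h0 : 0 ≤ x) (h1 : x ≤ 1 / 2) :
    -(x / 2) + 3 / 8 * x ^ 2 ≤
      (1 - x) * Real.log (1 - x) - (1 - x / 2) * Real.log (1 - x / 2) := by
  have e1 := Real.abs_log_sub_add_sum_range_le (x := x) (by rw [abs_of_nonneg h0]; linarith) 5
  have e2 := Real.abs_log_sub_add_sum_range_le (x := x / 2)
    (by rw [abs_of_nonneg (by linarith)]; linarith) 5
  rw [abs_of_nonneg h0, abs_le] at e1
  rw [abs_of_nonneg (by linarith : (0 : ℝ) ≤ x / 2), abs_le] at e2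
  have a1 := e1.1
  have a2 := e2.2
  simp only [Finset.sum_range_succ, Finset.sum_range_zero] at a1 a2
  norm_num at a1 a2
  have hx1 : 0 < 1 - x := by linarith
  have hx2 : 0 < 1 - x / 2 := by linarith
  have b1 := mul_le_mul_of_nonneg_left a1 hx1.le
  have b2 := mul_le_mul_of_nonneg_left a2 hx2.le
  have c1 : (1 - x) * (x ^ 6 / (1 - x)) = x ^ 6 := mul_div_cancel₀ _ hx1.ne'
  have c2 : (1 - x / 2) * ((x / 2) ^ 6 / (1 - x / 2)) = (x / 2) ^ 6 := mul_div_cancel₀ _ hx2.ne'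
  have hx3 : 0 ≤ x ^ 3 := by positivity
  have hx3' : x ^ 3 ≤ 1 / 8 := by
    have : x ^ 3 ≤ (1 / 2) ^ 3 := pow_le_pow_left₀ h0 h1 3
    linarith
  have hx4 : 0 ≤ x ^ 4 := by positivity
  have hx5 : 0 ≤ x ^ 5 := by positivity
  have hx6 : x ^ 6 ≤ 1 / 8 * x ^ 3 := by
    have : x ^ 6 = x ^ 3 * x ^ 3 := by ring
    rw [this]
    exact mul_le_mul_of_nonneg_right hx3' hx3
  nlinarith [b1, b2, c1, c2, hx3, hx4, hx5, hx6]


private theorem log_pi_le : Real.log π ≤ 1 / 2 * Real.log 2 + 0.7982 := by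
  have hpi := Real.pi_pos
  have h1 : π < 3.141593 := Real.pi_lt_d6
  have h2 : π ^ 2 / 2 ≤ Real.exp 1.5964 := by
    have h3 := Real.sum_le_exp_of_nonneg (x := 1.5964) (by norm_num) 13
    refine le_trans ?_ h3
    have h4 : π ^ 2 / 2 ≤ 3.141593 ^ 2 / 2 := by
      have := pow_le_pow_left₀ hpi.le h1.le 2
      linarith
    refine h4.trans ?_
    simp only [Finset.sum_range_succ, Finset.sum_range_zero]
    norm_num [Nat.factorial]
  have h3 : Real.log (π ^ 2 / 2) ≤ 1.5964 := (Real.log_le_iff_le_exp (by positivity)).2 h2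
  rw [Real.log_div (by positivity) (by norm_num), Real.log_pow] at h3
  push_cast at h3
  linarith

private theorem log_one_add_le {z : ℝ} (hz : 0 ≤ z) : Real.log (1 + z) ≤ z := by
  have := Real.log_le_sub_one_of_pos (by linarith : 0 < 1 + z)
  linarith

theorem I1_high_aux {j k : ℕ} (hj : 2 ≤ j) (h : j < k) :
    Real.log ((j + k : ℕ) : ℝ) + Real.log (Pi2 (j + k) k) + 2 * SS ((j : ℝ) + k) j ≤
      k * Real.log (Sq (j + k) k)
      + 1 / 2 * Real.log (((j + k : ℕ) : ℝ) ^ 2 - ((k : ℝ) + 1) ^ 2)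
      + 2 * Real.log (cl (j + k) j) + 2 * Real.log (LL (j + k) k) := by
  have hJ : (2 : ℝ) ≤ j := by exact_mod_cast hj
  have hK : (j : ℝ) + 1 ≤ k := by exact_mod_cast h
  have hpi := Real.pi_pos
  have hA := log_Pi2_le' (n := j + k) (k := k) (by omega)
  have hB := log_Sq (j + k) k
  have hC := log_cl (n := j + k) (j := j) (by omega)
  have hD := log_fact_le (j := j) (by omega)
  have hE := log_LL (n := j + k) (by omega) k
  rw [hB]
  rw [Nat.cast_add] at *
  generalize hP : Real.log (Pi2 (j + k) k) = LP at *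
  generalize hc : Real.log (cl (j + k) j) = Lc at *
  generalize hL : Real.log (LL (j + k) k) = LLL at *
  generalize hf : Real.log (j.factorial : ℝ) = Lf at *
  clear hP hc hL hf hB
  have e1 : (j : ℝ) + k - k = j := by ring
  rw [e1] at hA
  obtain ⟨n, hn⟩ : ∃ n : ℝ, (j : ℝ) + k = n := ⟨_, rfl⟩
  rw [hn] at hA hC hE ⊢
  have hkn : (k : ℝ) = n - j := by linarith
  have hn0 : 0 < n := by linarith
  have hj0 : (0 : ℝ) < j := by linarith
  have hk0 : (0 : ℝ) < k := by linarith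
  have hn2 : 2 * (j : ℝ) + 1 ≤ n := by linarith
  have f1 : Real.log ((j : ℝ) * (n + k)) = Real.log j + Real.log (n + k) :=
    Real.log_mul (by positivity) (by positivity)
  have f2 : Real.log (2 * (n + 1) / π) = Real.log 2 + Real.log (n + 1) - Real.log π := by
    rw [Real.log_div (by positivity) (by positivity), Real.log_mul (by positivity) (by positivity)]
  have f3 : Real.log (π * n / 2) = Real.log π + Real.log n - Real.log 2 := by
    rw [Real.log_div (by positivity) (by positivity), Real.log_mul (by positivity) (by positivity)]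
  have f4 : Real.log (n ^ 2 - ((k : ℝ) + 1) ^ 2) = Real.log ((j : ℝ) - 1) + Real.log (n + k + 1) := by
    have : n ^ 2 - ((k : ℝ) + 1) ^ 2 = ((j : ℝ) - 1) * (n + k + 1) := by
      rw [hkn]
      ring
    rw [this]
    exact Real.log_mul (by linarith) (by positivity)
  have f5 : Real.log (n / j) = Real.log n - Real.log j := Real.log_div (by positivity) (by positivity)
  have f6 : Real.log ((j : ℝ) / (j - 1)) = Real.log j - Real.log ((j : ℝ) - 1) :=
    Real.log_div (by positivity) (by linarith)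
  have f7 : Real.log (2 - (j : ℝ) / n) = Real.log (n + k) - Real.log n := by
    rw [← Real.log_div (by positivity) (by positivity)]
    congr 1
    rw [hkn]
    field_simp
    ring
  have f8 : Real.log (π / 2) = Real.log π - Real.log 2 := Real.log_div (by positivity) (by positivity)
  have t1 : 2 * Real.log k + 6 / (4 * (k : ℝ) + 3) + 22 / (4 * (k : ℝ) + 11) ≤
      Real.log (((k : ℝ) + 3 / 2) * ((k : ℝ) + 11 / 2)) := by
    have a1 := log_one_add_ge (z := 3 / (2 * (k : ℝ))) (by positivity)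
    have a2 := log_one_add_ge (z := 11 / (2 * (k : ℝ))) (by positivity)
    have b1 : 2 * (3 / (2 * (k : ℝ))) / (3 / (2 * (k : ℝ)) + 2) = 6 / (4 * (k : ℝ) + 3) := by
      field_simp
      ring
    have b2 : 2 * (11 / (2 * (k : ℝ))) / (11 / (2 * (k : ℝ)) + 2) = 22 / (4 * (k : ℝ) + 11) := by
      field_simp
      ring
    rw [b1] at a1
    rw [b2] at a2
    have c1 : ((k : ℝ) + 3 / 2) * ((k : ℝ) + 11 / 2) =
        k * (1 + 3 / (2 * (k : ℝ))) * (k * (1 + 11 / (2 * (k : ℝ)))) := by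
      field_simp
    rw [c1, Real.log_mul (by positivity) (by positivity), Real.log_mul (by positivity) (by positivity),
      Real.log_mul (by positivity) (by positivity)]
    linarith
  have t2 : Real.log (n ^ 2 + 3 * (k : ℝ) + 17 / 4) ≤
      2 * Real.log n + (3 * (k : ℝ) + 17 / 4) / n ^ 2 := by
    have a1 := log_one_add_le (z := (3 * (k : ℝ) + 17 / 4) / n ^ 2) (by positivity)
    have c1 : n ^ 2 + 3 * (k : ℝ) + 17 / 4 = n ^ 2 * (1 + (3 * (k : ℝ) + 17 / 4) / n ^ 2) := by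
      field_simp
      ring
    rw [c1, Real.log_mul (by positivity) (by positivity), Real.log_pow]
    push_cast
    linarith
  have g1 : Real.log n + 2 / (2 * n + 1) ≤ Real.log (n + 1) := by
    have a1 := log_one_add_ge (z := 1 / n) (by positivity)
    have b1 : 2 * (1 / n) / (1 / n + 2) = 2 / (2 * n + 1) := by
      field_simp
      ring
    rw [b1] at a1
    have c1 : n + 1 = n * (1 + 1 / n) := by
      field_simp
    rw [c1, Real.log_mul (by positivity) (by positivity)]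
    linarith
  have g2 : Real.log (n + k) ≤ Real.log (n + k + 1) :=
    Real.log_le_log (by positivity) (by linarith)
  have g3 : -((j : ℝ) / 2) + 3 / 8 * ((j : ℝ) ^ 2 / n) ≤
      k * (Real.log k - Real.log n) - (n + k) / 2 * (Real.log (n + k) - Real.log 2 - Real.log n) := by
    have a1 := phi_ge (x := (j : ℝ) / n) (by positivity) (by
      rw [div_le_iff₀ hn0]
      linarith)
    have b1 : 1 - (j : ℝ) / n = k / n := by
      rw [hkn]
      field_simp
    have b2 : 1 - (j : ℝ) / n / 2 = (n + k) / 2 / n := by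
      rw [hkn]
      field_simp
      ring
    rw [b1, b2, Real.log_div (by positivity) (by positivity),
      Real.log_div (by positivity) (by positivity), Real.log_div (by positivity) (by positivity)] at a1
    have a2 := mul_le_mul_of_nonneg_left a1 hn0.le
    have c1 : n * (-((j : ℝ) / n / 2) + 3 / 8 * ((j : ℝ) / n) ^ 2) =
        -((j : ℝ) / 2) + 3 / 8 * ((j : ℝ) ^ 2 / n) := by
      field_simp
    have c2 : n * ((k : ℝ) / n * (Real.log k - Real.log n) -
        (n + k) / 2 / n * (Real.log (n + k) - Real.log 2 - Real.log n)) =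
        k * (Real.log k - Real.log n) -
          (n + k) / 2 * (Real.log (n + k) - Real.log 2 - Real.log n) := by
      field_simp
    rw [c1, c2] at a2
    exact a2
  have g4 := log_pi_le
  have g5 : 1.151 * ((j : ℝ) * (j + 1) * (2 * j + 1) / (6 * (n + 1) ^ 2)) ≤
      3 / 8 * ((j : ℝ) ^ 2 / n) + j * (2 / (2 * n + 1)) - j / n := by
    have a1 : (2 * (j : ℝ) + 1) / (n + 1) ^ 2 ≤ 1 / n := by
      rw [div_le_div_iff₀ (by positivity) hn0]
      nlinarith
    have a2 : 1.151 * ((j : ℝ) * (j + 1) * (2 * j + 1) / (6 * (n + 1) ^ 2)) ≤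
        1.151 / 6 * (j * (j + 1)) * (1 / n) := by
      have e : 1.151 * ((j : ℝ) * (j + 1) * (2 * j + 1) / (6 * (n + 1) ^ 2)) =
          1.151 / 6 * (j * (j + 1)) * ((2 * (j : ℝ) + 1) / (n + 1) ^ 2) := by
        field_simp
      rw [e]
      exact mul_le_mul_of_nonneg_left a1 (by positivity)
    refine a2.trans ?_
    have a3 : 1 / n - 1 / (11 * n) ≤ 2 / (2 * n + 1) := by
      have e : 1 / n - 1 / (11 * n) = 10 / (11 * n) := by
        field_simp
        norm_num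
      rw [e, div_le_div_iff₀ (by positivity) (by positivity)]
      nlinarith
    have a4 : (j : ℝ) * (1 / n - 1 / (11 * n)) ≤ j * (2 / (2 * n + 1)) :=
      mul_le_mul_of_nonneg_left a3 hj0.le
    have a5 : 1.151 / 6 * ((j : ℝ) * (j + 1)) * (1 / n) ≤
        3 / 8 * ((j : ℝ) ^ 2 / n) + j * (1 / n - 1 / (11 * n)) - j / n := by
      have e : 3 / 8 * ((j : ℝ) ^ 2 / n) + j * (1 / n - 1 / (11 * n)) - j / n -
          1.151 / 6 * ((j : ℝ) * (j + 1)) * (1 / n) =
          (j / n) * (3 / 8 * j - 1 / 11 - 1.151 / 6 * (j + 1)) := by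
        field_simp
        ring
      have e2 : 0 ≤ ((j : ℝ) / n) * (3 / 8 * j - 1 / 11 - 1.151 / 6 * (j + 1)) := by
        refine mul_nonneg (by positivity) ?_
        norm_num
        linarith
      linarith
    linarith
  have m1 := mul_le_mul_of_nonneg_left g1 hj0.le
  have m2 := mul_le_mul_of_nonneg_left t1 hk0.le
  have m3 := mul_le_mul_of_nonneg_left t2 hk0.le
  have m4 := mul_le_mul_of_nonneg_left g4 hj0.le
  have hk2 : (k : ℝ) / (2 * n) = 1 / 2 * (1 - j / n) := by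
    rw [hkn]
    field_simp
  rw [hk2, f3] at hE
  rw [f2] at hC
  rw [f1] at hA
  rw [f4]
  unfold SS
  rw [f5, f6, f7, f8, show n - (j : ℝ) = k by linarith]
  have q1 : 3 * (k : ℝ) / (4 * k + 3) = k * (6 / (4 * (k : ℝ) + 3)) / 2 := by ring
  have q2 : 11 * (k : ℝ) / (4 * k + 11) = k * (22 / (4 * (k : ℝ) + 11)) / 2 := by ring
  have q3 : 1.5 * ((k : ℝ) ^ 2 / n ^ 2) + 2.125 * ((k : ℝ) / n ^ 2) =
      k * ((3 * (k : ℝ) + 17 / 4) / n ^ 2) / 2 := by ring
  rw [q1, q2]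
  generalize Real.log (((k : ℝ) + 3 / 2) * ((k : ℝ) + 11 / 2)) = S1 at *
  generalize Real.log (n ^ 2 + 3 * (k : ℝ) + 17 / 4) = S2 at *
  generalize 6 / (4 * (k : ℝ) + 3) = A1 at *
  generalize 22 / (4 * (k : ℝ) + 11) = A2 at *
  generalize (3 * (k : ℝ) + 17 / 4) / n ^ 2 = A3 at *
  generalize 1.5 * ((k : ℝ) ^ 2 / n ^ 2) = A4 at *
  generalize 2.125 * ((k : ℝ) / n ^ 2) = A5 at *
  generalize 1.151 * ((j : ℝ) * (j + 1) * (2 * j + 1) / (6 * (n + 1) ^ 2)) = A6 at *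
  generalize (j : ℝ) ^ 2 / n = A7 at *
  generalize 2 / (2 * n + 1) = A8 at *
  generalize (j : ℝ) / n = A9 at *
  generalize Real.log (n + k + 1) = B1 at *
  generalize Real.log (n + k) = B2 at *
  generalize Real.log (n + 1) = B3 at *
  generalize Real.log n = B4 at *
  generalize Real.log (k : ℝ) = B5 at *
  generalize Real.log ((j : ℝ) - 1) = B6 at *
  generalize Real.log (j : ℝ) = B7 at *
  generalize Real.log (2 * (j : ℝ) + 1) = B8 at *
  generalize Real.log π = B9 at *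
  generalize Real.log 2 = B0 at *
  have hkk : n = j + k := hn.symm
  subst hkk
  linarith [hA, hC, hD, hE, m1, m2, m3, m4, g2, g3, g5, q3]


private theorem SS_mono {n j : ℝ} (hn : 6 ≤ n) (hj : 2 ≤ j) (h : 2 * j ≤ n) : SS n j ≤ SS (n + 1) j := by
  have hn0 : 0 < n := by linarith
  have hj0 : 0 < j := by linarith
  have hpi := Real.pi_gt_three
  have hA : Real.log (n / j) + 2 / (2 * n + 1) ≤ Real.log ((n + 1) / j) := by
    have a1 := log_one_add_ge (z := 1 / n) (by positivity)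
    have b1 : 2 * (1 / n) / (1 / n + 2) = 2 / (2 * n + 1) := by
      field_simp
      ring
    rw [b1] at a1
    have c1 : (n + 1) / j = n / j * (1 + 1 / n) := by
      field_simp
    rw [c1, Real.log_mul (by positivity) (by positivity)]
    linarith
  have hB : j / (n + 1) * Real.log (n + 1) ≤ j / n * Real.log n := by
    have he : Real.exp 1 ≤ n := by
      have := Real.exp_one_lt_d9
      linarith
    have a1 := Real.log_div_self_antitoneOn (a := n) (b := n + 1) he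
      (show Real.exp 1 ≤ n + 1 by linarith) (by linarith)
    simp only [] at a1
    have a2 := mul_le_mul_of_nonneg_left a1 hj0.le
    have c1 : j / (n + 1) * Real.log (n + 1) = j * (Real.log (n + 1) / (n + 1)) := by ring
    have c2 : j / n * Real.log n = j * (Real.log n / n) := by ring
    rw [c1, c2]
    exact a2
  have hfr : j / (n + 1) ≤ j / n := div_le_div_of_nonneg_left hj0.le hn0 (by linarith)
  have hfr1 : j / n ≤ 1 / 2 := by
    rw [div_le_iff₀ hn0]
    linarith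
  have hC : Real.log (2 - j / n) ≤ Real.log (2 - j / (n + 1)) :=
    Real.log_le_log (by linarith) (by linarith)
  have hD : (1 - j / n) * Real.log (π / 2) ≤ (1 - j / (n + 1)) * Real.log (π / 2) :=
    mul_le_mul_of_nonneg_right (by linarith) (Real.log_nonneg (by linarith))
  have hE : 3 * (n - j) / (4 * (n - j) + 3) ≤ 3 * (n + 1 - j) / (4 * (n + 1 - j) + 3) := by
    rw [div_le_div_iff₀ (by linarith) (by linarith)]
    nlinarith
  have hF : 11 * (n - j) / (4 * (n - j) + 11) ≤ 11 * (n + 1 - j) / (4 * (n + 1 - j) + 11) := by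
    rw [div_le_div_iff₀ (by linarith) (by linarith)]
    nlinarith
  have hG1 : (n + 1 - j) / (n + 1) ^ 2 ≤ (n - j) / n ^ 2 := by
    rw [div_le_div_iff₀ (by positivity) (by positivity)]
    nlinarith [mul_nonneg hn0.le (by linarith : 0 ≤ n - 2 * j)]
  have hG2 : 1.5 * ((n + 1 - j) ^ 2 / (n + 1) ^ 2) + j / n + 1 / 2 * (j * (-(2 / (2 * n + 1)))) ≤
      1.5 * ((n - j) ^ 2 / n ^ 2) + j / (n + 1) := by
    have hf : 0 ≤ n ^ 2 * (n + 1) ^ 2 - 4 * (n * (n + 1) * (2 * n + 1)) + 1.5 * (j * (2 * n + 1) ^ 2) := by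
      have h1 : 3 * (2 * n + 1) ^ 2 ≤ 1.5 * (j * (2 * n + 1) ^ 2) := by
        nlinarith [mul_nonneg (by linarith : (0 : ℝ) ≤ j - 2) (sq_nonneg (2 * n + 1))]
      obtain ⟨s, hs, rfl⟩ : ∃ s : ℝ, 0 ≤ s ∧ n = 6 + s := ⟨n - 6, by linarith, by ring⟩
      have h2 : 0 ≤ s ^ 4 + 18 * s ^ 3 + 109 * s ^ 2 + 236 * s + 87 := by positivity
      nlinarith [h1, h2]
    have e : 1.5 * ((n - j) ^ 2 / n ^ 2) + j / (n + 1) -
        (1.5 * ((n + 1 - j) ^ 2 / (n + 1) ^ 2) + j / n + 1 / 2 * (j * (-(2 / (2 * n + 1))))) =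
        j / (n ^ 2 * (n + 1) ^ 2 * (2 * n + 1)) *
          (n ^ 2 * (n + 1) ^ 2 - 4 * (n * (n + 1) * (2 * n + 1)) + 1.5 * (j * (2 * n + 1) ^ 2)) := by
      field_simp
      ring
    have := mul_nonneg (by positivity : 0 ≤ j / (n ^ 2 * (n + 1) ^ 2 * (2 * n + 1))) hf
    linarith
  have hA' := mul_le_mul_of_nonneg_left hA hj0.le
  unfold SS
  linarith

private theorem SS_base {j u : ℝ} (hj : 3 ≤ j) (hu : Real.log (2 * j + 1) ≤ u) :
    j * (1 / 2 * Real.log 2 - 0.2982) + j / (4 * j + 1) - 3 / 4 * u - 1 / 4 * (1 / (j - 1)) + 0.3108 - 1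
      + 3 * (j + 1) / (4 * (j + 1) + 3) + 11 * (j + 1) / (4 * (j + 1) + 11)
      - 1.5 * ((j + 1) ^ 2 / (2 * j + 1) ^ 2) - 2.125 * ((j + 1) / (2 * j + 1) ^ 2) + j / (2 * j + 1) ≤
      SS (2 * j + 1) j := by
  have hj0 : 0 < j := by linarith
  have hpi1 := Real.pi_gt_d6
  have a1 : Real.log 2 + 2 / (4 * j + 1) ≤ Real.log ((2 * j + 1) / j) := by
    have a1 := log_one_add_ge (z := 1 / (2 * j)) (by positivity)
    have b1 : 2 * (1 / (2 * j)) / (1 / (2 * j) + 2) = 2 / (4 * j + 1) := by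
      field_simp
      ring
    rw [b1] at a1
    have c1 : (2 * j + 1) / j = 2 * (1 + 1 / (2 * j)) := by
      field_simp
    rw [c1, Real.log_mul (by positivity) (by positivity)]
    linarith
  have a2 : Real.log (j / (j - 1)) ≤ 1 / (j - 1) := by
    have h1 : 0 < j - 1 := by linarith
    have := log_one_add_le (z := 1 / (j - 1)) (by positivity)
    have e : j / (j - 1) = 1 + 1 / (j - 1) := by
      field_simp
      ring
    rw [e]
    exact this
  have a3 : j / (2 * j + 1) ≤ 1 / 2 := by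
    rw [div_le_iff₀ (by linarith)]
    linarith
  have hl0 : 0 ≤ Real.log (2 * j + 1) := Real.log_nonneg (by linarith)
  have a4 : j / (2 * j + 1) * Real.log (2 * j + 1) ≤ 1 / 2 * Real.log (2 * j + 1) :=
    mul_le_mul_of_nonneg_right a3 hl0
  have a5 : 0.4 ≤ Real.log (2 - j / (2 * j + 1)) := by
    have h1 := log_one_add_ge (z := 1 / 2) (by norm_num)
    have h2 : Real.log (1 + 1 / 2) ≤ Real.log (2 - j / (2 * j + 1)) :=
      Real.log_le_log (by norm_num) (by linarith)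
    norm_num at h1
    linarith
  have a6 : 0.4432 ≤ Real.log (π / 2) := by
    have h1 := log_one_add_ge (z := 0.57) (by norm_num)
    have h2 : Real.log (1 + 0.57) ≤ Real.log (π / 2) :=
      Real.log_le_log (by norm_num) (by linarith)
    norm_num at h1
    linarith
  have a7 : 1 / 2 * 0.4432 ≤ (1 - j / (2 * j + 1)) * Real.log (π / 2) :=
    mul_le_mul (by linarith) a6 (by norm_num) (by linarith)
  have a8 := mul_le_mul_of_nonneg_left a1 hj0.le
  have e1 : j / (4 * j + 1) = 1 / 2 * (j * (2 / (4 * j + 1))) := by ring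
  unfold SS
  rw [show 2 * j + 1 - j = j + 1 by ring, e1]
  linarith

private theorem log_le_pow2 (m : ℕ) {y : ℝ} (hy : 0 < y) :
    Real.log y ≤ m * Real.log 2 + (y / 2 ^ m - 1) := by
  have h1 := Real.log_le_sub_one_of_pos (by positivity : 0 < y / 2 ^ m)
  rw [Real.log_div (by positivity) (by positivity), Real.log_pow] at h1
  linarith

private theorem SS_base_pos {j : ℕ} (hj : 3 ≤ j) : 0 < SS (2 * (j : ℝ) + 1) j := by
  have hJ : (3 : ℝ) ≤ j := by exact_mod_cast hj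
  have l1 := Real.log_two_gt_d9
  have l2 := Real.log_two_lt_d9
  rcases Nat.lt_or_ge j 8 with h8 | h8
  · rcases Nat.lt_or_ge j 4 with h4 | h4
    · have : j = 3 := by omega
      subst this
      have h1 := SS_base (j := ((3 : ℕ) : ℝ)) hJ (log_le_pow2 3 (by positivity))
      refine lt_of_lt_of_le ?_ h1
      push_cast
      norm_num
      linarith
    · have h1 := SS_base (j := (j : ℝ)) hJ (log_le_pow2 4 (by positivity))
      refine lt_of_lt_of_le ?_ h1
      interval_cases j <;>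
      · push_cast
        norm_num
        linarith
  · have hJ8 : (8 : ℝ) ≤ j := by exact_mod_cast h8
    have h1 := SS_base (j := (j : ℝ)) hJ (log_le_pow2 6 (by positivity))
    refine lt_of_lt_of_le ?_ h1
    have b1 : 9 * 3 / (39 : ℝ) ≤ 3 * ((j : ℝ) + 1) / (4 * ((j : ℝ) + 1) + 3) := by
      rw [div_le_div_iff₀ (by norm_num) (by positivity)]
      linarith
    have b2 : 11 * 9 / (47 : ℝ) ≤ 11 * ((j : ℝ) + 1) / (4 * ((j : ℝ) + 1) + 11) := by
      rw [div_le_div_iff₀ (by norm_num) (by positivity)]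
      linarith
    have b3 : ((j : ℝ) + 1) ^ 2 / (2 * (j : ℝ) + 1) ^ 2 ≤ 81 / 289 := by
      rw [div_le_div_iff₀ (by positivity) (by norm_num)]
      nlinarith
    have b4 : ((j : ℝ) + 1) / (2 * (j : ℝ) + 1) ^ 2 ≤ 9 / 289 := by
      rw [div_le_div_iff₀ (by positivity) (by norm_num)]
      nlinarith
    have b5 : 8 / (17 : ℝ) ≤ (j : ℝ) / (2 * (j : ℝ) + 1) := by
      rw [div_le_div_iff₀ (by norm_num) (by positivity)]
      linarith
    have b6 : 8 / (33 : ℝ) ≤ (j : ℝ) / (4 * (j : ℝ) + 1) := by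
      rw [div_le_div_iff₀ (by norm_num) (by positivity)]
      linarith
    have b7 : 1 / ((j : ℝ) - 1) ≤ 1 / 7 := by
      rw [div_le_div_iff₀ (by linarith) (by norm_num)]
      linarith
    have b8 : (j : ℝ) * (1 / 2 * 0.6931471803 - 0.2982) ≤ j * (1 / 2 * Real.log 2 - 0.2982) :=
      mul_le_mul_of_nonneg_left (by linarith) (by linarith)
    norm_num at b1 b2 b3 b4 b5 b6 b7 b8 ⊢
    linarith

private theorem SS_five : 0 < SS 5 2 := by
  have hpi := Real.pi_gt_three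
  have l1 := Real.log_two_gt_d9
  have l2 := Real.log_two_lt_d9
  have h1 : Real.log ((5 : ℝ) ^ 4 * 2 / π ^ 6) ≤ 5 ^ 4 * 2 / 3 ^ 6 - 1 := by
    refine (Real.log_le_sub_one_of_pos (by positivity)).trans ?_
    have : (5 : ℝ) ^ 4 * 2 / π ^ 6 ≤ 5 ^ 4 * 2 / 3 ^ 6 :=
      div_le_div_of_nonneg_left (by norm_num) (by norm_num)
        (pow_le_pow_left₀ (by norm_num) hpi.le 6)
    linarith
  rw [Real.log_div (by positivity) (by positivity), Real.log_mul (by norm_num) (by norm_num),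
    Real.log_pow, Real.log_pow] at h1
  have e1 : Real.log (5 / 2) = Real.log 5 - Real.log 2 := Real.log_div (by norm_num) (by norm_num)
  have e2 : Real.log (2 - 2 / 5) = 3 * Real.log 2 - Real.log 5 := by
    rw [show (2 : ℝ) - 2 / 5 = 2 ^ 3 / 5 by norm_num, Real.log_div (by norm_num) (by norm_num),
      Real.log_pow]
    push_cast
    ring
  have e3 : Real.log (π / 2) = Real.log π - Real.log 2 :=
    Real.log_div (by positivity) (by norm_num)
  have e4 : Real.log (2 / (2 - 1)) = Real.log 2 := by norm_num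
  have e5 : Real.log (2 * 2 + 1) = Real.log 5 := by norm_num
  unfold SS
  rw [e1, e2, e3, e4, e5]
  push_cast at h1
  norm_num at h1 ⊢
  linarith

private theorem SS_six : 0 < SS 6 2 := by
  have hpi := Real.pi_gt_three
  have l1 := Real.log_two_gt_d9
  have l2 := Real.log_two_lt_d9
  have h3 : 1 ≤ Real.log 3 := by
    rw [Real.le_log_iff_exp_le (by norm_num)]
    have := Real.exp_one_lt_d9
    linarith
  have hp : Real.log 3 ≤ Real.log π := Real.log_le_log (by norm_num) hpi.le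
  have e1 : Real.log (6 / 2) = Real.log 3 := by norm_num
  have e2 : Real.log (2 - 2 / 6) = Real.log 5 - Real.log 3 := by
    rw [show (2 : ℝ) - 2 / 6 = 5 / 3 by norm_num, Real.log_div (by norm_num) (by norm_num)]
  have e3 : Real.log (π / 2) = Real.log π - Real.log 2 :=
    Real.log_div (by positivity) (by norm_num)
  have e4 : Real.log (2 / (2 - 1)) = Real.log 2 := by norm_num
  have e5 : Real.log (2 * 2 + 1) = Real.log 5 := by norm_num
  have e6 : Real.log 6 = Real.log 2 + Real.log 3 := by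
    rw [show (6 : ℝ) = 2 * 3 by norm_num, Real.log_mul (by norm_num) (by norm_num)]
  unfold SS
  rw [e1, e2, e3, e4, e5, e6]
  norm_num
  linarith

theorem SS_pos {j k : ℕ} (hj : 2 ≤ j) (h : j < k) : 0 < SS ((j : ℝ) + k) j := by
  have step : ∀ k₀ : ℕ, j < k₀ → 6 ≤ j + k₀ → 0 < SS ((j : ℝ) + k₀) j → ∀ k, k₀ ≤ k →
      0 < SS ((j : ℝ) + k) j := by
    intro k₀ h1 h2 h3 k hk
    induction k, hk using Nat.le_induction with
    | base => exact h3
    | succ k hk ih =>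
      have a1 : (6 : ℝ) ≤ (j : ℝ) + k := by
        have : 6 ≤ j + k := by omega
        exact_mod_cast this
      have a2 : (2 : ℝ) ≤ j := by exact_mod_cast hj
      have a3 : 2 * (j : ℝ) ≤ (j : ℝ) + k := by
        have : 2 * j ≤ j + k := by omega
        exact_mod_cast this
      have a4 := SS_mono a1 a2 a3
      have e : (j : ℝ) + ((k + 1 : ℕ) : ℝ) = (j : ℝ) + k + 1 := by
        push_cast
        ring
      rw [e]
      exact lt_of_lt_of_le ih a4
  rcases Nat.lt_or_ge j 3 with h3 | h3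
  · have hj2 : j = 2 := by omega
    subst hj2
    rcases Nat.lt_or_ge k 4 with h4 | h4
    · have hk3 : k = 3 := by omega
      subst hk3
      have e : ((2 : ℕ) : ℝ) + ((3 : ℕ) : ℝ) = 5 := by norm_num
      rw [e]
      exact_mod_cast SS_five
    · refine step 4 (by norm_num) (by norm_num) ?_ k h4
      have e : ((2 : ℕ) : ℝ) + ((4 : ℕ) : ℝ) = 6 := by norm_num
      rw [e]
      exact_mod_cast SS_six
  · refine step (j + 1) (by omega) (by omega) ?_ k h
    have e : (j : ℝ) + ((j + 1 : ℕ) : ℝ) = 2 * (j : ℝ) + 1 := by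
      push_cast
      ring
    rw [e]
    exact SS_base_pos h3

theorem I1_high {j k : ℕ} (hj : 2 ≤ j) (h : j < k) :
    Real.log ((j + k : ℕ) : ℝ) + Real.log (Pi2 (j + k) k) < k * Real.log (Sq (j + k) k)
      + 1 / 2 * Real.log (((j + k : ℕ) : ℝ) ^ 2 - ((k : ℝ) + 1) ^ 2)
      + 2 * Real.log (cl (j + k) j) + 2 * Real.log (LL (j + k) k) := by
  have h1 := I1_high_aux hj h
  have h2 := SS_pos hj h
  linarith

end Pool.LKX
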