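import Pool.Agent.LKX.Rec

/-!
# LKX/Defs (MP_0732f2_an, Karlin's conjecture): explicit part, definitions

Everything on `[-1, 1]`; `TJ q j x = T_q^(j)(x)` (`Pool/Agent/LK1/ChebJ.lean`).
-/

namespace Pool.LKX

open Pool.LK1 (TJ)

/-- `∏_{l<k} (i² - l²)`; `(π/2) hh i k` is the squared norm of `T_i^(k)` with the weight `(1-x²)^(k-1/2)`. -/
noncomputable def hh (i k : ℕ) : ℝ := ∏ l ∈ Finset.range k, ((i : ℝ) ^ 2 - (l : ℝ) ^ 2)

/-- lower bound for `1 - X²`, `X` the largest zero of `T_n^(k+1)` -/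
noncomputable def bb (n k : ℕ) : ℝ :=
  (4 * (k : ℝ) ^ 2 + 28 * k + 33) / (4 * (n : ℝ) ^ 2 + 12 * k + 17)

/-- `X` is the largest zero of `T_n^(k+1)` in `(0, 1)` -/
structure IsX1 (n k : ℕ) (X : ℝ) : Prop where
  pos : 0 < X
  lt_one : X < 1
  zero : TJ n (k + 1) X = 0
  gt : ∀ x, X < x → x ≤ 1 → 0 < TJ n (k + 1) x

/-- the monotone quantity (`OM` in `Om.lean`) at the centre -/
noncomputable def W (i k : ℕ) : ℝ :=
  ((i : ℝ) ^ 2 - (k : ℝ) ^ 2 + k) * TJ i k 0 ^ 2 + TJ i (k + 1) 0 ^ 2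

/-- Wallis ratio, `≤ π / 2` -/
noncomputable def ww (k : ℕ) : ℝ :=
  (4 ^ k * (k.factorial : ℝ) ^ 2 / ((2 * k).factorial : ℝ)) ^ 2 / (2 * k + 1)

/-- closed upper bound for `W i k` -/
noncomputable def V (i k : ℕ) : ℝ :=
  (i : ℝ) ^ 2 * √(ww k) * (((i + k).factorial : ℝ) / ((i - k).factorial : ℝ))
    * √(((i : ℝ) - k) / ((i : ℝ) + k))

/-- upper bound for `T_n^(k)(X)²`, `X` the largest zero of `T_n^(k+1)` -/
noncomputable def Th2 (n k : ℕ) : ℝ := V n k / (bb n k ^ k * ((n : ℝ) ^ 2 - (k : ℝ) ^ 2))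

/-- `q_i` -/
noncomputable def qq (n k i : ℕ) : ℝ := (i : ℝ) ^ 2 - (k : ℝ) * (k - 1) / bb n k

/-- bound for the tail (relative to `Th2`) -/
noncomputable def tb (n k : ℕ) : ℝ :=
  ((n : ℝ) - k) / ((n : ℝ) - k - 2) * (((n : ℝ) + 1) / n) * ((n : ℝ) + k) ^ 2
    / (2 * n * qq n k (n + 1))

/-- constant of the lower part -/
noncomputable def lo (n k : ℕ) : ℝ :=
  ((n : ℝ) - k) / n * √(((n : ℝ) - 1) * (2 + 1 / ((n : ℝ) + k - 1)))

/-- lower bound for the end point derivative (all intervals) -/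
noncomputable def ck (n k : ℕ) : ℝ :=
  (∏ i ∈ Finset.range k, Real.cot (((i : ℝ) + 1) * (Real.pi / (2 * ((n : ℝ) + 1))))) *
    √(Real.sin (Real.pi / (2 * ((n : ℝ) + 1))) /
      Real.sin ((2 * (k : ℝ) + 1) * (Real.pi / (2 * ((n : ℝ) + 1)))))

/-- algebraic lower bound for `ck n j` and `ck n (n - j)` -/
noncomputable def cl (n j : ℕ) : ℝ :=
  (√(2 * (j : ℝ) + 1))⁻¹ * ∏ i ∈ Finset.range j,
    (2 * ((n : ℝ) + 1) / (Real.pi * ((i : ℝ) + 1)) * (1 - (((i : ℝ) + 1) / ((n : ℝ) + 1)) ^ 2))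

/-- `(2^(n-1) n!)^(k/n)`: the `k`-th power of the half length of the unit interval -/
noncomputable def LL (n k : ℕ) : ℝ := ((2 : ℝ) ^ (n - 1) * (n.factorial : ℝ)) ^ ((k : ℝ) / n)

end Pool.LKX
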