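import Pool.Agent.LKX.RMat
import Pool.Agent.LKX.Defs
import Pool.Agent.LKI.B4

/-!
# LKX/Lyap: a function of the class on the half line with large derivatives at `0`

`R = (RM n k l)_{0≤k,l≤n}`, symmetric, positive definite (`RM_pos`), hence invertible: `c = R⁻¹ e_n`,
 `R c = e_n`.  `A` = the `(n+1)×(n+1)` matrix with `A_{j,j+1} = 1` (`j < n`), all other entries of the rows
 `0..n-1` zero, and the last row `-cᵀ`.  Then `(A R)_{jl} = R_{j+1,l}` for `j < n`, `(A R)_{nl} = -δ_{nl}`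
 (`cᵀ R = e_nᵀ`), and by `RM_rec`, `RM_last`, `RM_n0`
   `A R + R Aᵀ = - (R e_0)(R e_0)ᵀ - e_n e_nᵀ`                                   (*)
 (entry `(j,l)`, `j,l<n`: `RM_rec`; `(j,n)`, `j<n`: `R_{j+1,n} = -R_{j0}R_{n0}`; `(n,n)`: `-2 = -R_{n0}² - 1`).
 `x(t) = exp(tA) R e_k`: `x_j' = x_{j+1}` for `j < n`.  For `i = 0` or `i = n` let `w(t) = exp(t Aᵀ) e_i`,
 `g(t) = wᵀ R w`, `g' = wᵀ (A R + R Aᵀ) w ≤ 0` by (*), so `g(t) ≤ g(0) = R_ii = R_00` for `t ≥ 0`
 (`RM_nn`).  `x_i(t) = e_iᵀ exp(tA) R e_k = wᵀ R e_k`, by Cauchy-Schwarz for the positive definite form `R`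
   `x_i(t)² ≤ g(t) R_kk ≤ R_00 R_kk`.
 So `F j t = x_j(t)/√(R_00 R_kk)` (`j ≤ n`) is a function of the class `InW n [0,∞)`: `|F 0| ≤ 1`,
 `|F n| ≤ 1` (so `F (n-1)` is 1-Lipschitz), and `F k 0 = R_kk/√(R_00 R_kk) = √(R_kk/R_00)
  = bt n k √(sin γ/sin((2k+1)γ)) = ck n k` (`bt`, `ck` have the same product).
 (Instead of the matrix exponential one may use any construction of the solution of the linear system, e.g.
 `NormedSpace.exp`, `hasDerivAt_exp_smul_const'`; one may also avoid `w`: for fixed `t` put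
 `w = exp(t Aᵀ) e_i`.)
`half_lower`: `KSpline.extremal` applied to the restriction of `F` to `[0, L]`.
-/

namespace Pool.LKX

open Set
open Pool.Agent.LKI (InW KSpline)

/-- the matrix `R` -/
noncomputable def Rm (n : ℕ) : Matrix (Fin (n + 1)) (Fin (n + 1)) ℝ :=
  Matrix.of fun i j => RM n i j

theorem Rm_apply (n : ℕ) (i j : Fin (n + 1)) : Rm n i j = RM n i j := rfl

theorem Rm_transpose (n : ℕ) : (Rm n).transpose = Rm n := by
  ext i j
  exact RM_symm n j i

theorem Rm_form (n : ℕ) (v : Fin (n + 1) → ℝ) :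
    v ⬝ᵥ (Rm n).mulVec v = ∑ k ∈ Finset.range (n + 1), ∑ l ∈ Finset.range (n + 1),
      (if h : k < n + 1 then v ⟨k, h⟩ else 0) * (if h : l < n + 1 then v ⟨l, h⟩ else 0) * RM n k l := by
  rw [Finset.sum_range]
  simp only [dotProduct, Matrix.mulVec]
  refine Finset.sum_congr rfl fun k _ => ?_
  rw [Finset.mul_sum, Finset.sum_range]
  refine Finset.sum_congr rfl fun l _ => ?_
  rw [dif_pos k.2, dif_pos l.2, Rm_apply]
  ring

theorem Rm_pos {n : ℕ} {v : Fin (n + 1) → ℝ} (hv : v ≠ 0) : 0 < v ⬝ᵥ (Rm n).mulVec v := by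
  rw [Rm_form]
  apply RM_pos
  obtain ⟨i, hi⟩ := Function.ne_iff.1 hv
  refine ⟨i, by omega, ?_⟩
  rw [dif_pos i.2]
  exact hi

theorem Rm_nonneg {n : ℕ} (v : Fin (n + 1) → ℝ) : 0 ≤ v ⬝ᵥ (Rm n).mulVec v := by
  by_cases hv : v = 0
  · subst hv
    simp
  · exact (Rm_pos hv).le

theorem exists_c (n : ℕ) : ∃ c : Fin (n + 1) → ℝ, (Rm n).mulVec c = Pi.single (Fin.last n) 1 := by
  have hinj : Function.Injective (Matrix.mulVecLin (Rm n)) := by
    rw [injective_iff_map_eq_zero]
    intro v hv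
    by_contra hne
    have h := Rm_pos hne
    rw [Matrix.mulVecLin_apply] at hv
    rw [hv] at h
    simp at h
  obtain ⟨c, hc⟩ := (LinearMap.injective_iff_surjective.1 hinj) (Pi.single (Fin.last n) 1)
  exact ⟨c, by simpa using hc⟩

/-- companion matrix -/
noncomputable def Am (n : ℕ) (c : Fin (n + 1) → ℝ) : Matrix (Fin (n + 1)) (Fin (n + 1)) ℝ :=
  Matrix.of fun i j => if (i : ℕ) = n then - c j else if (j : ℕ) = i + 1 then 1 else 0

theorem Am_mul {n : ℕ} (c : Fin (n + 1) → ℝ) (X : Matrix (Fin (n + 1)) (Fin (n + 1)) ℝ)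
    (j : Fin (n + 1)) (hj : (j : ℕ) < n) (l : Fin (n + 1)) :
    (Am n c * X) j l = X ⟨j + 1, by omega⟩ l := by
  rw [Matrix.mul_apply, Finset.sum_eq_single (⟨j + 1, by omega⟩ : Fin (n + 1))]
  · simp [Am, hj.ne]
  · intro m _ hm
    have : (m : ℕ) ≠ j + 1 := fun h => hm (Fin.ext h)
    simp [Am, hj.ne, this]
  · intro h
    exact absurd (Finset.mem_univ _) h

theorem Am_last {n : ℕ} {c : Fin (n + 1) → ℝ} (hc : (Rm n).mulVec c = Pi.single (Fin.last n) 1)
    (j : Fin (n + 1)) (hj : (j : ℕ) = n) (l : Fin (n + 1)) :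
    (Am n c * Rm n) j l = if (l : ℕ) = n then -1 else 0 := by
  have h := congrFun hc l
  rw [Matrix.mul_apply]
  have h2 : ∑ m, Am n c j m * Rm n m l = - ∑ m, Rm n l m * c m := by
    rw [← Finset.sum_neg_distrib]
    refine Finset.sum_congr rfl fun m _ => ?_
    have : Rm n m l = Rm n l m := by rw [← Rm_transpose n, Matrix.transpose_apply, Rm_transpose n]
    rw [this]
    simp [Am, hj]
    ring
  rw [h2]
  have h3 : ∑ m, Rm n l m * c m = (Rm n).mulVec c l := rfl
  rw [h3, h]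
  by_cases hl : (l : ℕ) = n
  · have : l = Fin.last n := Fin.ext hl
    subst this
    simp
  · have : l ≠ Fin.last n := fun h => hl (by rw [h]; rfl)
    simp [this, hl]

theorem lyap {n : ℕ} {c : Fin (n + 1) → ℝ} (hc : (Rm n).mulVec c = Pi.single (Fin.last n) 1)
    (j l : Fin (n + 1)) :
    (Am n c * Rm n + Rm n * (Am n c).transpose) j l =
      - (Rm n j 0 * Rm n l 0) - (Pi.single (Fin.last n) (1 : ℝ) : Fin (n + 1) → ℝ) j *
        (Pi.single (Fin.last n) (1 : ℝ) : Fin (n + 1) → ℝ) l := by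
  have h1 : (Rm n * (Am n c).transpose) j l = (Am n c * Rm n) l j := by
    have : Rm n * (Am n c).transpose = (Am n c * Rm n).transpose := by
      rw [Matrix.transpose_mul, Rm_transpose]
    rw [this, Matrix.transpose_apply]
  rw [Matrix.add_apply, h1]
  have hnn : RM n n 0 ^ 2 = 1 := RM_n0 n
  rcases Nat.lt_or_ge (j : ℕ) n with hj | hj <;> rcases Nat.lt_or_ge (l : ℕ) n with hl | hl
  · have hj' : j ≠ Fin.last n := fun h => by rw [h] at hj; simp at hj
    rw [Am_mul c _ j hj, Am_mul c _ l hl, Pi.single_eq_of_ne hj']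
    simp only [Rm_apply]
    have := RM_rec hj hl
    have h3 := RM_symm n (l + 1) j
    simp only [Fin.val_zero]
    rw [h3]
    linarith
  · have hj' : j ≠ Fin.last n := fun h => by rw [h] at hj; simp at hj
    have hl' : (l : ℕ) = n := by omega
    rw [Am_mul c _ j hj, Am_last hc l hl', Pi.single_eq_of_ne hj']
    simp only [Rm_apply, Fin.val_zero, hj.ne, if_false, hl']
    have := RM_last hj
    linarith
  · have hl'' : l ≠ Fin.last n := fun h => by rw [h] at hl; simp at hl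
    have hj' : (j : ℕ) = n := by omega
    rw [Am_mul c _ l hl, Am_last hc j hj', Pi.single_eq_of_ne hl'']
    simp only [Rm_apply, Fin.val_zero, hl.ne, if_false, hj']
    have := RM_last hl
    linarith
  · have hj' : (j : ℕ) = n := by omega
    have hl' : (l : ℕ) = n := by omega
    have e1 : j = Fin.last n := Fin.ext hj'
    have e2 : l = Fin.last n := Fin.ext hl'
    rw [Am_last hc j hj', Am_last hc l hl']
    subst e1 e2
    simp only [Rm_apply, Fin.val_zero, Fin.val_last, if_true, Pi.single_eq_same]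
    nlinarith

section Exp

attribute [local instance] Matrix.linftyOpNormedRing Matrix.linftyOpNormedAlgebra

/-- `exp(tA)` -/
noncomputable def Et (n : ℕ) (c : Fin (n + 1) → ℝ) (t : ℝ) : Matrix (Fin (n + 1)) (Fin (n + 1)) ℝ :=
  NormedSpace.exp (t • Am n c)

theorem Et_zero (n : ℕ) (c : Fin (n + 1) → ℝ) : Et n c 0 = 1 := by
  simp [Et]

theorem hasDerivAt_Et (n : ℕ) (c : Fin (n + 1) → ℝ) (t : ℝ) (i j : Fin (n + 1)) :
    HasDerivAt (fun s => Et n c s i j) ((Am n c * Et n c t) i j) t := by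
  have h : HasDerivAt (fun s : ℝ => NormedSpace.exp (s • Am n c))
      (Am n c * NormedSpace.exp (t • Am n c)) t := hasDerivAt_exp_smul_const' (Am n c) t
  have h1 := (hasDerivAt_pi.1 h) i
  exact (hasDerivAt_pi.1 h1) j

theorem hasDerivAt_Et' (n : ℕ) (c : Fin (n + 1) → ℝ) (t : ℝ) (i j : Fin (n + 1)) :
    HasDerivAt (fun s => Et n c s i j) ((Et n c t * Am n c) i j) t := by
  have h : HasDerivAt (fun s : ℝ => NormedSpace.exp (s • Am n c))
      (NormedSpace.exp (t • Am n c) * Am n c) t := hasDerivAt_exp_smul_const (Am n c) t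
  have h1 := (hasDerivAt_pi.1 h) i
  exact (hasDerivAt_pi.1 h1) j

end Exp

/-- `exp(tA) R` -/
noncomputable def Xt (n : ℕ) (c : Fin (n + 1) → ℝ) (t : ℝ) : Matrix (Fin (n + 1)) (Fin (n + 1)) ℝ :=
  Et n c t * Rm n

theorem hasDerivAt_Xt (n : ℕ) (c : Fin (n + 1) → ℝ) (t : ℝ) (i j : Fin (n + 1)) :
    HasDerivAt (fun s => Xt n c s i j) ((Am n c * Xt n c t) i j) t := by
  have h : HasDerivAt (fun s => ∑ m, Et n c s i m * Rm n m j)
      (∑ m, (Am n c * Et n c t) i m * Rm n m j) t :=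
    HasDerivAt.fun_sum fun m _ => (hasDerivAt_Et n c t i m).mul_const _
  have e : (Am n c * Xt n c t) i j = ∑ m, (Am n c * Et n c t) i m * Rm n m j := by
    rw [Xt, ← Matrix.mul_assoc, Matrix.mul_apply]
  rw [e]
  exact h

/-- `(exp(tA) R exp(tA)ᵀ)_ii` is antitone -/
theorem g_antitone {n : ℕ} {c : Fin (n + 1) → ℝ} (hc : (Rm n).mulVec c = Pi.single (Fin.last n) 1)
    (i : Fin (n + 1)) : Antitone (fun t => Et n c t i ⬝ᵥ (Rm n).mulVec (Et n c t i)) := by
  have hd : ∀ t, HasDerivAt (fun t => Et n c t i ⬝ᵥ (Rm n).mulVec (Et n c t i))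
      (∑ a, ∑ b, ((Et n c t * Am n c) i a * Rm n a b * Et n c t i b +
        Et n c t i a * Rm n a b * (Et n c t * Am n c) i b)) t := by
    intro t
    have h : HasDerivAt (fun t => ∑ a, ∑ b, Et n c t i a * Rm n a b * Et n c t i b)
      (∑ a, ∑ b, ((Et n c t * Am n c) i a * Rm n a b * Et n c t i b +
        Et n c t i a * Rm n a b * (Et n c t * Am n c) i b)) t := by
      refine HasDerivAt.fun_sum fun a _ => HasDerivAt.fun_sum fun b _ => ?_
      exact ((hasDerivAt_Et' n c t i a).mul_const _).mul (hasDerivAt_Et' n c t i b)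
    refine h.congr_of_eventuallyEq (Filter.Eventually.of_forall fun s => ?_)
    simp only [dotProduct, Matrix.mulVec]
    refine Finset.sum_congr rfl fun a _ => ?_
    rw [Finset.mul_sum]
    refine Finset.sum_congr rfl fun b _ => ?_
    ring
  apply antitone_of_deriv_nonpos
  · intro t
    exact (hd t).differentiableAt
  · intro t
    rw [(hd t).deriv]
    have e1 : (∑ a, ∑ b, ((Et n c t * Am n c) i a * Rm n a b * Et n c t i b +
        Et n c t i a * Rm n a b * (Et n c t * Am n c) i b)) =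
        ∑ p, ∑ q, Et n c t i p * Et n c t i q *
          (Am n c * Rm n + Rm n * (Am n c).transpose) p q := by
      have s1 : (∑ a, ∑ b, (Et n c t * Am n c) i a * Rm n a b * Et n c t i b) =
          ∑ p, ∑ q, Et n c t i p * Et n c t i q * (Am n c * Rm n) p q := by
        simp only [Matrix.mul_apply, Finset.sum_mul, Finset.mul_sum]
        rw [Finset.sum_comm]
        conv_lhs =>
          enter [2, b]
          rw [Finset.sum_comm]
        rw [Finset.sum_comm]
        refine Finset.sum_congr rfl fun p _ => ?_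
        refine Finset.sum_congr rfl fun q _ => ?_
        refine Finset.sum_congr rfl fun a _ => ?_
        ring
      have s2 : (∑ a, ∑ b, Et n c t i a * Rm n a b * (Et n c t * Am n c) i b) =
          ∑ p, ∑ q, Et n c t i p * Et n c t i q * (Rm n * (Am n c).transpose) p q := by
        simp only [Matrix.mul_apply, Matrix.transpose_apply, Finset.mul_sum]
        refine Finset.sum_congr rfl fun p _ => ?_
        rw [Finset.sum_comm]
        refine Finset.sum_congr rfl fun q _ => ?_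
        refine Finset.sum_congr rfl fun a _ => ?_
        ring
      simp only [Finset.sum_add_distrib]
      rw [s1, s2]
      simp only [Matrix.add_apply, mul_add, Finset.sum_add_distrib]
    rw [e1]
    have e2 : ∑ p, ∑ q, Et n c t i p * Et n c t i q *
          (Am n c * Rm n + Rm n * (Am n c).transpose) p q =
        - (∑ p, Et n c t i p * Rm n p 0) ^ 2 - (Et n c t i (Fin.last n)) ^ 2 := by
      simp only [lyap hc]
      have s1 : ∑ p, ∑ q, Et n c t i p * Et n c t i q * (-(Rm n p 0 * Rm n q 0) -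
          (Pi.single (Fin.last n) (1 : ℝ) : Fin (n + 1) → ℝ) p *
            (Pi.single (Fin.last n) (1 : ℝ) : Fin (n + 1) → ℝ) q) =
          - (∑ p, ∑ q, (Et n c t i p * Rm n p 0) * (Et n c t i q * Rm n q 0)) -
          ∑ p, ∑ q, (Et n c t i p * (Pi.single (Fin.last n) (1 : ℝ) : Fin (n + 1) → ℝ) p) *
            (Et n c t i q * (Pi.single (Fin.last n) (1 : ℝ) : Fin (n + 1) → ℝ) q) := by
        rw [← Finset.sum_neg_distrib, ← Finset.sum_sub_distrib]
        refine Finset.sum_congr rfl fun p _ => ?_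
        rw [← Finset.sum_neg_distrib, ← Finset.sum_sub_distrib]
        refine Finset.sum_congr rfl fun q _ => ?_
        ring
      rw [s1, ← Finset.sum_mul_sum, ← Finset.sum_mul_sum]
      have s2 : ∑ p, Et n c t i p * (Pi.single (Fin.last n) (1 : ℝ) : Fin (n + 1) → ℝ) p =
          Et n c t i (Fin.last n) := by
        rw [Finset.sum_eq_single (Fin.last n)]
        · simp
        · intro b _ hb
          simp [hb]
        · intro h
          exact absurd (Finset.mem_univ _) h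
      rw [s2]
      ring
    rw [e2]
    nlinarith [sq_nonneg (∑ p, Et n c t i p * Rm n p 0), sq_nonneg (Et n c t i (Fin.last n))]

theorem Xt_sq_le {n : ℕ} {c : Fin (n + 1) → ℝ} (hc : (Rm n).mulVec c = Pi.single (Fin.last n) 1)
    (i k : Fin (n + 1)) {t : ℝ} (ht : 0 ≤ t) :
    Xt n c t i k ^ 2 ≤ Rm n i i * Rm n k k := by
  have hk : 0 < Rm n k k := by
    have hne : (Pi.single k (1 : ℝ) : Fin (n + 1) → ℝ) ≠ 0 := by
      intro h
      have := congrFun h k
      simp at this
    have := Rm_pos hne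
    simpa using this
  have h0 : Et n c t i ⬝ᵥ (Rm n).mulVec (Et n c t i) ≤ Rm n i i := by
    have h := g_antitone hc i ht
    have e : Et n c 0 i ⬝ᵥ (Rm n).mulVec (Et n c 0 i) = Rm n i i := by
      rw [Et_zero]
      have : (1 : Matrix (Fin (n + 1)) (Fin (n + 1)) ℝ) i = Pi.single i 1 := by
        ext j
        rw [Matrix.one_apply, Pi.single_apply]
        simp only [eq_comm]
      rw [this]
      simp
    simpa only [e] using h
  set w := Et n c t i with hw
  have hx : Xt n c t i k = w ⬝ᵥ (Rm n).mulVec (Pi.single k 1) := by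
    rw [Xt, Matrix.mul_apply]
    simp [dotProduct, hw]
  have hsym : (Pi.single k (1 : ℝ) : Fin (n + 1) → ℝ) ⬝ᵥ (Rm n).mulVec w =
      w ⬝ᵥ (Rm n).mulVec (Pi.single k 1) := by
    rw [Matrix.dotProduct_mulVec, ← Matrix.mulVec_transpose, Rm_transpose, dotProduct_comm]
  set x := Xt n c t i k with hx'
  have key := Rm_nonneg (n := n) (w - (x / Rm n k k) • (Pi.single k (1 : ℝ) : Fin (n + 1) → ℝ))
  have e : (w - (x / Rm n k k) • (Pi.single k (1 : ℝ) : Fin (n + 1) → ℝ)) ⬝ᵥ
      (Rm n).mulVec (w - (x / Rm n k k) • (Pi.single k (1 : ℝ) : Fin (n + 1) → ℝ)) =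
      w ⬝ᵥ (Rm n).mulVec w - x ^ 2 / Rm n k k := by
    rw [Matrix.mulVec_sub, Matrix.mulVec_smul, sub_dotProduct, dotProduct_sub, dotProduct_sub,
      smul_dotProduct, smul_dotProduct, dotProduct_smul, dotProduct_smul, hsym, ← hx]
    have : (Pi.single k (1 : ℝ) : Fin (n + 1) → ℝ) ⬝ᵥ (Rm n).mulVec (Pi.single k 1) = Rm n k k := by
      simp
    rw [this]
    simp only [smul_eq_mul]
    field_simp
    ring
  rw [e] at key
  have h2 : x ^ 2 / Rm n k k ≤ Rm n i i := by linarith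
  rwa [div_le_iff₀ hk] at h2

theorem sin_mul_pos {n m : ℕ} (hm : m < 2 * (n + 1)) (h0 : 0 < m) :
    0 < Real.sin ((m : ℝ) * (Real.pi / (2 * ((n : ℝ) + 1)))) := by
  have hm' : (m : ℝ) < 2 * ((n : ℝ) + 1) := by exact_mod_cast hm
  have h0' : (0 : ℝ) < m := by exact_mod_cast h0
  apply Real.sin_pos_of_pos_of_lt_pi
  · have := Real.pi_pos
    positivity
  · rw [← mul_div_assoc, div_lt_iff₀ (by positivity)]
    nlinarith [Real.pi_pos]

theorem sin1_pos (n : ℕ) : 0 < Real.sin (Real.pi / (2 * ((n : ℝ) + 1))) := by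
  have := sin_mul_pos (n := n) (m := 1) (by omega) one_pos
  simpa using this

theorem sin2k_pos {n k : ℕ} (h : k ≤ n) :
    0 < Real.sin ((2 * (k : ℝ) + 1) * (Real.pi / (2 * ((n : ℝ) + 1)))) := by
  have := sin_mul_pos (n := n) (m := 2 * k + 1) (by omega) (by omega)
  push_cast at this
  exact this

theorem ck_pos {n k : ℕ} (h : k ≤ n) : 0 < ck n k := by
  have h1 : 0 < bt n k := bt_pos h
  have h2 := sin1_pos n
  have h3 := sin2k_pos h
  have h4 : 0 < √(Real.sin (Real.pi / (2 * ((n : ℝ) + 1))) /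
      Real.sin ((2 * (k : ℝ) + 1) * (Real.pi / (2 * ((n : ℝ) + 1))))) :=
    Real.sqrt_pos.2 (div_pos h2 h3)
  exact mul_pos h1 h4

theorem ck_sq {n k : ℕ} (h : k ≤ n) : ck n k ^ 2 * RM n 0 0 = RM n k k := by
  have e : ck n k = bt n k * √(Real.sin (Real.pi / (2 * ((n : ℝ) + 1))) /
      Real.sin ((2 * (k : ℝ) + 1) * (Real.pi / (2 * ((n : ℝ) + 1))))) := rfl
  have h2 := sin1_pos n
  have h3 := sin2k_pos h
  rw [e, mul_pow, Real.sq_sqrt (div_pos h2 h3).le]
  have h00 : RM n 0 0 = 1 / Real.sin (Real.pi / (2 * ((n : ℝ) + 1))) := by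
    simp [RM, bt]
  have hkk : RM n k k = bt n k ^ 2 / Real.sin ((2 * (k : ℝ) + 1) * (Real.pi / (2 * ((n : ℝ) + 1)))) := by
    rw [RM, ← two_mul, pow_mul, neg_one_sq, one_pow, one_mul, ← two_mul, sq]
  rw [h00, hkk]
  field_simp

theorem exists_F {n k : ℕ} (hn : 2 ≤ n) (hk : k < n) :
    ∃ F : ℕ → ℝ → ℝ, InW n (Ici 0) F ∧ ck n k ≤ |F k 0| := by
  obtain ⟨c, hc⟩ := exists_c n
  have h00 : 0 < RM n 0 0 := RM_00_pos n
  have hck := ck_pos hk.le
  have hsq := ck_sq hk.le
  have hkk : 0 < RM n k k := by rw [← hsq]; positivity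
  set s : ℝ := ck n k * RM n 0 0 with hs
  have hs0 : 0 < s := mul_pos hck h00
  have hs2 : s ^ 2 = RM n 0 0 * RM n k k := by
    rw [hs, ← hsq]; ring
  set kk : Fin (n + 1) := ⟨k, by omega⟩ with hkk'
  set F : ℕ → ℝ → ℝ := fun j t => if h : j < n + 1 then Xt n c t ⟨j, h⟩ kk / s else 0 with hF
  have hder : ∀ j, j < n → ∀ t, HasDerivAt (F j) (F (j + 1) t) t := by
    intro j hj t
    have h1 : j < n + 1 := by omega
    have h2 : j + 1 < n + 1 := by omega
    have e1 : F j = fun t => Xt n c t ⟨j, h1⟩ kk / s := by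
      funext t
      simp only [hF, dif_pos h1]
    have e2 : F (j + 1) t = Xt n c t ⟨j + 1, h2⟩ kk / s := by
      simp only [hF, dif_pos h2]
    rw [e1, e2]
    have h := hasDerivAt_Xt n c t ⟨j, h1⟩ kk
    rw [Am_mul c _ ⟨j, h1⟩ hj] at h
    exact h.div_const s
  have hb : ∀ i : Fin (n + 1), RM n i i = RM n 0 0 → ∀ t, 0 ≤ t → |F i t| ≤ 1 := by
    intro i hi t ht
    have e2 : F i t = Xt n c t i kk / s := by
      simp only [hF, dif_pos i.2]
    have h := Xt_sq_le hc i kk ht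
    rw [Rm_apply, Rm_apply, hi] at h
    have h' : Xt n c t i kk ^ 2 ≤ s ^ 2 := by rw [hs2]; exact h
    have h3 := sq_le_sq.1 h'
    rw [e2, abs_div, abs_of_pos hs0, div_le_one hs0]
    rwa [abs_of_pos hs0] at h3
  refine ⟨F, ⟨⟨fun j hj t _ => (hder j (by omega) t).hasDerivWithinAt, ?_⟩, ?_⟩, ?_⟩
  · have hlast := hb (Fin.last n) (by simpa using RM_nn n)
    have hd : ∀ t ∈ Ici (0 : ℝ), HasDerivWithinAt (F (n - 1)) (F n t) (Ici 0) t := by
      intro t _
      have h := hder (n - 1) (by omega) t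
      rw [Nat.sub_add_cancel (by omega)] at h
      exact h.hasDerivWithinAt
    intro a ha b hb'
    have h1 := (convex_Ici (0 : ℝ)).norm_image_sub_le_of_norm_hasDerivWithin_le
      (f := F (n - 1)) (f' := F n) (C := 1) hd
      (fun y hy => by rw [Real.norm_eq_abs]; exact hlast y hy) hb' ha
    simpa only [Real.norm_eq_abs] using h1
  · intro t ht
    exact hb 0 rfl t ht
  · have e1 : F k 0 = RM n k k / s := by
      have h1 : k < n + 1 := by omega
      simp only [hF, dif_pos h1]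
      rw [Xt, Et_zero, Matrix.one_mul, Rm_apply]
    have e2 : F k 0 = ck n k := by
      rw [e1, ← hsq, hs]
      field_simp
    rw [e2]
    exact le_abs_self _

/-- Lower bound for the end point derivative of the extremal function of every length. -/
theorem half_lower {n : ℕ} (hn : 2 ≤ n) {L : ℝ} {T : ℕ → ℝ → ℝ} {P : ℕ} {ξ τ : ℕ → ℝ}
    (hT : KSpline n L T P ξ τ) {k : ℕ} (hk : k < n) : ck n k ≤ (-1) ^ k * T k 0 := by
  obtain ⟨F, hF, hF0⟩ := exists_F hn hk
  exact hF0.trans (hT.extremal hn (hF.mono Icc_subset_Ici_self) k hk)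

end Pool.LKX
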