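import Pool.Agent.LKX.I1A
import Pool.Agent.LKX.I1B
import Pool.Agent.LKX.Lyap

/-!
# LKX/I1: the first critical value of `T_n^(k)` is smaller than the half line constant

`first_crit_lt`: `|T_n^(k)(x1)| < ck n k · LL n k`, `x1` the largest zero of `T_n^(k+1)`, `2 ≤ k ≤ n - 2`.
With `half_lower` (`ck n k ≤ (-1)^k T k 0` for every extremal spline of every length) this is the bound of the
critical values in the bulk for intervals longer than the length of the Chebyshev polynomial.
-/

namespace Pool.LKX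

open Real
open Pool.LK1 (TJ)
open Pool.LK2 (Pi2 Sq IsFirst)

theorem log_ineq {n k : ℕ} (hk : 2 ≤ k) (hn : k + 2 ≤ n) :
    Real.log n + Real.log (Pi2 n k) < k * Real.log (Sq n k)
      + 1 / 2 * Real.log ((n : ℝ) ^ 2 - ((k : ℝ) + 1) ^ 2)
      + 2 * Real.log (ck n k) + 2 * Real.log (LL n k) := by
  rcases le_or_gt (2 * k) n with h | h
  · have h1 := I1_low hk h
    have h2 : Real.log (cl n k) ≤ Real.log (ck n k) :=
      Real.log_le_log (cl_pos (by omega)) (cl_le_ck (by omega))
    linarith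
  · have hj : 2 ≤ n - k := by omega
    have hjk : n - k < k := by omega
    have h1 := I1_high hj hjk
    rw [show n - k + k = n by omega] at h1
    have h2 : Real.log (cl n (n - k)) ≤ Real.log (ck n k) :=
      Real.log_le_log (cl_pos (by omega)) (cl_le_ck' (by omega))
    linarith

theorem first_crit_lt {n k : ℕ} (hk : 2 ≤ k) (hn : k + 2 ≤ n) {x1 : ℝ} (hx : IsFirst n k x1) :
    |TJ n k x1| < ck n k * LL n k := by
  have hlog := log_ineq hk hn
  have hm := Pool.LK2.mbd n k (by omega) hn hx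
  have hPi : 0 < Pi2 n k := Pi2_pos (by omega)
  have hn0 : (0 : ℝ) < n := by
    have : 0 < n := by omega
    exact_mod_cast this
  have hkn : (k : ℝ) + 2 ≤ n := by exact_mod_cast hn
  have hk0 : (0 : ℝ) ≤ k := Nat.cast_nonneg k
  have hQ : 0 < (n : ℝ) ^ 2 - ((k : ℝ) + 1) ^ 2 := by nlinarith
  have hS := Sq_pos n k
  have hc := ck_pos (n := n) (k := k) (by omega)
  have hL := LL_pos n k
  set Q := (n : ℝ) ^ 2 - ((k : ℝ) + 1) ^ 2 with hQdef
  -- exponentiate the logarithmic inequality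
  have h1 : Real.log ((n * Pi2 n k) ^ 2) < Real.log (Sq n k ^ (2 * k) * Q * (ck n k * LL n k) ^ 4) := by
    rw [Real.log_pow, Real.log_mul hn0.ne' hPi.ne', Real.log_mul (by positivity) (by positivity),
      Real.log_mul (by positivity) hQ.ne', Real.log_pow, Real.log_pow, Real.log_mul hc.ne' hL.ne']
    push_cast
    linarith
  have h2 : (n * Pi2 n k) ^ 2 < Sq n k ^ (2 * k) * Q * (ck n k * LL n k) ^ 4 :=
    (Real.log_lt_log_iff (by positivity) (by positivity)).1 h1
  have h3 : TJ n k x1 ^ 4 * (Sq n k ^ (2 * k) * Q) < (ck n k * LL n k) ^ 4 * (Sq n k ^ (2 * k) * Q) := by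
    calc TJ n k x1 ^ 4 * (Sq n k ^ (2 * k) * Q) = TJ n k x1 ^ 4 * Sq n k ^ (2 * k) * Q := by ring
      _ ≤ _ := hm
      _ < _ := h2
      _ = _ := by ring
  have h4 : TJ n k x1 ^ 4 < (ck n k * LL n k) ^ 4 := lt_of_mul_lt_mul_right h3 (by positivity)
  have h5 : |TJ n k x1| ^ 4 < (ck n k * LL n k) ^ 4 := by
    rwa [Even.pow_abs (by decide)]
  exact lt_of_pow_lt_pow_left₀ 4 (by positivity) h5

end Pool.LKX
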