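import Pool.Agent.LKX.I1B

/-!
# LKX/I2A: sharper form of `I1_high_aux` (`n ≥ 19`)

Same proof as `I1_high_aux` (`I1B.lean`, steps 1 and 2), only `T5` is estimated better:
`T5 = j log(1+1/n) - P + (3/8) j²/n`, `P = 1.151 j(j+1)(2j+1)/(6(n+1)²)`, and
`T5 ≥ j/n + 0.18 j (j-1.2)/n` for `n ≥ 19`, `2j+1 ≤ n`, `j ≥ 2`:
`log(1+1/n) ≥ 2/(2n+1) = 1/n - 1/(n(2n+1))`, `P ≤ 0.191834 j(j+1)/n` (`(2j+1) n ≤ (n+1)²`), so it remains
`0.375 j - 0.191834 (j+1) - 1/(2n+1) ≥ 0.18 (j - 1.2)`, i.e. `0.003166 j + 0.024166 ≥ 1/(2n+1)` (`≤ 1/39`).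
(The code of the proof of `I1_high_aux` can be copied.)
-/

namespace Pool.LKX

open Real
open Pool.LK2 (Pi2 Sq)

private theorem I2A_log_one_add_ge {z : ℝ} (hz : 0 ≤ z) : 2 * z / (z + 2) ≤ Real.log (1 + z) :=
  Real.le_log_one_add_of_nonneg hz

private theorem I2A_phi_ge {x : ℝ} (h0 : 0 ≤ x) (h1 : x ≤ 1 / 2) :
    -(x / 2) + 3 / 8 * x ^ 2 ≤
      (1 - x) * Real.log (1 - x) - (1 - x / 2) * Real.log (1 - x / 2) := by
  have e1 := Real.abs_log_sub_add_sum_range_le (x := x) (by rw [abs_of_nonneg h0]; linarith) 5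
  have e2 := Real.abs_log_sub_add_sum_range_le (x := x / 2)
    (by rw [abs_of_nonneg (by linarith)]; linarith) 5
  rw [abs_of_nonneg h0, abs_le] at e1
  rw [abs_of_nonneg (by linarith : (0 : ℝ) ≤ x / 2), abs_le] at e2
  have a1 := e1.1
  have a2 := e2.2
  simp only [Finset.sum_range_succ, Finset.sum_range_zero] at a1 a2
  norm_num at a1 a2
  have hx1 : 0 < 1 - x := by linarith
  have hx2 : 0 < 1 - x / 2 := by linarith
  have b1 := mul_le_mul_of_nonneg_left a1 hx1.le
  have b2 := mul_le_mul_of_nonneg_left a2 hx2.le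
  have c1 : (1 - x) * (x ^ 6 / (1 - x)) = x ^ 6 := mul_div_cancel₀ _ hx1.ne'
  have c2 : (1 - x / 2) * ((x / 2) ^ 6 / (1 - x / 2)) = (x / 2) ^ 6 := mul_div_cancel₀ _ hx2.ne'
  have hx3 : 0 ≤ x ^ 3 := by positivity
  have hx3' : x ^ 3 ≤ 1 / 8 := by
    have : x ^ 3 ≤ (1 / 2) ^ 3 := pow_le_pow_left₀ h0 h1 3
    linarith
  have hx4 : 0 ≤ x ^ 4 := by positivity
  have hx5 : 0 ≤ x ^ 5 := by positivity
  have hx6 : x ^ 6 ≤ 1 / 8 * x ^ 3 := by
    have : x ^ 6 = x ^ 3 * x ^ 3 := by ring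
    rw [this]
    exact mul_le_mul_of_nonneg_right hx3' hx3
  nlinarith [b1, b2, c1, c2, hx3, hx4, hx5, hx6]


private theorem I2A_log_pi_le : Real.log π ≤ 1 / 2 * Real.log 2 + 0.7982 := by
  have hpi := Real.pi_pos
  have h1 : π < 3.141593 := Real.pi_lt_d6
  have h2 : π ^ 2 / 2 ≤ Real.exp 1.5964 := by
    have h3 := Real.sum_le_exp_of_nonneg (x := 1.5964) (by norm_num) 13
    refine le_trans ?_ h3
    have h4 : π ^ 2 / 2 ≤ 3.141593 ^ 2 / 2 := by
      have := pow_le_pow_left₀ hpi.le h1.le 2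
      linarith
    refine h4.trans ?_
    simp only [Finset.sum_range_succ, Finset.sum_range_zero]
    norm_num [Nat.factorial]
  have h3 : Real.log (π ^ 2 / 2) ≤ 1.5964 := (Real.log_le_iff_le_exp (by positivity)).2 h2
  rw [Real.log_div (by positivity) (by norm_num), Real.log_pow] at h3
  push_cast at h3
  linarith

private theorem I2A_log_one_add_le {z : ℝ} (hz : 0 ≤ z) : Real.log (1 + z) ≤ z := by
  have := Real.log_le_sub_one_of_pos (by linarith : 0 < 1 + z)
  linarith

theorem I1_high_aux2 {j k : ℕ} (hj : 2 ≤ j) (h : j < k) (h19 : 19 ≤ j + k) :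
    Real.log ((j + k : ℕ) : ℝ) + Real.log (Pi2 (j + k) k)
      + 2 * (SS ((j : ℝ) + k) j + 0.18 * ((j : ℝ) * (j - 1.2) / ((j : ℝ) + k))) ≤
      k * Real.log (Sq (j + k) k)
      + 1 / 2 * Real.log (((j + k : ℕ) : ℝ) ^ 2 - ((k : ℝ) + 1) ^ 2)
      + 2 * Real.log (cl (j + k) j) + 2 * Real.log (LL (j + k) k) := by
  have hJ : (2 : ℝ) ≤ j := by exact_mod_cast hj
  have hK : (j : ℝ) + 1 ≤ k := by exact_mod_cast h
  have hpi := Real.pi_pos
  have hA := log_Pi2_le' (n := j + k) (k := k) (by omega)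
  have hB := log_Sq (j + k) k
  have hC := log_cl (n := j + k) (j := j) (by omega)
  have hD := log_fact_le (j := j) (by omega)
  have hE := log_LL (n := j + k) (by omega) k
  rw [hB]
  rw [Nat.cast_add] at *
  generalize hP : Real.log (Pi2 (j + k) k) = LP at *
  generalize hc : Real.log (cl (j + k) j) = Lc at *
  generalize hL : Real.log (LL (j + k) k) = LLL at *
  generalize hf : Real.log (j.factorial : ℝ) = Lf at *
  clear hP hc hL hf hB
  have e1 : (j : ℝ) + k - k = j := by ring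
  rw [e1] at hA
  obtain ⟨n, hn⟩ : ∃ n : ℝ, (j : ℝ) + k = n := ⟨_, rfl⟩
  rw [hn] at hA hC hE ⊢
  have hkn : (k : ℝ) = n - j := by linarith
  have hn0 : 0 < n := by linarith
  have hj0 : (0 : ℝ) < j := by linarith
  have hk0 : (0 : ℝ) < k := by linarith
  have hn2 : 2 * (j : ℝ) + 1 ≤ n := by linarith
  have hn19 : (19 : ℝ) ≤ n := by
    rw [← hn]
    exact_mod_cast h19
  have f1 : Real.log ((j : ℝ) * (n + k)) = Real.log j + Real.log (n + k) :=
    Real.log_mul (by positivity) (by positivity)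
  have f2 : Real.log (2 * (n + 1) / π) = Real.log 2 + Real.log (n + 1) - Real.log π := by
    rw [Real.log_div (by positivity) (by positivity), Real.log_mul (by positivity) (by positivity)]
  have f3 : Real.log (π * n / 2) = Real.log π + Real.log n - Real.log 2 := by
    rw [Real.log_div (by positivity) (by positivity), Real.log_mul (by positivity) (by positivity)]
  have f4 : Real.log (n ^ 2 - ((k : ℝ) + 1) ^ 2) = Real.log ((j : ℝ) - 1) + Real.log (n + k + 1) := by
    have : n ^ 2 - ((k : ℝ) + 1) ^ 2 = ((j : ℝ) - 1) * (n + k + 1) := by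
      rw [hkn]
      ring
    rw [this]
    exact Real.log_mul (by linarith) (by positivity)
  have f5 : Real.log (n / j) = Real.log n - Real.log j := Real.log_div (by positivity) (by positivity)
  have f6 : Real.log ((j : ℝ) / (j - 1)) = Real.log j - Real.log ((j : ℝ) - 1) :=
    Real.log_div (by positivity) (by linarith)
  have f7 : Real.log (2 - (j : ℝ) / n) = Real.log (n + k) - Real.log n := by
    rw [← Real.log_div (by positivity) (by positivity)]
    congr 1
    rw [hkn]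
    field_simp
    ring
  have f8 : Real.log (π / 2) = Real.log π - Real.log 2 := Real.log_div (by positivity) (by positivity)
  have t1 : 2 * Real.log k + 6 / (4 * (k : ℝ) + 3) + 22 / (4 * (k : ℝ) + 11) ≤
      Real.log (((k : ℝ) + 3 / 2) * ((k : ℝ) + 11 / 2)) := by
    have a1 := I2A_log_one_add_ge (z := 3 / (2 * (k : ℝ))) (by positivity)
    have a2 := I2A_log_one_add_ge (z := 11 / (2 * (k : ℝ))) (by positivity)
    have b1 : 2 * (3 / (2 * (k : ℝ))) / (3 / (2 * (k : ℝ)) + 2) = 6 / (4 * (k : ℝ) + 3) := by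
      field_simp
      ring
    have b2 : 2 * (11 / (2 * (k : ℝ))) / (11 / (2 * (k : ℝ)) + 2) = 22 / (4 * (k : ℝ) + 11) := by
      field_simp
      ring
    rw [b1] at a1
    rw [b2] at a2
    have c1 : ((k : ℝ) + 3 / 2) * ((k : ℝ) + 11 / 2) =
        k * (1 + 3 / (2 * (k : ℝ))) * (k * (1 + 11 / (2 * (k : ℝ)))) := by
      field_simp
    rw [c1, Real.log_mul (by positivity) (by positivity), Real.log_mul (by positivity) (by positivity),
      Real.log_mul (by positivity) (by positivity)]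
    linarith
  have t2 : Real.log (n ^ 2 + 3 * (k : ℝ) + 17 / 4) ≤
      2 * Real.log n + (3 * (k : ℝ) + 17 / 4) / n ^ 2 := by
    have a1 := I2A_log_one_add_le (z := (3 * (k : ℝ) + 17 / 4) / n ^ 2) (by positivity)
    have c1 : n ^ 2 + 3 * (k : ℝ) + 17 / 4 = n ^ 2 * (1 + (3 * (k : ℝ) + 17 / 4) / n ^ 2) := by
      field_simp
      ring
    rw [c1, Real.log_mul (by positivity) (by positivity), Real.log_pow]
    push_cast
    linarith
  have g1 : Real.log n + 2 / (2 * n + 1) ≤ Real.log (n + 1) := by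
    have a1 := I2A_log_one_add_ge (z := 1 / n) (by positivity)
    have b1 : 2 * (1 / n) / (1 / n + 2) = 2 / (2 * n + 1) := by
      field_simp
      ring
    rw [b1] at a1
    have c1 : n + 1 = n * (1 + 1 / n) := by
      field_simp
    rw [c1, Real.log_mul (by positivity) (by positivity)]
    linarith
  have g2 : Real.log (n + k) ≤ Real.log (n + k + 1) :=
    Real.log_le_log (by positivity) (by linarith)
  have g3 : -((j : ℝ) / 2) + 3 / 8 * ((j : ℝ) ^ 2 / n) ≤
      k * (Real.log k - Real.log n) - (n + k) / 2 * (Real.log (n + k) - Real.log 2 - Real.log n) := by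
    have a1 := I2A_phi_ge (x := (j : ℝ) / n) (by positivity) (by
      rw [div_le_iff₀ hn0]
      linarith)
    have b1 : 1 - (j : ℝ) / n = k / n := by
      rw [hkn]
      field_simp
    have b2 : 1 - (j : ℝ) / n / 2 = (n + k) / 2 / n := by
      rw [hkn]
      field_simp
      ring
    rw [b1, b2, Real.log_div (by positivity) (by positivity),
      Real.log_div (by positivity) (by positivity), Real.log_div (by positivity) (by positivity)] at a1
    have a2 := mul_le_mul_of_nonneg_left a1 hn0.le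
    have c1 : n * (-((j : ℝ) / n / 2) + 3 / 8 * ((j : ℝ) / n) ^ 2) =
        -((j : ℝ) / 2) + 3 / 8 * ((j : ℝ) ^ 2 / n) := by
      field_simp
    have c2 : n * ((k : ℝ) / n * (Real.log k - Real.log n) -
        (n + k) / 2 / n * (Real.log (n + k) - Real.log 2 - Real.log n)) =
        k * (Real.log k - Real.log n) -
          (n + k) / 2 * (Real.log (n + k) - Real.log 2 - Real.log n) := by
      field_simp
    rw [c1, c2] at a2
    exact a2
  have g4 := I2A_log_pi_le
  have g5 : 1.151 * ((j : ℝ) * (j + 1) * (2 * j + 1) / (6 * (n + 1) ^ 2)) ≤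
      3 / 8 * ((j : ℝ) ^ 2 / n) + j * (2 / (2 * n + 1)) - j / n
        - 0.18 * ((j : ℝ) * (j - 1.2) / n) := by
    have a1 : (2 * (j : ℝ) + 1) / (n + 1) ^ 2 ≤ 1 / n := by
      rw [div_le_div_iff₀ (by positivity) hn0]
      nlinarith
    have a2 : 1.151 * ((j : ℝ) * (j + 1) * (2 * j + 1) / (6 * (n + 1) ^ 2)) ≤
        1.151 / 6 * (j * (j + 1)) * (1 / n) := by
      have e : 1.151 * ((j : ℝ) * (j + 1) * (2 * j + 1) / (6 * (n + 1) ^ 2)) =
          1.151 / 6 * (j * (j + 1)) * ((2 * (j : ℝ) + 1) / (n + 1) ^ 2) := by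
        field_simp
      rw [e]
      exact mul_le_mul_of_nonneg_left a1 (by positivity)
    refine a2.trans ?_
    have a3 : 1 / n - 1 / (39 * n) ≤ 2 / (2 * n + 1) := by
      have e : 1 / n - 1 / (39 * n) = 38 / (39 * n) := by
        field_simp
        norm_num
      rw [e, div_le_div_iff₀ (by positivity) (by positivity)]
      nlinarith
    have a4 : (j : ℝ) * (1 / n - 1 / (39 * n)) ≤ j * (2 / (2 * n + 1)) :=
      mul_le_mul_of_nonneg_left a3 hj0.le
    have a5 : 1.151 / 6 * ((j : ℝ) * (j + 1)) * (1 / n) ≤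
        3 / 8 * ((j : ℝ) ^ 2 / n) + j * (1 / n - 1 / (39 * n)) - j / n
          - 0.18 * ((j : ℝ) * (j - 1.2) / n) := by
      have e : 3 / 8 * ((j : ℝ) ^ 2 / n) + j * (1 / n - 1 / (39 * n)) - j / n
          - 0.18 * ((j : ℝ) * (j - 1.2) / n) - 1.151 / 6 * ((j : ℝ) * (j + 1)) * (1 / n) =
          (j / n) * (3 / 8 * j - 1 / 39 - 1.151 / 6 * (j + 1) - 0.18 * (j - 1.2)) := by
        field_simp
        ring
      have e2 : 0 ≤ ((j : ℝ) / n) *
          (3 / 8 * j - 1 / 39 - 1.151 / 6 * (j + 1) - 0.18 * (j - 1.2)) := by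
        refine mul_nonneg (by positivity) ?_
        norm_num
        linarith
      linarith
    linarith
  have m1 := mul_le_mul_of_nonneg_left g1 hj0.le
  have m2 := mul_le_mul_of_nonneg_left t1 hk0.le
  have m3 := mul_le_mul_of_nonneg_left t2 hk0.le
  have m4 := mul_le_mul_of_nonneg_left g4 hj0.le
  have hk2 : (k : ℝ) / (2 * n) = 1 / 2 * (1 - j / n) := by
    rw [hkn]
    field_simp
  rw [hk2, f3] at hE
  rw [f2] at hC
  rw [f1] at hA
  rw [f4]
  unfold SS
  rw [f5, f6, f7, f8, show n - (j : ℝ) = k by linarith]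
  have q1 : 3 * (k : ℝ) / (4 * k + 3) = k * (6 / (4 * (k : ℝ) + 3)) / 2 := by ring
  have q2 : 11 * (k : ℝ) / (4 * k + 11) = k * (22 / (4 * (k : ℝ) + 11)) / 2 := by ring
  have q3 : 1.5 * ((k : ℝ) ^ 2 / n ^ 2) + 2.125 * ((k : ℝ) / n ^ 2) =
      k * ((3 * (k : ℝ) + 17 / 4) / n ^ 2) / 2 := by ring
  rw [q1, q2]
  generalize Real.log (((k : ℝ) + 3 / 2) * ((k : ℝ) + 11 / 2)) = S1 at *
  generalize Real.log (n ^ 2 + 3 * (k : ℝ) + 17 / 4) = S2 at *
  generalize 6 / (4 * (k : ℝ) + 3) = A1 at *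
  generalize 22 / (4 * (k : ℝ) + 11) = A2 at *
  generalize (3 * (k : ℝ) + 17 / 4) / n ^ 2 = A3 at *
  generalize 1.5 * ((k : ℝ) ^ 2 / n ^ 2) = A4 at *
  generalize 2.125 * ((k : ℝ) / n ^ 2) = A5 at *
  generalize 1.151 * ((j : ℝ) * (j + 1) * (2 * j + 1) / (6 * (n + 1) ^ 2)) = A6 at *
  generalize (j : ℝ) ^ 2 / n = A7 at *
  generalize (j : ℝ) * (j - 1.2) / n = A10 at *
  generalize 2 / (2 * n + 1) = A8 at *
  generalize (j : ℝ) / n = A9 at *
  generalize Real.log (n + k + 1) = B1 at *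
  generalize Real.log (n + k) = B2 at *
  generalize Real.log (n + 1) = B3 at *
  generalize Real.log n = B4 at *
  generalize Real.log (k : ℝ) = B5 at *
  generalize Real.log ((j : ℝ) - 1) = B6 at *
  generalize Real.log (j : ℝ) = B7 at *
  generalize Real.log (2 * (j : ℝ) + 1) = B8 at *
  generalize Real.log π = B9 at *
  generalize Real.log 2 = B0 at *
  have hkk : n = j + k := hn.symm
  subst hkk
  linarith [hA, hC, hD, hE, m1, m2, m3, m4, g2, g3, g5, q3]

end Pool.LKX
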