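import Pool.Agent.LKX.I2D

/-!
# LKX/I2R2: part of the positivity of the explicit function `TR` (`I2R.lean`); this file proves only `TR_19`

`TR n j = SS n j + 0.18 j(j-1.2)/n - 0.113 - log (j √(2/n) + √(1 + 0.29 j/(j-2)))`, `SS` from `I1B.lean`.
`TR_pos`: `j ≥ 3`, `n ≥ 19`, `7j < 3n`.

(1) For fixed `j ≥ 3`, `TR` is nondecreasing in the real variable `n` for `n ≥ max (19, 7j/3)`:
 `½ log(2-j/n)`, `½(1-j/n) log(π/2)`, `3(n-j)/(4(n-j)+3)`, `11(n-j)/(4(n-j)+11)`, `-2.125 (n-j)/n²` (as `n ≥ 2j`) and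
 `-log(j√(2/n) + κ)` are nondecreasing, and the sum of the others,
 `g(n) = ½ j log n - ½(j/n) log n - 1.5 (1-j/n)² + j/n + 0.18 j(j-1.2)/n`, has the derivative
 `(j/n²)[½(n + log n - 1) - 3(1-j/n) - 1 - 0.18(j-1.2)] ≥ 0`, because `0.18 j ≤ 0.0772 n`, `log n ≥ 0`:
 `½ n - ½ - 3 - 1 - 0.0772 n ≥ 0` for `n ≥ 19`.
(2) `j = 3, ..., 8`: `TR n j ≥ TR 19 j`, and `TR 19 j = 1.214, 1.193, 1.047, 0.821, 0.534, 0.194`
 (`√(1+0.29 j/(j-2)) ≤ 1.3675, 1.2570, 1.2180, 1.1979, 1.1858, 1.1776`; numerical bounds of logarithms of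
 rationals, e.g. `log y ≤ log c + (y-c)/c` or exponentials).
(3) `j ≥ 9`: `TR n j ≥ TR (7j/3) j` (`7j/3 ≥ 21`).  At `n = 7j/3`: `n - j = 4j/3`, `j/n = 3/7`, and
 `3(n-j)/(4(n-j)+3) = 3/4 - (27/4)/(16j+9)`, `11(n-j)/(4(n-j)+11) = 11/4 - (363/4)/(16j+33)`,
 `1.5 (4/7)² = 0.48980`, `2.125 (n-j)/n² = 0.52042/j`, `½ log(11/7) ≥ 0.2259`, `(2/7) log(π/2) ≥ 0.129`,
 `j√(2/n) = √(6j/7)`, `√(1+0.29 j/(j-2)) ≤ √(1+0.29·9/7) ≤ 1.1718`,
 `½ log(7/3) - 0.2982 + 0.18·3/7 ≥ 0.2025`, `0.18·1.2·3/7 ≤ 0.0926`.  So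
 `TR (7j/3) j ≥ 0.2025 j + 2.5877 - ½ log(2j+1) - ¼ log(j/(j-1)) - (3/14) log(7j/3) - log(√(6j/7) + 1.1718)
    - 6.75/(16j+9) - 90.75/(16j+33) - 0.52042/j`.
 Value at `j = 9`: `≥ 0.265`.  For `j ≥ 9`: `log(2j+1) ≤ log 19 + (2j-18)/19`, `log(7j/3) ≤ log 21 + (j-9)/9`,
 `log(√(6j/7)+1.1718) ≤ log 3.95 + (√(6j/7) - √(54/7))/3.95 ≤ log 3.95 + 0.0391 (j-9)`; the other terms
 increase with `j`; `0.0527 + 0.0239 + 0.0391 ≤ 0.2025`.
All numbers checked numerically.
-/

namespace Pool.LKX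

open Real

private theorem tr_low (k m : ℕ) {y : ℝ} (hk : 0 < k) (hy : 0 < y) (h : (2 : ℝ) ^ m ≤ y ^ k) :
    (m : ℝ) / k * Real.log 2 ≤ Real.log y := by
  have h1 := Real.log_le_log (by positivity) h
  rw [Real.log_pow, Real.log_pow] at h1
  have hk' : (0 : ℝ) < k := by exact_mod_cast hk
  rw [div_mul_eq_mul_div, div_le_iff₀ hk']
  linarith

private theorem tr_up (k m : ℕ) {y : ℝ} (hk : 0 < k) (hy : 0 < y) (h : y ^ k ≤ (2 : ℝ) ^ m) :
    Real.log y ≤ (m : ℝ) / k * Real.log 2 := by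
  have h1 := Real.log_le_log (by positivity) h
  rw [Real.log_pow, Real.log_pow] at h1
  have hk' : (0 : ℝ) < k := by exact_mod_cast hk
  rw [div_mul_eq_mul_div, le_div_iff₀ hk']
  linarith

private theorem tr_log_pi : 0.4432 ≤ Real.log (π / 2) := by
  have hpi1 := Real.pi_gt_d6
  have h1 := Real.le_log_one_add_of_nonneg (x := 0.57) (by norm_num)
  have h2 : Real.log (1 + 0.57) ≤ Real.log (π / 2) :=
    Real.log_le_log (by norm_num) (by linarith)
  norm_num at h1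
  linarith

private theorem tr_last {j κ g : ℝ} (h3 : 3 ≤ j) (hκ0 : 0 < κ)
    (hκ : 1 + 0.29 * (j / (j - 2)) ≤ κ ^ 2) (hg : Real.log (0.3245 * j + κ) ≤ g) :
    Real.log (j * √(2 / 19) + √(1 + 0.29 * (j / (j - 2)))) ≤ g := by
  refine le_trans ?_ hg
  have h1 : √(2 / 19) ≤ 0.3245 := by
    rw [Real.sqrt_le_left (by norm_num)]
    norm_num
  have h2 : √(1 + 0.29 * (j / (j - 2))) ≤ κ := by
    rw [Real.sqrt_le_left hκ0.le]
    exact hκ
  have h3' : 0 < √(2 / 19 : ℝ) := Real.sqrt_pos.2 (by norm_num)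
  have h4 := mul_le_mul_of_nonneg_left h1 (by linarith : 0 ≤ j)
  refine Real.log_le_log ?_ (by linarith)
  have h5 : 0 < j * √(2 / 19) := mul_pos (by linarith) h3'
  have h6 := Real.sqrt_nonneg (1 + 0.29 * (j / (j - 2)))
  linarith

private theorem tr_ge {j κ a b c d e g : ℝ} (h3 : 3 ≤ j) (h8 : j ≤ 8) (hκ0 : 0 < κ)
    (hκ : 1 + 0.29 * (j / (j - 2)) ≤ κ ^ 2) (ha : a ≤ Real.log (19 / j))
    (hb : Real.log (2 * j + 1) ≤ b) (hc : Real.log (j / (j - 1)) ≤ c) (hd : Real.log 19 ≤ d)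
    (he : e ≤ Real.log (2 - j / 19)) (hg : Real.log (0.3245 * j + κ) ≤ g) :
    j * (1 / 2 * a - 0.2982) - 1 / 2 * b - 1 / 4 * c - 1 / 2 * (j / 19) * d + 1 / 2 * e
      + 1 / 2 * (1 - j / 19) * 0.4432 - 1 + 3 * (19 - j) / (4 * (19 - j) + 3)
      + 11 * (19 - j) / (4 * (19 - j) + 11) - 1.5 * ((19 - j) ^ 2 / 19 ^ 2)
      - 2.125 * ((19 - j) / 19 ^ 2) + j / 19 + 0.18 * (j * (j - 1.2) / 19) - 0.113 - g ≤
      TR 19 j := by
  have h1 := tr_last h3 hκ0 hκ hg
  have h2 : j * (1 / 2 * a - 0.2982) ≤ j * (1 / 2 * Real.log (19 / j) - 0.2982) :=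
    mul_le_mul_of_nonneg_left (by linarith) (by linarith)
  have h4 : 1 / 2 * (j / 19) * Real.log 19 ≤ 1 / 2 * (j / 19) * d :=
    mul_le_mul_of_nonneg_left hd (by positivity)
  have h5 : 1 / 2 * (1 - j / 19) * 0.4432 ≤ 1 / 2 * (1 - j / 19) * Real.log (π / 2) :=
    mul_le_mul_of_nonneg_left tr_log_pi (by linarith)
  unfold TR SS
  linarith

theorem TR_19 {j : ℕ} (h3 : 3 ≤ j) (h8 : j ≤ 8) : 0 < TR 19 j := by
  have l1 := Real.log_two_gt_d9
  have l2 := Real.log_two_lt_d9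
  have hd := tr_up 4 17 (y := 19) (by norm_num) (by norm_num) (by norm_num)
  interval_cases j
  · have h := tr_ge (j := ((3 : ℕ) : ℝ)) (κ := 547 / 400) (by norm_num) (by norm_num) (by norm_num)
      (by norm_num) (tr_low 20 53 (by norm_num) (by norm_num) (by norm_num))
      (tr_up 6 17 (by norm_num) (by norm_num) (by norm_num))
      (tr_up 5 3 (by norm_num) (by norm_num) (by norm_num)) hd
      (tr_low 8 7 (by norm_num) (by norm_num) (by norm_num))
      (tr_up 4 5 (by norm_num) (by norm_num) (by norm_num))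
    refine lt_of_lt_of_le ?_ h
    push_cast
    norm_num
    linarith
  · have h := tr_ge (j := ((4 : ℕ) : ℝ)) (κ := 1257 / 1000) (by norm_num) (by norm_num) (by norm_num)
      (by norm_num) (tr_low 17 38 (by norm_num) (by norm_num) (by norm_num))
      (tr_up 5 16 (by norm_num) (by norm_num) (by norm_num))
      (tr_up 7 3 (by norm_num) (by norm_num) (by norm_num)) hd
      (tr_low 6 5 (by norm_num) (by norm_num) (by norm_num))
      (tr_up 8 11 (by norm_num) (by norm_num) (by norm_num))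
    refine lt_of_lt_of_le ?_ h
    push_cast
    norm_num
    linarith
  · have h := tr_ge (j := ((5 : ℕ) : ℝ)) (κ := 12181 / 10000) (by norm_num) (by norm_num) (by norm_num)
      (by norm_num) (tr_low 13 25 (by norm_num) (by norm_num) (by norm_num))
      (tr_up 2 7 (by norm_num) (by norm_num) (by norm_num))
      (tr_up 3 1 (by norm_num) (by norm_num) (by norm_num)) hd
      (tr_low 9 7 (by norm_num) (by norm_num) (by norm_num))
      (tr_up 7 11 (by norm_num) (by norm_num) (by norm_num))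
    refine lt_of_lt_of_le ?_ h
    push_cast
    norm_num
    linarith
  · have h := tr_ge (j := ((6 : ℕ) : ℝ)) (κ := 599 / 500) (by norm_num) (by norm_num) (by norm_num)
      (by norm_num) (tr_low 20 33 (by norm_num) (by norm_num) (by norm_num))
      (tr_up 7 26 (by norm_num) (by norm_num) (by norm_num))
      (tr_up 7 2 (by norm_num) (by norm_num) (by norm_num)) hd
      (tr_low 4 3 (by norm_num) (by norm_num) (by norm_num))
      (tr_up 3 5 (by norm_num) (by norm_num) (by norm_num))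
    refine lt_of_lt_of_le ?_ h
    push_cast
    norm_num
    linarith
  · have h := tr_ge (j := ((7 : ℕ) : ℝ)) (κ := 11859 / 10000) (by norm_num) (by norm_num) (by norm_num)
      (by norm_num) (tr_low 16 23 (by norm_num) (by norm_num) (by norm_num))
      (tr_up 1 4 (by norm_num) (by norm_num) (by norm_num))
      (tr_up 4 1 (by norm_num) (by norm_num) (by norm_num)) hd
      (tr_low 10 7 (by norm_num) (by norm_num) (by norm_num))
      (tr_up 5 9 (by norm_num) (by norm_num) (by norm_num))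
    refine lt_of_lt_of_le ?_ h
    push_cast
    norm_num
    linarith
  · have h := tr_ge (j := ((8 : ℕ) : ℝ)) (κ := 11777 / 10000) (by norm_num) (by norm_num) (by norm_num)
      (by norm_num) (tr_low 17 21 (by norm_num) (by norm_num) (by norm_num))
      (tr_up 8 33 (by norm_num) (by norm_num) (by norm_num))
      (tr_up 5 1 (by norm_num) (by norm_num) (by norm_num)) hd
      (tr_low 8 5 (by norm_num) (by norm_num) (by norm_num))
      (tr_up 1 2 (by norm_num) (by norm_num) (by norm_num))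
    refine lt_of_lt_of_le ?_ h
    push_cast
    norm_num
    linarith

end Pool.LKX
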