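import Pool.Agent.LKX.I2D

/-!
# LKX/I2R3: part of the positivity of the explicit function `TR` (`I2R.lean`); this file proves only `TR_73`

`TR n j = SS n j + 0.18 j(j-1.2)/n - 0.113 - log (j √(2/n) + √(1 + 0.29 j/(j-2)))`, `SS` from `I1B.lean`.
`TR_pos`: `j ≥ 3`, `n ≥ 19`, `7j < 3n`.

(1) For fixed `j ≥ 3`, `TR` is nondecreasing in the real variable `n` for `n ≥ max (19, 7j/3)`:
 `½ log(2-j/n)`, `½(1-j/n) log(π/2)`, `3(n-j)/(4(n-j)+3)`, `11(n-j)/(4(n-j)+11)`, `-2.125 (n-j)/n²` (as `n ≥ 2j`) and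
 `-log(j√(2/n) + κ)` are nondecreasing, and the sum of the others,
 `g(n) = ½ j log n - ½(j/n) log n - 1.5 (1-j/n)² + j/n + 0.18 j(j-1.2)/n`, has the derivative
 `(j/n²)[½(n + log n - 1) - 3(1-j/n) - 1 - 0.18(j-1.2)] ≥ 0`, because `0.18 j ≤ 0.0772 n`, `log n ≥ 0`:
 `½ n - ½ - 3 - 1 - 0.0772 n ≥ 0` for `n ≥ 19`.
(2) `j = 3, ..., 8`: `TR n j ≥ TR 19 j`, and `TR 19 j = 1.214, 1.193, 1.047, 0.821, 0.534, 0.194`
 (`√(1+0.29 j/(j-2)) ≤ 1.3675, 1.2570, 1.2180, 1.1979, 1.1858, 1.1776`; numerical bounds of logarithms of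
 rationals, e.g. `log y ≤ log c + (y-c)/c` or exponentials).
(3) `j ≥ 9`: `TR n j ≥ TR (7j/3) j` (`7j/3 ≥ 21`).  At `n = 7j/3`: `n - j = 4j/3`, `j/n = 3/7`, and
 `3(n-j)/(4(n-j)+3) = 3/4 - (27/4)/(16j+9)`, `11(n-j)/(4(n-j)+11) = 11/4 - (363/4)/(16j+33)`,
 `1.5 (4/7)² = 0.48980`, `2.125 (n-j)/n² = 0.52042/j`, `½ log(11/7) ≥ 0.2259`, `(2/7) log(π/2) ≥ 0.129`,
 `j√(2/n) = √(6j/7)`, `√(1+0.29 j/(j-2)) ≤ √(1+0.29·9/7) ≤ 1.1718`,
 `½ log(7/3) - 0.2982 + 0.18·3/7 ≥ 0.2025`, `0.18·1.2·3/7 ≤ 0.0926`.  So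
 `TR (7j/3) j ≥ 0.2025 j + 2.5877 - ½ log(2j+1) - ¼ log(j/(j-1)) - (3/14) log(7j/3) - log(√(6j/7) + 1.1718)
    - 6.75/(16j+9) - 90.75/(16j+33) - 0.52042/j`.
 Value at `j = 9`: `≥ 0.265`.  For `j ≥ 9`: `log(2j+1) ≤ log 19 + (2j-18)/19`, `log(7j/3) ≤ log 21 + (j-9)/9`,
 `log(√(6j/7)+1.1718) ≤ log 3.95 + (√(6j/7) - √(54/7))/3.95 ≤ log 3.95 + 0.0391 (j-9)`; the other terms
 increase with `j`; `0.0527 + 0.0239 + 0.0391 ≤ 0.2025`.
All numbers checked numerically.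
-/

namespace Pool.LKX

open Real

private theorem log73_ge {z : ℝ} (hz : 0 ≤ z) : 2 * z / (z + 2) ≤ Real.log (1 + z) :=
  Real.le_log_one_add_of_nonneg hz

private theorem log73_le {x c : ℝ} (hx : 0 < x) (hc : 0 < c) :
    Real.log x ≤ Real.log c + (x / c - 1) := by
  have h1 := Real.log_le_sub_one_of_pos (div_pos hx hc)
  rw [Real.log_div hx.ne' hc.ne'] at h1
  linarith

theorem TR_73 {j : ℕ} (h9 : 9 ≤ j) : 0 < TR (7 * (j : ℝ) / 3) j := by
  have hJ : (9 : ℝ) ≤ (j : ℝ) := by exact_mod_cast h9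
  set J : ℝ := (j : ℝ) with hJdef
  have hJ0 : 0 < J := by linarith
  have l2a := Real.log_two_gt_d9
  have l2b := Real.log_two_lt_d9
  have l4 : Real.log 4 = 2 * Real.log 2 := by
    rw [show (4 : ℝ) = 2 ^ 2 by norm_num, Real.log_pow]; norm_num
  have l16 : Real.log 16 = 4 * Real.log 2 := by
    rw [show (16 : ℝ) = 2 ^ 4 by norm_num, Real.log_pow]; norm_num
  -- the logarithms
  have a1 : (0.8469 : ℝ) ≤ Real.log (7 / 3) := by
    have h1 := log73_ge (z := 1 / 6) (by norm_num)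
    have h2 : Real.log (7 / 3) = Real.log 2 + Real.log (1 + 1 / 6) := by
      rw [← Real.log_mul (by norm_num) (by norm_num)]; norm_num
    rw [h2]
    norm_num at h1 ⊢
    linarith
  have a2 : Real.log (2 * J + 1) ≤ Real.log 16 + ((2 * J + 1) / 16 - 1) :=
    log73_le (by linarith) (by norm_num)
  have a3 : Real.log (J / (J - 1)) ≤ 1 / 8 := by
    have h1 : 0 < J - 1 := by linarith
    have h2 : J / (J - 1) ≤ 9 / 8 := by
      rw [div_le_div_iff₀ h1 (by norm_num)]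
      linarith
    have h3 := Real.log_le_sub_one_of_pos (div_pos hJ0 h1)
    linarith
  have a4 : Real.log (7 * J / 3) ≤ Real.log 16 + ((7 * J / 3) / 16 - 1) :=
    log73_le (by linarith) (by norm_num)
  have a5 : (0.444 : ℝ) ≤ Real.log (2 - 3 / 7) := by
    have h1 := log73_ge (z := 4 / 7) (by norm_num)
    rw [show (2 : ℝ) - 3 / 7 = 1 + 4 / 7 by norm_num]
    norm_num at h1 ⊢
    linarith
  have a6 : (0.443 : ℝ) ≤ Real.log (π / 2) := by
    have h1 := log73_ge (z := 0.57) (by norm_num)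
    have h2 : Real.log (1 + 0.57) ≤ Real.log (π / 2) := by
      apply Real.log_le_log (by norm_num)
      have := Real.pi_gt_d2
      linarith
    norm_num at h1 h2 ⊢
    linarith
  -- the last logarithm
  have a7 : Real.log (J * √(2 / (7 * J / 3)) + √(1 + 0.29 * (J / (J - 2)))) ≤
      2 * Real.log 2 + ((0.15433 * J + 1.3886 + 1.1718) / 4 - 1) := by
    have hs0 : 0 < J * √(2 / (7 * J / 3)) := by positivity
    have hs2 : (J * √(2 / (7 * J / 3))) ^ 2 = 6 * J / 7 := by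
      rw [mul_pow, Real.sq_sqrt (by positivity)]
      field_simp
      ring
    have hs : J * √(2 / (7 * J / 3)) ≤ 0.15433 * J + 1.3886 := by
      have h1 : 0 ≤ (J * √(2 / (7 * J / 3)) - 2.777) ^ 2 := sq_nonneg _
      nlinarith
    have hq : √(1 + 0.29 * (J / (J - 2))) ≤ 1.1718 := by
      have h1 : 0 < J - 2 := by linarith
      have h2 : J / (J - 2) ≤ 9 / 7 := by
        rw [div_le_div_iff₀ h1 (by norm_num)]
        linarith
      rw [Real.sqrt_le_left (by norm_num)]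
      norm_num
      norm_num at h2
      linarith
    have h3 : 0 ≤ √(1 + 0.29 * (J / (J - 2))) := Real.sqrt_nonneg _
    have h4 := log73_le (x := J * √(2 / (7 * J / 3)) + √(1 + 0.29 * (J / (J - 2)))) (c := 4)
      (by linarith) (by norm_num)
    rw [l4] at h4
    linarith
  -- the rational terms
  have b1 : (7 * J / 3) / J = 7 / 3 := by field_simp
  have b2 : J / (7 * J / 3) = 3 / 7 := by field_simp
  have b3 : 3 / 4 - 6.75 / 153 ≤ 3 * (7 * J / 3 - J) / (4 * (7 * J / 3 - J) + 3) := by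
    rw [le_div_iff₀ (by linarith)]
    linarith
  have b4 : 11 / 4 - 90.75 / 177 ≤ 11 * (7 * J / 3 - J) / (4 * (7 * J / 3 - J) + 11) := by
    rw [le_div_iff₀ (by linarith)]
    linarith
  have b5 : (7 * J / 3 - J) ^ 2 / (7 * J / 3) ^ 2 = 16 / 49 := by
    field_simp
    ring
  have b6 : (7 * J / 3 - J) / (7 * J / 3) ^ 2 ≤ 12 / 441 := by
    rw [div_le_div_iff₀ (by positivity) (by norm_num)]
    nlinarith
  have b7 : J * (J - 1.2) / (7 * J / 3) = 3 * (J - 1.2) / 7 := by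
    field_simp
  have c1 : J * 0.12525 ≤ J * (1 / 2 * Real.log (7 / 3) - 0.2982) :=
    mul_le_mul_of_nonneg_left (by linarith) hJ0.le
  unfold TR SS
  rw [b1, b2, b5, b7]
  linarith

end Pool.LKX
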