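import Pool.Agent.LKX.I2R1
import Pool.Agent.LKX.I2R2
import Pool.Agent.LKX.I2R3

/-!
# LKX/I2R: positivity of the explicit function `TR`
-/

namespace Pool.LKX

open Real

theorem TR_pos {j k : ℕ} (hj : 3 ≤ j) (h19 : 19 ≤ j + k) (h : 7 * j < 3 * (j + k)) :
    0 < TR ((j : ℝ) + k) j := by
  have h19' : (19 : ℝ) ≤ (j : ℝ) + k := by exact_mod_cast h19
  have hj' : (3 : ℝ) ≤ j := by exact_mod_cast hj
  have h' : 7 * (j : ℝ) ≤ 3 * ((j : ℝ) + k) := by exact_mod_cast h.le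
  rcases le_or_gt j 8 with h8 | h8
  · have h8' : (j : ℝ) ≤ 8 := by exact_mod_cast h8
    exact (TR_19 hj h8).trans_le (TR_mono hj' le_rfl (by linarith) h19')
  · have h9' : (9 : ℝ) ≤ j := by exact_mod_cast h8
    exact (TR_73 h8).trans_le (TR_mono hj' (by linarith) (by linarith) (by linarith))

end Pool.LKX
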