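import Pool.Agent.LKX.Defs

/-!
# LKX/Om: a monotone quantity for `T_i^(k)`

`A = TJ i k x`, `B = TJ i (k+1) x`, `C = TJ i (k+2) x`, `u = 1 - x²`, `1 ≤ k`.
 `OM(x) = u^(k-1) [((i²-k²) u + k) A² - 2 k x u A B + u² B²]`, `OM(0) = W i k`.
 By `TJ_ode i k` (`u C = (2k+1) x B - (i²-k²) A`) the derivative is
   `OM' = -2 k (k-1) x u^(k-2) A²`   (`k ≥ 2`; `OM' = 0` for `k = 1`)
 (numerically checked; write `k = m + 1`, then `OM = u^m [..]` and `u OM' = -2 (m+1) m x u^m A²`,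
 or treat `m = 0` and `m = r + 1` separately).  Hence on `[-1, 1]` `OM(x) ≤ OM(0)` (nondecreasing on
 `[-1, 0]`, nonincreasing on `[0, 1]`).
* `om1`: `OM(x) - u^(k-1) (i² u - k(k-1)) A² = u^(k-1) (k x A - u B)² ≥ 0`
  (`(i²-k²) u + k - i² u + k(k-1) = k² x²`).
* `om2`: if `B = 0`, `OM(x) = u^(k-1) [(i²-k²) u + k] A² ≥ u^k (i²-k²) A²`.
-/

namespace Pool.LKX

open Pool.LK1 (TJ)

private noncomputable def OmQ (i m : ℕ) (x : ℝ) : ℝ :=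
  (((i : ℝ) ^ 2 - ((m : ℝ) + 1) ^ 2) * (1 - x ^ 2) + ((m : ℝ) + 1)) * TJ i (m + 1) x ^ 2 -
    2 * ((m : ℝ) + 1) * x * (1 - x ^ 2) * TJ i (m + 1) x * TJ i (m + 2) x +
    (1 - x ^ 2) ^ 2 * TJ i (m + 2) x ^ 2

private theorem Om_u (x : ℝ) : HasDerivAt (fun x : ℝ => 1 - x ^ 2) (-(2 * x)) x := by
  have h := (hasDerivAt_pow 2 x).const_sub 1
  refine h.congr_deriv ?_
  norm_num

private theorem Om_Q (i m : ℕ) (x : ℝ) : HasDerivAt (OmQ i m)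
    (2 * m * x * (((i : ℝ) ^ 2 - ((m : ℝ) + 1) ^ 2) * TJ i (m + 1) x ^ 2 -
      2 * ((m : ℝ) + 1) * x * TJ i (m + 1) x * TJ i (m + 2) x +
      (1 - x ^ 2) * TJ i (m + 2) x ^ 2)) x := by
  have hA := LK1.TJ_hasDerivAt i (m + 1) x
  have hB := LK1.TJ_hasDerivAt i (m + 1 + 1) x
  have hu := Om_u x
  have ode := TJ_ode i (m + 1) x
  push_cast at ode
  have h := ((((hu.const_mul ((i : ℝ) ^ 2 - ((m : ℝ) + 1) ^ 2)).add_const ((m : ℝ) + 1)).mul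
    (hA.pow 2)).sub (((((hasDerivAt_id x).const_mul (2 * ((m : ℝ) + 1))).mul hu).mul hA).mul hB)).add
    ((hu.pow 2).mul (hB.pow 2))
  refine (h.congr_deriv ?_)
  simp only [Pi.mul_apply, Pi.pow_apply, id]
  have e1 : m + 1 + 1 + 1 = m + 1 + 2 := rfl
  have e2 : m + 1 + 1 = m + 2 := rfl
  rw [e1, e2] at *
  linear_combination (2 * (1 - x ^ 2) * TJ i (m + 2) x -
    2 * ((m : ℝ) + 1) * x * TJ i (m + 1) x) * ode

private theorem Om_F (i m : ℕ) (x : ℝ) : HasDerivAt (fun x => (1 - x ^ 2) ^ m * OmQ i m x)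
    (-(2 * m * ((m : ℝ) + 1) * x * ((1 - x ^ 2) ^ (m - 1) * TJ i (m + 1) x ^ 2))) x := by
  have h := ((Om_u x).pow m).mul (Om_Q i m x)
  refine h.congr_deriv ?_
  rcases m with _ | r
  · simp
  · simp only [Pi.pow_apply]
    unfold OmQ
    push_cast
    ring

private theorem Om_le (i m : ℕ) {x : ℝ} (hx : |x| ≤ 1) :
    (1 - x ^ 2) ^ m * OmQ i m x ≤ W i (m + 1) := by
  have h0 : (1 - (0 : ℝ) ^ 2) ^ m * OmQ i m 0 = W i (m + 1) := by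
    unfold OmQ W
    push_cast
    ring
  rw [← h0]
  have hnn : ∀ y : ℝ, |y| ≤ 1 → 0 ≤ 2 * (m : ℝ) * ((m : ℝ) + 1) *
      ((1 - y ^ 2) ^ (m - 1) * TJ i (m + 1) y ^ 2) := by
    intro y hy
    have h1 : 0 ≤ 1 - y ^ 2 := by
      have := abs_le.1 hy
      nlinarith [this.1, this.2]
    positivity
  have hd : ∀ y, deriv (fun x => (1 - x ^ 2) ^ m * OmQ i m x) y =
      -(2 * m * ((m : ℝ) + 1) * y * ((1 - y ^ 2) ^ (m - 1) * TJ i (m + 1) y ^ 2)) :=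
    fun y => (Om_F i m y).deriv
  have hdiff : Differentiable ℝ (fun x => (1 - x ^ 2) ^ m * OmQ i m x) :=
    fun y => (Om_F i m y).differentiableAt
  obtain ⟨hx1, hx2⟩ := abs_le.1 hx
  rcases le_total 0 x with h | h
  · have hanti : AntitoneOn (fun x => (1 - x ^ 2) ^ m * OmQ i m x) (Set.Icc 0 1) := by
      refine antitoneOn_of_deriv_nonpos (convex_Icc 0 1) hdiff.continuous.continuousOn
        hdiff.differentiableOn fun y hy => ?_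
      rw [interior_Icc] at hy
      rw [hd]
      have h1 := mul_nonneg hy.1.le (hnn y (abs_le.2 ⟨by linarith [hy.1], hy.2.le⟩))
      linarith
    exact hanti ⟨le_rfl, zero_le_one⟩ ⟨h, hx2⟩ h
  · have hmono : MonotoneOn (fun x => (1 - x ^ 2) ^ m * OmQ i m x) (Set.Icc (-1) 0) := by
      refine monotoneOn_of_deriv_nonneg (convex_Icc (-1) 0) hdiff.continuous.continuousOn
        hdiff.differentiableOn fun y hy => ?_
      rw [interior_Icc] at hy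
      rw [hd]
      have h1 := mul_nonneg (neg_nonneg.2 hy.2.le) (hnn y (abs_le.2 ⟨hy.1.le, by linarith [hy.2]⟩))
      linarith
    exact hmono ⟨hx1, h⟩ ⟨by norm_num, le_rfl⟩ h

theorem om1 {i k : ℕ} (hk : 1 ≤ k) {x : ℝ} (hx : |x| ≤ 1) :
    (1 - x ^ 2) ^ (k - 1) * ((i : ℝ) ^ 2 * (1 - x ^ 2) - (k : ℝ) * (k - 1)) * TJ i k x ^ 2 ≤ W i k := by
  obtain ⟨m, rfl⟩ : ∃ m, k = m + 1 := ⟨k - 1, by omega⟩
  refine le_trans ?_ (Om_le i m hx)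
  have h1 : 0 ≤ 1 - x ^ 2 := by
    have := abs_le.1 hx
    nlinarith [this.1, this.2]
  have h2 : (1 - x ^ 2) ^ m * OmQ i m x - (1 - x ^ 2) ^ (m + 1 - 1) *
      ((i : ℝ) ^ 2 * (1 - x ^ 2) - ((m + 1 : ℕ) : ℝ) * (((m + 1 : ℕ) : ℝ) - 1)) *
      TJ i (m + 1) x ^ 2 = (1 - x ^ 2) ^ m * (((m : ℝ) + 1) * x * TJ i (m + 1) x -
      (1 - x ^ 2) * TJ i (m + 2) x) ^ 2 := by
    unfold OmQ
    push_cast
    ring
  have h3 : 0 ≤ (1 - x ^ 2) ^ m * (((m : ℝ) + 1) * x * TJ i (m + 1) x -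
      (1 - x ^ 2) * TJ i (m + 2) x) ^ 2 := by positivity
  linarith

theorem om2 {i k : ℕ} (hk : 1 ≤ k) {x : ℝ} (hx : |x| ≤ 1) (h0 : TJ i (k + 1) x = 0) :
    (1 - x ^ 2) ^ k * ((i : ℝ) ^ 2 - (k : ℝ) ^ 2) * TJ i k x ^ 2 ≤ W i k := by
  obtain ⟨m, rfl⟩ : ∃ m, k = m + 1 := ⟨k - 1, by omega⟩
  refine le_trans ?_ (Om_le i m hx)
  have h1 : 0 ≤ 1 - x ^ 2 := by
    have := abs_le.1 hx
    nlinarith [this.1, this.2]
  have e1 : TJ i (m + 2) x = 0 := h0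
  have h2 : (1 - x ^ 2) ^ m * OmQ i m x - (1 - x ^ 2) ^ (m + 1) *
      ((i : ℝ) ^ 2 - ((m + 1 : ℕ) : ℝ) ^ 2) * TJ i (m + 1) x ^ 2 =
      (1 - x ^ 2) ^ m * ((m : ℝ) + 1) * TJ i (m + 1) x ^ 2 := by
    unfold OmQ
    rw [e1]
    push_cast
    ring
  have h3 : 0 ≤ (1 - x ^ 2) ^ m * ((m : ℝ) + 1) * TJ i (m + 1) x ^ 2 := by positivity
  linarith

end Pool.LKX
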