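import Pool.Agent.LKX.Defs

/-!
# LKX/OmC: the value at the centre, `W i k ≤ V i k`

`A_i = TJ i k 0`, `B_i = TJ i (k+1) 0`.
Base `i = k+1`: `A_{k+1} = 0` and `B_{k+1} = TJ (k+1) (k+1) 0 = 2^k (k+1)!` (`Pool.LK1.TJ_diag` and the
 leading coefficient of `T_{k+1}`, or `TJ_up'` at `0` starting from `TJ 1 1`); `A_{k+1} = 0`: from `TJ_up k k`
 at `x = 0`: `k A_{k+1} = -(k+1) TJ k (k+1) 0 = 0` (`k ≥ 1`).  So `W (k+1) k = 4^k ((k+1)!)²`, and
 `V (k+1) k = (k+1)² (4^k (k!)²/(2k)!/√(2k+1)) (2k+1)! / √(2k+1) = 4^k ((k+1)!)²`.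
Step: `TJ_up i k` at `0`: `i (i+1-k) A_{i+1} = -(i+1) B_i`; `TJ_up' i k` at `0`: `i B_{i+1} = (i+1)(i+k) A_i`.
 So `W (i+1) k = ((i+1)/i)² [((i+1)²-k²+k)/(i+1-k)² B_i² + (i+k)² A_i²]`.  Put
 `s = √((i+k)(i+k+1)/((i-k)(i-k+1)))`.  Then
 (1) `(i+k)² ≤ s (i²-k²+k)`,  (2) `(i+1)²-k²+k ≤ s (i+1-k)²`,
 so `W (i+1) k ≤ ((i+1)/i)² s W i k`, and `V (i+1) k = ((i+1)/i)² s V i k`.
 Proof of (1), (2) by squaring, `a = i - k ≥ 1`, `b = i + k = a + d`, `d ≥ 0`: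
 (1) `b³ a (a+1) ≤ (b+1)(ab + (b-a)/2)²`: the difference is `(b-a)[b(b-a)/4 + ab + (b-a)/4] ≥ 0`.
 (2) `a ((a+1)² + d(a+3/2))² ≤ b(b+1)(a+1)³`: the difference is `d (a+1)² + d² (3a/4+1) ≥ 0`.
`ww_le`: `4^k (k!)²/(2k)!` squared over `2k+1` is `Real.Wallis.W k` (`Real.Wallis.W_eq_factorial_ratio`),
 `Real.Wallis.W_le`.
-/

namespace Pool.LKX

open Pool.LK1 (TJ)

private theorem omC_diag (k : ℕ) : TJ (k + 1) (k + 1) 0 = 2 ^ k * ((k + 1).factorial : ℝ) := by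
  induction k with
  | zero =>
    unfold TJ
    simp
  | succ k ih =>
    have h := TJ_up' (k + 1) (k + 1) 0
    rw [ih] at h
    have hk : ((k : ℝ) + 1) ≠ 0 := by positivity
    rw [Nat.factorial_succ (k + 1)]
    push_cast at h ⊢
    apply mul_left_cancel₀ hk
    rw [h]
    ring

private theorem omC_A {k : ℕ} (hk : 1 ≤ k) : TJ (k + 1) k 0 = 0 := by
  have h := TJ_up k k 0
  rw [TJ_zero_of_lt k (k + 1) (Nat.lt_succ_self k)] at h
  have hk0 : (k : ℝ) ≠ 0 := by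
    have : (0 : ℝ) < k := by exact_mod_cast hk
    exact this.ne'
  have h2 : (k : ℝ) * TJ (k + 1) k 0 = 0 := by
    have e : (k : ℝ) * (k + 1 - k) * TJ (k + 1) k 0 = (k : ℝ) * TJ (k + 1) k 0 := by ring
    rw [← e, h]
    ring
  exact (mul_eq_zero.1 h2).resolve_left hk0

theorem W_base {k : ℕ} (hk : 1 ≤ k) : W (k + 1) k = 4 ^ k * ((k + 1).factorial : ℝ) ^ 2 := by
  unfold W
  rw [omC_A hk, omC_diag, mul_pow, ← pow_mul, mul_comm k 2, pow_mul]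
  norm_num

/-- inequality (1) -/
private theorem omC_ineq1 (a b : ℝ) (ha : 0 < a) (hab : a ≤ b) :
    b ^ 2 ≤ √((b * (b + 1)) / (a * (a + 1))) * (a * b + (b - a) / 2) := by
  have hb : 0 < b := lt_of_lt_of_le ha hab
  have h0 : 0 < a * b + (b - a) / 2 := by
    have : 0 < a * b := mul_pos ha hb
    linarith
  rw [← div_le_iff₀ h0]
  apply Real.le_sqrt_of_sq_le
  rw [div_pow, div_le_div_iff₀ (by positivity) (by positivity)]
  have e : b * (b + 1) * (a * b + (b - a) / 2) ^ 2 - (b ^ 2) ^ 2 * (a * (a + 1)) =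
      b * ((b - a) * (a * b + (b + 1) * (b - a) / 4)) := by ring
  have h1 : 0 ≤ b * ((b - a) * (a * b + (b + 1) * (b - a) / 4)) := by
    have h2 : 0 ≤ b - a := by linarith
    positivity
  linarith

/-- inequality (2) -/
private theorem omC_ineq2 (a b : ℝ) (ha : 0 < a) (hab : a ≤ b) :
    (a + 1) * (b + 1) + (b - a) / 2 ≤ √((b * (b + 1)) / (a * (a + 1))) * (a + 1) ^ 2 := by
  have hb : 0 < b := lt_of_lt_of_le ha hab
  have h0 : 0 < (a + 1) ^ 2 := by positivity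
  rw [← div_le_iff₀ h0]
  apply Real.le_sqrt_of_sq_le
  rw [div_pow, div_le_div_iff₀ (by positivity) (by positivity)]
  have e : b * (b + 1) * ((a + 1) ^ 2) ^ 2 -
      ((a + 1) * (b + 1) + (b - a) / 2) ^ 2 * (a * (a + 1)) =
      (a + 1) * ((b - a) * (a + 1) ^ 2 + (b - a) ^ 2 * (3 * a / 4 + 1)) := by ring
  have h1 : 0 ≤ (a + 1) * ((b - a) * (a + 1) ^ 2 + (b - a) ^ 2 * (3 * a / 4 + 1)) := by
    have h2 : 0 ≤ b - a := by linarith
    positivity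
  linarith

theorem W_step {i k : ℕ} (hk : 1 ≤ k) (hi : k < i) :
    W (i + 1) k ≤ (((i : ℝ) + 1) / i) ^ 2 *
      √((((i : ℝ) + k) * ((i : ℝ) + k + 1)) / (((i : ℝ) - k) * ((i : ℝ) - k + 1))) * W i k := by
  have hk0 : (0 : ℝ) < k := by exact_mod_cast hk
  have hik : (k : ℝ) < i := by exact_mod_cast hi
  have hi0 : (0 : ℝ) < i := by linarith
  have ha : 0 < (i : ℝ) - k := by linarith
  have hab : (i : ℝ) - k ≤ (i : ℝ) + k := by linarith
  have h1 := omC_ineq1 ((i : ℝ) - k) ((i : ℝ) + k) ha hab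
  have h2 := omC_ineq2 ((i : ℝ) - k) ((i : ℝ) + k) ha hab
  obtain ⟨s, hs⟩ : ∃ s : ℝ, s = √((((i : ℝ) + k) * ((i : ℝ) + k + 1)) /
    (((i : ℝ) - k) * ((i : ℝ) - k + 1))) := ⟨_, rfl⟩
  rw [← hs] at h1 h2 ⊢
  have hup := TJ_up i k 0
  have hup' := TJ_up' i k 0
  have ha1 : (i : ℝ) + 1 - k ≠ 0 := by
    have : 0 < (i : ℝ) + 1 - k := by linarith
    exact this.ne'
  have eA : TJ (i + 1) k 0 = -((i : ℝ) + 1) * TJ i (k + 1) 0 / ((i : ℝ) * (i + 1 - k)) := by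
    rw [eq_div_iff (mul_ne_zero hi0.ne' ha1)]
    linarith
  have eB : TJ (i + 1) (k + 1) 0 = ((i : ℝ) + 1) * ((i : ℝ) + k) * TJ i k 0 / (i : ℝ) := by
    rw [eq_div_iff hi0.ne']
    linarith
  have hWeq : W (i + 1) k = (((i : ℝ) + 1) / i) ^ 2 *
      ((((i : ℝ) + 1) ^ 2 - (k : ℝ) ^ 2 + k) / ((i : ℝ) + 1 - k) ^ 2 * TJ i (k + 1) 0 ^ 2 +
        ((i : ℝ) + k) ^ 2 * TJ i k 0 ^ 2) := by
    unfold W
    rw [eA, eB]
    push_cast
    field_simp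
  rw [hWeq, mul_assoc]
  apply mul_le_mul_of_nonneg_left _ (by positivity)
  unfold W
  have h3 : (((i : ℝ) + 1) ^ 2 - (k : ℝ) ^ 2 + k) / ((i : ℝ) + 1 - k) ^ 2 ≤ s := by
    have h4 : 0 < ((i : ℝ) + 1 - k) ^ 2 := by positivity
    rw [div_le_iff₀ h4]
    have e : ((i : ℝ) - k + 1) * ((i : ℝ) + k + 1) + ((i : ℝ) + k - ((i : ℝ) - k)) / 2 =
        ((i : ℝ) + 1) ^ 2 - (k : ℝ) ^ 2 + k := by ring
    rw [e] at h2
    have e2 : ((i : ℝ) - k + 1) ^ 2 = ((i : ℝ) + 1 - k) ^ 2 := by ring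
    rw [e2] at h2
    exact h2
  have h5 : ((i : ℝ) + k) ^ 2 ≤ s * ((i : ℝ) ^ 2 - (k : ℝ) ^ 2 + k) := by
    have e : ((i : ℝ) - k) * ((i : ℝ) + k) + ((i : ℝ) + k - ((i : ℝ) - k)) / 2 =
        (i : ℝ) ^ 2 - (k : ℝ) ^ 2 + k := by ring
    rw [e] at h1
    exact h1
  have h6 := mul_le_mul_of_nonneg_right h3 (sq_nonneg (TJ i (k + 1) 0))
  have h7 := mul_le_mul_of_nonneg_right h5 (sq_nonneg (TJ i k 0))
  calc (((i : ℝ) + 1) ^ 2 - (k : ℝ) ^ 2 + k) / ((i : ℝ) + 1 - k) ^ 2 * TJ i (k + 1) 0 ^ 2 +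
        ((i : ℝ) + k) ^ 2 * TJ i k 0 ^ 2 ≤ s * TJ i (k + 1) 0 ^ 2 +
        s * ((i : ℝ) ^ 2 - (k : ℝ) ^ 2 + k) * TJ i k 0 ^ 2 := add_le_add h6 h7
    _ = s * (((i : ℝ) ^ 2 - (k : ℝ) ^ 2 + k) * TJ i k 0 ^ 2 + TJ i (k + 1) 0 ^ 2) := by ring

theorem ww_pos (k : ℕ) : 0 < ww k := by
  unfold ww
  have h1 : (0 : ℝ) < (k.factorial : ℝ) := by exact_mod_cast Nat.factorial_pos k
  have h2 : (0 : ℝ) < ((2 * k).factorial : ℝ) := by exact_mod_cast Nat.factorial_pos (2 * k)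
  positivity

theorem ww_le (k : ℕ) : ww k ≤ Real.pi / 2 := by
  have h := Real.Wallis.W_le k
  rw [Real.Wallis.W_eq_factorial_ratio] at h
  have h2 : (0 : ℝ) < ((2 * k).factorial : ℝ) := by exact_mod_cast Nat.factorial_pos (2 * k)
  have h3 : (0 : ℝ) < 2 * (k : ℝ) + 1 := by positivity
  refine le_trans (le_of_eq ?_) h
  unfold ww
  have e : ((4 : ℝ) ^ k) ^ 2 = 2 ^ (4 * k) := by
    rw [← pow_mul, show (4 : ℝ) = 2 ^ 2 by norm_num, ← pow_mul]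
    congr 1
    ring
  rw [div_pow, mul_pow, e]
  field_simp

theorem V_pos {i k : ℕ} (hi : k < i) : 0 < V i k := by
  unfold V
  have hik : (k : ℝ) < i := by exact_mod_cast hi
  have hk0 : (0 : ℝ) ≤ k := Nat.cast_nonneg k
  have hi0 : (0 : ℝ) < i := by linarith
  have h1 : (0 : ℝ) < ((i + k).factorial : ℝ) := by exact_mod_cast Nat.factorial_pos _
  have h2 : (0 : ℝ) < ((i - k).factorial : ℝ) := by exact_mod_cast Nat.factorial_pos _
  have h3 : 0 < √(ww k) := Real.sqrt_pos.2 (ww_pos k)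
  have h4 : 0 < √(((i : ℝ) - k) / ((i : ℝ) + k)) := by
    apply Real.sqrt_pos.2
    apply div_pos <;> linarith
  positivity

private theorem omC_sqrt (a b : ℝ) (ha : 0 < a) (hb : 0 < b) :
    (b + 1) / (a + 1) * √((a + 1) / (b + 1)) =
      √((b * (b + 1)) / (a * (a + 1))) * √(a / b) := by
  have h1 : √((b * (b + 1)) / (a * (a + 1))) * √(a / b) = √((b + 1) / (a + 1)) := by
    rw [← Real.sqrt_mul (by positivity)]
    congr 1
    field_simp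
  rw [h1]
  have h2 : (a + 1) / (b + 1) = ((b + 1) / (a + 1))⁻¹ := by rw [inv_div]
  have h3 : 0 < (b + 1) / (a + 1) := by positivity
  rw [h2, Real.sqrt_inv]
  have h4 : 0 < √((b + 1) / (a + 1)) := Real.sqrt_pos.2 h3
  rw [mul_inv_eq_iff_eq_mul₀ h4.ne', Real.mul_self_sqrt h3.le]

theorem V_step {i k : ℕ} (hk : 1 ≤ k) (hi : k < i) :
    V (i + 1) k = (((i : ℝ) + 1) / i) ^ 2 *
      √((((i : ℝ) + k) * ((i : ℝ) + k + 1)) / (((i : ℝ) - k) * ((i : ℝ) - k + 1))) * V i k := by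
  have hk0 : (0 : ℝ) < k := by exact_mod_cast hk
  have hik : (k : ℝ) < i := by exact_mod_cast hi
  have hi0 : (0 : ℝ) < i := by linarith
  have ha : 0 < (i : ℝ) - k := by linarith
  have hb : 0 < (i : ℝ) + k := by linarith
  have key := omC_sqrt ((i : ℝ) - k) ((i : ℝ) + k) ha hb
  unfold V
  have e1 : ((i + 1 + k).factorial : ℝ) = ((i : ℝ) + k + 1) * ((i + k).factorial : ℝ) := by
    rw [show i + 1 + k = (i + k) + 1 by ring, Nat.factorial_succ]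
    push_cast
    ring
  have e2 : ((i + 1 - k).factorial : ℝ) = ((i : ℝ) - k + 1) * ((i - k).factorial : ℝ) := by
    rw [show i + 1 - k = (i - k) + 1 by omega, Nat.factorial_succ]
    push_cast
    rw [Nat.cast_sub hi.le]
  have h2 : (0 : ℝ) < ((i - k).factorial : ℝ) := by exact_mod_cast Nat.factorial_pos _
  have ha1 : (i : ℝ) - k + 1 ≠ 0 := by linarith
  rw [e1, e2]
  push_cast
  have e3 : ((i : ℝ) + 1 - k) / ((i : ℝ) + 1 + k) = ((i : ℝ) - k + 1) / ((i : ℝ) + k + 1) := by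
    congr 1 <;> ring
  rw [e3]
  have e4 : ((i : ℝ) + k + 1) * ((i + k).factorial : ℝ) /
      (((i : ℝ) - k + 1) * ((i - k).factorial : ℝ)) =
      (((i : ℝ) + k + 1) / ((i : ℝ) - k + 1)) * (((i + k).factorial : ℝ) /
        ((i - k).factorial : ℝ)) := by
    rw [mul_div_mul_comm]
  rw [e4]
  calc ((i : ℝ) + 1) ^ 2 * √(ww k) * (((i : ℝ) + k + 1) / ((i : ℝ) - k + 1) *
        (((i + k).factorial : ℝ) / ((i - k).factorial : ℝ))) *
        √(((i : ℝ) - k + 1) / ((i : ℝ) + k + 1)) =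
      ((i : ℝ) + 1) ^ 2 * √(ww k) * (((i + k).factorial : ℝ) / ((i - k).factorial : ℝ)) *
        (((i : ℝ) + k + 1) / ((i : ℝ) - k + 1) *
          √(((i : ℝ) - k + 1) / ((i : ℝ) + k + 1))) := by ring
    _ = ((i : ℝ) + 1) ^ 2 * √(ww k) * (((i + k).factorial : ℝ) / ((i - k).factorial : ℝ)) *
        (√((((i : ℝ) + k) * ((i : ℝ) + k + 1)) / (((i : ℝ) - k) * ((i : ℝ) - k + 1))) *
          √(((i : ℝ) - k) / ((i : ℝ) + k))) := by rw [key]
    _ = _ := by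
        field_simp

private theorem omC_V_base (k : ℕ) : V (k + 1) k = 4 ^ k * ((k + 1).factorial : ℝ) ^ 2 := by
  unfold V ww
  have h1 : (0 : ℝ) < (k.factorial : ℝ) := by exact_mod_cast Nat.factorial_pos k
  have h2 : (0 : ℝ) < ((2 * k).factorial : ℝ) := by exact_mod_cast Nat.factorial_pos (2 * k)
  have h3 : (0 : ℝ) < 2 * (k : ℝ) + 1 := by positivity
  have e1 : ((k + 1 + k).factorial : ℝ) = (2 * (k : ℝ) + 1) * ((2 * k).factorial : ℝ) := by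
    rw [show k + 1 + k = 2 * k + 1 by ring, Nat.factorial_succ]
    push_cast
    ring
  have e2 : k + 1 - k = 1 := by omega
  have e3 : (((k + 1 : ℕ) : ℝ) - k) / (((k + 1 : ℕ) : ℝ) + k) = 1 / (2 * (k : ℝ) + 1) := by
    push_cast
    congr 1 <;> ring
  rw [e1, e2, e3, Nat.factorial_one, Nat.factorial_succ]
  rw [Real.sqrt_div (by positivity), Real.sqrt_sq (by positivity), Real.sqrt_div zero_le_one,
    Real.sqrt_one]
  have h4 : 0 < √(2 * (k : ℝ) + 1) := Real.sqrt_pos.2 h3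
  have h5 : √(2 * (k : ℝ) + 1) * √(2 * (k : ℝ) + 1) = 2 * (k : ℝ) + 1 :=
    Real.mul_self_sqrt h3.le
  push_cast
  obtain ⟨r, hr⟩ : ∃ r : ℝ, r = √(2 * (k : ℝ) + 1) := ⟨_, rfl⟩
  rw [← hr] at h4 h5 ⊢
  rw [← h5]
  field_simp

theorem W_le_V {i k : ℕ} (hk : 1 ≤ k) (hi : k < i) : W i k ≤ V i k := by
  induction i, hi using Nat.le_induction with
  | base =>
    rw [W_base hk, omC_V_base]
  | succ i hi ih =>
    rw [V_step hk hi]
    refine (W_step hk hi).trans ?_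
    apply mul_le_mul_of_nonneg_left ih
    positivity

end Pool.LKX
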