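import Pool.Agent.LKX.HH
import Pool.Agent.LKX.Om
import Pool.Agent.LKX.OmC

/-!
# LKX/Tail: `Th2` and the part of the Chebyshev sum above `n`

`b = bb n k`, `j = n - k ≥ 3`, `q_i = qq n k i = i² - k(k-1)/b`.

`th`: `om2` at `X` and `W_le_V`: `b^k (n²-k²) A_n(X)² ≤ (1-X²)^k (n²-k²) A_n(X)² ≤ V n k`.

`qq_pos` (`i ≥ n+1`; `q` is increasing in `i`): `(n+1)² (4k²+28k+33) > k(k-1)(4n²+12k+17)`, since
 `(n+1)² (4k²+28k+33) ≥ n² (4k² + 28k+33)` and
 `k(k-1)(4n²+12k+17) ≤ 4n²k² + k²(12k+17) ≤ 4n²k² + n²(12k+17)`.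

`term`: for `i ≥ n+1`, `|x| ≤ X`, `u = 1 - x² ≥ 1 - X² ≥ b > 0`: `om1`, `W_le_V`:
 `u^(k-1)(i² u - k(k-1)) A_i(x)² ≤ V i k` and `i² u - k(k-1) = u (i² - k(k-1)/u) ≥ u q_i`, so
 `b^k q_i A_i(x)² ≤ u^k q_i A_i(x)² ≤ V i k`.

`tail`: `U i = hh n n / hh i n`, `t i = V i k U i / q_i`.  `hh_ratio i n` with `i = n + m`:
 `U (i+1) = U i · i(m+1)/((i+1)(i+n))`.  With `s_i` of `V_step`:
 `t (i+1) / t i = ((i+1)/i)² s_i (q_i/q_{i+1}) i(m+1)/((i+1)(i+n)) ≤ ((i+1)/i) s_i (m+1)/(2n+m)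
   ≤ (m+1)/(m+j)`                                                     (*)
 where the last step is `((i+1)/i) s_i (m+j) ≤ 2n+m`: squared, `i - k = m + j`:
 `(i+1)²(i+k)(i+k+1)(m+j) ≤ i² (m+j+1) (i+n)²`, and `(i+k)(i+k+1) ≤ (i+k+1)² ≤ (i+n-2)²`,
 `(i+1)(i+n-2) ≤ i (i+n)` (as `n - 2 ≤ i`).
 Potential: `c i = (m+j-1)/(j-2) t i` (`m = i - n`).  By (*) `c (i+1) = (m+j)/(j-2) t (i+1) ≤
 (m+1)/(j-2) t i`, so `c i - c (i+1) ≥ t i`, hence `∑_{n+1 ≤ i < N} t i ≤ c (n+1) = j/(j-2) t (n+1)`.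
 `t (n+1)`: `U (n+1) = 1/(2(n+1))`, `V (n+1) k = ((n+1)/n)² s_n V n k`,
 `V n k = Th2 b^k (n²-k²)`, so `t (n+1) = b^k Th2 (n²-k²)(n+1) s_n/(2n² q_{n+1})` and
 `(n²-k²) s_n ≤ (n+k)²` (squared: `(n-k)(n+k+1) ≤ (n+k)(n-k+1)`).
 So `∑ A_i(x)² U i ≤ b^{-k} ∑ t i ≤ j/(j-2) Th2 (n+1)(n+k)²/(2n² q_{n+1}) = tb n k · Th2 n k`.
-/

namespace Pool.LKX

open Pool.LK1 (TJ)

theorem bb_pos (n k : ℕ) : 0 < bb n k := by
  unfold bb
  positivity

theorem bb_lt_one {n k : ℕ} (h : k + 3 ≤ n) : bb n k < 1 := by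
  unfold bb
  have h' : (k : ℝ) + 3 ≤ n := by exact_mod_cast h
  rw [div_lt_one (by positivity)]
  have hk : (0 : ℝ) ≤ k := Nat.cast_nonneg k
  nlinarith [mul_self_le_mul_self (by linarith) h']

private theorem tail_sq {n k : ℕ} (h : k < n) : 0 < (n : ℝ) ^ 2 - (k : ℝ) ^ 2 := by
  have h' : (k : ℝ) < n := by exact_mod_cast h
  have hk : (0 : ℝ) ≤ k := Nat.cast_nonneg k
  nlinarith

theorem Th2_pos {n k : ℕ} (h : k < n) : 0 < Th2 n k := by
  unfold Th2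
  exact div_pos (V_pos h) (mul_pos (pow_pos (bb_pos n k) _) (tail_sq h))

theorem th {n k : ℕ} (hk : 1 ≤ k) (hn : k < n) {X : ℝ} (hX : |X| ≤ 1) (h0 : TJ n (k + 1) X = 0)
    (hb : bb n k ≤ 1 - X ^ 2) : TJ n k X ^ 2 ≤ Th2 n k := by
  have h1 := om2 hk hX h0
  have h2 := W_le_V hk hn
  have hs := tail_sq hn
  have hbp := bb_pos n k
  unfold Th2
  rw [le_div_iff₀ (mul_pos (pow_pos hbp _) hs)]
  have h3 : bb n k ^ k ≤ (1 - X ^ 2) ^ k := pow_le_pow_left₀ hbp.le hb k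
  have h4 : bb n k ^ k * (((n : ℝ) ^ 2 - (k : ℝ) ^ 2) * TJ n k X ^ 2) ≤
      (1 - X ^ 2) ^ k * (((n : ℝ) ^ 2 - (k : ℝ) ^ 2) * TJ n k X ^ 2) :=
    mul_le_mul_of_nonneg_right h3 (mul_nonneg hs.le (sq_nonneg _))
  nlinarith

private theorem tail_qb {n k i : ℕ} (hn : k + 3 ≤ n) (hi : n + 1 ≤ i) :
    (k : ℝ) * (k - 1) / bb n k < (i : ℝ) ^ 2 := by
  have hn' : (k : ℝ) + 3 ≤ n := by exact_mod_cast hn
  have hi' : (n : ℝ) + 1 ≤ i := by exact_mod_cast hi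
  have hk : (0 : ℝ) ≤ k := Nat.cast_nonneg k
  rw [div_lt_iff₀ (bb_pos n k)]
  unfold bb
  rw [← mul_div_assoc, lt_div_iff₀ (by positivity)]
  have h1 : ((n : ℝ) + 1) ^ 2 ≤ (i : ℝ) ^ 2 := pow_le_pow_left₀ (by linarith) hi' 2
  have h2 : ((n : ℝ) + 1) ^ 2 * (4 * (k : ℝ) ^ 2 + 28 * k + 33) ≤
      (i : ℝ) ^ 2 * (4 * (k : ℝ) ^ 2 + 28 * k + 33) := mul_le_mul_of_nonneg_right h1 (by positivity)
  refine lt_of_lt_of_le ?_ h2
  have h3 : (k : ℝ) ^ 2 ≤ (n : ℝ) ^ 2 := pow_le_pow_left₀ hk (by linarith) 2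
  have h4 : (k : ℝ) * (k - 1) * (4 * (n : ℝ) ^ 2 + 12 * k + 17) ≤
      (k : ℝ) ^ 2 * (4 * (n : ℝ) ^ 2 + 12 * k + 17) :=
    mul_le_mul_of_nonneg_right (by nlinarith) (by positivity)
  have h5 : (k : ℝ) ^ 2 * (12 * k + 17) ≤ (n : ℝ) ^ 2 * (12 * k + 17) :=
    mul_le_mul_of_nonneg_right h3 (by positivity)
  have h6 : 0 < (n : ℝ) := by linarith
  nlinarith [pow_pos h6 2, mul_nonneg hk (pow_pos h6 2).le, mul_nonneg h6.le (sq_nonneg (k : ℝ)),
    mul_nonneg h6.le hk]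

theorem qq_pos {n k i : ℕ} (hn : k + 3 ≤ n) (hi : n + 1 ≤ i) : 0 < qq n k i := by
  unfold qq
  have := tail_qb hn hi
  linarith

theorem tail_term {n k i : ℕ} (hk : 1 ≤ k) (hn : k + 3 ≤ n) (hi : n + 1 ≤ i) {x X : ℝ} (hx : |x| ≤ X)
    (hb : bb n k ≤ 1 - X ^ 2) :
    TJ i k x ^ 2 ≤ V i k / (bb n k ^ k * qq n k i) := by
  have hbp := bb_pos n k
  have hq := qq_pos hn hi
  have hx2 : x ^ 2 ≤ X ^ 2 := by
    rw [← sq_abs x]
    exact pow_le_pow_left₀ (abs_nonneg x) hx 2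
  obtain ⟨u, hu⟩ : ∃ u : ℝ, u = 1 - x ^ 2 := ⟨_, rfl⟩
  have hbu : bb n k ≤ u := by rw [hu]; linarith
  have hup : 0 < u := lt_of_lt_of_le hbp hbu
  have hx1 : |x| ≤ 1 := by
    rw [← sq_le_one_iff_abs_le_one]
    linarith
  have h1 := om1 (i := i) hk hx1
  have h2 := W_le_V (i := i) hk (by omega)
  rw [← hu] at h1
  have hkr : (1 : ℝ) ≤ k := by exact_mod_cast hk
  have h3 : u * qq n k i ≤ (i : ℝ) ^ 2 * u - (k : ℝ) * (k - 1) := by
    unfold qq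
    have h4 : (k : ℝ) * (k - 1) ≤ u * ((k : ℝ) * (k - 1) / bb n k) := by
      have h5 : 0 ≤ (k : ℝ) * (k - 1) / bb n k := div_nonneg (mul_nonneg (by linarith) (by linarith)) hbp.le
      calc (k : ℝ) * (k - 1) = bb n k * ((k : ℝ) * (k - 1) / bb n k) := by
            field_simp
        _ ≤ u * ((k : ℝ) * (k - 1) / bb n k) := mul_le_mul_of_nonneg_right hbu h5
    nlinarith
  rw [le_div_iff₀ (mul_pos (pow_pos hbp _) hq)]
  obtain ⟨m, rfl⟩ : ∃ m, k = m + 1 := ⟨k - 1, by omega⟩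
  rw [Nat.add_sub_cancel] at h1
  have h6 : bb n (m + 1) ^ (m + 1) ≤ u ^ (m + 1) := pow_le_pow_left₀ hbp.le hbu _
  have h7 : u ^ m * (u * qq n (m + 1) i) * TJ i (m + 1) x ^ 2 ≤
      u ^ m * ((i : ℝ) ^ 2 * u - ((m + 1 : ℕ) : ℝ) * (((m + 1 : ℕ) : ℝ) - 1)) * TJ i (m + 1) x ^ 2 :=
    mul_le_mul_of_nonneg_right (mul_le_mul_of_nonneg_left h3 (pow_pos hup _).le) (sq_nonneg _)
  have h8 : bb n (m + 1) ^ (m + 1) * (qq n (m + 1) i * TJ i (m + 1) x ^ 2) ≤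
      u ^ (m + 1) * (qq n (m + 1) i * TJ i (m + 1) x ^ 2) :=
    mul_le_mul_of_nonneg_right h6 (mul_nonneg hq.le (sq_nonneg _))
  rw [pow_succ u m] at h8
  nlinarith

/-- `((i+1)/i) s_i (i-k) ≤ i + n` -/
private theorem tail_s {n k i : ℕ} (hn : k + 3 ≤ n) (hi : n ≤ i) :
    √((((i : ℝ) + k) * ((i : ℝ) + k + 1)) / (((i : ℝ) - k) * ((i : ℝ) - k + 1))) ≤
      (i : ℝ) * (i + n) / ((i + 1) * (i - k)) := by
  have hn' : (k : ℝ) + 3 ≤ n := by exact_mod_cast hn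
  have hi' : (n : ℝ) ≤ i := by exact_mod_cast hi
  have hk : (0 : ℝ) ≤ k := Nat.cast_nonneg k
  have hik : 0 < (i : ℝ) - k := by linarith
  have hi0 : 0 < (i : ℝ) := by linarith
  rw [Real.sqrt_le_iff]
  refine ⟨by positivity, ?_⟩
  rw [div_pow, div_le_div_iff₀ (by positivity) (by positivity)]
  have h1 : ((i : ℝ) + k) * (i + k + 1) ≤ (i + n - 2) ^ 2 := by
    have : (i : ℝ) + k + 1 ≤ i + n - 2 := by linarith
    nlinarith
  have h2 : ((i : ℝ) + 1) * (i + n - 2) ≤ i * (i + n) := by nlinarith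
  have h3 : (((i : ℝ) + 1) * (i + n - 2)) ^ 2 ≤ (i * (i + n)) ^ 2 :=
    pow_le_pow_left₀ (mul_nonneg (by linarith) (by linarith)) h2 2
  have h4 : ((i : ℝ) + 1) ^ 2 * (((i : ℝ) + k) * (i + k + 1)) ≤ (i * (i + n)) ^ 2 := by
    refine le_trans ?_ h3
    rw [mul_pow]
    exact mul_le_mul_of_nonneg_left h1 (by positivity)
  have h5 : ((i : ℝ) - k) ^ 2 ≤ ((i : ℝ) - k) * (i - k + 1) := by nlinarith
  calc ((i : ℝ) + k) * (i + k + 1) * ((i + 1) * (i - k)) ^ 2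
      = (((i : ℝ) + 1) ^ 2 * (((i : ℝ) + k) * (i + k + 1))) * (i - k) ^ 2 := by ring
    _ ≤ (i * (i + n)) ^ 2 * (((i : ℝ) - k) * (i - k + 1)) :=
        mul_le_mul h4 h5 (by positivity) (by positivity)

/-- the comparison sequence -/
private noncomputable def tailT (n k i : ℕ) : ℝ := V i k * (hh n n / hh i n) / qq n k i

private theorem tailT_pos {n k i : ℕ} (hn : k + 3 ≤ n) (hi : n + 1 ≤ i) : 0 < tailT n k i := by
  unfold tailT
  exact div_pos (mul_pos (V_pos (by omega)) (div_pos (hh_pos le_rfl) (hh_pos (by omega))))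
    (qq_pos hn hi)

private theorem tail_U {n i : ℕ} (hn : 1 ≤ n) (hi : n ≤ i) :
    hh n n / hh (i + 1) n = hh n n / hh i n * ((i : ℝ) * (i + 1 - n) / ((i + 1) * (i + n))) := by
  have h := hh_ratio i n
  have hp := hh_pos (i := i) (k := n) hi
  have hp' := hh_pos (i := i + 1) (k := n) (by omega)
  have hn' : (1 : ℝ) ≤ n := by exact_mod_cast hn
  have hi' : (n : ℝ) ≤ i := by exact_mod_cast hi
  rw [div_mul_div_comm, div_eq_div_iff hp'.ne' (by positivity)]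
  linear_combination (-hh n n) * h

private theorem tail_ratio {n k i : ℕ} (hk : 1 ≤ k) (hn : k + 3 ≤ n) (hi : n + 1 ≤ i) :
    ((i : ℝ) - k) * tailT n k (i + 1) ≤ ((i : ℝ) + 1 - n) * tailT n k i := by
  have hn' : (k : ℝ) + 3 ≤ n := by exact_mod_cast hn
  have hi' : (n : ℝ) + 1 ≤ i := by exact_mod_cast hi
  have hkr : (1 : ℝ) ≤ k := by exact_mod_cast hk
  have hs := tail_s (n := n) (k := k) (i := i) hn (by omega)
  obtain ⟨s, hs0⟩ : ∃ s : ℝ, s = √((((i : ℝ) + k) * ((i : ℝ) + k + 1)) /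
    (((i : ℝ) - k) * ((i : ℝ) - k + 1))) := ⟨_, rfl⟩
  rw [← hs0] at hs
  have hsn : 0 ≤ s := by rw [hs0]; exact Real.sqrt_nonneg _
  have hV := V_step (i := i) hk (by omega)
  rw [← hs0] at hV
  have hU := tail_U (n := n) (i := i) (by omega) (by omega)
  have hq := qq_pos hn hi
  have hq' := qq_pos (i := i + 1) hn (by omega)
  have hqq : qq n k i ≤ qq n k (i + 1) := by
    unfold qq
    push_cast
    nlinarith
  have hVp := V_pos (i := i) (k := k) (by omega)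
  have hhp : 0 < hh n n / hh i n := div_pos (hh_pos le_rfl) (hh_pos (by omega))
  have hi0 : (0 : ℝ) < i := by linarith
  have hik : 0 < (i : ℝ) - k := by linarith
  -- rewrite the left side
  have e1 : ((i : ℝ) - k) * tailT n k (i + 1) =
      (V i k * (hh n n / hh i n)) * (((i : ℝ) + 1 - n) *
        (((i : ℝ) + 1) * (i - k) * s / (i * (i + n)))) / qq n k (i + 1) := by
    unfold tailT
    rw [hV, hU]
    have h1 : (i : ℝ) + 1 ≠ 0 := by positivity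
    have h2 : (i : ℝ) + n ≠ 0 := by positivity
    have h3 : (i : ℝ) ≠ 0 := hi0.ne'
    field_simp
  have e2 : ((i : ℝ) + 1) * (i - k) * s / (i * (i + n)) ≤ 1 := by
    rw [div_le_one (by positivity)]
    rw [le_div_iff₀ (by positivity)] at hs
    linarith
  rw [e1]
  have hm : 0 < (i : ℝ) + 1 - n := by linarith
  calc (V i k * (hh n n / hh i n)) * (((i : ℝ) + 1 - n) *
        (((i : ℝ) + 1) * (i - k) * s / (i * (i + n)))) / qq n k (i + 1)
      ≤ (V i k * (hh n n / hh i n)) * (((i : ℝ) + 1 - n) * 1) / qq n k (i + 1) := by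
        refine div_le_div_of_nonneg_right ?_ hq'.le
        exact mul_le_mul_of_nonneg_left (mul_le_mul_of_nonneg_left e2 hm.le) (by positivity)
    _ ≤ (V i k * (hh n n / hh i n)) * (((i : ℝ) + 1 - n) * 1) / qq n k i := by
        refine div_le_div_of_nonneg_left (by positivity) hq hqq
    _ = ((i : ℝ) + 1 - n) * tailT n k i := by
        unfold tailT
        ring

private theorem tail_sum {n k N : ℕ} (hk : 1 ≤ k) (hn : k + 3 ≤ n) :
    ∑ i ∈ Finset.Ico (n + 1) N, tailT n k i ≤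
      ((n : ℝ) - k) / ((n : ℝ) - k - 2) * tailT n k (n + 1) := by
  have hn' : (k : ℝ) + 3 ≤ n := by exact_mod_cast hn
  have hj : 0 < (n : ℝ) - k - 2 := by linarith
  have key : ∀ M : ℕ, ∑ i ∈ Finset.Ico (n + 1) (n + 1 + M), tailT n k i +
      (((n + 1 + M : ℕ) : ℝ) - 1 - k) / ((n : ℝ) - k - 2) * tailT n k (n + 1 + M) ≤
      ((n : ℝ) - k) / ((n : ℝ) - k - 2) * tailT n k (n + 1) := by
    intro M
    induction M with
    | zero =>
      simp only [add_zero, Finset.Ico_self, Finset.sum_empty, zero_add]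
      push_cast
      rw [add_sub_cancel_right]
    | succ M ih =>
      refine le_trans ?_ ih
      rw [← add_assoc, Finset.sum_Ico_succ_top (by omega)]
      have h := tail_ratio (i := n + 1 + M) hk hn (by omega)
      have hT := tailT_pos (i := n + 1 + M) hn (by omega)
      have e : (((n + 1 + M + 1 : ℕ) : ℝ) - 1 - k) / ((n : ℝ) - k - 2) * tailT n k (n + 1 + M + 1) ≤
          (((n + 1 + M : ℕ) : ℝ) + 1 - n) / ((n : ℝ) - k - 2) * tailT n k (n + 1 + M) := by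
        rw [div_mul_eq_mul_div, div_mul_eq_mul_div]
        refine div_le_div_of_nonneg_right ?_ hj.le
        have : (((n + 1 + M + 1 : ℕ) : ℝ) - 1 - k) = ((n + 1 + M : ℕ) : ℝ) - k := by
          push_cast; ring
        rw [this]
        exact h
      have e2 : (((n + 1 + M : ℕ) : ℝ) - 1 - k) / ((n : ℝ) - k - 2) =
          1 + (((n + 1 + M : ℕ) : ℝ) + 1 - n) / ((n : ℝ) - k - 2) := by
        rw [eq_comm, ← sub_eq_zero]
        field_simp
        ring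
      rw [e2, add_mul, one_mul]
      linarith
  by_cases hN : n + 1 ≤ N
  · obtain ⟨M, rfl⟩ := Nat.exists_eq_add_of_le hN
    have h1 := key M
    have h2 : 0 ≤ (((n + 1 + M : ℕ) : ℝ) - 1 - k) / ((n : ℝ) - k - 2) * tailT n k (n + 1 + M) := by
      refine mul_nonneg (div_nonneg ?_ hj.le) (tailT_pos hn (by omega)).le
      push_cast
      have : (0 : ℝ) ≤ M := Nat.cast_nonneg M
      linarith
    linarith
  · rw [Finset.Ico_eq_empty_of_le (by omega), Finset.sum_empty]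
    exact mul_nonneg (div_nonneg (by linarith) hj.le) (tailT_pos hn le_rfl).le

private theorem tail_first {n k : ℕ} (hk : 1 ≤ k) (hn : k + 3 ≤ n) :
    tailT n k (n + 1) ≤ bb n k ^ k * (Th2 n k * (((n : ℝ) + 1) * ((n : ℝ) + k) ^ 2 /
      (2 * (n : ℝ) ^ 2 * qq n k (n + 1)))) := by
  have hn' : (k : ℝ) + 3 ≤ n := by exact_mod_cast hn
  have hkr : (1 : ℝ) ≤ k := by exact_mod_cast hk
  have hn0 : (0 : ℝ) < n := by linarith
  have hnk : 0 < (n : ℝ) - k := by linarith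
  have hsq := tail_sq (n := n) (k := k) (by omega)
  have hbk : 0 < bb n k ^ k := pow_pos (bb_pos n k) k
  have hV := V_step (i := n) hk (by omega)
  obtain ⟨s, hs0⟩ : ∃ s : ℝ, s = √((((n : ℝ) + k) * ((n : ℝ) + k + 1)) /
    (((n : ℝ) - k) * ((n : ℝ) - k + 1))) := ⟨_, rfl⟩
  rw [← hs0] at hV
  have hs : s ≤ ((n : ℝ) + k) ^ 2 / ((n : ℝ) ^ 2 - (k : ℝ) ^ 2) := by
    rw [hs0, Real.sqrt_le_iff]
    refine ⟨by positivity, ?_⟩
    have e : ((n : ℝ) ^ 2 - (k : ℝ) ^ 2) = ((n : ℝ) - k) * (n + k) := by ring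
    rw [e, div_pow, div_le_div_iff₀ (by positivity) (by positivity)]
    have h1 : ((n : ℝ) - k) * (n + k + 1) ≤ (n + k) * (n - k + 1) := by nlinarith
    have h2 : 0 < ((n : ℝ) + k) ^ 3 * (n - k) := by positivity
    calc ((n : ℝ) + k) * (n + k + 1) * ((n - k) * (n + k)) ^ 2
        = (((n : ℝ) + k) ^ 3 * (n - k)) * ((n - k) * (n + k + 1)) := by ring
      _ ≤ (((n : ℝ) + k) ^ 3 * (n - k)) * ((n + k) * (n - k + 1)) :=
          mul_le_mul_of_nonneg_left h1 h2.le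
      _ = (((n : ℝ) + k) ^ 2) ^ 2 * ((n - k) * (n - k + 1)) := by ring
  have hU := tail_U (n := n) (i := n) (by omega) le_rfl
  have hhp := hh_pos (i := n) (k := n) le_rfl
  rw [div_self hhp.ne'] at hU
  have hq := qq_pos (i := n + 1) hn le_rfl
  have hVT : V n k = Th2 n k * (bb n k ^ k * ((n : ℝ) ^ 2 - (k : ℝ) ^ 2)) := by
    unfold Th2
    rw [div_mul_cancel₀ _ (mul_pos hbk hsq).ne']
  have hTh := Th2_pos (n := n) (k := k) (by omega)
  unfold tailT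
  rw [hU, hV, hVT]
  have e1 : (((n : ℝ) + 1) / n) ^ 2 * s * (Th2 n k * (bb n k ^ k * ((n : ℝ) ^ 2 - (k : ℝ) ^ 2))) *
      (1 * ((n : ℝ) * (n + 1 - n) / ((n + 1) * (n + n)))) / qq n k (n + 1) =
      bb n k ^ k * (Th2 n k * (((n : ℝ) + 1) * (s * ((n : ℝ) ^ 2 - (k : ℝ) ^ 2)) /
        (2 * (n : ℝ) ^ 2 * qq n k (n + 1)))) := by
    have h1 : (n : ℝ) + 1 ≠ 0 := by positivity
    have h2 : (n : ℝ) + n ≠ 0 := by positivity
    have h3 : (n : ℝ) + 1 - n = 1 := by ring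
    rw [h3]
    field_simp
    ring
  rw [e1]
  refine mul_le_mul_of_nonneg_left (mul_le_mul_of_nonneg_left ?_ hTh.le) hbk.le
  refine div_le_div_of_nonneg_right ?_ (by positivity)
  rw [le_div_iff₀ hsq] at hs
  exact mul_le_mul_of_nonneg_left hs (by positivity)

theorem tail {n k N : ℕ} (hk : 2 ≤ k) (hn : k + 3 ≤ n) {x X : ℝ} (hx : |x| ≤ X)
    (hb : bb n k ≤ 1 - X ^ 2) :
    ∑ i ∈ Finset.Ico (n + 1) N, TJ i k x ^ 2 * (hh n n / hh i n) ≤ tb n k * Th2 n k := by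
  have hn' : (k : ℝ) + 3 ≤ n := by exact_mod_cast hn
  have hn0 : (0 : ℝ) < n := by
    have : (0 : ℝ) ≤ k := Nat.cast_nonneg k
    linarith
  have hbk : 0 < bb n k ^ k := pow_pos (bb_pos n k) k
  have hj : 0 < (n : ℝ) - k - 2 := by linarith
  have h1 : ∑ i ∈ Finset.Ico (n + 1) N, TJ i k x ^ 2 * (hh n n / hh i n) ≤
      (bb n k ^ k)⁻¹ * ∑ i ∈ Finset.Ico (n + 1) N, tailT n k i := by
    rw [Finset.mul_sum]
    refine Finset.sum_le_sum fun i hi => ?_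
    rw [Finset.mem_Ico] at hi
    have hq := qq_pos hn hi.1
    have hhp : 0 < hh n n / hh i n := div_pos (hh_pos le_rfl) (hh_pos (by omega))
    have h2 := mul_le_mul_of_nonneg_right (tail_term (by omega) hn hi.1 hx hb) hhp.le
    refine h2.trans (le_of_eq ?_)
    unfold tailT
    field_simp
  have h2 := tail_sum (N := N) (show 1 ≤ k by omega) hn
  have h3 := tail_first (show 1 ≤ k by omega) hn
  have hq := qq_pos (i := n + 1) hn le_rfl
  refine h1.trans ?_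
  rw [inv_mul_le_iff₀ hbk]
  refine h2.trans ?_
  refine (mul_le_mul_of_nonneg_left h3 (div_nonneg (by linarith) hj.le)).trans (le_of_eq ?_)
  unfold tb
  field_simp

theorem tb_nonneg {n k : ℕ} (hn : k + 3 ≤ n) : 0 ≤ tb n k := by
  have hn' : (k : ℝ) + 3 ≤ n := by exact_mod_cast hn
  have hk : (0 : ℝ) ≤ k := Nat.cast_nonneg k
  have hq := qq_pos (i := n + 1) hn le_rfl
  have hj : 0 < (n : ℝ) - k - 2 := by linarith
  have hj' : 0 < (n : ℝ) - k := by linarith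
  have hn0 : (0 : ℝ) < n := by linarith
  unfold tb
  positivity

end Pool.LKX
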