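import Pool.Agent.LKX.I1L
import Pool.Agent.LKX.Tail

/-!
# LKX/I2T: elementary bounds for `tb`, `lo`, `Th2`

`n = j + k`, `j ≥ 3`, `k ≥ 7`.
* `bb_eq`: `bb n k = Sq n k` (`(k+3/2)(k+11/2) = (4k²+28k+33)/4`).
* `tb_le`: `tb = (j/(j-2)) τ`, `τ = ((n+1)/n) (n+k)²/(2n q)`, `q = qq n k (n+1) > 0` (`qq_pos`).  With
  `D = 4k²+28k+33`: `q D = n²(32k+33) + 2n D - 12k³ - k² + 45k + 33`
  (`(n+1)² D - k(k-1)(4n²+12k+17)`).  `τ ≤ 0.29` is the polynomial inequality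
  `(n+1)(n+k)² D ≤ 0.58 n² (q D)`; after the substitution `k = 7 + K`, `j = 3 + J`, `n = k + j` all coefficients of
  (right side - left side) are nonnegative (checked), so `positivity` proves it.
* `lo_le`: `(n-1)(2 + 1/(n+k-1)) ≤ 2n`, so `lo n k ≤ (j/n) √(2n) = j √(2/n)`.
* `log_Th2`: `Pi2_fact` gives `(n+k)!/(n-k)! = Pi2 n k (n+k)/n`, so `V n k = n √(ww k) Pi2 n k √(n²-k²)` and
  `Th2 n k = n √(ww k) Pi2 n k/(bb^k √(n²-k²))`; take logarithms, `log (ww k) ≤ log (π/2) ≤ 0.452` (`ww_le`):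
  `(1/4) log (ww k) ≤ 0.113`.
-/

namespace Pool.LKX

open Real
open Pool.LK2 (Pi2 Sq)

theorem bb_eq (n k : ℕ) : bb n k = Sq n k := by
  unfold bb Sq
  rw [div_eq_div_iff (by positivity) (by positivity)]
  ring

private theorem tb_poly {x y : ℝ} (hx : 0 ≤ x) (hy : 0 ≤ y) :
    (3 + x + (7 + y) + 1) * (3 + x + (7 + y) + (7 + y)) ^ 2 * (4 * (7 + y) ^ 2 + 28 * (7 + y) + 33) ≤
      0.58 * (3 + x + (7 + y)) ^ 2 * ((3 + x + (7 + y) + 1) ^ 2 * (4 * (7 + y) ^ 2 + 28 * (7 + y) + 33) -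
        (7 + y) * (7 + y - 1) * (4 * (3 + x + (7 + y)) ^ 2 + 12 * (7 + y) + 17)) := by
  have h : 0.58 * (3 + x + (7 + y)) ^ 2 * ((3 + x + (7 + y) + 1) ^ 2 * (4 * (7 + y) ^ 2 + 28 * (7 + y) + 33) -
        (7 + y) * (7 + y - 1) * (4 * (3 + x + (7 + y)) ^ 2 + 12 * (7 + y) + 17)) -
      (3 + x + (7 + y) + 1) * (3 + x + (7 + y) + (7 + y)) ^ 2 * (4 * (7 + y) ^ 2 + 28 * (7 + y) + 33) =
      (411139 / 1 : ℝ) +
      (873139 / 5 : ℝ) * y ^ 1 +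
      (1396167 / 50 : ℝ) * y ^ 2 +
      (100733 / 50 : ℝ) * y ^ 3 +
      (1454 / 25 : ℝ) * y ^ 4 +
      (6 / 25 : ℝ) * y ^ 5 +
      (2090439 / 5 : ℝ) * x ^ 1 +
      (4241287 / 25 : ℝ) * x ^ 1 * y ^ 1 +
      (640388 / 25 : ℝ) * x ^ 1 * y ^ 2 +
      (42637 / 25 : ℝ) * x ^ 1 * y ^ 3 +
      (1056 / 25 : ℝ) * x ^ 1 * y ^ 4 +
      (4144357 / 50 : ℝ) * x ^ 2 +
      (1325763 / 50 : ℝ) * x ^ 2 * y ^ 1 +
      (140317 / 50 : ℝ) * x ^ 2 * y ^ 2 +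
      (2458 / 25 : ℝ) * x ^ 2 * y ^ 3 +
      (30152 / 5 : ℝ) * x ^ 3 +
      (33802 / 25 : ℝ) * x ^ 3 * y ^ 1 +
      (1872 / 25 : ℝ) * x ^ 3 * y ^ 2 +
      (7453 / 50 : ℝ) * x ^ 4 +
      (464 / 25 : ℝ) * x ^ 4 * y ^ 1 := by
    ring
  have h2 : 0 ≤ (411139 / 1 : ℝ) +
      (873139 / 5 : ℝ) * y ^ 1 +
      (1396167 / 50 : ℝ) * y ^ 2 +
      (100733 / 50 : ℝ) * y ^ 3 +
      (1454 / 25 : ℝ) * y ^ 4 +
      (6 / 25 : ℝ) * y ^ 5 +
      (2090439 / 5 : ℝ) * x ^ 1 +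
      (4241287 / 25 : ℝ) * x ^ 1 * y ^ 1 +
      (640388 / 25 : ℝ) * x ^ 1 * y ^ 2 +
      (42637 / 25 : ℝ) * x ^ 1 * y ^ 3 +
      (1056 / 25 : ℝ) * x ^ 1 * y ^ 4 +
      (4144357 / 50 : ℝ) * x ^ 2 +
      (1325763 / 50 : ℝ) * x ^ 2 * y ^ 1 +
      (140317 / 50 : ℝ) * x ^ 2 * y ^ 2 +
      (2458 / 25 : ℝ) * x ^ 2 * y ^ 3 +
      (30152 / 5 : ℝ) * x ^ 3 +
      (33802 / 25 : ℝ) * x ^ 3 * y ^ 1 +
      (1872 / 25 : ℝ) * x ^ 3 * y ^ 2 +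
      (7453 / 50 : ℝ) * x ^ 4 +
      (464 / 25 : ℝ) * x ^ 4 * y ^ 1 := by
    positivity
  linarith

theorem tb_le {j k : ℕ} (hj : 3 ≤ j) (hk : 7 ≤ k) :
    tb (j + k) k ≤ 0.29 * ((j : ℝ) / (j - 2)) := by
  obtain ⟨J, rfl⟩ := Nat.exists_eq_add_of_le hj
  obtain ⟨K, rfl⟩ := Nat.exists_eq_add_of_le hk
  have hq := qq_pos (n := 3 + J + (7 + K)) (k := 7 + K) (i := 3 + J + (7 + K) + 1) (by omega) (by omega)
  have hqe : qq (3 + J + (7 + K)) (7 + K) (3 + J + (7 + K) + 1) *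
      (4 * (7 + (K : ℝ)) ^ 2 + 28 * (7 + (K : ℝ)) + 33) =
      (3 + (J : ℝ) + (7 + K) + 1) ^ 2 * (4 * (7 + (K : ℝ)) ^ 2 + 28 * (7 + (K : ℝ)) + 33) -
        (7 + (K : ℝ)) * (7 + K - 1) * (4 * (3 + (J : ℝ) + (7 + K)) ^ 2 + 12 * (7 + (K : ℝ)) + 17) := by
    unfold qq bb
    push_cast
    have h1 : (4 * (7 + (K : ℝ)) ^ 2 + 28 * (7 + (K : ℝ)) + 33) ≠ 0 := by positivity
    have h2 : (4 * (3 + (J : ℝ) + (7 + K)) ^ 2 + 12 * (7 + (K : ℝ)) + 17) ≠ 0 := by positivity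
    field_simp
  have hm := tb_poly (Nat.cast_nonneg J) (Nat.cast_nonneg K)
  unfold tb
  rw [← hqe] at hm
  generalize qq (3 + J + (7 + K)) (7 + K) (3 + J + (7 + K) + 1) = q at *
  push_cast
  obtain ⟨x, hx⟩ : ∃ x : ℝ, x = (J : ℝ) := ⟨_, rfl⟩
  obtain ⟨y, hy⟩ : ∃ y : ℝ, y = (K : ℝ) := ⟨_, rfl⟩
  have hx0 : 0 ≤ x := by rw [hx]; exact Nat.cast_nonneg J
  have hy0 : 0 ≤ y := by rw [hy]; exact Nat.cast_nonneg K
  rw [← hx, ← hy] at hm ⊢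
  have hD : 0 < 4 * (7 + y) ^ 2 + 28 * (7 + y) + 33 := by positivity
  have hm2 : (3 + x + (7 + y) + 1) * (3 + x + (7 + y) + (7 + y)) ^ 2 ≤
      0.58 * (3 + x + (7 + y)) ^ 2 * q := by
    refine le_of_mul_le_mul_right ?_ hD
    linarith
  have e1 : (3 + x + (7 + y) - (7 + y)) / (3 + x + (7 + y) - (7 + y) - 2) *
      ((3 + x + (7 + y) + 1) / (3 + x + (7 + y))) * (3 + x + (7 + y) + (7 + y)) ^ 2 /
      (2 * (3 + x + (7 + y)) * q) =
      ((3 + x + (7 + y) + 1) * (3 + x + (7 + y) + (7 + y)) ^ 2 / (2 * (3 + x + (7 + y)) ^ 2 * q)) *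
        ((3 + x) / (3 + x - 2)) := by
    have h3 : 3 + x + (7 + y) - (7 + y) = 3 + x := by ring
    rw [h3]
    have h4 : 3 + x - 2 ≠ 0 := by
      have : 0 < 3 + x - 2 := by linarith
      exact this.ne'
    have h5 : 3 + x + (7 + y) ≠ 0 := by positivity
    field_simp
  rw [e1]
  apply mul_le_mul_of_nonneg_right
  · rw [div_le_iff₀ (by positivity)]
    linarith
  · exact div_nonneg (by linarith) (by linarith)

theorem lo_le {j k : ℕ} (hj : 3 ≤ j) (hk : 1 ≤ k) :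
    lo (j + k) k ≤ (j : ℝ) * √(2 / ((j : ℝ) + k)) := by
  have hj' : (3 : ℝ) ≤ j := by exact_mod_cast hj
  have hk' : (1 : ℝ) ≤ k := by exact_mod_cast hk
  unfold lo
  push_cast
  have hn0 : (0 : ℝ) < (j : ℝ) + k := by linarith
  have h1 : ((j : ℝ) + k - 1) * (2 + 1 / ((j : ℝ) + k + k - 1)) ≤ 2 / ((j : ℝ) + k) * ((j : ℝ) + k) ^ 2 := by
    have e1 : 2 / ((j : ℝ) + k) * ((j : ℝ) + k) ^ 2 = 2 * ((j : ℝ) + k) := by
      field_simp
    have e2 : ((j : ℝ) + k - 1) * (1 / ((j : ℝ) + k + k - 1)) ≤ 1 := by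
      rw [mul_one_div, div_le_one (by linarith)]
      linarith
    rw [e1, mul_add]
    linarith
  have h2 := Real.sqrt_le_sqrt h1
  have e3 : √(2 / ((j : ℝ) + k) * ((j : ℝ) + k) ^ 2) = √(2 / ((j : ℝ) + k)) * ((j : ℝ) + k) := by
    rw [Real.sqrt_mul (by positivity), Real.sqrt_sq hn0.le]
  rw [e3] at h2
  have h3 : (j : ℝ) + k - k = j := by ring
  rw [h3]
  calc (j : ℝ) / (j + k) * √(((j : ℝ) + k - 1) * (2 + 1 / ((j : ℝ) + k + k - 1)))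
      ≤ (j : ℝ) / (j + k) * (√(2 / ((j : ℝ) + k)) * ((j : ℝ) + k)) :=
        mul_le_mul_of_nonneg_left h2 (by positivity)
    _ = (j : ℝ) * √(2 / ((j : ℝ) + k)) := by
        field_simp

theorem log_Th2 {n k : ℕ} (hk : 1 ≤ k) (hn : k + 3 ≤ n) :
    1 / 2 * Real.log (Th2 n k) ≤ 0.113 + 1 / 2 * (Real.log n + Real.log (Pi2 n k) - k * Real.log (Sq n k))
      - 1 / 4 * Real.log ((n : ℝ) ^ 2 - (k : ℝ) ^ 2) := by
  have hkn : (k : ℝ) + 3 ≤ n := by exact_mod_cast hn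
  have hk1 : (1 : ℝ) ≤ k := by exact_mod_cast hk
  have hn0 : (0 : ℝ) < n := by linarith
  have hm : (0 : ℝ) < (n : ℝ) - k := by linarith
  have hp : (0 : ℝ) < (n : ℝ) + k := by linarith
  have hw : 0 < ww k := by
    unfold ww
    positivity
  have hb := bb_pos n k
  have hf1 : (0 : ℝ) < ((n + k).factorial : ℝ) := by positivity
  have hf2 : (0 : ℝ) < ((n - k).factorial : ℝ) := by positivity
  have hPi := Pi2_fact (n := n) (k := k) (by omega) (by omega)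
  have hPp : 0 < Pi2 n k := by
    have h1 : 0 < Pi2 n k * (((n - k).factorial : ℝ) * ((n : ℝ) + k)) := by
      rw [← mul_assoc, hPi]
      positivity
    exact pos_of_mul_pos_left h1 (by positivity)
  have hsq : (n : ℝ) ^ 2 - (k : ℝ) ^ 2 = ((n : ℝ) - k) * ((n : ℝ) + k) := by ring
  have l1 : Real.log (Pi2 n k) + Real.log ((n - k).factorial : ℝ) + Real.log ((n : ℝ) + k) =
      Real.log n + Real.log ((n + k).factorial : ℝ) := by
    rw [← Real.log_mul hPp.ne' hf2.ne', ← Real.log_mul (by positivity) hp.ne', hPi,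
      Real.log_mul hn0.ne' hf1.ne']
  have l2 : Real.log ((n : ℝ) ^ 2 - (k : ℝ) ^ 2) = Real.log ((n : ℝ) - k) + Real.log ((n : ℝ) + k) := by
    rw [hsq, Real.log_mul hm.ne' hp.ne']
  have l3 : Real.log (V n k) = 2 * Real.log n + Real.log (ww k) / 2 +
      (Real.log ((n + k).factorial : ℝ) - Real.log ((n - k).factorial : ℝ)) +
      (Real.log ((n : ℝ) - k) - Real.log ((n : ℝ) + k)) / 2 := by
    unfold V
    have h1 : 0 < √(ww k) := Real.sqrt_pos.2 hw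
    have h2 : 0 < √(((n : ℝ) - k) / ((n : ℝ) + k)) := Real.sqrt_pos.2 (div_pos hm hp)
    rw [Real.log_mul (by positivity) h2.ne', Real.log_mul (by positivity) (by positivity),
      Real.log_mul (by positivity) h1.ne', Real.log_pow, Real.log_sqrt hw.le,
      Real.log_sqrt (div_pos hm hp).le, Real.log_div hf1.ne' hf2.ne', Real.log_div hm.ne' hp.ne']
    push_cast
    ring
  have l4 : Real.log (Th2 n k) = Real.log (V n k) - (k * Real.log (Sq n k) +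
      Real.log ((n : ℝ) ^ 2 - (k : ℝ) ^ 2)) := by
    unfold Th2
    have hV : 0 < V n k := V_pos (by omega)
    have h1 : 0 < (n : ℝ) ^ 2 - (k : ℝ) ^ 2 := by rw [hsq]; positivity
    rw [Real.log_div hV.ne' (by positivity), Real.log_mul (by positivity) h1.ne', Real.log_pow, bb_eq]
  have l5 : Real.log (ww k) ≤ 0.452 := by
    have h1 : Real.log (ww k) ≤ Real.log (π / 2) := Real.log_le_log hw (ww_le k)
    have h2 : Real.log (π / 2) ≤ 0.452 := by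
      rw [Real.log_le_iff_le_exp (by positivity)]
      have h3 := Real.sum_le_exp_of_nonneg (x := 0.452) (by norm_num) 6
      simp only [Finset.sum_range_succ, Finset.sum_range_zero, Nat.factorial] at h3
      have h4 := Real.pi_lt_d4
      norm_num at h3 ⊢
      linarith
    linarith
  rw [l4, l3]
  linarith

end Pool.LKX
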