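import Pool.Agent.LKX.Defs

/-!
# LKX/Appr: polynomial approximation in the class `InF`

`D ∈ InF m s (-1) 1` (`D 0, ..., D m` successive derivatives on `[-1,1]`, `D m` `s`-Lipschitz), `ε > 0`.
* `cheb_span`: every `p : ℝ[X]` with `natDegree < N` is `∑_{i<N} c_i T_i` (induction on `N`, the leading
  coefficient of `T_i` is not zero).
* `appr`: Let `g` be the extension of `D m` to `ℝ` constant outside `[-1,1]` (`Set.IccExtend`, it is
  `s`-Lipschitz), `g_δ(x) = (1/δ) ∫_0^δ g(x+t) dt = (1/δ) ∫_x^(x+δ) g` (`δ > 0` small): `g_δ` has the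
  continuous derivative `(g(x+δ) - g(x))/δ`, `|g_δ'| ≤ s`, `|g_δ - g| ≤ s δ`.  By the Weierstrass theorem
  (`polynomialFunctions`, e.g. `exists_polynomial_near_of_continuousOn`) there is a polynomial `r` with
  `|r - g_δ'| ≤ η` on `[-1,1]`.  Let `p_m` be the primitive of `r` with `p_m(0) = D m 0`,
  `p_{m-1}` the primitive of `p_m` with `p_{m-1}(0) = D (m-1) 0`, ..., `p = p_0`.  Then on `[-1,1]`
  `|p_m - D m| ≤ |p_m - g_δ - (p_m - g_δ)(0)| + |g_δ(0) - g(0)| + |g_δ - g| ≤ η + 2 s δ` and
  `|p_j - D j| ≤ sup |p_{j+1} - D (j+1)|` (mean value inequality, the difference vanishes at `0`).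
  So all differences are `≤ η + 2 s δ ≤ ε` and `|p^(m+1)| = |r| ≤ s + η`.
  (`s ≥ 0` follows from the Lipschitz condition.)
* `N` can be taken as large as wanted (pad `c` by zeros), stated as `n ≤ N`.
-/

namespace Pool.LKX

open Pool.LK1 (TJ InF)
open Set Polynomial

theorem cheb_span (N : ℕ) (p : ℝ[X]) (hp : p.natDegree < N) :
    ∃ c : ℕ → ℝ, p = ∑ i ∈ Finset.range N, C (c i) * Chebyshev.T ℝ (i : ℤ) := by
  have key : ∀ (N : ℕ) (p : ℝ[X]), p.degree < (N : WithBot ℕ) →
      ∃ c : ℕ → ℝ, p = ∑ i ∈ Finset.range N, C (c i) * Chebyshev.T ℝ (i : ℤ) := by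
    intro N
    induction N with
    | zero =>
      intro p hp
      refine ⟨fun _ => 0, ?_⟩
      have h0 : p = 0 := by
        by_contra h
        have := Polynomial.zero_le_degree_iff.2 h
        exact absurd (lt_of_le_of_lt this hp) (by simp)
      rw [h0]
      simp
    | succ N ih =>
      intro p hp
      set l := (Chebyshev.T ℝ (N : ℤ)).coeff N with hl
      have hnd : (Chebyshev.T ℝ (N : ℤ)).natDegree = N := by
        rw [Chebyshev.natDegree_T]
        simp
      have hl0 : l ≠ 0 := by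
        have h1 : (Chebyshev.T ℝ (N : ℤ)).leadingCoeff = l := by
          rw [Polynomial.leadingCoeff, hnd]
        rw [← h1, Chebyshev.leadingCoeff_T]
        positivity
      obtain ⟨c, hc⟩ := ih (p - C (p.coeff N / l) * Chebyshev.T ℝ (N : ℤ)) (by
        rw [Polynomial.degree_lt_iff_coeff_zero]
        intro k hk
        rw [coeff_sub, coeff_C_mul]
        rcases Nat.lt_or_ge N k with h | h
        · have h1 : p.coeff k = 0 := by
            apply coeff_eq_zero_of_degree_lt
            exact lt_of_lt_of_le hp (by exact_mod_cast h)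
          have h2 : (Chebyshev.T ℝ (N : ℤ)).coeff k = 0 :=
            coeff_eq_zero_of_natDegree_lt (by rw [hnd]; exact h)
          rw [h1, h2]
          ring
        · have hkN : k = N := le_antisymm h hk
          rw [hkN, ← hl]
          field_simp
          ring)
      refine ⟨fun i => if i = N then p.coeff N / l else c i, ?_⟩
      simp only [Finset.sum_range_succ, if_true]
      have h3 : ∑ i ∈ Finset.range N, C (if i = N then p.coeff N / l else c i) *
          Chebyshev.T ℝ (i : ℤ) = ∑ i ∈ Finset.range N, C (c i) * Chebyshev.T ℝ (i : ℤ) := by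
        refine Finset.sum_congr rfl fun i hi => ?_
        rw [if_neg (Finset.mem_range.1 hi).ne]
      rw [h3, ← hc]
      ring
  exact key N p (lt_of_le_of_lt degree_le_natDegree (by exact_mod_cast hp))

private theorem ap_prim0 (q : ℝ[X]) : ∃ Q : ℝ[X], derivative Q = q ∧ Q.eval 0 = 0 := by
  induction q using Polynomial.induction_on' with
  | add p q hp hq =>
    obtain ⟨P, h1, h2⟩ := hp
    obtain ⟨Q, h3, h4⟩ := hq
    exact ⟨P + Q, by rw [derivative_add, h1, h3], by rw [eval_add, h2, h4, add_zero]⟩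
  | monomial n a =>
    refine ⟨monomial (n + 1) (a / ((n : ℝ) + 1)), ?_, ?_⟩
    · rw [derivative_monomial]
      congr 1
      push_cast
      have : (n : ℝ) + 1 ≠ 0 := by positivity
      field_simp
    · rw [eval_monomial]
      simp

private theorem ap_prim (q : ℝ[X]) (v : ℝ) : ∃ Q : ℝ[X], derivative Q = q ∧ Q.eval 0 = v := by
  obtain ⟨Q, h1, h2⟩ := ap_prim0 q
  refine ⟨Q + C v, ?_, ?_⟩
  · rw [derivative_add, derivative_C, add_zero, h1]
  · rw [eval_add, eval_C, h2, zero_add]

private theorem ap_chain (r : ℝ[X]) (m : ℕ) : ∀ D : ℕ → ℝ, ∃ p : ℝ[X],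
    derivative^[m + 1] p = r ∧ ∀ j ≤ m, (derivative^[j] p).eval 0 = D j := by
  induction m with
  | zero =>
    intro D
    obtain ⟨p, h1, h2⟩ := ap_prim r (D 0)
    refine ⟨p, h1, fun j hj => ?_⟩
    obtain rfl : j = 0 := by omega
    exact h2
  | succ m ih =>
    intro D
    obtain ⟨p', h1, h2⟩ := ih fun j => D (j + 1)
    obtain ⟨p, h3, h4⟩ := ap_prim p' (D 0)
    refine ⟨p, ?_, fun j hj => ?_⟩
    · rw [Function.iterate_succ_apply, h3]
      exact h1
    · rcases j with _ | j
      · exact h4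
      · rw [Function.iterate_succ_apply, h3]
        exact h2 j (by omega)

/-- mean value inequality on `[-1,1]`, vanishing at `0` -/
private theorem ap_mvt {f f' : ℝ → ℝ} {B : ℝ}
    (hf : ∀ x ∈ Icc (-1 : ℝ) 1, HasDerivWithinAt f (f' x) (Icc (-1) 1) x)
    (hB : ∀ x ∈ Icc (-1 : ℝ) 1, |f' x| ≤ B) {x : ℝ} (hx : x ∈ Icc (-1 : ℝ) 1) :
    |f x - f 0| ≤ B := by
  have h0 : (0 : ℝ) ∈ Icc (-1 : ℝ) 1 := ⟨by norm_num, by norm_num⟩
  have h1 := Convex.norm_image_sub_le_of_norm_hasDerivWithin_le hf
    (fun y hy => by rw [Real.norm_eq_abs]; exact hB y hy) (convex_Icc (-1 : ℝ) 1) h0 hx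
  rw [Real.norm_eq_abs, Real.norm_eq_abs, sub_zero] at h1
  have hB0 : 0 ≤ B := le_trans (abs_nonneg _) (hB 0 h0)
  have h2 : |x| ≤ 1 := abs_le.2 ⟨hx.1, hx.2⟩
  calc |f x - f 0| ≤ B * |x| := h1
    _ ≤ B * 1 := mul_le_mul_of_nonneg_left h2 hB0
    _ = B := mul_one B

theorem appr {m : ℕ} {s : ℝ} {D : ℕ → ℝ → ℝ} (hD : InF m s (-1) 1 D) {ε : ℝ} (hε : 0 < ε) (n : ℕ) :
    ∃ (N : ℕ) (c : ℕ → ℝ), n ≤ N ∧
      (∀ j ≤ m, ∀ x ∈ Icc (-1 : ℝ) 1, |(∑ i ∈ Finset.range N, c i * TJ i j x) - D j x| ≤ ε) ∧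
      ∀ x ∈ Icc (-1 : ℝ) 1, |∑ i ∈ Finset.range N, c i * TJ i (m + 1) x| ≤ s + ε := by
  have hs : 0 ≤ s := by
    have h := hD.lip 1 ⟨by norm_num, le_refl _⟩ (-1) ⟨le_refl _, by norm_num⟩
    have h2 := le_trans (abs_nonneg _) h
    have h3 : |(1 : ℝ) - (-1)| = 2 := by norm_num
    rw [h3] at h2
    linarith
  -- the extension
  set cl : ℝ → ℝ := fun x => max (-1) (min 1 x) with hcl
  have hclm : ∀ x, cl x ∈ Icc (-1 : ℝ) 1 := by
    intro x
    simp only [hcl]
    exact ⟨le_max_left _ _, max_le (by norm_num) (min_le_left _ _)⟩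
  have hclx : ∀ x ∈ Icc (-1 : ℝ) 1, cl x = x := by
    intro x hx
    simp only [hcl]
    rw [min_eq_right hx.2, max_eq_right hx.1]
  have hcll : ∀ x y, |cl x - cl y| ≤ |x - y| := by
    intro x y
    simp only [hcl]
    calc |max (-1) (min 1 x) - max (-1) (min 1 y)| ≤ |min 1 x - min 1 y| := by
          have := abs_max_sub_max_le_abs (min 1 x) (min 1 y) (-1)
          rw [max_comm (min 1 x), max_comm (min 1 y)] at this
          exact this
      _ ≤ |x - y| := by
          have := abs_min_sub_min_le_max (1 : ℝ) x 1 y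
          rw [sub_self, abs_zero, max_eq_right (abs_nonneg _)] at this
          exact this
  set g : ℝ → ℝ := fun x => D m (cl x) with hg
  have hgl : ∀ x y, |g x - g y| ≤ s * |x - y| := by
    intro x y
    simp only [hg]
    exact (hD.lip _ (hclm x) _ (hclm y)).trans (mul_le_mul_of_nonneg_left (hcll x y) hs)
  have hgx : ∀ x ∈ Icc (-1 : ℝ) 1, g x = D m x := by
    intro x hx
    simp only [hg]
    rw [hclx x hx]
  have hgc : Continuous g := by
    have h1 : LipschitzWith (Real.toNNReal s) g := by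
      refine LipschitzWith.of_dist_le_mul fun x y => ?_
      rw [Real.dist_eq, Real.dist_eq, Real.coe_toNNReal s hs]
      exact hgl x y
    exact h1.continuous
  set G : ℝ → ℝ := fun x => ∫ t in (0 : ℝ)..x, g t with hG
  have hGd : ∀ x, HasDerivAt G (g x) x := fun x =>
    intervalIntegral.integral_hasDerivAt_right (hgc.intervalIntegrable _ _)
      (hgc.stronglyMeasurableAtFilter _ _) hgc.continuousAt
  obtain ⟨δ, hδ, hδs⟩ : ∃ δ : ℝ, 0 < δ ∧ 2 * (s * δ) ≤ ε / 2 := by
    refine ⟨ε / (4 * (s + 1)), by positivity, ?_⟩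
    have : 2 * (s * (ε / (4 * (s + 1)))) = (ε / 2) * (s / (s + 1)) := by
      field_simp
      ring
    rw [this]
    have h1 : s / (s + 1) ≤ 1 := by
      rw [div_le_one (by positivity)]
      linarith
    have h2 : 0 ≤ ε / 2 := by positivity
    nlinarith
  set gd : ℝ → ℝ := fun x => (G (x + δ) - G x) / δ with hgd
  set h : ℝ → ℝ := fun x => (g (x + δ) - g x) / δ with hh
  have hgdd : ∀ x, HasDerivAt gd (h x) x := by
    intro x
    have h1 : HasDerivAt (fun y => G (y + δ)) (g (x + δ)) x := (hGd (x + δ)).comp_add_const x δ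
    exact (h1.sub (hGd x)).div_const δ
  have hhs : ∀ x, |h x| ≤ s := by
    intro x
    simp only [hh]
    rw [abs_div, abs_of_pos hδ, div_le_iff₀ hδ]
    have h1 := hgl (x + δ) x
    have h2 : |x + δ - x| = δ := by
      rw [add_sub_cancel_left, abs_of_pos hδ]
    rw [h2] at h1
    exact h1
  have hgdg : ∀ x, |gd x - g x| ≤ s * δ := by
    intro x
    have h1 : ∀ y ∈ Icc x (x + δ), HasDerivWithinAt (fun z => G z - g x * z) (g y - g x)
        (Icc x (x + δ)) y := by
      intro y _
      have h2 : HasDerivAt (fun z => g x * z) (g x) y := by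
        simpa using (hasDerivAt_id y).const_mul (g x)
      exact ((hGd y).sub h2).hasDerivWithinAt
    have h3 : ∀ y ∈ Icc x (x + δ), ‖g y - g x‖ ≤ s * δ := by
      intro y hy
      rw [Real.norm_eq_abs]
      refine (hgl y x).trans (mul_le_mul_of_nonneg_left ?_ hs)
      rw [abs_of_nonneg (by linarith [hy.1])]
      linarith [hy.2]
    have h4 := Convex.norm_image_sub_le_of_norm_hasDerivWithin_le h1 h3 (convex_Icc x (x + δ))
      (left_mem_Icc.2 (by linarith)) (right_mem_Icc.2 (by linarith))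
    rw [Real.norm_eq_abs, Real.norm_eq_abs, add_sub_cancel_left, abs_of_pos hδ] at h4
    have h5 : gd x - g x = (G (x + δ) - g x * (x + δ) - (G x - g x * x)) / δ := by
      simp only [hgd]
      field_simp
      ring
    rw [h5, abs_div, abs_of_pos hδ, div_le_iff₀ hδ]
    exact h4
  have hhc : Continuous h := by
    simp only [hh]
    exact ((hgc.comp (continuous_id.add continuous_const)).sub hgc).div_const δ
  obtain ⟨r, hr⟩ := exists_polynomial_near_of_continuousOn (-1) 1 h hhc.continuousOn (ε / 2)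
    (by positivity)
  obtain ⟨p, hp1, hp2⟩ := ap_chain r m fun j => D j 0
  have h0mem : (0 : ℝ) ∈ Icc (-1 : ℝ) 1 := ⟨by norm_num, by norm_num⟩
  have hPd : ∀ j x, HasDerivAt (fun y => (derivative^[j] p).eval y)
      ((derivative^[j + 1] p).eval x) x := by
    intro j x
    rw [Function.iterate_succ_apply']
    exact Polynomial.hasDerivAt (derivative^[j] p) x
  have hm : ∀ x ∈ Icc (-1 : ℝ) 1, |(derivative^[m] p).eval x - D m x| ≤ ε := by
    intro x hx
    have h1 : |((derivative^[m] p).eval x - gd x) - ((derivative^[m] p).eval 0 - gd 0)| ≤ ε / 2 := by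
      refine ap_mvt (f := fun y => (derivative^[m] p).eval y - gd y)
        (f' := fun y => (derivative^[m + 1] p).eval y - h y)
        (fun y _ => ((hPd m y).sub (hgdd y)).hasDerivWithinAt) (fun y hy => ?_) hx
      rw [hp1]
      exact (hr y hy).le
    have h2 := hgdg x
    have h3 := hgdg 0
    rw [hgx x hx] at h2
    rw [hgx 0 h0mem] at h3
    rw [hp2 m (le_refl m)] at h1
    rw [abs_le] at h1 h2 h3 ⊢
    constructor <;> linarith [h1.1, h1.2, h2.1, h2.2, h3.1, h3.2]
  have hall : ∀ k ≤ m, ∀ x ∈ Icc (-1 : ℝ) 1, |(derivative^[m - k] p).eval x - D (m - k) x| ≤ ε := by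
    intro k
    induction k with
    | zero =>
      intro _ x hx
      rw [Nat.sub_zero]
      exact hm x hx
    | succ k ih =>
      intro hk x hx
      have hj : m - k = (m - (k + 1)) + 1 := by omega
      have h1 := ap_mvt (f := fun y => (derivative^[m - (k + 1)] p).eval y - D (m - (k + 1)) y)
        (f' := fun y => (derivative^[m - (k + 1) + 1] p).eval y - D (m - (k + 1) + 1) y)
        (B := ε)
        (fun y hy => (hPd _ y).hasDerivWithinAt.sub (hD.der _ (by omega) y hy))
        (fun y hy => by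
          have := ih (by omega) y hy
          rwa [hj] at this) hx
      rw [hp2 _ (by omega), sub_self, sub_zero] at h1
      exact h1
  obtain ⟨c, hc⟩ := cheb_span (max n (p.natDegree + 1)) p
    (lt_of_lt_of_le (Nat.lt_succ_self _) (le_max_right _ _))
  have hev : ∀ j x, (∑ i ∈ Finset.range (max n (p.natDegree + 1)), c i * TJ i j x) =
      (derivative^[j] p).eval x := by
    intro j x
    conv_rhs => rw [hc]
    rw [iterate_derivative_sum, eval_finset_sum]
    refine Finset.sum_congr rfl fun i _ => ?_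
    rw [iterate_derivative_C_mul, eval_mul, eval_C]
    rfl
  refine ⟨max n (p.natDegree + 1), c, le_max_left _ _, ?_, ?_⟩
  · intro j hj x hx
    rw [hev]
    have := hall (m - j) (Nat.sub_le _ _) x hx
    rwa [Nat.sub_sub_self hj] at this
  · intro x hx
    rw [hev, hp1]
    have h1 := (hr x hx).le
    have h2 := hhs x
    rw [abs_le] at h1 h2 ⊢
    constructor <;> linarith [h1.1, h1.2, h2.1, h2.2]

end Pool.LKX
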