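import Pool.Agent.LKX.Orth

/-!
# LKX/Pars: Parseval and the pointwise bound for polynomials

`q = ∑_{i<N} c_i T_i`, `q^(j)(x) = CS c N j x = ∑_{i<N} c_i TJ i j x`.
* `parseval0`: `∫_0^π q(cos t)² dt ≤ π M²` and the left hand side is `π c_0² + (π/2) ∑_{1≤i<N} c_i²`
  (`JJ_ne`, `JJ_self`, `JJ_zero_zero` with `k = 0`; expand the square of the sum).
* `parsevaln`: `σ = 2^(n-1) n! = TJ n n x` (constant, `n ≥ 1`).  `∫_0^π q^(n)(cos t)² sin^(2n) t dt ≤
  s² σ² ∫ sin^(2n) = s² JJ n n n = s² (π/2) hh n n`; the left hand side is `∑_{n≤i<N} c_i² (π/2) hh i n`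
  (`TJ i n = 0` for `i < n`).
* `pwP`: `q^(k)(x) = ∑_{k≤i<n} c_i TJ i k x + ∑_{n≤i<N} c_i TJ i k x`; Cauchy-Schwarz
  (`Finset.sum_mul_sq_le_sq_mul_sq`):
  `|first| ≤ √(∑ c_i²) √(∑_{k≤i<n} TJ²) ≤ M √2 √(∑ TJ²)` (as `k ≥ 1`),
  `|second| ≤ √(∑ c_i² hh i n) √(∑ TJ²/hh i n) ≤ s √(hh n n ∑ TJ²/hh i n)`.
-/

namespace Pool.LKX

open Pool.LK1 (TJ)
open Set

/-- `j`-th derivative of `∑_{i<N} c_i T_i` -/
noncomputable def CS (c : ℕ → ℝ) (N j : ℕ) (x : ℝ) : ℝ := ∑ i ∈ Finset.range N, c i * TJ i j x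

private theorem Pars_cont (i k : ℕ) : Continuous (TJ i k) :=
  continuous_iff_continuousAt.2 fun x => (Pool.LK1.TJ_hasDerivAt i k x).continuousAt

private theorem Pars_cont' (c : ℕ → ℝ) (N k : ℕ) : Continuous (CS c N k) := by
  unfold CS
  exact continuous_finsetSum _ fun i _ => continuous_const.mul (Pars_cont i k)

private theorem Pars_int (c : ℕ → ℝ) (N k : ℕ) :
    ∫ t in (0 : ℝ)..Real.pi, CS c N k (Real.cos t) ^ 2 * Real.sin t ^ (2 * k) =
      ∑ i ∈ Finset.range N, c i ^ 2 * JJ k i i := by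
  have e : ∀ t : ℝ, CS c N k (Real.cos t) ^ 2 * Real.sin t ^ (2 * k) =
      ∑ i ∈ Finset.range N, ∑ j ∈ Finset.range N, c i * c j *
        (TJ i k (Real.cos t) * TJ j k (Real.cos t) * Real.sin t ^ (2 * k)) := by
    intro t
    unfold CS
    rw [sq, Finset.sum_mul_sum, Finset.sum_mul]
    refine Finset.sum_congr rfl fun i _ => ?_
    rw [Finset.sum_mul]
    refine Finset.sum_congr rfl fun j _ => ?_
    ring
  have hc : ∀ i j : ℕ, Continuous fun t : ℝ => c i * c j *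
      (TJ i k (Real.cos t) * TJ j k (Real.cos t) * Real.sin t ^ (2 * k)) := by
    intro i j
    exact continuous_const.mul ((((Pars_cont i k).comp Real.continuous_cos).mul
      ((Pars_cont j k).comp Real.continuous_cos)).mul (Real.continuous_sin.pow _))
  simp only [e]
  rw [intervalIntegral.integral_finsetSum]
  · refine Finset.sum_congr rfl fun i hi => ?_
    rw [intervalIntegral.integral_finsetSum]
    · have h1 : ∀ j ∈ Finset.range N, j ≠ i → ∫ t in (0 : ℝ)..Real.pi, c i * c j *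
          (TJ i k (Real.cos t) * TJ j k (Real.cos t) * Real.sin t ^ (2 * k)) = 0 := by
        intro j _ hj
        rw [intervalIntegral.integral_const_mul]
        have := JJ_ne k (Ne.symm hj)
        unfold JJ at this
        rw [this, mul_zero]
      rw [Finset.sum_eq_single i h1 (fun h => absurd hi h), intervalIntegral.integral_const_mul]
      unfold JJ
      ring
    · intro j _
      exact (hc i j).intervalIntegrable _ _
  · intro i _
    refine Continuous.intervalIntegrable ?_ _ _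
    exact continuous_finsetSum _ fun j _ => hc i j

private theorem Pars_nonneg (k i : ℕ) : 0 ≤ JJ k i i := by
  unfold JJ
  apply intervalIntegral.integral_nonneg Real.pi_pos.le
  intro t _
  rw [pow_mul]
  exact mul_nonneg (mul_self_nonneg _) (pow_nonneg (sq_nonneg _) _)

private theorem Pars_diag {n : ℕ} (x : ℝ) :
    TJ n n x = 2 ^ (n - 1) * (n.factorial : ℝ) := by
  rw [Pool.LK1.TJ_diag]
  have h2 : (Polynomial.Chebyshev.T ℝ (n : ℤ)).coeff n = 2 ^ (n - 1) := by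
    have h3 := Polynomial.Chebyshev.leadingCoeff_T (R := ℝ) (n : ℤ)
    unfold Polynomial.leadingCoeff at h3
    rw [Polynomial.Chebyshev.natDegree_T, Int.natAbs_natCast] at h3
    exact h3
  rw [h2]
  ring

private theorem Pars_zero {i k : ℕ} (h : i < k) (x : ℝ) : TJ i k x = 0 := by
  unfold Pool.LK1.TJ
  rw [Polynomial.iterate_derivative_eq_zero, Polynomial.eval_zero]
  rw [Polynomial.Chebyshev.natDegree_T, Int.natAbs_natCast]
  exact h

private theorem Pars_bound {c : ℕ → ℝ} {N k : ℕ} {B : ℝ}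
    (h : ∀ x ∈ Icc (-1 : ℝ) 1, |CS c N k x| ≤ B) :
    ∑ i ∈ Finset.range N, c i ^ 2 * JJ k i i ≤
      ∫ t in (0 : ℝ)..Real.pi, B ^ 2 * Real.sin t ^ (2 * k) := by
  rw [← Pars_int]
  apply intervalIntegral.integral_mono_on Real.pi_pos.le
  · refine Continuous.intervalIntegrable ?_ _ _
    exact (((Pars_cont' c N k).comp Real.continuous_cos).pow 2).mul (Real.continuous_sin.pow _)
  · exact (continuous_const.mul (Real.continuous_sin.pow _)).intervalIntegrable _ _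
  · intro t _
    have h1 := h (Real.cos t) ⟨Real.neg_one_le_cos t, Real.cos_le_one t⟩
    have h2 : CS c N k (Real.cos t) ^ 2 ≤ B ^ 2 := by
      rw [← sq_abs]
      exact pow_le_pow_left₀ (abs_nonneg _) h1 2
    have h3 : 0 ≤ Real.sin t ^ (2 * k) := by
      rw [pow_mul]
      exact pow_nonneg (sq_nonneg _) _
    exact mul_le_mul_of_nonneg_right h2 h3

theorem parseval0 {c : ℕ → ℝ} {N : ℕ} {M : ℝ} (h : ∀ x ∈ Icc (-1 : ℝ) 1, |CS c N 0 x| ≤ M) :
    ∑ i ∈ Finset.Ico 1 N, c i ^ 2 ≤ 2 * M ^ 2 := by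
  have h1 := Pars_bound h
  have e1 : ∫ t in (0 : ℝ)..Real.pi, M ^ 2 * Real.sin t ^ (2 * 0) = Real.pi * M ^ 2 := by
    simp
  rw [e1] at h1
  have h2 : ∑ i ∈ Finset.Ico 1 N, c i ^ 2 * JJ 0 i i ≤
      ∑ i ∈ Finset.range N, c i ^ 2 * JJ 0 i i := by
    apply Finset.sum_le_sum_of_subset_of_nonneg
    · intro i hi
      rw [Finset.mem_Ico] at hi
      exact Finset.mem_range.2 hi.2
    · intro i _ _
      exact mul_nonneg (sq_nonneg _) (Pars_nonneg 0 i)
  have h3 : ∑ i ∈ Finset.Ico 1 N, c i ^ 2 * JJ 0 i i =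
      Real.pi / 2 * ∑ i ∈ Finset.Ico 1 N, c i ^ 2 := by
    rw [Finset.mul_sum]
    refine Finset.sum_congr rfl fun i hi => ?_
    rw [Finset.mem_Ico] at hi
    rw [JJ_self 0 hi.1, hh_zero]
    ring
  rw [h3] at h2
  have h4 : Real.pi / 2 * ∑ i ∈ Finset.Ico 1 N, c i ^ 2 ≤ Real.pi / 2 * (2 * M ^ 2) := by
    linarith
  exact le_of_mul_le_mul_left h4 (by positivity)

theorem parsevaln {c : ℕ → ℝ} {N n : ℕ} (hn : 1 ≤ n) {s : ℝ}
    (h : ∀ x ∈ Icc (-1 : ℝ) 1, |CS c N n x| ≤ s * (2 ^ (n - 1) * (n.factorial : ℝ))) :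
    ∑ i ∈ Finset.Ico n N, c i ^ 2 * hh i n ≤ s ^ 2 * hh n n := by
  have h1 := Pars_bound h
  have e1 : ∫ t in (0 : ℝ)..Real.pi, (s * (2 ^ (n - 1) * (n.factorial : ℝ))) ^ 2 *
      Real.sin t ^ (2 * n) = s ^ 2 * (Real.pi / 2 * hh n n) := by
    rw [← JJ_self n hn]
    unfold JJ
    rw [← intervalIntegral.integral_const_mul]
    refine intervalIntegral.integral_congr fun t _ => ?_
    rw [Pars_diag]
    ring
  rw [e1] at h1
  have h2 : ∑ i ∈ Finset.Ico n N, c i ^ 2 * JJ n i i ≤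
      ∑ i ∈ Finset.range N, c i ^ 2 * JJ n i i := by
    apply Finset.sum_le_sum_of_subset_of_nonneg
    · intro i hi
      rw [Finset.mem_Ico] at hi
      exact Finset.mem_range.2 hi.2
    · intro i _ _
      exact mul_nonneg (sq_nonneg _) (Pars_nonneg n i)
  have h3 : ∑ i ∈ Finset.Ico n N, c i ^ 2 * JJ n i i =
      Real.pi / 2 * ∑ i ∈ Finset.Ico n N, c i ^ 2 * hh i n := by
    rw [Finset.mul_sum]
    refine Finset.sum_congr rfl fun i hi => ?_
    rw [Finset.mem_Ico] at hi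
    rw [JJ_self n (hn.trans hi.1)]
    ring
  rw [h3] at h2
  have h4 : Real.pi / 2 * ∑ i ∈ Finset.Ico n N, c i ^ 2 * hh i n ≤
      Real.pi / 2 * (s ^ 2 * hh n n) := by
    linarith
  exact le_of_mul_le_mul_left h4 (by positivity)

theorem pwP {c : ℕ → ℝ} {N n k : ℕ} (hk : 1 ≤ k) (hkn : k ≤ n) (hN : n ≤ N) {M s : ℝ} (hM : 0 ≤ M)
    (hs : 0 ≤ s) (h0 : ∀ x ∈ Icc (-1 : ℝ) 1, |CS c N 0 x| ≤ M)
    (h1 : ∀ x ∈ Icc (-1 : ℝ) 1, |CS c N n x| ≤ s * (2 ^ (n - 1) * (n.factorial : ℝ))) (x : ℝ) :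
    |CS c N k x| ≤ M * √(2 * ∑ i ∈ Finset.Ico k n, TJ i k x ^ 2) +
      s * √(∑ i ∈ Finset.Ico n N, TJ i k x ^ 2 * (hh n n / hh i n)) := by
  have hn : 1 ≤ n := hk.trans hkn
  have hsplit : CS c N k x = ∑ i ∈ Finset.Ico k n, c i * TJ i k x +
      ∑ i ∈ Finset.Ico n N, c i * TJ i k x := by
    unfold CS
    rw [Finset.sum_Ico_consecutive _ hkn hN, Finset.range_eq_Ico,
      ← Finset.sum_Ico_consecutive _ (Nat.zero_le k) (hkn.trans hN)]
    have h0 : ∑ i ∈ Finset.Ico 0 k, c i * TJ i k x = 0 := by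
      apply Finset.sum_eq_zero
      intro i hi
      rw [Finset.mem_Ico] at hi
      rw [Pars_zero hi.2, mul_zero]
    rw [h0, zero_add]
  have b1 : |∑ i ∈ Finset.Ico k n, c i * TJ i k x| ≤
      M * √(2 * ∑ i ∈ Finset.Ico k n, TJ i k x ^ 2) := by
    have h3 : ∑ i ∈ Finset.Ico k n, c i ^ 2 ≤ 2 * M ^ 2 := by
      refine le_trans ?_ (parseval0 h0)
      apply Finset.sum_le_sum_of_subset_of_nonneg
      · intro i hi
        rw [Finset.mem_Ico] at hi ⊢
        omega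
      · intro i _ _
        exact sq_nonneg _
    have h4 : (∑ i ∈ Finset.Ico k n, c i * TJ i k x) ^ 2 ≤
        M ^ 2 * (2 * ∑ i ∈ Finset.Ico k n, TJ i k x ^ 2) := by
      refine (Finset.sum_mul_sq_le_sq_mul_sq _ _ _).trans ?_
      have h5 : 0 ≤ ∑ i ∈ Finset.Ico k n, TJ i k x ^ 2 := Finset.sum_nonneg fun i _ => sq_nonneg _
      have := mul_le_mul_of_nonneg_right h3 h5
      linarith
    have h6 := Real.abs_le_sqrt h4
    rwa [Real.sqrt_mul (sq_nonneg M), Real.sqrt_sq hM] at h6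
  have b2 : |∑ i ∈ Finset.Ico n N, c i * TJ i k x| ≤
      s * √(∑ i ∈ Finset.Ico n N, TJ i k x ^ 2 * (hh n n / hh i n)) := by
    have hpos : ∀ i ∈ Finset.Ico n N, 0 < hh i n := by
      intro i hi
      rw [Finset.mem_Ico] at hi
      exact hh_pos hi.1
    have hnn : 0 < hh n n := hh_pos le_rfl
    have h3 := parsevaln hn h1
    have h4 : (∑ i ∈ Finset.Ico n N, c i * TJ i k x) ^ 2 ≤
        s ^ 2 * ∑ i ∈ Finset.Ico n N, TJ i k x ^ 2 * (hh n n / hh i n) := by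
      have e1 : ∑ i ∈ Finset.Ico n N, c i * TJ i k x =
          ∑ i ∈ Finset.Ico n N, (c i * √(hh i n)) * (TJ i k x / √(hh i n)) := by
        refine Finset.sum_congr rfl fun i hi => ?_
        have := (Real.sqrt_pos.2 (hpos i hi)).ne'
        field_simp
      rw [e1]
      refine (Finset.sum_mul_sq_le_sq_mul_sq _ _ _).trans ?_
      have e2 : ∑ i ∈ Finset.Ico n N, (c i * √(hh i n)) ^ 2 =
          ∑ i ∈ Finset.Ico n N, c i ^ 2 * hh i n := by
        refine Finset.sum_congr rfl fun i hi => ?_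
        rw [mul_pow, Real.sq_sqrt (hpos i hi).le]
      have e3 : ∑ i ∈ Finset.Ico n N, (TJ i k x / √(hh i n)) ^ 2 =
          ∑ i ∈ Finset.Ico n N, TJ i k x ^ 2 / hh i n := by
        refine Finset.sum_congr rfl fun i hi => ?_
        rw [div_pow, Real.sq_sqrt (hpos i hi).le]
      rw [e2, e3]
      have h5 : 0 ≤ ∑ i ∈ Finset.Ico n N, TJ i k x ^ 2 / hh i n :=
        Finset.sum_nonneg fun i hi => div_nonneg (sq_nonneg _) (hpos i hi).le
      refine (mul_le_mul_of_nonneg_right h3 h5).trans (le_of_eq ?_)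
      rw [mul_assoc]
      congr 1
      rw [Finset.mul_sum]
      refine Finset.sum_congr rfl fun i _ => ?_
      ring
    have h6 := Real.abs_le_sqrt h4
    rwa [Real.sqrt_mul (sq_nonneg s), Real.sqrt_sq hs] at h6
  rw [hsplit]
  exact (abs_add_le _ _).trans (add_le_add b1 b2)

end Pool.LKX
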