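import Pool.Agent.LKX.LowB
import Pool.Agent.LKX.Tail
import Pool.Agent.LK2.Loc
import Pool.Agent.LKX.Pars
import Pool.Agent.LKX.Appr

/-!
# LKX/Pw: the pointwise bound for the `k`-th derivative in the bulk

`X` the largest zero of `T_n^(k+1)` (`IsFirst n k X`), `|x| ≤ X`.  `M² := TJ n k X ² ≤ Th2 n k` (`th`, `Pool.LK2.loc_S`; `Sq n k = bb n k`).
 For `q = ∑_{i<N} c_i T_i` with `|q| ≤ 1+ε`, `|q^(n)| ≤ s σ + ε`, `σ = 2^(n-1) n!` (so
 `|q^(n)| ≤ (s + ε/σ) σ`): `pwP` and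
  `2 ∑_{k≤i<n} TJ i k x ² ≤ (lo n k)² M²` (`lowB`),
  `∑_{n≤i<N} TJ i k x ² hh n n/hh i n = TJ n k x ² + ∑_{n+1≤i<N} ... ≤ M² + tb Th2` (`sonin_zero`, `tail`),
 so `|q^(k)(x)| ≤ (1+ε) lo √Th2 + (s + ε/σ) √(Th2 (1+tb))`.  With `appr` (`m = n-1`, `m+1 = n`)
 `|D k x| ≤ |q^(k)(x)| + ε`, `ε → 0`.
-/

namespace Pool.LKX

open Pool.LK1 (TJ InF)
open Pool.LK2 (IsFirst)
open Set

private theorem pw_bb (n k : ℕ) : Pool.LK2.Sq n k = bb n k := by
  unfold Pool.LK2.Sq bb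
  have hk : (0 : ℝ) ≤ k := Nat.cast_nonneg k
  have h1 : (n : ℝ) ^ 2 + 3 * (k : ℝ) + 17 / 4 ≠ 0 := by positivity
  have h2 : 4 * (n : ℝ) ^ 2 + 12 * k + 17 ≠ 0 := by positivity
  rw [div_eq_div_iff h1 h2]
  ring

theorem pw {n k : ℕ} (hk : 2 ≤ k) (hn : k + 3 ≤ n) {X : ℝ} (hX : IsFirst n k X) {s : ℝ} (hs : 0 ≤ s)
    {D : ℕ → ℝ → ℝ} (hD : InF (n - 1) (s * (2 ^ (n - 1) * (n.factorial : ℝ))) (-1) 1 D)
    {x : ℝ} (hx : |x| ≤ X) :
    |D k x| ≤ √(Th2 n k) * lo n k + s * (√(Th2 n k) * √(1 + tb n k)) := by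
  have hb : bb n k ≤ 1 - X ^ 2 := by
    rw [← pw_bb]
    exact Pool.LK2.loc_S n k (by omega) hX
  have hX1 : X ≤ 1 := hX.lt_one.le
  have hXa : |X| ≤ 1 := by rw [abs_of_nonneg hX.nonneg]; exact hX1
  have hT := th (n := n) (k := k) (by omega) (by omega) hXa hX.zero hb
  have hTp : 0 < Th2 n k := Th2_pos (by omega)
  have hlow := lowB (n := n) (k := k) (by omega) (by omega) hx hX1 hX.zero
  have hlo0 : 0 ≤ lo n k := lo_nonneg (by omega) (by omega)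
  have hxI : x ∈ Icc (-1 : ℝ) 1 := by
    have := abs_le.1 (hx.trans hX1)
    exact ⟨this.1, this.2⟩
  obtain ⟨σ, hσ⟩ : ∃ σ : ℝ, σ = 2 ^ (n - 1) * (n.factorial : ℝ) := ⟨_, rfl⟩
  have hσ0 : 0 < σ := by rw [hσ]; positivity
  -- first square root
  have hr1 : √(2 * ∑ i ∈ Finset.Ico k n, TJ i k x ^ 2) ≤ √(Th2 n k) * lo n k := by
    have h1 : 2 * ∑ i ∈ Finset.Ico k n, TJ i k x ^ 2 ≤ Th2 n k * lo n k ^ 2 := by
      refine hlow.trans ?_
      have := mul_le_mul_of_nonneg_left hT (sq_nonneg (lo n k))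
      linarith
    refine (Real.sqrt_le_sqrt h1).trans (le_of_eq ?_)
    rw [Real.sqrt_mul hTp.le, Real.sqrt_sq hlo0]
  -- second square root
  have hr2 : ∀ N : ℕ, n + 1 ≤ N → √(∑ i ∈ Finset.Ico n N, TJ i k x ^ 2 * (hh n n / hh i n)) ≤
      √(Th2 n k) * √(1 + tb n k) := by
    intro N hN
    have h1 : ∑ i ∈ Finset.Ico n N, TJ i k x ^ 2 * (hh n n / hh i n) ≤ Th2 n k * (1 + tb n k) := by
      rw [Finset.sum_eq_sum_Ico_succ_bot (by omega)]
      have h2 := tail (N := N) hk hn hx hb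
      have h3 := sonin_zero (i := n) (k := k) (by omega) hx hX1 hX.zero
      rw [div_self (hh_pos (le_refl n)).ne', mul_one]
      linarith
    refine (Real.sqrt_le_sqrt h1).trans (le_of_eq ?_)
    rw [Real.sqrt_mul hTp.le]
  obtain ⟨A, hA⟩ : ∃ A : ℝ, A = √(Th2 n k) * lo n k := ⟨_, rfl⟩
  obtain ⟨B, hB⟩ : ∃ B : ℝ, B = √(Th2 n k) * √(1 + tb n k) := ⟨_, rfl⟩
  have hA0 : 0 ≤ A := by rw [hA]; exact mul_nonneg (Real.sqrt_nonneg _) hlo0
  have hB0 : 0 ≤ B := by rw [hB]; positivity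
  rw [← hA, ← hB]
  rw [← hA] at hr1
  rw [← hB] at hr2
  rw [← hσ] at hD
  -- bound with ε
  have key : ∀ ε : ℝ, 0 < ε → |D k x| ≤ (1 + ε) * A + (s + ε / σ) * B + ε := by
    intro ε hε
    obtain ⟨N, c, hN, h0, h1⟩ := appr hD hε (n + 1)
    have hn1 : n - 1 + 1 = n := by omega
    rw [hn1] at h1
    have hM : ∀ y ∈ Icc (-1 : ℝ) 1, |CS c N 0 y| ≤ 1 + ε := by
      intro y hy
      have h2 := h0 0 (Nat.zero_le _) y hy
      have h3 := hD.bd y hy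
      have h4 : CS c N 0 y = (CS c N 0 y - D 0 y) + D 0 y := by ring
      rw [h4]
      refine (abs_add_le _ _).trans ?_
      have h5 : |CS c N 0 y - D 0 y| ≤ ε := h2
      linarith
    have hS : ∀ y ∈ Icc (-1 : ℝ) 1, |CS c N n y| ≤ (s + ε / σ) * (2 ^ (n - 1) * (n.factorial : ℝ)) := by
      intro y hy
      rw [← hσ]
      have h2 : |CS c N n y| ≤ s * σ + ε := h1 y hy
      have h3 : (s + ε / σ) * σ = s * σ + ε := by
        field_simp
      rw [h3]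
      exact h2
    have hP := pwP (c := c) (N := N) (n := n) (k := k) (by omega) (by omega) (by omega)
      (M := 1 + ε) (s := s + ε / σ) (by linarith) (by positivity) hM hS x
    have h2 := h0 k (by omega) x hxI
    have h3 : |CS c N k x - D k x| ≤ ε := h2
    have h4 : D k x = CS c N k x - (CS c N k x - D k x) := by ring
    have h5 : |D k x| ≤ |CS c N k x| + |CS c N k x - D k x| := by
      rw [h4]
      refine (abs_sub _ _).trans ?_
      have : CS c N k x - (CS c N k x - (CS c N k x - D k x)) = CS c N k x - D k x := by ring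
      rw [this]
    have h6 : (1 + ε) * √(2 * ∑ i ∈ Finset.Ico k n, TJ i k x ^ 2) ≤ (1 + ε) * A :=
      mul_le_mul_of_nonneg_left hr1 (by linarith)
    have h7 : (s + ε / σ) * √(∑ i ∈ Finset.Ico n N, TJ i k x ^ 2 * (hh n n / hh i n)) ≤
        (s + ε / σ) * B := mul_le_mul_of_nonneg_left (hr2 N hN) (by positivity)
    linarith
  refine le_of_forall_pos_le_add fun δ hδ => ?_
  have hK : 0 < A + B / σ + 1 := by positivity
  have h1 := key (δ / (A + B / σ + 1)) (by positivity)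
  refine h1.trans (le_of_eq ?_)
  field_simp
  ring

end Pool.LKX
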