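import Pool.Agent.LKX.Q2A

/-!
# LKX/Q2B: (this file: part (B), part (A) is `Q2A.log_Th_le`) explicit inequality for `7k ≤ 4n`, `n ≥ 19`

`κ = k + 3/2`, `N0 = n² - (k+1)²`, `S = Sq n k = κ(k+11/2)/(n²+3k+17/4)`.

(A) `log_Th_le`: `-½ log Th ≥ 0.4818 k + 6k/(4k+3) + 22k/(4k+11) - 2.048` (`k ≥ 7`, `7k ≤ 4n`, `n ≥ 19`).
 `-½ log Th = log Pi2 + k log S + ½ log N0 - log n - 2 log (dfo k)`, and
 * `log Pi2 = 2k log n + ∑_{i<k} log (1-i²/n²) ≥ 2k log n - 0.1319 k`: `-log (1-t) ≤ 1.211 t` for `0 ≤ t ≤ 16/49`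
   (convexity of `-log (1-t)`, `log (49/33) ≤ 0.3954`), `∑_{i<k} i² ≤ k³/3`, `k² ≤ (16/49) n²`;
 * `k log S = k log ((k+3/2)(k+11/2)) - k log (n²+3k+17/4)`
   `≥ 2k log k + 6k/(4k+3) + 22k/(4k+11) - 2k log n - k(3k+17/4)/n²` (`log (1+z) ≥ 2z/(2+z)`, `log (1+z) ≤ z`),
   `k(3k+17/4)/n² ≤ 3·16/49 + (17/4)(4/7)/19 ≤ 1.1075`;
 * `½ log N0 - log n = ½ log (1-((k+1)/n)²) ≥ -0.2468` (`(k+1)/n ≤ 4/7 + 1/19`, `½ log 0.6105`);
 * `2 log (dfo k) ≤ log 2 + 2k log (2k) - 2k`: `dfo k · 2^k k! = (2k)!` and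
   `log (2k)! - log k! ≤ ½ log 2 + 2k log (2k) - k log k - k` (`Stirling.stirlingSeq'_antitone`,
   `Stirling.log_stirlingSeq_formula`).
 Sum: `k (2 - 2 log 2 - 0.1319) + ... - 1.1075 - 0.2468 - log 2`.
(B) `β² = min (N0 + κ) (3κ(2-S)/S²)`.  Both conditions hold: `S(n²-1/4) - κ(k-1/2) = 3κ(2-S)`
 (`(k+11/2)(3k+9/2) = 3κ(k+11/2)`).  It remains `3kπ/β < -½ log Th`, i.e. with (A):
 * branch `β² = N0 + κ`: `7 ≤ k ≤ 10`: `N0 + κ ≥ 361 - (k+1)² + κ`, `3kπ/β ≤ 3.78, 4.44, 5.15, 5.95` and the bound (A)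
   is `6.62, 7.26, 7.88, 8.47`; `k ≥ 11`: `n ≥ 7k/4`, `N0 + κ ≥ 2.0625 k² - k + 1/2`, `3kπ/β ≤ 6.71`, (A) `≥ 9.05`
   (`6k/(4k+3) + 22k/(4k+11) ≥ 5.8` for `k ≥ 11`).
 * branch `β² = 3κ(2-S)/S²`: `S ≤ 0.506` (`k = 7..10`: `n ≥ 19`, `S ≤ 0.4511`; `k ≥ 11`: `n ≥ 7k/4`,
   `S ≤ κ(k+11/2)/((49/16)k²+3k+17/4) ≤ 0.506`), `S/√(2-S) ≤ 0.4140`, so
   `3kπ/β ≤ 9.4248 · 0.4140 k/√(3κ) ≤ 2.2528 √k`; `k = 7..10`: `5.97, 6.38, 6.76, 7.13`; `k ≥ 11`: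
   `2.2528 √k < 0.4818 k + 3.75` (discriminant `< 0`).
All numbers checked numerically.
-/

namespace Pool.LKX

open Real
open Pool.LK2 (Pi2 Sq Th dfo)

private lemma q2b_B {κ S s : ℝ} (hκ : 0 < κ) (hS : 0 < S) (hs : S ≤ s) (hs2 : s < 2) :
    3 * κ * (2 - s) / s ^ 2 ≤ 3 * κ * (2 - S) / S ^ 2 := by
  have hs0 : 0 < s := lt_of_lt_of_le hS hs
  rw [div_le_div_iff₀ (by positivity) (by positivity)]
  have h1 : S ^ 2 ≤ s ^ 2 := by nlinarith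
  have h2 : 3 * κ * (2 - s) ≤ 3 * κ * (2 - S) := by nlinarith
  have h3 : 0 ≤ 3 * κ * (2 - s) := by
    have : 0 < 2 - s := by linarith
    positivity
  calc 3 * κ * (2 - s) * S ^ 2 ≤ 3 * κ * (2 - s) * s ^ 2 := mul_le_mul_of_nonneg_left h1 h3
    _ ≤ 3 * κ * (2 - S) * s ^ 2 := mul_le_mul_of_nonneg_right h2 (by positivity)

/-- the small cases -/
private lemma q2b_small {K N S s r : ℝ} (hK : 7 ≤ K) (hK' : K ≤ 10) (hN : 19 ≤ N) (hS : 0 < S) (hs : S ≤ s)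
    (hs2 : s < 2) (hr : 0 < r)
    (h1 : 88.83 * K ^ 2 < r ^ 2 * (361 - (K + 1) ^ 2 + (K + 3 / 2)))
    (h2 : 88.83 * K ^ 2 * s ^ 2 < r ^ 2 * (3 * (K + 3 / 2) * (2 - s))) :
    88.83 * K ^ 2 < r ^ 2 * (N ^ 2 - (K + 1) ^ 2 + (K + 3 / 2)) ∧
      88.83 * K ^ 2 < r ^ 2 * (3 * (K + 3 / 2) * (2 - S) / S ^ 2) := by
  have hs0 : 0 < s := lt_of_lt_of_le hS hs
  refine ⟨lt_of_lt_of_le h1 ?_, ?_⟩
  · apply mul_le_mul_of_nonneg_left _ (by positivity)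
    nlinarith
  · have h3 := q2b_B (κ := K + 3 / 2) (by linarith) hS hs hs2
    have h4 : 88.83 * K ^ 2 < r ^ 2 * (3 * (K + 3 / 2) * (2 - s) / s ^ 2) := by
      rw [← mul_div_assoc, lt_div_iff₀ (by positivity)]
      exact h2
    exact lt_of_lt_of_le h4 (mul_le_mul_of_nonneg_left h3 (by positivity))

private lemma q2b_big {K N S r : ℝ} (hK : 11 ≤ K) (hN : 7 * K ≤ 4 * N) (hS : 0 < S)
    (hSD : S * (N ^ 2 + 3 * K + 17 / 4) = (K + 3 / 2) * (K + 11 / 2))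
    (hr : 0.4818 * K + 3.752 ≤ r) :
    88.83 * K ^ 2 < r ^ 2 * (N ^ 2 - (K + 1) ^ 2 + (K + 3 / 2)) ∧
      88.83 * K ^ 2 < r ^ 2 * (3 * (K + 3 / 2) * (2 - S) / S ^ 2) := by
  have hN2 : 49 / 16 * K ^ 2 ≤ N ^ 2 := by nlinarith
  have hr0 : 0 < r := by linarith
  have hr9 : 9.05 ≤ r := by linarith
  have hr2 : (0.4818 * K + 3.752) ^ 2 ≤ r ^ 2 := by
    apply pow_le_pow_left₀ (by linarith) hr
  have hS5 : S ≤ 0.506 := by
    by_contra hc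
    push Not at hc
    have hD : 49 / 16 * K ^ 2 + 3 * K + 17 / 4 ≤ N ^ 2 + 3 * K + 17 / 4 := by linarith
    have h1 : 0.506 * (49 / 16 * K ^ 2 + 3 * K + 17 / 4) < S * (N ^ 2 + 3 * K + 17 / 4) := by
      have hD0 : 0 < 49 / 16 * K ^ 2 + 3 * K + 17 / 4 := by positivity
      calc 0.506 * (49 / 16 * K ^ 2 + 3 * K + 17 / 4) < S * (49 / 16 * K ^ 2 + 3 * K + 17 / 4) :=
            mul_lt_mul_of_pos_right hc hD0
        _ ≤ S * (N ^ 2 + 3 * K + 17 / 4) := mul_le_mul_of_nonneg_left hD hS.le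
    rw [hSD] at h1
    nlinarith
  constructor
  · have h1 : 81.9 ≤ r ^ 2 := by nlinarith
    have h2 : 2.0625 * K ^ 2 - K + 1 / 2 ≤ N ^ 2 - (K + 1) ^ 2 + (K + 3 / 2) := by nlinarith
    have h3 : 0 ≤ 2.0625 * K ^ 2 - K + 1 / 2 := by nlinarith
    have h4 : 81.9 * (2.0625 * K ^ 2 - K + 1 / 2) ≤ r ^ 2 * (N ^ 2 - (K + 1) ^ 2 + (K + 3 / 2)) :=
      mul_le_mul h1 h2 h3 (by positivity)
    nlinarith
  · have h3 := q2b_B (κ := K + 3 / 2) (by linarith) hS hS5 (by norm_num)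
    have h4 : 88.83 * K ^ 2 < r ^ 2 * (3 * (K + 3 / 2) * (2 - 0.506) / 0.506 ^ 2) := by
      have h5 : 88.83 * K ^ 2 < (0.4818 * K + 3.752) ^ 2 * (3 * (K + 3 / 2) * (2 - 0.506) / 0.506 ^ 2) := by
        rw [← mul_div_assoc, lt_div_iff₀ (by norm_num)]
        have h6 : 0 < 0.23213 * K ^ 2 - 1.459 * K + 14.07 := by nlinarith [sq_nonneg (K - 3.14)]
        have h7 : 5.0746 * K < (0.4818 * K + 3.752) ^ 2 := by nlinarith
        have h8 : 5.0746 * K * (K + 3 / 2) < (0.4818 * K + 3.752) ^ 2 * (K + 3 / 2) :=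
          mul_lt_mul_of_pos_right h7 (by linarith)
        nlinarith
      refine lt_of_lt_of_le h5 (mul_le_mul_of_nonneg_right hr2 ?_)
      have : (0:ℝ) < K + 3 / 2 := by linarith
      positivity
    exact lt_of_lt_of_le h4 (mul_le_mul_of_nonneg_left h3 (by positivity))

theorem exists_beta {n k : ℕ} (hk : 7 ≤ k) (h : 7 * k ≤ 4 * n) (h19 : 19 ≤ n) :
    ∃ β : ℝ, 0 < β ∧ β ^ 2 ≤ (n : ℝ) ^ 2 - ((k : ℝ) + 1) ^ 2 + ((k : ℝ) + 3 / 2) ∧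
      β ^ 2 * Sq n k ^ 2 ≤ Sq n k * ((n : ℝ) ^ 2 - 1 / 4) - ((k : ℝ) + 3 / 2) * ((k : ℝ) - 1 / 2) ∧
      6 * k * π / β + Real.log (Th n k) < 0 := by
  have hlog := log_Th_le hk h h19
  have hK : (7:ℝ) ≤ (k:ℝ) := by exact_mod_cast hk
  have hN : (19:ℝ) ≤ (n:ℝ) := by exact_mod_cast h19
  have hNK : 7 * (k:ℝ) ≤ 4 * (n:ℝ) := by exact_mod_cast h
  have hD : 0 < (n:ℝ) ^ 2 + 3 * (k:ℝ) + 17 / 4 := by positivity
  have hSdef : Sq n k = (((k : ℝ) + 3 / 2) * ((k : ℝ) + 11 / 2)) / ((n : ℝ) ^ 2 + 3 * (k : ℝ) + 17 / 4) := rfl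
  have hS : 0 < Sq n k := by rw [hSdef]; positivity
  have hSD : Sq n k * ((n:ℝ) ^ 2 + 3 * (k:ℝ) + 17 / 4) = ((k:ℝ) + 3 / 2) * ((k:ℝ) + 11 / 2) := by
    rw [hSdef]; field_simp
  set S : ℝ := Sq n k with hSset
  set R : ℝ := 0.4818 * (k : ℝ) + 6 * k / (4 * k + 3) + 22 * k / (4 * k + 11) - 2.048 with hR
  have key : 0 < R ∧ 88.83 * (k:ℝ) ^ 2 < R ^ 2 * ((n:ℝ) ^ 2 - ((k:ℝ) + 1) ^ 2 + ((k:ℝ) + 3 / 2)) ∧
      88.83 * (k:ℝ) ^ 2 < R ^ 2 * (3 * ((k:ℝ) + 3 / 2) * (2 - S) / S ^ 2) := by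
    by_cases hk10 : k ≤ 10
    · have hN2 : (361:ℝ) ≤ (n:ℝ) ^ 2 := by nlinarith
      have hSle : ∀ s : ℝ, 0 < s → ((k:ℝ) + 3 / 2) * ((k:ℝ) + 11 / 2) ≤ s * (361 + 3 * (k:ℝ) + 17 / 4) → S ≤ s := by
        intro s hs0 hs
        rw [← mul_le_mul_iff_of_pos_right hD, hSD]
        refine hs.trans ?_
        apply mul_le_mul_of_nonneg_left _ hs0.le
        linarith
      have hk' : (k:ℝ) ≤ 10 := by exact_mod_cast hk10
      clear_value S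
      clear hSset hSdef hlog
      interval_cases k
      · have hr0 : 0 < R := by rw [hR]; norm_num
        have hs := hSle 0.46 (by norm_num) (by norm_num)
        refine ⟨hr0, q2b_small hK hk' hN hS hs (by norm_num) hr0 ?_ ?_⟩
        · rw [hR]; norm_num
        · rw [hR]; norm_num
      · have hr0 : 0 < R := by rw [hR]; norm_num
        have hs := hSle 0.46 (by norm_num) (by norm_num)
        refine ⟨hr0, q2b_small hK hk' hN hS hs (by norm_num) hr0 ?_ ?_⟩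
        · rw [hR]; norm_num
        · rw [hR]; norm_num
      · have hr0 : 0 < R := by rw [hR]; norm_num
        have hs := hSle 0.46 (by norm_num) (by norm_num)
        refine ⟨hr0, q2b_small hK hk' hN hS hs (by norm_num) hr0 ?_ ?_⟩
        · rw [hR]; norm_num
        · rw [hR]; norm_num
      · have hr0 : 0 < R := by rw [hR]; norm_num
        have hs := hSle 0.46 (by norm_num) (by norm_num)
        refine ⟨hr0, q2b_small hK hk' hN hS hs (by norm_num) hr0 ?_ ?_⟩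
        · rw [hR]; norm_num
        · rw [hR]; norm_num
    · have hk11 : 11 ≤ k := by omega
      have hK11 : (11:ℝ) ≤ (k:ℝ) := by exact_mod_cast hk11
      have hr : 0.4818 * (k:ℝ) + 3.752 ≤ R := by
        have e1 : (66 / 47 : ℝ) ≤ 6 * k / (4 * k + 3) := by
          rw [div_le_div_iff₀ (by norm_num) (by positivity)]
          nlinarith
        have e2 : (242 / 55 : ℝ) ≤ 22 * k / (4 * k + 11) := by
          rw [div_le_div_iff₀ (by norm_num) (by positivity)]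
          nlinarith
        rw [hR]
        have e3 : (5.8 : ℝ) ≤ 66 / 47 + 242 / 55 := by norm_num
        linarith
      have hr0 : 0 < R := by nlinarith
      exact ⟨hr0, q2b_big hK11 hNK hS hSD hr⟩
  obtain ⟨hR0, k1, k2⟩ := key
  set A : ℝ := (n:ℝ) ^ 2 - ((k:ℝ) + 1) ^ 2 + ((k:ℝ) + 3 / 2) with hA
  set B : ℝ := 3 * ((k:ℝ) + 3 / 2) * (2 - S) / S ^ 2 with hB
  have hb : 88.83 * (k:ℝ) ^ 2 < R ^ 2 * min A B := by
    rcases min_choice A B with e | e <;> rw [e] <;> assumption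
  have hb0 : 0 < min A B := by
    by_contra hc
    push Not at hc
    have : R ^ 2 * min A B ≤ 0 := mul_nonpos_of_nonneg_of_nonpos (by positivity) hc
    have h2 : 0 ≤ 88.83 * (k:ℝ) ^ 2 := by positivity
    linarith
  have hsq : Real.sqrt (min A B) ^ 2 = min A B := Real.sq_sqrt hb0.le
  have hβ0 : 0 < Real.sqrt (min A B) := Real.sqrt_pos.2 hb0
  refine ⟨Real.sqrt (min A B), hβ0, ?_, ?_, ?_⟩
  · rw [hsq]; exact min_le_left _ _
  · rw [hsq]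
    have e1 : min A B * S ^ 2 ≤ B * S ^ 2 := mul_le_mul_of_nonneg_right (min_le_right _ _) (by positivity)
    have e2 : B * S ^ 2 = 3 * ((k:ℝ) + 3 / 2) * (2 - S) := by
      rw [hB]; field_simp
    have e3 : S * ((n : ℝ) ^ 2 - 1 / 4) - ((k : ℝ) + 3 / 2) * ((k : ℝ) - 1 / 2) =
        3 * ((k:ℝ) + 3 / 2) * (2 - S) := by linarith
    linarith
  · have e1 : 6 * (k:ℝ) * π / Real.sqrt (min A B) < 2 * R := by
      rw [div_lt_iff₀ hβ0]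
      have e2 : (3 * (k:ℝ) * π) ^ 2 < (R * Real.sqrt (min A B)) ^ 2 := by
        rw [mul_pow R, hsq]
        have hpi : π ^ 2 < 9.87 := by
          have := Real.pi_lt_d4
          have h0 := Real.pi_pos
          nlinarith
        have : (3 * (k:ℝ) * π) ^ 2 = 9 * (k:ℝ) ^ 2 * π ^ 2 := by ring
        rw [this]
        have h3 : 9 * (k:ℝ) ^ 2 * π ^ 2 ≤ 9 * (k:ℝ) ^ 2 * 9.87 :=
          mul_le_mul_of_nonneg_left hpi.le (by positivity)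
        nlinarith
      have e3 := lt_of_pow_lt_pow_left₀ 2 (by positivity) e2
      linarith
    linarith

end Pool.LKX
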