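import Pool.Agent.LKX.I1
import Pool.Agent.LKX.I2A
import Pool.Agent.LKX.I2R
import Pool.Agent.LKX.I2T
import Pool.Agent.LKX.Q2B
import Pool.Agent.LKX.Pw
import Pool.Agent.LK2.Zsp
import Pool.Agent.LK2.Scl
import Pool.Agent.LK2.Win
import Pool.Agent.LK2.Son
import Pool.Agent.KFL.BaseN

/-!
# LKX/Bulk: critical values in the bulk for `L ≥ L_n = 2H` (`H = Hn n`), `n ≥ 19`, `k ≥ 7`

Windows: for `f ∈ W[0,L]`, `0 < c`, `0 ≤ a`, `a + 2c ≤ L`, `c ≤ H`: `D j x = c^j f j (a + c (1+x))` is in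
`InF (n-1) (c^n) (-1) 1`, `c^n ≤ H^n = 2^(n-1) n!`.

(i) `7k > 4n`.  `y` in the bulk: choose `a ∈ [0, L-2H]` with `x = (y-a)/H - 1 ∈ [-x1, x1]`.  `pw` (`s = 1`):
 `H^k |f k y| ≤ √Th2 lo + √Th2 √(1+tb) < ck LL = ck H^k` (`ra_lt`, from `I1_high_aux2`, `log_Th2`, `tb_le`,
 `lo_le`, `TR_pos`, `cl_le_ck'`), and `ck ≤ Ee n L k` (`ck_le_Ee`: `exists_F`, `le_Ee`).
(ii) `7k ≤ 4n`.  `δ = π/β` (`exists_beta`, `S = Sq n k`), `M = |TJ n k x1|`.
 If `L ≥ (2+δ)H`: let `l = (y-L)/H + 1`, `r = y/H - 1`, `r - l = L/H - 2 ≥ δ`, `l ≤ x1`, `-x1 ≤ r`.  There is a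
 zero `x'` of `T_{k+1}` with `|x'| ≤ x1`, `l ≤ x' ≤ r`: if `r ≥ x1`: `x' = x1`; if `l ≤ -x1`: `x' = -x1` (parity);
 otherwise `zsp'` at `x = l`.  Window `a = y - H(1+x') ∈ [0, L-2H]`; `win_core` with `u = 0`:
 `H^k |f k y| ≤ |T_k(x')| ≤ M < ck LL` (`abs_le_first`, `first_crit_lt`).
 If `L < (2+δ)H`: by reflection assume `y ≤ L/2`, `d = L-y ≥ H`, `x = d/H - 1 ≥ 0`.  If `x ≥ x1`: window
 `a = y - (1-x1)H`, `a + 2H = y + (1+x1) H ≤ L`: `M < ck LL` as before.  If `x < x1`: `zsp'`: zero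
 `x' ∈ [x, x+δ]`, `x' ≤ x1`; window `[L-2c, L]`, `c = d/(1+x') ≤ H`, where `y` has the coordinate `-x'`:
 `c^k |f k y| ≤ M`, `c ≥ H/(1+δ)`, so `H^k |f k y| ≤ (1+δ)^k M`.
 `Ee_scale`, `Ee_base`: `TJ n k 1/H^k = Ee n (2H) k ≤ (L/(2H))^k Ee n L k ≤ (1+δ/2)^k Ee n L k`, and
 `(1+δ)^k (1+δ/2)^k M ≤ e^(3kδ/2) M < TJ n k 1`, since `M⁴ ≤ Th (TJ n k 1)⁴` (`th_bound`) and
 `6kδ + log Th < 0`.
-/

namespace Pool.LKX

open Set
open Pool.LK1 (TJ InF)
open Pool.LK2 (IsFirst)
open Pool.Agent.LKI (InW)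
open Pool.Agent.KFL (Ee Hn)

theorem ck_le_Ee {n k : ℕ} (hn : 2 ≤ n) (hk : k < n) {L : ℝ} (hL : 0 < L) : ck n k ≤ Ee n L k := by
  obtain ⟨F, hF, hF0⟩ := exists_F hn hk
  exact hF0.trans (Pool.Agent.KFL.le_Ee hn hL (hF.mono Icc_subset_Ici_self) hk)

theorem LL_eq (n k : ℕ) : LL n k = Hn n ^ k := by
  unfold LL Hn
  have hσ : 0 ≤ (2 : ℝ) ^ (n - 1) * (n.factorial : ℝ) := by positivity
  generalize (2 : ℝ) ^ (n - 1) * (n.factorial : ℝ) = σ at hσ
  rw [← Real.rpow_natCast (σ ^ ((1 : ℝ) / n)) k, ← Real.rpow_mul hσ]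
  congr 1
  ring

/-- the inequality for the pointwise bound -/
theorem ra_lt {n k : ℕ} (hn : k + 3 ≤ n) (h19 : 19 ≤ n) (h : 4 * n < 7 * k) :
    √(Th2 n k) * lo n k + √(Th2 n k) * √(1 + tb n k) < ck n k * LL n k := by
  obtain ⟨j, rfl⟩ : ∃ j, n = j + k := ⟨n - k, by omega⟩
  have hj3 : 3 ≤ j := by omega
  have hk7 : 7 ≤ k := by omega
  have hjk : j < k := by omega
  have hj3' : (3 : ℝ) ≤ j := by exact_mod_cast hj3
  have hk7' : (7 : ℝ) ≤ k := by exact_mod_cast hk7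
  have hTR := TR_pos hj3 h19 (by omega)
  have haux := I1_high_aux2 (by omega : 2 ≤ j) hjk h19
  have hth := log_Th2 (by omega : 1 ≤ k) hn
  have htb := tb_le hj3 hk7
  have hlo := lo_le hj3 (by omega : 1 ≤ k)
  have hTh := Th2_pos (n := j + k) (k := k) (by omega)
  have hlo0 := lo_nonneg (n := j + k) (k := k) (by omega) (by omega)
  have htb0 := tb_nonneg (n := j + k) (k := k) hn
  have hcl := cl_pos (n := j + k) (k := j) (by omega)
  have hck := ck_pos (n := j + k) (k := k) (by omega)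
  have hLL := LL_pos (j + k) k
  have hclck : cl (j + k) j ≤ ck (j + k) k := by
    have := cl_le_ck' (n := j + k) (k := k) (by omega)
    rwa [show j + k - k = j by omega] at this
  -- the logarithm of the left hand side
  have hs1 : 0 < √(1 + tb (j + k) k) := Real.sqrt_pos.2 (by linarith)
  have hsum : 0 < lo (j + k) k + √(1 + tb (j + k) k) := by linarith
  have hb : lo (j + k) k + √(1 + tb (j + k) k) ≤
      (j : ℝ) * √(2 / ((j : ℝ) + k)) + √(1 + 0.29 * ((j : ℝ) / (j - 2))) :=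
    add_le_add hlo (Real.sqrt_le_sqrt (by linarith))
  have hlogb := Real.log_le_log hsum hb
  have hlogcl := Real.log_le_log hcl hclck
  have hmono : Real.log (((j + k : ℕ) : ℝ) ^ 2 - ((k : ℝ) + 1) ^ 2) ≤
      Real.log (((j + k : ℕ) : ℝ) ^ 2 - (k : ℝ) ^ 2) := by
    apply Real.log_le_log
    · push_cast
      nlinarith
    · nlinarith
  have hlog : Real.log (√(Th2 (j + k) k) * (lo (j + k) k + √(1 + tb (j + k) k))) <
      Real.log (ck (j + k) k * LL (j + k) k) := by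
    rw [Real.log_mul (Real.sqrt_pos.2 hTh).ne' hsum.ne', Real.log_mul hck.ne' hLL.ne',
      Real.log_sqrt hTh.le]
    unfold TR at hTR
    push_cast at *
    linarith
  have := (Real.log_lt_log_iff (mul_pos (Real.sqrt_pos.2 hTh) hsum) (mul_pos hck hLL)).1 hlog
  rw [← mul_add]
  exact this

/-- window with `y` at a zero of `T_n^(k+1)` -/
theorem win_zero {n k : ℕ} (hk : 1 ≤ k) (hn : k + 2 ≤ n) {x1 : ℝ} (hx : IsFirst n k x1) {L : ℝ}
    {f : ℕ → ℝ → ℝ} (hf : InW n (Icc 0 L) f) {c x' y : ℝ} (hc : 0 < c) (hcH : c ≤ Hn n)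
    (ha : 0 ≤ y - c * (1 + x')) (hb : y + c * (1 - x') ≤ L) (hx' : |x'| ≤ x1)
    (hz : TJ n (k + 1) x' = 0) (h0 : f (k + 1) y = 0) : c ^ k * |f k y| ≤ |TJ n k x1| := by
  obtain ⟨m, rfl⟩ : ∃ m, n = m + 1 := ⟨n - 1, by omega⟩
  have hS : Icc (y - c * (1 + x')) (y - c * (1 + x') + 2 * c) ⊆ Icc 0 L :=
    Icc_subset_Icc ha (by linarith)
  have h1 := Pool.LK2.W_to_F' hc hS hf
  have hH := Pool.Agent.KFL.Hn_pow (n := m + 1) (by omega)
  rw [Nat.add_sub_cancel] at hH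
  have h2 : InF m (2 ^ m * ((m + 1).factorial : ℝ)) (-1) 1
      (fun j x => c ^ j * f j (y - c * (1 + x') + c * (1 + x))) := by
    refine Pool.LK2.inF_mono ?_ h1
    rw [← hH]
    exact pow_le_pow_left₀ hc.le hcH _
  have e : y - c * (1 + x') + c * (1 + x') = y := by ring
  have h3 := Pool.LK2.win_core m k (by omega) h2 (x := x') (u := 0)
    (hx'.trans_lt hx.lt_one) (by simp only [e, h0, mul_zero]) (by rw [hz]; ring)
  simp only [e, zero_mul, add_zero, abs_mul, abs_pow, abs_of_pos hc] at h3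
  exact h3.trans (Pool.LK2.abs_le_first (m + 1) k hk hn hx hx')

/-- reflection of the interval -/
theorem refl_W {n : ℕ} {L : ℝ} {f : ℕ → ℝ → ℝ} (hf : InW n (Icc 0 L) f) :
    InW n (Icc 0 L) (fun j t => (-1) ^ j * f j (L - t)) where
  jet := by
    constructor
    · intro j hj t ht
      have hm : L - t ∈ Icc 0 L := ⟨by linarith [ht.2], by linarith [ht.1]⟩
      have h1 := hf.jet.hasDeriv j hj _ hm
      have h2 : HasDerivWithinAt (fun t : ℝ => L - t) (-1) (Icc 0 L) t := by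
        have := ((hasDerivAt_id t).const_sub L).hasDerivWithinAt (s := Icc 0 L)
        exact this
      have h3 := h1.comp t h2 (fun s hs => ⟨by linarith [hs.2], by linarith [hs.1]⟩)
      refine (h3.const_mul ((-1) ^ j)).congr_deriv ?_
      ring
    · intro s hs t ht
      have h1 := hf.jet.lip (L - s) ⟨by linarith [hs.2], by linarith [hs.1]⟩ (L - t)
        ⟨by linarith [ht.2], by linarith [ht.1]⟩
      rw [← mul_sub, abs_mul, abs_neg_one_pow, one_mul]
      refine h1.trans (le_of_eq ?_)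
      rw [show L - s - (L - t) = -(s - t) by ring, abs_neg]
  bdd := by
    intro t ht
    have := hf.bdd (L - t) ⟨by linarith [ht.2], by linarith [ht.1]⟩
    simpa using this

/-- case (i) -/
theorem bulk_high {n k : ℕ} (hn : k + 3 ≤ n) (h19 : 19 ≤ n) (h : 4 * n < 7 * k) {x1 : ℝ}
    (hx : IsFirst n k x1) {L : ℝ} (hL : 2 * Hn n ≤ L) {f : ℕ → ℝ → ℝ} (hf : InW n (Icc 0 L) f) {y : ℝ}
    (hy1 : (1 - x1) * Hn n ≤ y) (hy2 : y ≤ L - (1 - x1) * Hn n) :
    |f k y| < Ee n L k := by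
  have hH := Pool.Agent.KFL.Hn_pos n
  have hx0 := hx.nonneg
  -- the position of the window
  obtain ⟨a, ha0, haL, hxa⟩ : ∃ a, 0 ≤ a ∧ a + 2 * Hn n ≤ L ∧ |(y - a) / Hn n - 1| ≤ x1 := by
    rcases le_or_gt y ((1 + x1) * Hn n) with h1 | h1
    · refine ⟨0, le_rfl, by linarith, ?_⟩
      rw [sub_zero, abs_le]
      constructor
      · have : 1 - x1 ≤ y / Hn n := (le_div_iff₀ hH).2 hy1
        linarith
      · have : y / Hn n ≤ 1 + x1 := (div_le_iff₀ hH).2 h1
        linarith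
    · refine ⟨y - (1 + x1) * Hn n, by linarith, by linarith, ?_⟩
      have e : (y - (y - (1 + x1) * Hn n)) / Hn n - 1 = x1 := by
        rw [sub_sub_cancel, mul_div_cancel_right₀ _ hH.ne']
        ring
      rw [e, abs_of_nonneg hx0]
  obtain ⟨m, rfl⟩ : ∃ m, n = m + 1 := ⟨n - 1, by omega⟩
  have h1 := Pool.LK2.W_to_F' hH (Icc_subset_Icc ha0 haL) hf
  have hHp := Pool.Agent.KFL.Hn_pow (n := m + 1) (by omega)
  rw [hHp] at h1
  have h2 := pw (n := m + 1) (k := k) (by omega) hn hx (s := 1) zero_le_one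
    (D := fun j x => Hn (m + 1) ^ j * f j (a + Hn (m + 1) * (1 + x)))
    (by rw [one_mul, Nat.add_sub_cancel]; rw [Nat.add_sub_cancel] at h1; exact h1) hxa
  have e : a + Hn (m + 1) * (1 + ((y - a) / Hn (m + 1) - 1)) = y := by
    field_simp
    ring
  simp only [e, one_mul, abs_mul, abs_pow, abs_of_pos hH] at h2
  have h3 := h2.trans_lt (ra_lt hn h19 h)
  rw [LL_eq, mul_comm (ck (m + 1) k)] at h3
  have h4 := lt_of_mul_lt_mul_left h3 (pow_nonneg hH.le k)
  exact h4.trans_le (ck_le_Ee (by omega) (by omega) (by linarith))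

/-- `M < (TJ n k 1) / ((1+δ)^k (1+δ/2)^k)` -/
theorem first_lt {n k : ℕ} (hk : 1 ≤ k) (hn : k + 2 ≤ n) {x1 β : ℝ} (hx : IsFirst n k x1) (hβ : 0 < β)
    (h : 6 * k * Real.pi / β + Real.log (Pool.LK2.Th n k) < 0) :
    (1 + Real.pi / β) ^ k * (1 + Real.pi / β / 2) ^ k * |TJ n k x1| < TJ n k 1 := by
  have hδ : 0 < Real.pi / β := div_pos Real.pi_pos hβ
  set δ := Real.pi / β with hδdef
  have hTh := Pool.LK2.th_pos n k hn
  have ha : 0 < TJ n k 1 := Pool.LK2.TJ_pos_of_one_le n k (by omega) le_rfl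
  have h1 : (1 + δ) ^ k * (1 + δ / 2) ^ k ≤ Real.exp (3 / 2 * k * δ) := by
    have e1 : 1 + δ ≤ Real.exp δ := by linarith [Real.add_one_le_exp δ]
    have e2 : 1 + δ / 2 ≤ Real.exp (δ / 2) := by linarith [Real.add_one_le_exp (δ / 2)]
    have e3 : Real.exp (3 / 2 * k * δ) = Real.exp δ ^ k * Real.exp (δ / 2) ^ k := by
      rw [← Real.exp_nat_mul, ← Real.exp_nat_mul, ← Real.exp_add]
      congr 1
      ring
    rw [e3]
    exact mul_le_mul (pow_le_pow_left₀ (by positivity) e1 k) (pow_le_pow_left₀ (by positivity) e2 k)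
      (by positivity) (by positivity)
  have h2 := Pool.LK2.th_bound n k hk hn hx
  have h3 : Real.exp (3 / 2 * k * δ) ^ 4 * Pool.LK2.Th n k < 1 := by
    rw [← Real.exp_nat_mul]
    have : Real.log (Real.exp (((4 : ℕ) : ℝ) * (3 / 2 * k * δ)) * Pool.LK2.Th n k) < 0 := by
      rw [Real.log_mul (Real.exp_pos _).ne' hTh.ne', Real.log_exp]
      have e : ((4 : ℕ) : ℝ) * (3 / 2 * k * δ) = 6 * k * Real.pi / β := by
        rw [hδdef]
        push_cast
        ring
      rw [e]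
      exact h
    by_contra hcon
    push Not at hcon
    exact absurd this (not_lt.2 (Real.log_nonneg hcon))
  have h4 : (Real.exp (3 / 2 * k * δ) * |TJ n k x1|) ^ 4 < TJ n k 1 ^ 4 := by
    have e : |TJ n k x1| ^ 4 = TJ n k x1 ^ 4 := by rw [Even.pow_abs (by decide)]
    rw [mul_pow, e]
    calc Real.exp (3 / 2 * k * δ) ^ 4 * TJ n k x1 ^ 4 ≤
        Real.exp (3 / 2 * k * δ) ^ 4 * (Pool.LK2.Th n k * TJ n k 1 ^ 4) :=
          mul_le_mul_of_nonneg_left h2 (by positivity)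
      _ = (Real.exp (3 / 2 * k * δ) ^ 4 * Pool.LK2.Th n k) * TJ n k 1 ^ 4 := by ring
      _ < 1 * TJ n k 1 ^ 4 := mul_lt_mul_of_pos_right h3 (by positivity)
      _ = TJ n k 1 ^ 4 := one_mul _
  have h5 := lt_of_pow_lt_pow_left₀ 4 ha.le h4
  exact (mul_le_mul_of_nonneg_right h1 (abs_nonneg _)).trans_lt h5

/-- case (ii) with `y ≤ L / 2` -/
theorem bulk_low {n k : ℕ} (hk : 7 ≤ k) (hn : k + 3 ≤ n) (h19 : 19 ≤ n) (h : 7 * k ≤ 4 * n) {x1 : ℝ}
    (hx : IsFirst n k x1) {L : ℝ} (hL : 2 * Hn n ≤ L) {f : ℕ → ℝ → ℝ} (hf : InW n (Icc 0 L) f) {y : ℝ}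
    (hy1 : (1 - x1) * Hn n ≤ y) (hy2 : y ≤ L / 2) (h0 : f (k + 1) y = 0) :
    |f k y| < Ee n L k := by
  have hH := Pool.Agent.KFL.Hn_pos n
  have hx0 := hx.nonneg
  have hx1 := hx.lt_one
  obtain ⟨β, hβ, hβ1, hβ2, hβ3⟩ := exists_beta hk h h19
  have hδ : 0 < Real.pi / β := div_pos Real.pi_pos hβ
  have hS := Pool.LK2.loc_S n k (by omega) hx
  have hS0 := Sq_pos n k
  have hzsp := fun {x : ℝ} (h1 : -x1 ≤ x) (h2 : x ≤ x1) =>
    Pool.LK2.zsp' n k (by omega) hx hS0 hS hβ hβ1 hβ2 h1 h2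
  have hM := first_crit_lt (by omega : 2 ≤ k) (by omega : k + 2 ≤ n) hx
  have hck := ck_le_Ee (n := n) (k := k) (by omega) (by omega) (show 0 < L by linarith)
  -- a window of full length at a zero
  have hfull : ∀ x', |x'| ≤ x1 → TJ n (k + 1) x' = 0 → 0 ≤ y - Hn n * (1 + x') →
      y + Hn n * (1 - x') ≤ L → |f k y| < Ee n L k := by
    intro x' h1 h2 h3 h4
    have h5 := (win_zero (by omega) (by omega) hx hf hH le_rfl h3 h4 h1 h2 h0).trans_lt hM
    rw [LL_eq, mul_comm (ck n k)] at h5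
    exact (lt_of_mul_lt_mul_left h5 (pow_nonneg hH.le k)).trans_le hck
  rcases le_or_gt ((2 + Real.pi / β) * Hn n) L with hc | hc
  · rcases le_or_gt ((1 + x1) * Hn n) y with hr | hr
    · exact hfull x1 (by rw [abs_of_nonneg hx0]) hx.zero (by linarith) (by nlinarith)
    rcases le_or_gt ((y - L) / Hn n + 1) (-x1) with hl | hl
    · have hz : TJ n (k + 1) (-x1) = 0 := by
        rw [Pool.LK2.parity, hx.zero, mul_zero]
      have h5 : (y - L) / Hn n ≤ -(1 + x1) := by linarith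
      rw [div_le_iff₀ hH] at h5
      refine hfull (-x1) (by rw [abs_neg, abs_of_nonneg hx0]) hz ?_ ?_
      · have : Hn n * (1 + -x1) = (1 - x1) * Hn n := by ring
        rw [this]
        linarith
      · linarith
    · have h6 : (y - L) / Hn n + 1 ≤ x1 := by
        have : (y - L) / Hn n ≤ -(1 - x1) := by
          rw [div_le_iff₀ hH]
          nlinarith
        linarith
      obtain ⟨x', hx', hx'1, hz⟩ := hzsp hl.le h6
      have h7 : (y - L) / Hn n + 1 ≤ x' := hx'.1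
      have h8 : x' ≤ (y - L) / Hn n + 1 + Real.pi / β := hx'.2
      have h9 : (y - L) ≤ (x' - 1) * Hn n := by
        rw [← div_le_iff₀ hH]
        linarith
      have h10 : (x' - 1 - Real.pi / β) * Hn n ≤ y - L := by
        rw [← le_div_iff₀ hH]
        linarith
      refine hfull x' (abs_le.2 ⟨by linarith, hx'1⟩) hz ?_ ?_
      · nlinarith
      · nlinarith
  · -- `L < (2+δ) H`
    have hLpos : 0 < L := by linarith
    have hd : Hn n ≤ L - y := by linarith
    rcases le_or_gt ((1 + x1) * Hn n) (L - y) with hr | hr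
    · have hz : TJ n (k + 1) (-x1) = 0 := by
        rw [Pool.LK2.parity, hx.zero, mul_zero]
      refine hfull (-x1) (by rw [abs_neg, abs_of_nonneg hx0]) hz ?_ ?_
      · have : Hn n * (1 + -x1) = (1 - x1) * Hn n := by ring
        rw [this]
        linarith
      · linarith
    · set x := (L - y) / Hn n - 1 with hxdef
      have hxge : 0 ≤ x := by
        have : 1 ≤ (L - y) / Hn n := (one_le_div hH).2 hd
        linarith
      have hxle : x ≤ x1 := by
        have : (L - y) / Hn n ≤ 1 + x1 := (div_le_iff₀ hH).2 hr.le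
        linarith
      have hdx : L - y = Hn n * (1 + x) := by
        rw [hxdef]
        field_simp
        ring
      obtain ⟨x', hx', hx'1, hz⟩ := hzsp (by linarith : -x1 ≤ x) hxle
      have hx'0 : 0 ≤ x' := hxge.trans hx'.1
      have hp : 0 < 1 + x' := by linarith
      set c := (L - y) / (1 + x') with hcdef
      have hc0 : 0 < c := div_pos (by linarith) hp
      have hcx : c * (1 + x') = L - y := by
        rw [hcdef, div_mul_cancel₀ _ hp.ne']
      have hcH : c ≤ Hn n := by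
        rw [hcdef, div_le_iff₀ hp, hdx]
        exact mul_le_mul_of_nonneg_left (by linarith [hx'.1]) hH.le
      have hcl : Hn n ≤ c * (1 + Real.pi / β) := by
        rw [hcdef, div_mul_eq_mul_div, le_div_iff₀ hp, hdx, mul_assoc]
        refine mul_le_mul_of_nonneg_left ?_ hH.le
        nlinarith [hx'.2, mul_nonneg hxge hδ.le]
      have hzn : TJ n (k + 1) (-x') = 0 := by
        rw [Pool.LK2.parity, hz, mul_zero]
      have h5 := win_zero (by omega : 1 ≤ k) (by omega) hx hf hc0 hcH (x' := -x') (y := y)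
        (by nlinarith) (by linarith) (by rw [abs_neg, abs_of_nonneg hx'0]; exact hx'1) hzn h0
      -- scaling of the extremal value
      have h6 := Pool.Agent.KFL.Ee_scale (n := n) (by omega) (show 0 < 2 * Hn n by linarith) hL k
      rw [Pool.Agent.KFL.Ee_base (by omega) (by omega)] at h6
      have h7 := first_lt (by omega : 1 ≤ k) (by omega : k + 2 ≤ n) hx hβ hβ3
      have hE : 0 < Ee n L k :=
        lt_of_lt_of_le one_pos (Pool.Agent.KFL.Ee_ge_one (by omega) hLpos k)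
      have hr1 : L / (2 * Hn n) ≤ 1 + Real.pi / β / 2 := by
        rw [div_le_iff₀ (by linarith)]
        linarith
      have h8 : TJ n k 1 ≤ Hn n ^ k * ((1 + Real.pi / β / 2) ^ k * Ee n L k) := by
        rw [div_le_iff₀ (pow_pos hH k)] at h6
        refine h6.trans ?_
        have : (L / (2 * Hn n)) ^ k ≤ (1 + Real.pi / β / 2) ^ k :=
          pow_le_pow_left₀ (by positivity) hr1 k
        calc (L / (2 * Hn n)) ^ k * Ee n L k * Hn n ^ k ≤
            (1 + Real.pi / β / 2) ^ k * Ee n L k * Hn n ^ k := by gcongr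
          _ = _ := by ring
      have h9 : Hn n ^ k * |f k y| ≤ (1 + Real.pi / β) ^ k * |TJ n k x1| := by
        calc Hn n ^ k * |f k y| ≤ (c * (1 + Real.pi / β)) ^ k * |f k y| := by gcongr
          _ = (1 + Real.pi / β) ^ k * (c ^ k * |f k y|) := by rw [mul_pow]; ring
          _ ≤ _ := mul_le_mul_of_nonneg_left h5 (by positivity)
      have h10 : (1 + Real.pi / β / 2) ^ k * (Hn n ^ k * |f k y|) <
          (1 + Real.pi / β / 2) ^ k * (Hn n ^ k * Ee n L k) := by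
        calc (1 + Real.pi / β / 2) ^ k * (Hn n ^ k * |f k y|) ≤
            (1 + Real.pi / β / 2) ^ k * ((1 + Real.pi / β) ^ k * |TJ n k x1|) :=
              mul_le_mul_of_nonneg_left h9 (by positivity)
          _ = (1 + Real.pi / β) ^ k * (1 + Real.pi / β / 2) ^ k * |TJ n k x1| := by ring
          _ < TJ n k 1 := h7
          _ ≤ Hn n ^ k * ((1 + Real.pi / β / 2) ^ k * Ee n L k) := h8
          _ = _ := by ring
      exact lt_of_mul_lt_mul_left (lt_of_mul_lt_mul_left h10 (by positivity)) (by positivity)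

theorem bulk_ok {n k : ℕ} (hk : 7 ≤ k) (hn : k + 3 ≤ n) (h19 : 19 ≤ n) {x1 : ℝ} (hx : IsFirst n k x1)
    {L : ℝ} (hL : 2 * Hn n ≤ L) {f : ℕ → ℝ → ℝ} (hf : InW n (Icc 0 L) f) {y : ℝ}
    (hy1 : (1 - x1) * Hn n ≤ y) (hy2 : y ≤ L - (1 - x1) * Hn n) (h0 : f (k + 1) y = 0) :
    |f k y| < Ee n L k := by
  rcases lt_or_ge (4 * n) (7 * k) with h | h
  · exact bulk_high hn h19 h hx hL hf hy1 hy2
  · rcases le_or_gt y (L / 2) with hy | hy
    · exact bulk_low hk hn h19 h hx hL hf hy1 hy h0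
    · have h1 := bulk_low hk hn h19 h hx hL (refl_W hf) (y := L - y) (by linarith) (by linarith)
        (by
          show (-1) ^ (k + 1) * f (k + 1) (L - (L - y)) = 0
          rw [sub_sub_cancel, h0, mul_zero])
      have h2 : |(-1) ^ k * f k (L - (L - y))| < Ee n L k := h1
      rwa [sub_sub_cancel, abs_mul, abs_neg_one_pow, one_mul] at h2

end Pool.LKX
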