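import Pool.Agent.LKX.HH

/-!
# LKX/CD: Christoffel-Darboux sums for the derivatives of the Chebyshev polynomials

Notation `A_i = TJ i k x = T_i^(k)(x)`, `B_i = TJ i (k+1) x`, `C_i = TJ i (k+2) x`, `h_i = hh i k`.

`cd`: induction on `p` from `p = k` (`Nat.le_induction`).
 Base `p = k`: `A_k = TJ k k x`, `B_k = 0` (`TJ_zero_of_lt`), so the claim is
 `A_k²/h_k = 1/(2(k+1)h_k) B_{k+1} A_k`, and `k B_{k+1} = (k+1)(x B_k + 2k A_k) = 2k(k+1) A_k`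
 (`TJ_up' k k`), i.e. `B_{k+1} = 2(k+1) A_k` (`k ≥ 1`).
 Step `p → p+1`: the difference of the right hand sides is, by `TJ_three p k`, `TJ_three' p k`,
   `p(p+2-k) A_{p+2} = 2p(p+2) x A_{p+1} - (p+2)(p+k) A_p`,
   `p(p+2-k) B_{p+2} = 2p(p+2) (A_{p+1} + x B_{p+1}) - (p+2)(p+k) B_p`, hence
   `p(p+2-k)(B_{p+2} A_{p+1} - A_{p+2} B_{p+1}) = 2p(p+2) A_{p+1}² + (p+2)(p+k) (A_p B_{p+1} - B_p A_{p+1})`,
   and `h_{p+1} p (p+1-k) = h_p (p+1)(p+k)` (`hh_ratio`); so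
   `(p+2-k)/(2(p+2)h_{p+1}) (B_{p+2}A_{p+1} - A_{p+2}B_{p+1})
     = A_{p+1}²/h_{p+1} + (p+k)/(2p h_{p+1}) (A_p B_{p+1} - B_p A_{p+1})` and
   `(p+k)/(p h_{p+1}) = (p+1-k)/((p+1) h_p)`.

`cd_zero`: if `B_{p+1} = 0`, then `(p+1) B_p = -p (p+1-k) A_{p+1}` (`TJ_down' p k`); insert in `cd`.

`cd_zero'`: `cd` with `k+1` in place of `k` and `p + 1 = n`; `(1-x²) C_n = -(n²-k²) A_n` (`TJ_ode n k`),
 `B_p = -(p(n-k)/n) A_n`, `hh p (k+1) = hh p k (p²-k²)`, `p - k = n - 1 - k`: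
 `(1-x²) ∑ = (n-k-1)/(2n h_p (p²-k²)) (1-x²) C_n B_p = (n-k-1)/(2n h_p (p-k)(p+k)) (n²-k²)(p(n-k)/n) A_n²`.

Numerically checked.
-/

namespace Pool.LKX

open Pool.LK1 (TJ)

private theorem cd_base {k : ℕ} (hk : 1 ≤ k) (x : ℝ) :
    TJ (k + 1) (k + 1) x = 2 * ((k : ℝ) + 1) * TJ k k x := by
  have h := TJ_up' k k x
  rw [TJ_zero_of_lt k (k + 1) (Nat.lt_succ_self k) x] at h
  have hk' : (k : ℝ) ≠ 0 := by
    have : (1 : ℝ) ≤ k := by exact_mod_cast hk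
    intro h0; rw [h0] at this; linarith
  apply mul_left_cancel₀ hk'
  linear_combination h

theorem cd {k p : ℕ} (hk : 1 ≤ k) (hp : k ≤ p) (x : ℝ) :
    ∑ i ∈ Finset.Icc k p, TJ i k x ^ 2 / hh i k =
      ((p : ℝ) + 1 - k) / (2 * ((p : ℝ) + 1) * hh p k) *
        (TJ (p + 1) (k + 1) x * TJ p k x - TJ (p + 1) k x * TJ p (k + 1) x) := by
  induction p, hp using Nat.le_induction with
  | base =>
    rw [Finset.Icc_self, Finset.sum_singleton, cd_base hk x,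
      TJ_zero_of_lt k (k + 1) (Nat.lt_succ_self k) x]
    have h1 : (k : ℝ) + 1 ≠ 0 := by positivity
    have h2 : hh k k ≠ 0 := (hh_pos le_rfl).ne'
    field_simp
    ring
  | succ p hp ih =>
    rw [Finset.sum_Icc_succ_top (by omega), ih]
    have h3 := TJ_three p k x
    have h4 := TJ_three' p k x
    have h5 := hh_ratio p k
    have hp0 : (1 : ℝ) ≤ p := by exact_mod_cast (le_trans hk hp)
    have hkp : (k : ℝ) ≤ p := by exact_mod_cast hp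
    have h6 : hh p k ≠ 0 := (hh_pos hp).ne'
    have h7 : hh (p + 1) k ≠ 0 := (hh_pos (le_trans hp (Nat.le_succ p))).ne'
    have hpne : (p : ℝ) ≠ 0 := by intro h0; rw [h0] at hp0; linarith
    have hp1 : (p : ℝ) + 1 ≠ 0 := by positivity
    have hp2 : (p : ℝ) + 2 ≠ 0 := by positivity
    have e1 : ((p : ℝ) + 1 - k) / (2 * ((p : ℝ) + 1) * hh p k) =
        ((p : ℝ) + k) / (2 * p * hh (p + 1) k) := by
      rw [div_eq_div_iff (by positivity) (by positivity)]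
      linear_combination 2 * h5
    rw [e1]
    push_cast
    have e2 : (p : ℝ) * (p + 2 - k) *
        (TJ (p + 2) (k + 1) x * TJ (p + 1) k x - TJ (p + 2) k x * TJ (p + 1) (k + 1) x) =
        2 * p * (p + 2) * TJ (p + 1) k x ^ 2 + (p + 2) * (p + k) *
          (TJ (p + 1) (k + 1) x * TJ p k x - TJ (p + 1) k x * TJ p (k + 1) x) := by
      linear_combination (-TJ (p + 1) k x) * h4 + TJ (p + 1) (k + 1) x * h3
    have e3 : ((p : ℝ) + 1 + 1 - k) / (2 * ((p : ℝ) + 1 + 1) * hh (p + 1) k) *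
        (TJ (p + 2) (k + 1) x * TJ (p + 1) k x - TJ (p + 2) k x * TJ (p + 1) (k + 1) x) =
        ((p : ℝ) * (p + 2 - k) *
        (TJ (p + 2) (k + 1) x * TJ (p + 1) k x - TJ (p + 2) k x * TJ (p + 1) (k + 1) x)) /
          (2 * p * (p + 2) * hh (p + 1) k) := by
      have : (p : ℝ) + 1 + 1 = p + 2 := by ring
      rw [this]
      field_simp
    have e4 : TJ (p + 1 + 1) (k + 1) x = TJ (p + 2) (k + 1) x := rfl
    have e5 : TJ (p + 1 + 1) k x = TJ (p + 2) k x := rfl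
    rw [e4, e5, e3, e2]
    field_simp
    ring

private theorem cd_B {k p : ℕ} {x : ℝ} (hx : TJ (p + 1) (k + 1) x = 0) :
    TJ p (k + 1) x = -((p : ℝ) * ((p : ℝ) + 1 - k) / ((p : ℝ) + 1)) * TJ (p + 1) k x := by
  have h := TJ_down' p k x
  rw [hx] at h
  have hp1 : (p : ℝ) + 1 ≠ 0 := by positivity
  apply mul_left_cancel₀ hp1
  rw [h]
  field_simp
  ring

theorem cd_zero {k p : ℕ} (hk : 1 ≤ k) (hp : k ≤ p) {x : ℝ} (hx : TJ (p + 1) (k + 1) x = 0) :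
    ∑ i ∈ Finset.Icc k p, TJ i k x ^ 2 / hh i k =
      (p : ℝ) * ((p : ℝ) + 1 - k) ^ 2 / (2 * ((p : ℝ) + 1) ^ 2 * hh p k) * TJ (p + 1) k x ^ 2 := by
  rw [cd hk hp x, hx, cd_B hx]
  have h6 : hh p k ≠ 0 := (hh_pos hp).ne'
  have hp1 : (p : ℝ) + 1 ≠ 0 := by positivity
  field_simp
  ring

theorem cd_zero' {k p : ℕ} (hk : 1 ≤ k) (hp : k + 1 ≤ p) {x : ℝ} (hx : TJ (p + 1) (k + 1) x = 0) :
    (1 - x ^ 2) * ∑ i ∈ Finset.Icc (k + 1) p, TJ i (k + 1) x ^ 2 / hh i (k + 1) =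
      (p : ℝ) * ((p : ℝ) + 1 - k) ^ 2 * ((p : ℝ) + 1 + k) /
        (2 * ((p : ℝ) + 1) ^ 2 * ((p : ℝ) + k) * hh p k) * TJ (p + 1) k x ^ 2 := by
  rw [cd (le_trans hk (Nat.le_succ k)) hp x, hx, cd_B hx, hh_succ]
  have h6 : hh p k ≠ 0 := (hh_pos (by omega : k ≤ p)).ne'
  have hp1 : (p : ℝ) + 1 ≠ 0 := by positivity
  have hkp : (k : ℝ) + 1 ≤ p := by exact_mod_cast hp
  have hk0 : (0 : ℝ) ≤ k := Nat.cast_nonneg k
  have hpk : (p : ℝ) - k ≠ 0 := by intro h0; linarith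
  have hpk' : (p : ℝ) + k ≠ 0 := by intro h0; linarith
  have hode := TJ_ode (p + 1) k x
  rw [hx] at hode
  push_cast at hode ⊢
  have e : (p : ℝ) ^ 2 - (k : ℝ) ^ 2 = ((p : ℝ) - k) * (p + k) := by ring
  rw [e]
  have key : (1 - x ^ 2) * TJ (p + 1) (k + 1 + 1) x =
      -((((p : ℝ) + 1) ^ 2 - (k : ℝ) ^ 2) * TJ (p + 1) k x) := by
    have : TJ (p + 1) (k + 1 + 1) x = TJ (p + 1) (k + 2) x := rfl
    rw [this]
    linarith
  have e2 : (1 - x ^ 2) * (((p : ℝ) + 1 - (k + 1)) / (2 * ((p : ℝ) + 1) *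
      (hh p k * (((p : ℝ) - k) * (p + k)))) *
      (TJ (p + 1) (k + 1 + 1) x * (-((p : ℝ) * ((p : ℝ) + 1 - k) / ((p : ℝ) + 1)) * TJ (p + 1) k x) -
        0 * TJ p (k + 1 + 1) x)) =
      ((p : ℝ) - k) / (2 * ((p : ℝ) + 1) * (hh p k * (((p : ℝ) - k) * (p + k)))) *
      (((1 - x ^ 2) * TJ (p + 1) (k + 1 + 1) x) *
        (-((p : ℝ) * ((p : ℝ) + 1 - k) / ((p : ℝ) + 1)) * TJ (p + 1) k x)) := by
    ring
  rw [e2, key]
  field_simp
  ring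

end Pool.LKX
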