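import Mathlib

/-!
# LKX/Cauchy: Cauchy matrices are positive definite

For distinct `t_i > 0` and `v ≠ 0`: `∑_{i,j} v_i v_j/(t_i + t_j) = ∫_0^∞ (∑_i v_i e^(-t_i s))² ds > 0`
 (`∫_0^∞ e^(-a s) ds = 1/a`; if the integral of the continuous nonnegative function is `0`, it vanishes
 identically, but the exponentials `e^(-t_i s)` with distinct `t_i` are linearly independent, e.g. by
 Vandermonde applied to the values at `s = 0, 1, 2, ...`, or: multiply by `e^(t_min s)` and let `s → ∞`).
 Any other proof is welcome (e.g. induction and Schur complement: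
 `1/(a+b) - 2c/((a+c)(b+c)) = (a-c)(b-c)/((a+b)(a+c)(b+c))`, so after eliminating the last index `c` one gets
 the Cauchy matrix of the other nodes, congruent by the diagonal matrix `(t_i - c)/(t_i + c)`; this is
 perhaps the shortest: quadratic form `∑_{ij} v_i v_j/(t_i+t_j)
   = 2c (∑_i v_i/(t_i + c))² + ∑_{i,j≠c} w_i w_j/(t_i+t_j)`, `w_i = v_i (t_i - c)/(t_i + c)`, where the
 first sum contains the index of `c`).
-/

namespace Pool.LKX

/-- elimination of one node -/
private theorem cauchy_elim {ι : Type*} (s : Finset ι) (t : ι → ℝ) (ht : ∀ i ∈ s, 0 < t i)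
    {c : ℝ} (hc : 0 < c) (v : ι → ℝ) :
    ∑ i ∈ s, ∑ j ∈ s, v i * v j / (t i + t j) =
      2 * c * (∑ i ∈ s, v i / (t i + c)) ^ 2 +
        ∑ i ∈ s, ∑ j ∈ s, (v i * (t i - c) / (t i + c)) * (v j * (t j - c) / (t j + c)) /
          (t i + t j) := by
  rw [sq, Finset.sum_mul_sum, Finset.mul_sum, ← Finset.sum_add_distrib]
  refine Finset.sum_congr rfl fun i hi => ?_
  rw [Finset.mul_sum, ← Finset.sum_add_distrib]
  refine Finset.sum_congr rfl fun j hj => ?_
  have h1 := ht i hi
  have h2 := ht j hj
  have e1 : t i + t j ≠ 0 := by positivity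
  have e2 : t i + c ≠ 0 := by positivity
  have e3 : t j + c ≠ 0 := by positivity
  field_simp
  ring

theorem cauchy_pos {ι : Type*} (s : Finset ι) (t : ι → ℝ) (ht : ∀ i ∈ s, 0 < t i)
    (hinj : Set.InjOn t s) (v : ι → ℝ) (hv : ∃ i ∈ s, v i ≠ 0) :
    0 < ∑ i ∈ s, ∑ j ∈ s, v i * v j / (t i + t j) := by
  classical
  induction s using Finset.induction_on generalizing v with
  | empty =>
    obtain ⟨i, hi, _⟩ := hv
    simp at hi
  | insert a s ha ih =>
    have hc : 0 < t a := ht a (Finset.mem_insert_self a s)
    rw [cauchy_elim (insert a s) t ht hc v]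
    have hz : v a * (t a - t a) / (t a + t a) = 0 := by simp
    have h2 : ∑ i ∈ insert a s, ∑ j ∈ insert a s,
        (v i * (t i - t a) / (t i + t a)) * (v j * (t j - t a) / (t j + t a)) / (t i + t j) =
        ∑ i ∈ s, ∑ j ∈ s,
        (v i * (t i - t a) / (t i + t a)) * (v j * (t j - t a) / (t j + t a)) / (t i + t j) := by
      rw [Finset.sum_insert ha]
      simp only [hz, zero_mul, zero_div, Finset.sum_const_zero, zero_add]
      refine Finset.sum_congr rfl fun i _ => ?_
      rw [Finset.sum_insert ha]
      simp only [hz, mul_zero, zero_div, zero_add]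
    rw [h2]
    have h3 : 0 ≤ 2 * t a * (∑ i ∈ insert a s, v i / (t i + t a)) ^ 2 := by positivity
    by_cases hs : ∃ i ∈ s, v i ≠ 0
    · have h4 := ih (fun i hi => ht i (Finset.mem_insert_of_mem hi))
        (hinj.mono (by simp)) (fun i => v i * (t i - t a) / (t i + t a)) (by
          obtain ⟨i, hi, hvi⟩ := hs
          refine ⟨i, hi, ?_⟩
          have hti := ht i (Finset.mem_insert_of_mem hi)
          have hne : t i ≠ t a := fun h => by
            have := hinj (by simp [hi]) (by simp) h
            subst this
            exact ha hi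
          refine div_ne_zero (mul_ne_zero hvi (sub_ne_zero.2 hne)) ?_
          positivity)
      linarith
    · push Not at hs
      obtain ⟨i, hi, hvi⟩ := hv
      have hia : i = a := by
        rcases Finset.mem_insert.1 hi with h | h
        · exact h
        · exact absurd (hs i h) hvi
      subst hia
      have h5 : ∑ x ∈ insert i s, v x / (t x + t i) = v i / (t i + t i) := by
        rw [Finset.sum_insert ha, Finset.sum_eq_zero, add_zero]
        intro x hx
        rw [hs x hx, zero_div]
      have h6 : ∑ x ∈ s, ∑ y ∈ s,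
          (v x * (t x - t i) / (t x + t i)) * (v y * (t y - t i) / (t y + t i)) / (t x + t y) =
          0 := by
        refine Finset.sum_eq_zero fun x hx => Finset.sum_eq_zero fun y _ => ?_
        rw [hs x hx]
        simp
      rw [h5, h6, add_zero]
      have h7 : v i / (t i + t i) ≠ 0 := div_ne_zero hvi (by positivity)
      positivity

end Pool.LKX
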