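import Pool.Agent.LKX.RMat
import Pool.Agent.LKX.Defs

/-!
# LKX/CotB: algebraic lower bound for `ck n k`

* `cot_lower` (Becker-Stark): for `0 < x < π/2`, `cot x ≥ (1/x)(1 - 4x²/π²)`, i.e.
  `G(x) = x cos x - (1 - 4x²/π²) sin x ≥ 0`.  `G(0) = G(π/2) = 0`,
  `G'(x) = x H(x)`, `H(x) = (4x/π²) cos x - (1 - 8/π²) sin x` is concave on `[0, π/2]`, `H(0) = 0`, so if
  `H(x₀) ≥ 0` then `H ≥ 0` on `[0, x₀]` and `G(x₀) ≥ G(0) = 0`, and if `H(x₀) < 0` then `H < 0` on
  `[x₀, π/2)` and `G(x₀) ≥ G(π/2) = 0`.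
* `sin_nat_mul_le`: `sin(N y) ≤ N sin y` for `0 ≤ y ≤ π` (induction: `sin((N+1)y) = sin(Ny) cos y +
  cos(Ny) sin y`, `|sin (N y)| ≤ N |sin y|`).  So `√(sin γ/sin((2k+1)γ)) ≥ 1/√(2k+1)`.
* `cl_le_ck`: `γ = π/(2(n+1))`, `x = (i+1)γ`, `i < k ≤ n`: `1/x = 2(n+1)/(π(i+1))`,
  `4x²/π² = ((i+1)/(n+1))²`.
* `ck_symm`: `bt_symm` and `sin((2(n-k)+1)γ) = sin(π - (2k+1)γ)`.
-/

namespace Pool.LKX

open Real

private noncomputable def cotB_H (x : ℝ) : ℝ :=
  4 * x / π ^ 2 * Real.cos x - (1 - 8 / π ^ 2) * Real.sin x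

private noncomputable def cotB_H1 (x : ℝ) : ℝ :=
  (12 / π ^ 2 - 1) * Real.cos x - 4 * x / π ^ 2 * Real.sin x

private noncomputable def cotB_H2 (x : ℝ) : ℝ :=
  -((16 / π ^ 2 - 1) * Real.sin x) - 4 * x / π ^ 2 * Real.cos x

private theorem cotB_hasH (x : ℝ) : HasDerivAt cotB_H (cotB_H1 x) x := by
  have h1 : HasDerivAt (fun x : ℝ => 4 * x / π ^ 2) (4 / π ^ 2) x := by
    have := ((hasDerivAt_id x).const_mul 4).div_const (π ^ 2)
    simpa using this
  have h2 := (h1.mul (Real.hasDerivAt_cos x)).sub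
    ((Real.hasDerivAt_sin x).const_mul (1 - 8 / π ^ 2))
  refine h2.congr_deriv ?_
  unfold cotB_H1
  ring

private theorem cotB_hasH1 (x : ℝ) : HasDerivAt cotB_H1 (cotB_H2 x) x := by
  have h1 : HasDerivAt (fun x : ℝ => 4 * x / π ^ 2) (4 / π ^ 2) x := by
    have := ((hasDerivAt_id x).const_mul 4).div_const (π ^ 2)
    simpa using this
  have h2 := ((Real.hasDerivAt_cos x).const_mul (12 / π ^ 2 - 1)).sub
    (h1.mul (Real.hasDerivAt_sin x))
  refine h2.congr_deriv ?_
  unfold cotB_H2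
  ring

private theorem cotB_pi_sq : π ^ 2 < 12 := by
  have h1 := Real.pi_lt_d2
  have h2 := Real.pi_pos
  nlinarith

private theorem cotB_concave : ConcaveOn ℝ (Set.Icc 0 (π / 2)) cotB_H := by
  have hd : Differentiable ℝ cotB_H := fun x => (cotB_hasH x).differentiableAt
  have hd1 : deriv cotB_H = cotB_H1 := funext fun x => (cotB_hasH x).deriv
  refine concaveOn_of_deriv2_nonpos (convex_Icc _ _) hd.continuous.continuousOn
    hd.differentiableOn ?_ ?_
  · rw [hd1]
    exact fun x _ => (cotB_hasH1 x).differentiableAt.differentiableWithinAt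
  · intro x hx
    rw [interior_Icc] at hx
    have h2 : deriv^[2] cotB_H x = cotB_H2 x := by
      show deriv (deriv cotB_H) x = _
      rw [hd1]
      exact (cotB_hasH1 x).deriv
    rw [h2]
    unfold cotB_H2
    have h3 : 0 ≤ Real.sin x := Real.sin_nonneg_of_nonneg_of_le_pi hx.1.le
      (by linarith [hx.2, Real.pi_pos])
    have h4 : 0 ≤ Real.cos x := Real.cos_nonneg_of_neg_pi_div_two_le_of_le
      (by linarith [hx.1, Real.pi_pos]) hx.2.le
    have h5 : 0 ≤ 16 / π ^ 2 - 1 := by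
      rw [sub_nonneg, le_div_iff₀ (by positivity)]
      linarith [cotB_pi_sq]
    have h6 : 0 ≤ 4 * x / π ^ 2 := by
      have := hx.1
      positivity
    have h7 := mul_nonneg h5 h3
    have h8 := mul_nonneg h6 h4
    linarith

private noncomputable def cotB_G (x : ℝ) : ℝ :=
  x * Real.cos x - (1 - 4 * x ^ 2 / π ^ 2) * Real.sin x

private theorem cotB_hasG (x : ℝ) : HasDerivAt cotB_G (x * cotB_H x) x := by
  have h1 : HasDerivAt (fun x : ℝ => 1 - 4 * x ^ 2 / π ^ 2) (-(8 * x / π ^ 2)) x := by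
    have := (((hasDerivAt_pow 2 x).const_mul 4).div_const (π ^ 2)).const_sub 1
    refine this.congr_deriv ?_
    norm_num
    ring
  have h2 := ((hasDerivAt_id x).mul (Real.hasDerivAt_cos x)).sub
    (h1.mul (Real.hasDerivAt_sin x))
  refine h2.congr_deriv ?_
  unfold cotB_H
  simp only [id]
  ring

private theorem cotB_G_nonneg {x : ℝ} (h0 : 0 < x) (h1 : x < π / 2) : 0 ≤ cotB_G x := by
  have hcont : Continuous cotB_G := continuous_iff_continuousAt.2 fun y =>
    (cotB_hasG y).continuousAt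
  have hH0 : cotB_H 0 = 0 := by simp [cotB_H]
  have hpi := Real.pi_pos
  rcases le_or_gt 0 (cotB_H x) with hx | hx
  · have hmono : MonotoneOn cotB_G (Set.Icc 0 x) := by
      refine monotoneOn_of_deriv_nonneg (convex_Icc _ _) hcont.continuousOn
        (fun y _ => (cotB_hasG y).differentiableAt.differentiableWithinAt) ?_
      intro y hy
      rw [interior_Icc] at hy
      rw [(cotB_hasG y).deriv]
      refine mul_nonneg hy.1.le ?_
      have hc := cotB_concave.2 (show (0 : ℝ) ∈ Set.Icc 0 (π / 2) from ⟨le_rfl, by positivity⟩)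
        (show x ∈ Set.Icc 0 (π / 2) from ⟨h0.le, h1.le⟩)
        (show (0 : ℝ) ≤ 1 - y / x by
          rw [sub_nonneg, div_le_one h0]; exact hy.2.le)
        (show (0 : ℝ) ≤ y / x from div_nonneg hy.1.le h0.le) (by ring)
      rw [hH0] at hc
      have e1 : (1 - y / x) • (0 : ℝ) + (y / x) • x = y := by
        rw [smul_eq_mul, smul_eq_mul, mul_zero, zero_add, div_mul_cancel₀ _ h0.ne']
      rw [e1, smul_zero, zero_add] at hc
      refine le_trans ?_ hc
      exact mul_nonneg (div_nonneg hy.1.le h0.le) hx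
    have h2 := hmono ⟨le_rfl, h0.le⟩ ⟨h0.le, le_rfl⟩ h0.le
    have h3 : cotB_G 0 = 0 := by simp [cotB_G]
    rwa [h3] at h2
  · have hanti : AntitoneOn cotB_G (Set.Icc x (π / 2)) := by
      refine antitoneOn_of_deriv_nonpos (convex_Icc _ _) hcont.continuousOn
        (fun y _ => (cotB_hasG y).differentiableAt.differentiableWithinAt) ?_
      intro y hy
      rw [interior_Icc] at hy
      rw [(cotB_hasG y).deriv]
      have hy0 : 0 < y := h0.trans hy.1
      refine mul_nonpos_of_nonneg_of_nonpos hy0.le ?_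
      by_contra hcon
      rw [not_le] at hcon
      have hc := cotB_concave.2 (show (0 : ℝ) ∈ Set.Icc 0 (π / 2) from ⟨le_rfl, by positivity⟩)
        (show y ∈ Set.Icc 0 (π / 2) from ⟨hy0.le, hy.2.le⟩)
        (show (0 : ℝ) ≤ 1 - x / y by
          rw [sub_nonneg, div_le_one hy0]; exact hy.1.le)
        (show (0 : ℝ) ≤ x / y from div_nonneg h0.le hy0.le) (by ring)
      rw [hH0] at hc
      have e1 : (1 - x / y) • (0 : ℝ) + (x / y) • y = x := by
        rw [smul_eq_mul, smul_eq_mul, mul_zero, zero_add, div_mul_cancel₀ _ hy0.ne']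
      rw [e1, smul_zero, zero_add] at hc
      have h5 : 0 < (x / y) • cotB_H y := mul_pos (div_pos h0 hy0) hcon
      linarith
    have h2 := hanti ⟨le_rfl, h1.le⟩ ⟨h1.le, le_rfl⟩ h1.le
    have h3 : cotB_G (π / 2) = 0 := by
      unfold cotB_G
      rw [Real.cos_pi_div_two, Real.sin_pi_div_two]
      field_simp
      ring
    rwa [h3] at h2

theorem cot_lower {x : ℝ} (h0 : 0 < x) (h1 : x < π / 2) :
    1 / x * (1 - 4 * x ^ 2 / π ^ 2) ≤ Real.cot x := by
  have hs : 0 < Real.sin x := Real.sin_pos_of_pos_of_lt_pi h0 (by linarith [Real.pi_pos])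
  have hG := cotB_G_nonneg h0 h1
  unfold cotB_G at hG
  rw [Real.cot_eq_cos_div_sin, le_div_iff₀ hs, div_mul_eq_mul_div, div_mul_eq_mul_div,
    div_le_iff₀ h0]
  linarith

private theorem cotB_factor {n k i : ℕ} (h : k ≤ n) (hi : i < k) :
    0 < 2 * ((n : ℝ) + 1) / (π * ((i : ℝ) + 1)) * (1 - (((i : ℝ) + 1) / ((n : ℝ) + 1)) ^ 2) ∧
    2 * ((n : ℝ) + 1) / (π * ((i : ℝ) + 1)) * (1 - (((i : ℝ) + 1) / ((n : ℝ) + 1)) ^ 2) ≤
      Real.cot (((i : ℝ) + 1) * (π / (2 * ((n : ℝ) + 1)))) := by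
  have hin : (i : ℝ) + 1 < (n : ℝ) + 1 := by
    have : i < n := lt_of_lt_of_le hi h
    have h2 : (i : ℝ) < n := by exact_mod_cast this
    linarith
  have hi0 : (0 : ℝ) < (i : ℝ) + 1 := by positivity
  have hn0 : (0 : ℝ) < (n : ℝ) + 1 := by positivity
  have hpi := Real.pi_pos
  constructor
  · have h1 : ((i : ℝ) + 1) / ((n : ℝ) + 1) < 1 := (div_lt_one hn0).2 hin
    have h2 : 0 < ((i : ℝ) + 1) / ((n : ℝ) + 1) := by positivity
    have h3 : 0 < 1 - (((i : ℝ) + 1) / ((n : ℝ) + 1)) ^ 2 := by nlinarith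
    positivity
  · have hx0 : 0 < ((i : ℝ) + 1) * (π / (2 * ((n : ℝ) + 1))) := by positivity
    have hx1 : ((i : ℝ) + 1) * (π / (2 * ((n : ℝ) + 1))) < π / 2 := by
      rw [mul_div_assoc', div_lt_div_iff₀ (by positivity) (by positivity)]
      nlinarith
    refine le_trans (le_of_eq ?_) (cot_lower hx0 hx1)
    field_simp
    ring

theorem cl_pos {n k : ℕ} (h : k ≤ n) : 0 < cl n k := by
  unfold cl
  refine mul_pos (by positivity) (Finset.prod_pos fun i hi => ?_)
  exact (cotB_factor h (Finset.mem_range.1 hi)).1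

private theorem cotB_abs_sin (N : ℕ) (y : ℝ) : |Real.sin (N * y)| ≤ N * |Real.sin y| := by
  induction N with
  | zero => simp
  | succ N ih =>
    have e1 : ((N + 1 : ℕ) : ℝ) * y = N * y + y := by push_cast; ring
    rw [e1, Real.sin_add]
    refine (abs_add_le _ _).trans ?_
    rw [abs_mul, abs_mul]
    have h1 := Real.abs_cos_le_one y
    have h2 := Real.abs_cos_le_one (N * y)
    have h3 : |Real.sin (N * y)| * |Real.cos y| ≤ N * |Real.sin y| := by
      refine le_trans (mul_le_of_le_one_right (abs_nonneg _) h1) ih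
    have h4 : |Real.cos (N * y)| * |Real.sin y| ≤ |Real.sin y| :=
      mul_le_of_le_one_left (abs_nonneg _) h2
    push_cast
    linarith

theorem cl_le_ck {n k : ℕ} (h : k ≤ n) : cl n k ≤ ck n k := by
  unfold cl ck
  rw [mul_comm]
  have hpi := Real.pi_pos
  have hn0 : (0 : ℝ) < (n : ℝ) + 1 := by positivity
  have hkn : (k : ℝ) ≤ n := by exact_mod_cast h
  set γ := π / (2 * ((n : ℝ) + 1)) with hγ
  have hγ0 : 0 < γ := by positivity
  have hγ1 : 2 * ((n : ℝ) + 1) * γ = π := by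
    rw [hγ]
    field_simp
  have hs0 : 0 < Real.sin γ := by
    refine Real.sin_pos_of_pos_of_lt_pi hγ0 ?_
    nlinarith
  have hs1 : 0 < Real.sin ((2 * (k : ℝ) + 1) * γ) := by
    refine Real.sin_pos_of_pos_of_lt_pi (by positivity) ?_
    nlinarith
  have hs2 : Real.sin ((2 * (k : ℝ) + 1) * γ) ≤ (2 * (k : ℝ) + 1) * Real.sin γ := by
    have := cotB_abs_sin (2 * k + 1) γ
    rw [abs_of_pos hs0] at this
    push_cast at this
    exact (le_abs_self _).trans this
  refine mul_le_mul ?_ ?_ (by positivity) ?_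
  · exact Finset.prod_le_prod (fun i hi => (cotB_factor h (Finset.mem_range.1 hi)).1.le)
      fun i hi => (cotB_factor h (Finset.mem_range.1 hi)).2
  · rw [← Real.sqrt_inv]
    refine Real.sqrt_le_sqrt ?_
    rw [inv_eq_one_div, div_le_div_iff₀ (by positivity) hs1]
    linarith
  · exact Finset.prod_nonneg fun i hi =>
      ((cotB_factor h (Finset.mem_range.1 hi)).1.le).trans
        (cotB_factor h (Finset.mem_range.1 hi)).2

theorem ck_symm {n k : ℕ} (h : k ≤ n) : ck n (n - k) = ck n k := by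
  have h1 := bt_symm h
  unfold bt at h1
  unfold ck
  rw [h1]
  congr 3
  have hpi := Real.pi_pos
  have hn0 : (0 : ℝ) < (n : ℝ) + 1 := by positivity
  have e1 : (2 * ((n - k : ℕ) : ℝ) + 1) * (π / (2 * ((n : ℝ) + 1))) =
      π - (2 * (k : ℝ) + 1) * (π / (2 * ((n : ℝ) + 1))) := by
    rw [Nat.cast_sub h]
    field_simp
    ring
  rw [e1, Real.sin_pi_sub]

theorem cl_le_ck' {n k : ℕ} (h : k ≤ n) : cl n (n - k) ≤ ck n k := by
  rw [← ck_symm h]
  exact cl_le_ck (Nat.sub_le n k)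

end Pool.LKX
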