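import Pool.Agent.LKX.Defs

/-!
# LKX/HH: the products `hh i k = ∏_{l<k} (i² - l²)`

* `hh_ratio` by induction on `k` (no hypotheses, an identity of polynomials in `i`):
  `hh (i+1) (k+1) (i (i-k)) = hh (i+1) k (i+1-k)(i+1+k) i (i-k) = [hh (i+1) k (i (i+1-k))] (i+1+k)(i-k)
   = hh i k (i+1)(i+k)(i+1+k)(i-k) = hh i (k+1) (i+1)(i+k+1)`.
* `hh_eq_fact` by induction on `k` from `k = 1` (`hh i 1 = i²`, `i²(i-1)! = i · i!`):
  `(i-k)! = (i-k) (i-k-1)!`.
-/

namespace Pool.LKX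

theorem hh_zero (i : ℕ) : hh i 0 = 1 := by
  simp [hh]

theorem hh_succ (i k : ℕ) : hh i (k + 1) = hh i k * ((i : ℝ) ^ 2 - (k : ℝ) ^ 2) := by
  unfold hh
  rw [Finset.prod_range_succ]

theorem hh_pos {i k : ℕ} (h : k ≤ i) : 0 < hh i k := by
  unfold hh
  refine Finset.prod_pos fun l hl => ?_
  have h1 : l < i := lt_of_lt_of_le (Finset.mem_range.1 hl) h
  have h2 : (l : ℝ) < i := by exact_mod_cast h1
  have h3 : (0 : ℝ) ≤ l := Nat.cast_nonneg l
  nlinarith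

theorem hh_mono {i i' k : ℕ} (hk : k ≤ i) (h : i ≤ i') : hh i k ≤ hh i' k := by
  unfold hh
  refine Finset.prod_le_prod (fun l hl => ?_) fun l hl => ?_
  · have h1 : l < i := lt_of_lt_of_le (Finset.mem_range.1 hl) hk
    have h2 : (l : ℝ) < i := by exact_mod_cast h1
    have h3 : (0 : ℝ) ≤ l := Nat.cast_nonneg l
    nlinarith
  · have h2 : (i : ℝ) ≤ i' := by exact_mod_cast h
    have h3 : (0 : ℝ) ≤ i := Nat.cast_nonneg i
    nlinarith

theorem hh_ratio (i k : ℕ) :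
    hh (i + 1) k * ((i : ℝ) * ((i : ℝ) + 1 - k)) = hh i k * (((i : ℝ) + 1) * ((i : ℝ) + k)) := by
  induction k with
  | zero => rw [hh_zero, hh_zero]; push_cast; ring
  | succ k ih =>
    rw [hh_succ, hh_succ]
    push_cast
    have h : hh (i + 1) k * (((i : ℝ) + 1) ^ 2 - (k : ℝ) ^ 2) * ((i : ℝ) * ((i : ℝ) + 1 - (k + 1)))
        = hh (i + 1) k * ((i : ℝ) * ((i : ℝ) + 1 - k)) * (((i : ℝ) + 1 + k) * ((i : ℝ) - k)) := by
      ring
    rw [h, ih]
    ring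

theorem hh_eq_fact {i k : ℕ} (hk : 1 ≤ k) (h : k ≤ i) :
    hh i k * ((i - k).factorial : ℝ) = i * ((i + k - 1).factorial : ℝ) := by
  induction k, hk using Nat.le_induction with
  | base =>
    obtain ⟨j, rfl⟩ := Nat.exists_eq_add_of_le' h
    rw [hh_succ, hh_zero]
    have e1 : j + 1 - 1 = j := rfl
    have e2 : j + 1 + 1 - 1 = j + 1 := rfl
    rw [e1, e2, Nat.factorial_succ]
    push_cast
    ring
  | succ k hk ih =>
    obtain ⟨j, rfl⟩ := Nat.exists_eq_add_of_le' h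
    have ih' := ih (by omega)
    obtain ⟨m, rfl⟩ := Nat.exists_eq_add_of_le' hk
    have e1 : j + (m + 1 + 1) - (m + 1) = j + 1 := by omega
    have e2 : j + (m + 1 + 1) + (m + 1) - 1 = j + (m + 1 + 1) + m := by omega
    have e3 : j + (m + 1 + 1) - (m + 1 + 1) = j := by omega
    have e4 : j + (m + 1 + 1) + (m + 1 + 1) - 1 = j + (m + 1 + 1) + m + 1 := by omega
    rw [e1, e2, Nat.factorial_succ] at ih'
    rw [hh_succ, e3, e4, Nat.factorial_succ]
    push_cast at ih' ⊢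
    have h5 : hh (j + (m + 1 + 1)) (m + 1) * (((j : ℝ) + (m + 1 + 1)) ^ 2 - ((m : ℝ) + 1) ^ 2) *
        (j.factorial : ℝ) = hh (j + (m + 1 + 1)) (m + 1) * (((j : ℝ) + 1) * (j.factorial : ℝ)) *
        ((j : ℝ) + (m + 1 + 1) + m + 1) := by ring
    rw [h5, ih']
    ring

end Pool.LKX
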