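import Pool.Agent.LKX.I1L

/-!
# LKX/I1A: the inequality for `2k ≤ n`

Put `C k = -log (2k+1) + 2k log (4/π) - 2 log k! - 2k + k log ((k+3/2)(k+11/2))`,
`B = k log ((n+1)²/(n²+3k+17/4)) - 2.302 k(k+1)(2k+1)/(6(n+1)²) + (k/n) log (πn/2) + (k-1)k(2k-1)/(6n²)
   + (1/2) log (1 - ((k+1)/n)²)`.
By `log_cl` (`j = k`), `log_LL`, `log_Pi2_le`, `log_Sq`: (right side) - (left side) of `I1_low` is
`≥ C k + B` (the `2k log n` cancel; `2k log (2(n+1)/π) + 2k log 2 = 2k log (4/π) + 2k log (n+1)`,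
 `(1/2) log (n²-(k+1)²) = log n + (1/2) log (1-((k+1)/n)²)`).

(1) `B ≥ -k/5` for `n ≥ 4`, `2 ≤ k`, `2k ≤ n`:
 (a) `log y ≥ 1 - 1/y`: `log ((n+1)²/(n²+3k+17/4)) ≥ (2n-3k-13/4)/(n+1)² ≥ (n/2-13/4)/(n+1)²`;
 (b) `2.302/6 ≤ 0.3837`, `(k+1)(2k+1) ≤ (n/2+1)(n+1)`;
 (c) `log (πn/2) ≥ log (2π) ≥ 1.83`;
 (d) `(1/2) log (1-t) ≥ -0.735 t` for `0 ≤ t ≤ 9/16` (concavity, `log (7/16) ≥ -0.8268`), `t = ((k+1)/n)²`,
     `(k+1)/n ≤ 1/2 + 1/n ≤ 3/4`, and `(k+1)²/(k n²) = (k+2+1/k)/n² ≤ (n/2+5/2)/n²`;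
 (e) the term `(k-1)k(2k-1)/(6n²)` is `≥ 0`.
 So `B/k ≥ (n/2-13/4)/(n+1)² - 0.19185 (n+2)/(n+1) + 1.83/n - 0.735 (n/2+5/2)/n² ≥ -0.2` for all `n ≥ 4`
 (rational function; at `n = 4`: `-0.03`, limit `-0.19185`).
(2) `C k > k/5` for `k ≥ 2`: `k = 2`: `C 2 = log (8820/π⁴) - 4 > 0.4` (`(8820/π⁴)^5 > e^22`);
 `k = 3`: `(4/π)^6 (153/4)³/(252 e^6) > e^0.6` (fifth powers); and for `k ≥ 3`
 `C (k+1) - C k = -log (1+2/(2k+1)) + 2 log (4/π) - 2 + log (1+(3/2)/(k+1)) + log (1+(11/2)/(k+1))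
    + k log (1+1/(k+3/2)) + k log (1+1/(k+11/2))`
 `≥ -2/(2k+1) + 0.48 - 2 + 6/(4k+7) + 22/(4k+15) + k/(k+2) + k/(k+6) ≥ 0.2`
 (by `log (1+z) ≤ z`, `log (1+z) ≥ 2z/(2+z)` (`Real.le_log_one_add_of_nonneg`), `(4/π)² ≥ e^0.48`), i.e.
 `0.28 ≥ 2/(k+2) + 6/(k+6) - 6/(4k+7) - 22/(4k+15) + 2/(2k+1)` (at `k = 3`: `0.2218`).
-/

namespace Pool.LKX

open Real
open Pool.LK2 (Pi2 Sq)

private theorem ia_pi4 : (0.24 : ℝ) ≤ Real.log (4 / π) := by
  have hpi := Real.pi_pos
  have h1 : π < 3.1416 := Real.pi_lt_d4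
  rw [Real.le_log_iff_exp_le (by positivity)]
  have h2 := Real.exp_bound' (x := 0.24) (by norm_num) (by norm_num) (n := 4) (by norm_num)
  have h3 : (1.2730 : ℝ) ≤ 4 / π := by
    rw [le_div_iff₀ hpi]
    nlinarith
  refine le_trans (le_trans h2 ?_) h3
  norm_num [Finset.sum_range_succ, Nat.factorial]

private theorem ia_2pi : (1.83 : ℝ) ≤ Real.log (2 * π) := by
  have hpi := Real.pi_pos
  have h1 : 3.14 < π := Real.pi_gt_d2
  rw [Real.le_log_iff_exp_le (by positivity)]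
  have h2 := Real.exp_bound' (x := 0.915) (by norm_num) (by norm_num) (n := 5) (by norm_num)
  have h3 : Real.exp 0.915 ≤ 2.505 := by
    refine le_trans h2 ?_
    norm_num [Finset.sum_range_succ, Nat.factorial]
  have h4 : Real.exp 1.83 = Real.exp 0.915 * Real.exp 0.915 := by
    rw [← Real.exp_add]
    norm_num
  have h5 := Real.exp_pos 0.915
  rw [h4]
  nlinarith

private theorem ia_716 : -(0.826875 : ℝ) ≤ Real.log (7 / 16) := by
  have h1 : Real.log (16 / 7) ≤ 0.826875 := by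
    rw [Real.log_le_iff_le_exp (by norm_num)]
    have h2 := Real.sum_le_exp_of_nonneg (x := 0.826875) (by norm_num) 8
    refine le_trans ?_ h2
    norm_num [Finset.sum_range_succ, Nat.factorial]
  have h3 : Real.log (7 / 16) = - Real.log (16 / 7) := by
    rw [← Real.log_inv]
    norm_num
  linarith

private theorem ia_sub {t : ℝ} (h0 : 0 ≤ t) (h1 : t ≤ 9 / 16) :
    -(0.735 * t) ≤ 1 / 2 * Real.log (1 - t) := by
  have hc := strictConcaveOn_log_Ioi.concaveOn.2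
    (show (7 / 16 : ℝ) ∈ Set.Ioi (0 : ℝ) from by norm_num)
    (show (1 : ℝ) ∈ Set.Ioi (0 : ℝ) from by norm_num)
    (show 0 ≤ 16 / 9 * t from by positivity)
    (show 0 ≤ 1 - 16 / 9 * t from by linarith) (by ring)
  simp only [smul_eq_mul, Real.log_one, mul_zero, add_zero, mul_one] at hc
  have h2 : 16 / 9 * t * (7 / 16) + (1 - 16 / 9 * t) = 1 - t := by ring
  rw [h2] at hc
  have h3 := ia_716
  have h4 : 16 / 9 * t * -(0.826875 : ℝ) ≤ 16 / 9 * t * Real.log (7 / 16) :=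
    mul_le_mul_of_nonneg_left h3 (by positivity)
  linarith

private theorem ia_rat {n : ℝ} (hn : 4 ≤ n) :
    -(1 / 5 : ℝ) ≤ (n / 2 - 13 / 4) / (n + 1) ^ 2 - 0.19185 * ((n + 2) / (n + 1)) + 1.83 / n
      - 0.735 * ((n / 2 + 5 / 2) / n ^ 2) := by
  have hn0 : 0 < n := by linarith
  have hn1 : 0 < n + 1 := by linarith
  obtain ⟨m, rfl⟩ : ∃ m, n = m + 4 := ⟨n - 4, by ring⟩
  have hm : 0 ≤ m := by linarith
  rw [← sub_nonneg]
  have h : ((m + 4) / 2 - 13 / 4) / (m + 4 + 1) ^ 2 - 0.19185 * ((m + 4 + 2) / (m + 4 + 1))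
      + 1.83 / (m + 4) - 0.735 * (((m + 4) / 2 + 5 / 2) / (m + 4) ^ 2) - -(1 / 5)
      = (68.2245 + 66.8779 * m + 19.8796 * m ^ 2 + 1.91735 * m ^ 3 + 0.00815 * m ^ 4)
        / ((m + 4) ^ 2 * (m + 4 + 1) ^ 2) := by
    field_simp
    ring
  rw [h]
  positivity

private theorem ia_B {n k : ℝ} (hk : 2 ≤ k) (h : 2 * k ≤ n) :
    -(k / 5) ≤ k * (2 * Real.log (n + 1) - Real.log (n ^ 2 + 3 * k + 17 / 4))
      - 2.302 * (k * (k + 1) * (2 * k + 1) / (6 * (n + 1) ^ 2)) + k / n * Real.log (π * n / 2)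
      + (k - 1) * k * (2 * k - 1) / (6 * n ^ 2)
      + 1 / 2 * (Real.log (n ^ 2 - (k + 1) ^ 2) - 2 * Real.log n) := by
  have hn : 4 ≤ n := by linarith
  have hn0 : 0 < n := by linarith
  have hn1 : 0 < n + 1 := by linarith
  have hk0 : 0 < k := by linarith
  have hpi := Real.pi_pos
  have hD : 0 < n ^ 2 + 3 * k + 17 / 4 := by positivity
  -- (a)
  have ha : k * ((n / 2 - 13 / 4) / (n + 1) ^ 2) ≤
      k * (2 * Real.log (n + 1) - Real.log (n ^ 2 + 3 * k + 17 / 4)) := by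
    refine mul_le_mul_of_nonneg_left ?_ hk0.le
    have h1 : 2 * Real.log (n + 1) - Real.log (n ^ 2 + 3 * k + 17 / 4)
        = Real.log ((n + 1) ^ 2 / (n ^ 2 + 3 * k + 17 / 4)) := by
      rw [Real.log_div (by positivity) hD.ne', Real.log_pow]
      norm_num
    rw [h1]
    refine le_trans ?_ (Real.one_sub_inv_le_log_of_pos (by positivity))
    rw [inv_div]
    have h2 : 1 - (n ^ 2 + 3 * k + 17 / 4) / (n + 1) ^ 2
        = (2 * n - 3 * k - 13 / 4) / (n + 1) ^ 2 := by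
      field_simp
      ring
    rw [h2]
    exact div_le_div_of_nonneg_right (by linarith) (by positivity)
  -- (b)
  have hb : 2.302 * (k * (k + 1) * (2 * k + 1) / (6 * (n + 1) ^ 2)) ≤
      k * (0.19185 * ((n + 2) / (n + 1))) := by
    have h1 : k * (0.19185 * ((n + 2) / (n + 1)))
        = (k * (1.1511 * ((n + 2) * (n + 1)))) / (6 * (n + 1) ^ 2) := by
      field_simp
      ring
    have h2 : 2.302 * (k * (k + 1) * (2 * k + 1) / (6 * (n + 1) ^ 2))
        = (k * (2.302 * ((k + 1) * (2 * k + 1)))) / (6 * (n + 1) ^ 2) := by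
      ring
    rw [h1, h2]
    refine div_le_div_of_nonneg_right (mul_le_mul_of_nonneg_left ?_ hk0.le) (by positivity)
    have h3 : (k + 1) * (2 * k + 1) ≤ (n / 2 + 1) * (n + 1) :=
      mul_le_mul (by linarith) (by linarith) (by positivity) (by positivity)
    nlinarith
  -- (c)
  have hc : k * (1.83 / n) ≤ k / n * Real.log (π * n / 2) := by
    have h1 : (1.83 : ℝ) ≤ Real.log (π * n / 2) :=
      le_trans ia_2pi (Real.log_le_log (by positivity) (by nlinarith))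
    have h2 : k * (1.83 / n) = k / n * 1.83 := by ring
    rw [h2]
    exact mul_le_mul_of_nonneg_left h1 (by positivity)
  -- (d)
  have hd : -(k * (0.735 * ((n / 2 + 5 / 2) / n ^ 2))) ≤
      1 / 2 * (Real.log (n ^ 2 - (k + 1) ^ 2) - 2 * Real.log n) := by
    have hq : 0 < n ^ 2 - (k + 1) ^ 2 := by nlinarith
    have h1 : Real.log (n ^ 2 - (k + 1) ^ 2) - 2 * Real.log n
        = Real.log (1 - ((k + 1) / n) ^ 2) := by
      have h2 : 1 - ((k + 1) / n) ^ 2 = (n ^ 2 - (k + 1) ^ 2) / n ^ 2 := by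
        field_simp
      rw [h2, Real.log_div hq.ne' (by positivity), Real.log_pow]
      norm_num
    rw [h1]
    have h3 : ((k + 1) / n) ^ 2 ≤ 9 / 16 := by
      have h4 : (k + 1) / n ≤ 3 / 4 := by
        rw [div_le_iff₀ hn0]
        linarith
      have h5 : 0 ≤ (k + 1) / n := by positivity
      nlinarith
    refine le_trans ?_ (ia_sub (sq_nonneg _) h3)
    have h6 : k * (0.735 * ((n / 2 + 5 / 2) / n ^ 2))
        = 0.735 * ((k * (n / 2 + 5 / 2)) / n ^ 2) := by ring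
    rw [h6, div_pow]
    have h7 : (k + 1) ^ 2 / n ^ 2 ≤ k * (n / 2 + 5 / 2) / n ^ 2 :=
      div_le_div_of_nonneg_right (by nlinarith) (by positivity)
    linarith
  -- (e)
  have he : 0 ≤ (k - 1) * k * (2 * k - 1) / (6 * n ^ 2) := by
    have h1 : 0 ≤ k - 1 := by linarith
    have h2 : 0 ≤ 2 * k - 1 := by linarith
    positivity
  have hr := mul_le_mul_of_nonneg_left (ia_rat hn) hk0.le
  have hr' : k * ((n / 2 - 13 / 4) / (n + 1) ^ 2 - 0.19185 * ((n + 2) / (n + 1)) + 1.83 / n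
      - 0.735 * ((n / 2 + 5 / 2) / n ^ 2))
      = k * ((n / 2 - 13 / 4) / (n + 1) ^ 2) - k * (0.19185 * ((n + 2) / (n + 1)))
        + k * (1.83 / n) - k * (0.735 * ((n / 2 + 5 / 2) / n ^ 2)) := by ring
  rw [hr'] at hr
  linarith

private noncomputable def iaC (k : ℕ) : ℝ :=
  -Real.log (2 * (k : ℝ) + 1) + 2 * k * Real.log (4 / π) - 2 * Real.log (k.factorial : ℝ)
    - 2 * k + k * Real.log (((k : ℝ) + 3 / 2) * ((k : ℝ) + 11 / 2))

private theorem ia_C2 : (2 : ℝ) / 5 < iaC 2 := by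
  unfold iaC
  have h1 := ia_pi4
  have h2 := Real.log_two_gt_d9
  have h3 : Real.log 5 + 6 * Real.log 2 + 5 * Real.log 2 ≤ 2 * Real.log 105 := by
    have h4 : Real.log 5 + 6 * Real.log 2 + 5 * Real.log 2 = Real.log (5 * 2 ^ 11) := by
      rw [Real.log_mul (by norm_num) (by norm_num), Real.log_pow]
      push_cast
      ring
    have h5 : 2 * Real.log 105 = Real.log (105 ^ 2) := by
      rw [Real.log_pow]
      push_cast
      ring
    rw [h4, h5]
    exact Real.log_le_log (by norm_num) (by norm_num)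
  have h6 : Real.log ((((2 : ℕ) : ℝ) + 3 / 2) * (((2 : ℕ) : ℝ) + 11 / 2))
      = Real.log 105 - 2 * Real.log 2 := by
    have h7 : (((2 : ℕ) : ℝ) + 3 / 2) * (((2 : ℕ) : ℝ) + 11 / 2) = 105 / 2 ^ 2 := by norm_num
    rw [h7, Real.log_div (by norm_num) (by norm_num), Real.log_pow]
    push_cast
    ring
  have h8 : Real.log ((Nat.factorial 2 : ℕ) : ℝ) = Real.log 2 := by norm_num [Nat.factorial]
  have h9 : Real.log (2 * ((2 : ℕ) : ℝ) + 1) = Real.log 5 := by norm_num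
  rw [h6, h8, h9]
  push_cast
  linarith

private theorem ia_C3 : (3 : ℝ) / 5 < iaC 3 := by
  unfold iaC
  have h1 := ia_pi4
  have h2 := Real.log_two_gt_d9
  have h4 : Real.log 7 + 2 * Real.log 6 + 7 * Real.log 2 + 1 / 2 ≤ 3 * Real.log (153 / 4) := by
    have h5 : Real.log 7 + 2 * Real.log 6 + 7 * Real.log 2 = Real.log (7 * 6 ^ 2 * 2 ^ 7) := by
      rw [Real.log_mul (by norm_num) (by norm_num), Real.log_mul (by norm_num) (by norm_num),
        Real.log_pow, Real.log_pow]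
      push_cast
      ring
    have h6 : 3 * Real.log (153 / 4) = Real.log ((153 / 4) ^ 3) := by
      rw [Real.log_pow]
      push_cast
      ring
    have h7 : Real.log ((153 / 4) ^ 3)
        = Real.log (7 * 6 ^ 2 * 2 ^ 7) + Real.log ((153 / 4) ^ 3 / (7 * 6 ^ 2 * 2 ^ 7)) := by
      rw [← Real.log_mul (by norm_num) (by norm_num)]
      congr 1
      norm_num
    have h8 : (1 / 2 : ℝ) ≤ Real.log ((153 / 4) ^ 3 / (7 * 6 ^ 2 * 2 ^ 7)) := by
      rw [Real.le_log_iff_exp_le (by norm_num)]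
      have h9 := Real.exp_bound' (x := 1 / 2) (by norm_num) (by norm_num) (n := 4) (by norm_num)
      refine le_trans h9 ?_
      norm_num [Finset.sum_range_succ, Nat.factorial]
    rw [h5, h6, h7]
    linarith
  have h6 : (((3 : ℕ) : ℝ) + 3 / 2) * (((3 : ℕ) : ℝ) + 11 / 2) = 153 / 4 := by norm_num
  have h8 : Real.log ((Nat.factorial 3 : ℕ) : ℝ) = Real.log 6 := by norm_num [Nat.factorial]
  have h9 : Real.log (2 * ((3 : ℕ) : ℝ) + 1) = Real.log 7 := by norm_num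
  rw [h6, h8, h9]
  push_cast
  linarith

private theorem ia_frac {k : ℝ} (hk : 3 ≤ k) :
    (1 / 5 : ℝ) ≤ -(2 / (2 * k + 1)) + 0.48 - 2 + 6 / (4 * k + 7) + 22 / (4 * k + 15)
      + k / (k + 2) + k / (k + 6) := by
  obtain ⟨m, rfl⟩ : ∃ m, k = m + 3 := ⟨k - 3, by ring⟩
  have hm : 0 ≤ m := by linarith
  rw [← sub_nonneg]
  have h : -(2 / (2 * (m + 3) + 1)) + 0.48 - 2 + 6 / (4 * (m + 3) + 7) + 22 / (4 * (m + 3) + 15)
      + (m + 3) / (m + 3 + 2) + (m + 3) / (m + 3 + 6) - 1 / 5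
      = (9408.6 + 16829.12 * m + 8310.36 * m ^ 2 + 1820.72 * m ^ 3 + 195.84 * m ^ 4
          + 8.96 * m ^ 5)
        / ((2 * (m + 3) + 1) * (4 * (m + 3) + 7) * (4 * (m + 3) + 15) * (m + 3 + 2)
          * (m + 3 + 6)) := by
    have h1 : 2 * (m + 3) + 1 ≠ 0 := by positivity
    have h2 : 4 * (m + 3) + 7 ≠ 0 := by positivity
    have h3 : 4 * (m + 3) + 15 ≠ 0 := by positivity
    have h4 : m + 3 + 2 ≠ 0 := by positivity
    have h5 : m + 3 + 6 ≠ 0 := by positivity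
    field_simp
    ring
  rw [h]
  positivity

/-- `log b - log a ≥ 2 (b-a)/(a+b)` -/
private theorem ia_log {a b : ℝ} (ha : 0 < a) (hab : a ≤ b) :
    2 * (b - a) / (a + b) ≤ Real.log b - Real.log a := by
  have h1 := Real.le_log_one_add_of_nonneg (x := (b - a) / a)
    (div_nonneg (by linarith) ha.le)
  have h2 : 1 + (b - a) / a = b / a := by
    field_simp
    ring
  have hb : 0 < b := lt_of_lt_of_le ha hab
  rw [h2, Real.log_div hb.ne' ha.ne'] at h1
  refine le_trans (le_of_eq ?_) h1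
  have h3 : a + b ≠ 0 := (add_pos ha hb).ne'
  have h4 : b - a + a * 2 ≠ 0 := by
    have : b - a + a * 2 = a + b := by ring
    rw [this]
    exact h3
  have h5 : (b - a) / a + 2 = (a + b) / a := by
    field_simp
    ring
  rw [h5]
  field_simp

private theorem ia_step (k : ℕ) (hk : 3 ≤ k) : iaC k + 1 / 5 ≤ iaC (k + 1) := by
  unfold iaC
  have hk' : (3 : ℝ) ≤ k := by exact_mod_cast hk
  have h0 := ia_frac hk'
  have h1 := ia_pi4
  have hf : Real.log (((k + 1).factorial : ℕ) : ℝ)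
      = Real.log ((k : ℝ) + 1) + Real.log (k.factorial : ℝ) := by
    rw [Nat.factorial_succ]
    push_cast
    have hf0 : (k.factorial : ℝ) ≠ 0 := by exact_mod_cast Nat.factorial_ne_zero k
    rw [Real.log_mul (by positivity) hf0]
  rw [hf]
  push_cast
  have e1 : (k : ℝ) + 1 + 3 / 2 = k + 5 / 2 := by ring
  have e2 : (k : ℝ) + 1 + 11 / 2 = k + 13 / 2 := by ring
  have e3 : 2 * ((k : ℝ) + 1) + 1 = 2 * k + 3 := by ring
  rw [e1, e2, e3, Real.log_mul (by positivity) (by positivity),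
    Real.log_mul (by positivity) (by positivity)]
  -- the differences
  have d1 : Real.log (2 * (k : ℝ) + 3) - Real.log (2 * k + 1) ≤ 2 / (2 * k + 1) := by
    rw [← Real.log_div (by positivity) (by positivity)]
    refine le_trans (Real.log_le_sub_one_of_pos (by positivity)) (le_of_eq ?_)
    field_simp
    ring
  have d2 := ia_log (a := (k : ℝ) + 1) (b := k + 5 / 2) (by positivity) (by linarith)
  have d3 := ia_log (a := (k : ℝ) + 1) (b := k + 13 / 2) (by positivity) (by linarith)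
  have d4 := ia_log (a := (k : ℝ) + 3 / 2) (b := k + 5 / 2) (by positivity) (by linarith)
  have d5 := ia_log (a := (k : ℝ) + 11 / 2) (b := k + 13 / 2) (by positivity) (by linarith)
  have f2 : 2 * ((k : ℝ) + 5 / 2 - (k + 1)) / (k + 1 + (k + 5 / 2)) = 6 / (4 * k + 7) := by
    rw [div_eq_div_iff (by positivity) (by positivity)]
    ring
  have f3 : 2 * ((k : ℝ) + 13 / 2 - (k + 1)) / (k + 1 + (k + 13 / 2)) = 22 / (4 * k + 15) := by
    rw [div_eq_div_iff (by positivity) (by positivity)]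
    ring
  have f4 : 2 * ((k : ℝ) + 5 / 2 - (k + 3 / 2)) / (k + 3 / 2 + (k + 5 / 2)) = 1 / (k + 2) := by
    rw [div_eq_div_iff (by positivity) (by positivity)]
    ring
  have f5 : 2 * ((k : ℝ) + 13 / 2 - (k + 11 / 2)) / (k + 11 / 2 + (k + 13 / 2)) = 1 / (k + 6) := by
    rw [div_eq_div_iff (by positivity) (by positivity)]
    ring
  rw [f2] at d2
  rw [f3] at d3
  rw [f4] at d4
  rw [f5] at d5
  have g4 := mul_le_mul_of_nonneg_left d4 (show (0 : ℝ) ≤ k by positivity)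
  have g5 := mul_le_mul_of_nonneg_left d5 (show (0 : ℝ) ≤ k by positivity)
  have i4 : (k : ℝ) * (1 / (k + 2)) = k / (k + 2) := by ring
  have i5 : (k : ℝ) * (1 / (k + 6)) = k / (k + 6) := by ring
  rw [i4] at g4
  rw [i5] at g5
  linarith

private theorem ia_C {k : ℕ} (hk : 2 ≤ k) : (k : ℝ) / 5 < iaC k := by
  rcases Nat.lt_or_ge 2 k with h | h
  · induction k, (show 3 ≤ k from h) using Nat.le_induction with
    | base => exact_mod_cast ia_C3
    | succ k hk3 ih =>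
      have h1 := ih (by omega) (by omega)
      have h2 := ia_step k hk3
      push_cast
      linarith
  · have h1 : k = 2 := by omega
    subst h1
    exact_mod_cast ia_C2

theorem I1_low {n k : ℕ} (hk : 2 ≤ k) (h : 2 * k ≤ n) :
    Real.log n + Real.log (Pi2 n k) < k * Real.log (Sq n k)
      + 1 / 2 * Real.log ((n : ℝ) ^ 2 - ((k : ℝ) + 1) ^ 2)
      + 2 * Real.log (cl n k) + 2 * Real.log (LL n k) := by
  have hk' : (2 : ℝ) ≤ k := by exact_mod_cast hk
  have h' : 2 * (k : ℝ) ≤ n := by exact_mod_cast h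
  have hn1 : 1 ≤ n := by omega
  have hn0 : (0 : ℝ) < n := by linarith
  have hpi := Real.pi_pos
  have hC := ia_C hk
  have hB := ia_B hk' h'
  have L1 := log_Pi2_le (n := n) (k := k) (by omega) hn1
  have L2 := log_Sq n k
  have L3 := log_cl h
  have L4 := log_LL hn1 k
  have e1 : Real.log (2 * ((n : ℝ) + 1) / π)
      = Real.log (4 / π) - Real.log 2 + Real.log ((n : ℝ) + 1) := by
    have h2 : 2 * ((n : ℝ) + 1) / π = 4 / π / 2 * ((n : ℝ) + 1) := by
      field_simp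
      ring
    rw [h2, Real.log_mul (by positivity) (by positivity), Real.log_div (by positivity) (by norm_num)]
  have e2 : (k : ℝ) / (2 * n) * Real.log (π * n / 2) = 1 / 2 * (k / n * Real.log (π * n / 2)) := by
    field_simp
  rw [e1] at L3
  rw [e2] at L4
  unfold iaC at hC
  rw [L2]
  nlinarith [hB, hC, L1, L3, L4]


end Pool.LKX
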