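import Pool.Agent.LKX.CotB
import Pool.Agent.LK2.MBd

/-!
# LKX/I1L: logarithmic bounds

* `log_one_sub_ge`: `log (1-t) ≥ -1.151 t` for `0 ≤ t ≤ 1/4` (concavity: `log (1-t) ≥ 4t log (3/4)`, and
  `4 log (4/3) ≤ 1.151`, since `exp 0.28775 ≥ 1 + x + x²/2 + x³/6 + x⁴/24 ≥ 4/3` at `x = 0.28775`).
* `log_LL`: `log (LL n k) = (k/n) ((n-1) log 2 + log n!)`, `Stirling.le_log_factorial_stirling`
  (`log n! ≥ n log n - n + (1/2) log n + (1/2) log (2π)`), and `(1/2) log (2πn) - log 2 = (1/2) log (πn/2)`.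
* `log_cl`: `cl n j = (√(2j+1))⁻¹ ∏_{i<j} (2(n+1)/(π(i+1)) (1 - ((i+1)/(n+1))²))`; take logarithms;
  `∑_{i<j} log (i+1) = log j!`; `((i+1)/(n+1))² ≤ 1/4` as `2j ≤ n`; `∑_{i<j} (i+1)² = j(j+1)(2j+1)/6`.
* `log_Pi2_le`: `log (n²-i²) = 2 log n + log (1 - i²/n²) ≤ 2 log n - i²/n²`, `∑_{i<k} i² = (k-1)k(2k-1)/6`.
* `Pi2_fact`: `Pi2 n k (n-k)! (n+k) = n (n+k)!` (induction on `k`, `k ≤ n`, `1 ≤ n`).
* `log_Pi2_le'`: `Pi2_fact` and, by `Stirling.stirlingSeq'_antitone` (`n - k ≥ 1`) and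
  `Stirling.log_stirlingSeq_formula`,
  `log (n+k)! - log (n-k)! ≤ (1/2) log (n+k) - (1/2) log (n-k) + (n+k) log (n+k) - (n-k) log (n-k) - 2k`.
* `log_fact_le`: `stirlingSeq j ≤ stirlingSeq 1 = e/√2`.
-/

namespace Pool.LKX

open Real
open Pool.LK2 (Pi2 Sq)

theorem log_one_sub_ge {t : ℝ} (h0 : 0 ≤ t) (h1 : t ≤ 1 / 4) : -(1.151 * t) ≤ Real.log (1 - t) := by
  have h2 : (4 : ℝ) / 3 ≤ Real.exp 0.28775 := by
    have h3 := Real.sum_le_exp_of_nonneg (x := 0.28775) (by norm_num) 5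
    refine le_trans ?_ h3
    simp only [Finset.sum_range_succ, Finset.sum_range_zero, Nat.factorial]
    norm_num
  have h4 : -(0.28775 : ℝ) ≤ Real.log (3 / 4) := by
    rw [Real.le_log_iff_exp_le (by norm_num), Real.exp_neg,
      inv_le_comm₀ (Real.exp_pos _) (by norm_num)]
    refine le_trans ?_ h2
    norm_num
  have hc := strictConcaveOn_log_Ioi.concaveOn.2 (show (1 : ℝ) ∈ Set.Ioi 0 from Set.mem_Ioi.2 one_pos)
    (show (3 / 4 : ℝ) ∈ Set.Ioi 0 from by norm_num [Set.mem_Ioi])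
    (show (0 : ℝ) ≤ 1 - 4 * t by linarith) (show (0 : ℝ) ≤ 4 * t by linarith) (by ring)
  rw [smul_eq_mul, smul_eq_mul, smul_eq_mul, smul_eq_mul, Real.log_one, mul_zero, zero_add] at hc
  have e1 : (1 - 4 * t) * 1 + 4 * t * (3 / 4) = 1 - t := by ring
  rw [e1] at hc
  refine le_trans ?_ hc
  have h5 := mul_le_mul_of_nonneg_left h4 (show (0 : ℝ) ≤ 4 * t by linarith)
  refine le_trans (le_of_eq ?_) h5
  ring

theorem LL_pos (n k : ℕ) : 0 < LL n k := by
  unfold LL
  positivity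

theorem log_LL {n : ℕ} (hn : 1 ≤ n) (k : ℕ) :
    (k : ℝ) * Real.log 2 + k * Real.log n - k + (k : ℝ) / (2 * n) * Real.log (π * n / 2) ≤
      Real.log (LL n k) := by
  have hn0 : (0 : ℝ) < n := by exact_mod_cast hn
  have hpi := Real.pi_pos
  have h1 := Stirling.le_log_factorial_stirling (n := n) (by omega)
  have e1 : Real.log (LL n k) =
      (k : ℝ) / n * (((n : ℝ) - 1) * Real.log 2 + Real.log (n.factorial : ℝ)) := by
    unfold LL
    rw [Real.log_rpow (by positivity), Real.log_mul (by positivity) (by positivity), Real.log_pow,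
      Nat.cast_sub hn, Nat.cast_one]
  have e2 : Real.log (π * n / 2) = Real.log π + Real.log n - Real.log 2 := by
    rw [Real.log_div (by positivity) (by norm_num), Real.log_mul (by positivity) (by positivity)]
  have e3 : Real.log (2 * π) = Real.log 2 + Real.log π :=
    Real.log_mul (by norm_num) (by positivity)
  rw [e1, e2]
  rw [e3] at h1
  have h2 := mul_le_mul_of_nonneg_left h1 (show (0 : ℝ) ≤ (k : ℝ) / n by positivity)
  have e4 : (k : ℝ) * Real.log 2 + k * Real.log n - k +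
      (k : ℝ) / (2 * n) * (Real.log π + Real.log n - Real.log 2) =
      (k : ℝ) / n * (((n : ℝ) - 1) * Real.log 2) + (k : ℝ) / n * (n * Real.log n - n +
        Real.log n / 2 + (Real.log 2 + Real.log π) / 2) := by
    field_simp
    ring
  rw [e4, mul_add]
  linarith

private theorem sum_sq_aux (j : ℕ) :
    ∑ i ∈ Finset.range j, (((i : ℝ) + 1) ^ 2) = (j : ℝ) * (j + 1) * (2 * j + 1) / 6 := by
  induction j with
  | zero => simp
  | succ j ih =>
    rw [Finset.sum_range_succ, ih]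
    push_cast
    ring

private theorem sum_sq_aux' (j : ℕ) :
    ∑ i ∈ Finset.range j, ((i : ℝ) ^ 2) = ((j : ℝ) - 1) * j * (2 * j - 1) / 6 := by
  induction j with
  | zero => simp
  | succ j ih =>
    rw [Finset.sum_range_succ, ih]
    push_cast
    ring

private theorem log_fact_sum (j : ℕ) :
    ∑ i ∈ Finset.range j, Real.log ((i : ℝ) + 1) = Real.log (j.factorial : ℝ) := by
  induction j with
  | zero => simp
  | succ j ih =>
    rw [Finset.sum_range_succ, ih, Nat.factorial_succ]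
    push_cast
    rw [Real.log_mul (by positivity) (by positivity)]
    ring

theorem log_cl {n j : ℕ} (h : 2 * j ≤ n) :
    -(1 / 2 * Real.log (2 * (j : ℝ) + 1)) + j * Real.log (2 * ((n : ℝ) + 1) / π)
      - Real.log (j.factorial : ℝ)
      - 1.151 * ((j : ℝ) * (j + 1) * (2 * j + 1) / (6 * ((n : ℝ) + 1) ^ 2)) ≤ Real.log (cl n j) := by
  have hpi := Real.pi_pos
  have hn0 : (0 : ℝ) < (n : ℝ) + 1 := by positivity
  have hin : ∀ i ∈ Finset.range j, (((i : ℝ) + 1) / ((n : ℝ) + 1)) ^ 2 ≤ 1 / 4 := by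
    intro i hi
    have h1 : i + 1 ≤ j := Finset.mem_range.1 hi
    have h2 : (i : ℝ) + 1 ≤ j := by exact_mod_cast h1
    have h3 : 2 * (j : ℝ) ≤ n := by exact_mod_cast h
    have h4 : ((i : ℝ) + 1) / ((n : ℝ) + 1) ≤ 1 / 2 := by
      rw [div_le_div_iff₀ hn0 (by norm_num)]
      linarith
    have h5 : 0 ≤ ((i : ℝ) + 1) / ((n : ℝ) + 1) := by positivity
    nlinarith
  have hne : ∀ i ∈ Finset.range j, 2 * ((n : ℝ) + 1) / (π * ((i : ℝ) + 1)) *
      (1 - (((i : ℝ) + 1) / ((n : ℝ) + 1)) ^ 2) ≠ 0 := by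
    intro i hi
    have h1 := hin i hi
    have h2 : (0 : ℝ) < 1 - (((i : ℝ) + 1) / ((n : ℝ) + 1)) ^ 2 := by linarith
    positivity
  have e1 : Real.log (cl n j) = -(1 / 2 * Real.log (2 * (j : ℝ) + 1)) +
      ∑ i ∈ Finset.range j, Real.log (2 * ((n : ℝ) + 1) / (π * ((i : ℝ) + 1)) *
        (1 - (((i : ℝ) + 1) / ((n : ℝ) + 1)) ^ 2)) := by
    unfold cl
    rw [Real.log_mul (by positivity) (Finset.prod_ne_zero_iff.2 hne), Real.log_inv,
      Real.log_sqrt (by positivity), Real.log_prod hne]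
    ring
  have e2 : (j : ℝ) * Real.log (2 * ((n : ℝ) + 1) / π) - Real.log (j.factorial : ℝ)
      - 1.151 * ((j : ℝ) * (j + 1) * (2 * j + 1) / (6 * ((n : ℝ) + 1) ^ 2)) =
      ∑ i ∈ Finset.range j, (Real.log (2 * ((n : ℝ) + 1) / π) - Real.log ((i : ℝ) + 1) -
        1.151 * ((((i : ℝ) + 1) / ((n : ℝ) + 1)) ^ 2)) := by
    rw [Finset.sum_sub_distrib, Finset.sum_sub_distrib, log_fact_sum, Finset.sum_const,
      Finset.card_range, nsmul_eq_mul, ← Finset.mul_sum]
    simp_rw [div_pow]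
    rw [← Finset.sum_div, sum_sq_aux]
    congr 2
    field_simp
  have h6 : (j : ℝ) * Real.log (2 * ((n : ℝ) + 1) / π) - Real.log (j.factorial : ℝ)
      - 1.151 * ((j : ℝ) * (j + 1) * (2 * j + 1) / (6 * ((n : ℝ) + 1) ^ 2)) ≤
      ∑ i ∈ Finset.range j, Real.log (2 * ((n : ℝ) + 1) / (π * ((i : ℝ) + 1)) *
        (1 - (((i : ℝ) + 1) / ((n : ℝ) + 1)) ^ 2)) := by
    rw [e2]
    refine Finset.sum_le_sum fun i hi => ?_
    have h1 := hin i hi
    have h2 : (0 : ℝ) < 1 - (((i : ℝ) + 1) / ((n : ℝ) + 1)) ^ 2 := by linarith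
    have h3 := log_one_sub_ge (t := (((i : ℝ) + 1) / ((n : ℝ) + 1)) ^ 2) (by positivity) h1
    have e7 : 2 * ((n : ℝ) + 1) / (π * ((i : ℝ) + 1)) = 2 * ((n : ℝ) + 1) / π / ((i : ℝ) + 1) := by
      rw [div_div]
    have e8 : Real.log (2 * ((n : ℝ) + 1) / (π * ((i : ℝ) + 1)) *
        (1 - (((i : ℝ) + 1) / ((n : ℝ) + 1)) ^ 2)) = Real.log (2 * ((n : ℝ) + 1) / π) -
        Real.log ((i : ℝ) + 1) + Real.log (1 - (((i : ℝ) + 1) / ((n : ℝ) + 1)) ^ 2) := by
      rw [Real.log_mul (by positivity) h2.ne', e7, Real.log_div (by positivity) (by positivity)]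
    rw [e8]
    linarith
  rw [e1]
  linarith

theorem Pi2_pos {n k : ℕ} (h : k ≤ n) : 0 < Pi2 n k := by
  unfold Pi2
  refine Finset.prod_pos fun i hi => ?_
  have h1 : i < n := lt_of_lt_of_le (Finset.mem_range.1 hi) h
  have h2 : (i : ℝ) < n := by exact_mod_cast h1
  have h3 : (0 : ℝ) ≤ i := Nat.cast_nonneg i
  nlinarith

theorem log_Pi2_le {n k : ℕ} (h : k ≤ n) (hn : 1 ≤ n) :
    Real.log (Pi2 n k) ≤ 2 * k * Real.log n - ((k : ℝ) - 1) * k * (2 * k - 1) / (6 * (n : ℝ) ^ 2) := by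
  have hn0 : (0 : ℝ) < n := by exact_mod_cast hn
  have hpos : ∀ i ∈ Finset.range k, 0 < (n : ℝ) ^ 2 - (i : ℝ) ^ 2 := by
    intro i hi
    have h1 : i < n := lt_of_lt_of_le (Finset.mem_range.1 hi) h
    have h2 : (i : ℝ) < n := by exact_mod_cast h1
    have h3 : (0 : ℝ) ≤ i := Nat.cast_nonneg i
    nlinarith
  have e1 : Real.log (Pi2 n k) = ∑ i ∈ Finset.range k, Real.log ((n : ℝ) ^ 2 - (i : ℝ) ^ 2) := by
    unfold Pi2
    exact Real.log_prod fun i hi => (hpos i hi).ne'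
  have e2 : 2 * k * Real.log n - ((k : ℝ) - 1) * k * (2 * k - 1) / (6 * (n : ℝ) ^ 2) =
      ∑ i ∈ Finset.range k, (2 * Real.log n - (i : ℝ) ^ 2 / (n : ℝ) ^ 2) := by
    rw [Finset.sum_sub_distrib, Finset.sum_const, Finset.card_range, nsmul_eq_mul,
      ← Finset.sum_div, sum_sq_aux']
    field_simp
  rw [e1, e2]
  refine Finset.sum_le_sum fun i hi => ?_
  have h1 := hpos i hi
  have e3 : (n : ℝ) ^ 2 - (i : ℝ) ^ 2 = (n : ℝ) ^ 2 * (1 - (i : ℝ) ^ 2 / (n : ℝ) ^ 2) := by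
    field_simp
  have h2 : 0 < 1 - (i : ℝ) ^ 2 / (n : ℝ) ^ 2 := by
    rw [e3] at h1
    exact (pos_iff_pos_of_mul_pos h1).1 (by positivity)
  rw [e3, Real.log_mul (by positivity) h2.ne', Real.log_pow]
  have h3 := Real.log_le_sub_one_of_pos h2
  push_cast
  linarith

theorem Pi2_fact {n k : ℕ} (h : k ≤ n) (hn : 1 ≤ n) :
    Pi2 n k * ((n - k).factorial : ℝ) * ((n : ℝ) + k) = n * ((n + k).factorial : ℝ) := by
  induction k with
  | zero => simp [Pi2]; ring
  | succ k ih =>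
    have ih1 := ih (by omega)
    have e1 : Pi2 n (k + 1) = Pi2 n k * ((n : ℝ) ^ 2 - (k : ℝ) ^ 2) := by
      unfold Pi2
      rw [Finset.prod_range_succ]
    have e2 : ((n - k).factorial : ℝ) = ((n : ℝ) - k) * ((n - (k + 1)).factorial : ℝ) := by
      have h3 : n - k = (n - (k + 1)) + 1 := by omega
      rw [h3, Nat.factorial_succ]
      push_cast
      rw [Nat.cast_sub h]
      push_cast
      ring
    have e3 : ((n + (k + 1)).factorial : ℝ) = ((n : ℝ) + k + 1) * ((n + k).factorial : ℝ) := by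
      rw [← add_assoc, Nat.factorial_succ]
      push_cast
      ring
    rw [e1, e3]
    rw [e2] at ih1
    push_cast
    linear_combination ((n : ℝ) + k + 1) * ih1

theorem log_Pi2_le' {n k : ℕ} (h : k < n) :
    Real.log n + Real.log (Pi2 n k) ≤ 2 * Real.log n
      - 1 / 2 * Real.log (((n : ℝ) - k) * (n + k)) + ((n : ℝ) + k) * Real.log ((n : ℝ) + k)
      - ((n : ℝ) - k) * Real.log ((n : ℝ) - k) - 2 * k := by
  have hn0 : (0 : ℝ) < n := by exact_mod_cast (by omega : 0 < n)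
  have hk0 : (0 : ℝ) ≤ k := Nat.cast_nonneg k
  have hkn : (k : ℝ) < n := by exact_mod_cast h
  have hp := Pi2_pos (n := n) (k := k) h.le
  have hf := Pi2_fact (n := n) (k := k) h.le (by omega)
  have hnk : (0 : ℝ) < (n : ℝ) - k := by linarith
  have hnk' : (0 : ℝ) < (n : ℝ) + k := by linarith
  have e1 : Real.log (Pi2 n k) + Real.log ((n - k).factorial : ℝ) + Real.log ((n : ℝ) + k) =
      Real.log n + Real.log ((n + k).factorial : ℝ) := by
    rw [← Real.log_mul hp.ne' (by positivity), ← Real.log_mul (by positivity) hnk'.ne', hf,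
      Real.log_mul hn0.ne' (by positivity)]
  have e2 : (((n - k : ℕ) : ℝ)) = (n : ℝ) - k := Nat.cast_sub h.le
  have e3 := Stirling.log_stirlingSeq_formula (n + k)
  have e4 := Stirling.log_stirlingSeq_formula (n - k)
  have hle : Real.log (Stirling.stirlingSeq (n + k)) ≤ Real.log (Stirling.stirlingSeq (n - k)) := by
    have h1 := Stirling.log_stirlingSeq'_antitone (show n - k - 1 ≤ n + k - 1 by omega)
    simp only [Function.comp] at h1
    have e5 : (n - k - 1).succ = n - k := by omega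
    have e6 : (n + k - 1).succ = n + k := by omega
    rwa [e5, e6] at h1
  rw [e3, e4] at hle
  push_cast at hle
  rw [e2, Real.log_mul (by norm_num) hnk'.ne', Real.log_mul (by norm_num) hnk.ne',
    Real.log_div hnk'.ne' (Real.exp_pos 1).ne', Real.log_div hnk.ne' (Real.exp_pos 1).ne',
    Real.log_exp] at hle
  rw [Real.log_mul hnk.ne' hnk'.ne']
  linarith

theorem log_fact_le {j : ℕ} (h : 1 ≤ j) :
    Real.log (j.factorial : ℝ) ≤ 1 + 1 / 2 * Real.log j + j * Real.log j - j := by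
  have hj0 : (0 : ℝ) < j := by exact_mod_cast h
  have e3 := Stirling.log_stirlingSeq_formula j
  have e4 := Stirling.log_stirlingSeq_formula 1
  have hle : Real.log (Stirling.stirlingSeq j) ≤ Real.log (Stirling.stirlingSeq 1) := by
    have h1 := Stirling.log_stirlingSeq'_antitone (show 0 ≤ j - 1 by omega)
    simp only [Function.comp] at h1
    have e5 : (j - 1).succ = j := by omega
    rwa [e5] at h1
  rw [e3, e4] at hle
  rw [Real.log_mul (by norm_num) hj0.ne', Real.log_div hj0.ne' (Real.exp_pos 1).ne'] at hle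
  simp only [Nat.factorial_one, Nat.cast_one, Real.log_one, mul_one, one_div, Real.log_inv,
    Real.log_exp] at hle
  linarith

theorem Sq_pos (n k : ℕ) : 0 < Sq n k := by
  unfold Pool.LK2.Sq
  positivity

theorem log_Sq (n k : ℕ) :
    Real.log (Sq n k) = Real.log (((k : ℝ) + 3 / 2) * ((k : ℝ) + 11 / 2))
      - Real.log ((n : ℝ) ^ 2 + 3 * (k : ℝ) + 17 / 4) := by
  unfold Pool.LK2.Sq
  rw [Real.log_div (by positivity) (by positivity)]

end Pool.LKX
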