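import Pool.Agent.LKX.I1B

/-!
# LKX/I2D: the explicit function `TR` (definition)
-/

namespace Pool.LKX

open Real

/-- explicit function -/
noncomputable def TR (n j : ℝ) : ℝ :=
  SS n j + 0.18 * (j * (j - 1.2) / n) - 0.113 - Real.log (j * √(2 / n) + √(1 + 0.29 * (j / (j - 2))))

end Pool.LKX
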