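import Pool.Agent.LKX.I2D

/-!
# LKX/I2R1: part of the positivity of the explicit function `TR` (`I2R.lean`); this file proves only `TR_mono`

`TR n j = SS n j + 0.18 j(j-1.2)/n - 0.113 - log (j √(2/n) + √(1 + 0.29 j/(j-2)))`, `SS` from `I1B.lean`.
`TR_pos`: `j ≥ 3`, `n ≥ 19`, `7j < 3n`.

(1) For fixed `j ≥ 3`, `TR` is nondecreasing in the real variable `n` for `n ≥ max (19, 7j/3)`:
 `½ log(2-j/n)`, `½(1-j/n) log(π/2)`, `3(n-j)/(4(n-j)+3)`, `11(n-j)/(4(n-j)+11)`, `-2.125 (n-j)/n²` (as `n ≥ 2j`) and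
 `-log(j√(2/n) + κ)` are nondecreasing, and the sum of the others,
 `g(n) = ½ j log n - ½(j/n) log n - 1.5 (1-j/n)² + j/n + 0.18 j(j-1.2)/n`, has the derivative
 `(j/n²)[½(n + log n - 1) - 3(1-j/n) - 1 - 0.18(j-1.2)] ≥ 0`, because `0.18 j ≤ 0.0772 n`, `log n ≥ 0`:
 `½ n - ½ - 3 - 1 - 0.0772 n ≥ 0` for `n ≥ 19`.
(2) `j = 3, ..., 8`: `TR n j ≥ TR 19 j`, and `TR 19 j = 1.214, 1.193, 1.047, 0.821, 0.534, 0.194`
 (`√(1+0.29 j/(j-2)) ≤ 1.3675, 1.2570, 1.2180, 1.1979, 1.1858, 1.1776`; numerical bounds of logarithms of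
 rationals, e.g. `log y ≤ log c + (y-c)/c` or exponentials).
(3) `j ≥ 9`: `TR n j ≥ TR (7j/3) j` (`7j/3 ≥ 21`).  At `n = 7j/3`: `n - j = 4j/3`, `j/n = 3/7`, and
 `3(n-j)/(4(n-j)+3) = 3/4 - (27/4)/(16j+9)`, `11(n-j)/(4(n-j)+11) = 11/4 - (363/4)/(16j+33)`,
 `1.5 (4/7)² = 0.48980`, `2.125 (n-j)/n² = 0.52042/j`, `½ log(11/7) ≥ 0.2259`, `(2/7) log(π/2) ≥ 0.129`,
 `j√(2/n) = √(6j/7)`, `√(1+0.29 j/(j-2)) ≤ √(1+0.29·9/7) ≤ 1.1718`,
 `½ log(7/3) - 0.2982 + 0.18·3/7 ≥ 0.2025`, `0.18·1.2·3/7 ≤ 0.0926`.  So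
 `TR (7j/3) j ≥ 0.2025 j + 2.5877 - ½ log(2j+1) - ¼ log(j/(j-1)) - (3/14) log(7j/3) - log(√(6j/7) + 1.1718)
    - 6.75/(16j+9) - 90.75/(16j+33) - 0.52042/j`.
 Value at `j = 9`: `≥ 0.265`.  For `j ≥ 9`: `log(2j+1) ≤ log 19 + (2j-18)/19`, `log(7j/3) ≤ log 21 + (j-9)/9`,
 `log(√(6j/7)+1.1718) ≤ log 3.95 + (√(6j/7) - √(54/7))/3.95 ≤ log 3.95 + 0.0391 (j-9)`; the other terms
 increase with `j`; `0.0527 + 0.0239 + 0.0391 ≤ 0.2025`.
All numbers checked numerically.
-/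

namespace Pool.LKX

open Real

theorem TR_mono {j n n' : ℝ} (hj : 3 ≤ j) (h19 : 19 ≤ n) (h : 7 * j ≤ 3 * n) (hn : n ≤ n') :
    TR n j ≤ TR n' j := by
  have hn0 : 0 < n := by linarith
  have hn0' : 0 < n' := by linarith
  have hj0 : 0 < j := by linarith
  have hjn : j < n := by linarith
  have hjn' : j < n' := by linarith
  -- pieces
  have hinv : j / n' ≤ j / n := div_le_div_of_nonneg_left hj0.le hn0 hn
  have hjn1 : j / n < 1 := (div_lt_one hn0).2 hjn
  have hC : Real.log (2 - j / n) ≤ Real.log (2 - j / n') :=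
    Real.log_le_log (by linarith) (by linarith)
  have hlpi : 0 ≤ Real.log (π / 2) := Real.log_nonneg (by linarith [Real.pi_gt_three])
  have hD : (1 - j / n) * Real.log (π / 2) ≤ (1 - j / n') * Real.log (π / 2) :=
    mul_le_mul_of_nonneg_right (by linarith) hlpi
  have hE : 3 * (n - j) / (4 * (n - j) + 3) ≤ 3 * (n' - j) / (4 * (n' - j) + 3) := by
    rw [div_le_div_iff₀ (by linarith) (by linarith)]
    nlinarith
  have hF : 11 * (n - j) / (4 * (n - j) + 11) ≤ 11 * (n' - j) / (4 * (n' - j) + 11) := by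
    rw [div_le_div_iff₀ (by linarith) (by linarith)]
    nlinarith
  have hH : (n' - j) / n' ^ 2 ≤ (n - j) / n ^ 2 := by
    rw [div_le_div_iff₀ (by positivity) (by positivity)]
    have e : (n - j) * n' ^ 2 - (n' - j) * n ^ 2 = (n' - n) * (n * n' - j * (n + n')) := by ring
    have e2 : 0 ≤ n * n' - j * (n + n') := by nlinarith
    nlinarith [mul_nonneg (sub_nonneg.2 hn) e2]
  have hK : Real.log (j * √(2 / n') + √(1 + 0.29 * (j / (j - 2)))) ≤
      Real.log (j * √(2 / n) + √(1 + 0.29 * (j / (j - 2)))) := by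
    have h1 : √(2 / n') ≤ √(2 / n) := Real.sqrt_le_sqrt (div_le_div_of_nonneg_left (by norm_num) hn0 hn)
    have h2 : 0 < √(2 / n') := Real.sqrt_pos.2 (by positivity)
    refine Real.log_le_log ?_ ?_
    · have h5 : 0 < j * √(2 / n') := mul_pos hj0 h2
      have h6 := Real.sqrt_nonneg (1 + 0.29 * (j / (j - 2)))
      linarith
    · have := mul_le_mul_of_nonneg_left h1 hj0.le
      linarith
  have hB : j / n' * Real.log n' ≤ j / n * Real.log n := by
    have he : Real.exp 1 ≤ n := by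
      have := Real.exp_one_lt_d9
      linarith
    have h1 : Real.log n' / n' ≤ Real.log n / n :=
      Real.log_div_self_antitoneOn (Set.mem_ofPred_eq ▸ he) (Set.mem_ofPred_eq ▸ he.trans hn) hn
    have h2 := mul_le_mul_of_nonneg_left h1 hj0.le
    calc j / n' * Real.log n' = j * (Real.log n' / n') := by ring
      _ ≤ j * (Real.log n / n) := h2
      _ = j / n * Real.log n := by ring
  have hA : j * Real.log (n / j) + j * ((n' - n) / n') ≤ j * Real.log (n' / j) := by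
    have h1 : 1 - n / n' ≤ Real.log (n' / n) := by
      have h2 := Real.one_sub_inv_le_log_of_pos (x := n' / n) (by positivity)
      rwa [inv_div] at h2
    have h3 : Real.log (n' / j) = Real.log (n / j) + Real.log (n' / n) := by
      rw [← Real.log_mul (by positivity) (by positivity)]
      congr 1
      field_simp
    have h4 : (n' - n) / n' = 1 - n / n' := by field_simp
    rw [h3, h4]
    nlinarith
  -- the rational part
  have hR : -(1.5 * ((n - j) ^ 2 / n ^ 2)) + j / n + 0.18 * (j * (j - 1.2) / n) ≤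
      1 / 2 * (j * ((n' - n) / n')) - 1.5 * ((n' - j) ^ 2 / n' ^ 2) + j / n' + 0.18 * (j * (j - 1.2) / n') := by
    have e1 : (n - j) ^ 2 / n ^ 2 = (1 - j / n) ^ 2 := by field_simp
    have e2 : (n' - j) ^ 2 / n' ^ 2 = (1 - j / n') ^ 2 := by field_simp
    rw [e1, e2]
    have e3 : j / n - j / n' = j * ((n' - n) / n') / n := by field_simp
    obtain ⟨d, hd⟩ : ∃ d, d = j * ((n' - n) / n') / n := ⟨_, rfl⟩
    have hd0 : 0 ≤ d := by
      rw [hd]
      have : 0 ≤ n' - n := by linarith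
      positivity
    have e4 : j * ((n' - n) / n') = d * n := by rw [hd]; field_simp
    have e5 : j / n = j / n' + d := by rw [hd]; linarith
    have e6 : j * (j - 1.2) / n = j * (j - 1.2) / n' + d * (j - 1.2) := by
      have : j * (j - 1.2) / n = j / n * (j - 1.2) := by ring
      rw [this, e5]
      ring
    rw [e4, e6, e5]
    obtain ⟨t, ht⟩ : ∃ t, t = j / n' := ⟨_, rfl⟩
    have ht0 : 0 < t := by rw [ht]; positivity
    rw [← ht]
    have e7 : (1 - t) ^ 2 - (1 - (t + d)) ^ 2 = d * (2 - 2 * t - d) := by ring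
    nlinarith [mul_nonneg hd0 hd0, mul_nonneg hd0 ht0.le, mul_nonneg hd0 (by linarith : 0 ≤ n - 19),
      mul_nonneg hd0 (by linarith : 0 ≤ 3 * n - 7 * j)]
  unfold TR SS
  linarith

end Pool.LKX
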