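import Pool.Agent.LKX.Defs

/-!
# LKX/Sonin: Sonin's function for `T_i^(k)`

`A = TJ i k`, `B = TJ i (k+1)`, `C = TJ i (k+2)`; `f(x) = A² + (1-x²) B²/(i²-k²)`.  By `TJ_ode i k`
 (`(1-x²) C = (2k+1) x B - (i²-k²) A`):
 `f' = 2AB + (-2xB² + 2B (1-x²) C)/(i²-k²) = 4 k x B²/(i²-k²)`,
 so `f` is nonincreasing on `(-∞, 0]` and nondecreasing on `[0, ∞)`.
`sonin`: `A(x)² ≤ f(x)` (`|x| ≤ 1`), `f(x) = f(|x|)` (`TJ_neg_sq`), `f(|x|) ≤ f(y)`.
 (No condition `y ≤ 1` is needed for `f(|x|) ≤ f(y)`, only `|x| ≤ 1` for `A(x)² ≤ f(x)`.)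
-/

namespace Pool.LKX

open Pool.LK1 (TJ TJ_hasDerivAt)

/-- Sonin's function -/
private noncomputable def sonF (i k : ℕ) (x : ℝ) : ℝ :=
  TJ i k x ^ 2 + (1 - x ^ 2) * TJ i (k + 1) x ^ 2 / ((i : ℝ) ^ 2 - (k : ℝ) ^ 2)

private theorem sonin_pos {i k : ℕ} (hk : k < i) : 0 < (i : ℝ) ^ 2 - (k : ℝ) ^ 2 := by
  have h1 : (k : ℝ) < i := by exact_mod_cast hk
  have h2 : (0 : ℝ) ≤ k := Nat.cast_nonneg k
  nlinarith

private theorem sonF_hasDerivAt {i k : ℕ} (hk : k < i) (x : ℝ) :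
    HasDerivAt (sonF i k) (4 * k * x * TJ i (k + 1) x ^ 2 / ((i : ℝ) ^ 2 - (k : ℝ) ^ 2)) x := by
  have hc := sonin_pos hk
  have hA := (TJ_hasDerivAt i k x).pow 2
  have hB := (TJ_hasDerivAt i (k + 1) x).pow 2
  have h1 : HasDerivAt (fun t : ℝ => 1 - t ^ 2) (0 - 2 * x) x := by
    have := (hasDerivAt_pow 2 x)
    simpa using this.const_sub 1
  have h2 := hA.add ((h1.mul hB).div_const ((i : ℝ) ^ 2 - (k : ℝ) ^ 2))
  have hode := TJ_ode i k x
  refine h2.congr_deriv ?_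
  have hc' := hc.ne'
  field_simp
  push_cast
  simp only [pow_one, Pi.pow_apply]
  have e : k + 1 + 1 = k + 2 := rfl
  rw [e]
  linear_combination (2 * TJ i (k + 1) x) * hode

private theorem sonF_mono {i k : ℕ} (hk : k < i) : MonotoneOn (sonF i k) (Set.Ici 0) := by
  apply monotoneOn_of_deriv_nonneg (convex_Ici 0)
  · exact fun x _ => (sonF_hasDerivAt hk x).continuousAt.continuousWithinAt
  · exact fun x _ => (sonF_hasDerivAt hk x).differentiableAt.differentiableWithinAt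
  · intro x hx
    rw [interior_Ici, Set.mem_Ioi] at hx
    rw [(sonF_hasDerivAt hk x).deriv]
    have := sonin_pos hk
    positivity

private theorem sonF_abs (i k : ℕ) (x : ℝ) : sonF i k |x| = sonF i k x := by
  rcases abs_cases x with h | h
  · rw [h.1]
  · rw [h.1]
    unfold sonF
    rw [TJ_neg_sq, TJ_neg_sq, neg_sq]

theorem sonin {i k : ℕ} (hk : k < i) {x y : ℝ} (hxy : |x| ≤ y) (hy : y ≤ 1) :
    TJ i k x ^ 2 ≤ TJ i k y ^ 2 + (1 - y ^ 2) * TJ i (k + 1) y ^ 2 / ((i : ℝ) ^ 2 - (k : ℝ) ^ 2) := by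
  have hc := sonin_pos hk
  have h1 : sonF i k x ≤ sonF i k y := by
    rw [← sonF_abs i k x]
    exact sonF_mono hk (abs_nonneg x) (show (0 : ℝ) ≤ y from (abs_nonneg x).trans hxy) hxy
  refine le_trans ?_ h1
  unfold sonF
  have hx1 : x ^ 2 ≤ 1 := by
    rw [← sq_abs]
    have := abs_nonneg x
    nlinarith
  have : 0 ≤ (1 - x ^ 2) * TJ i (k + 1) x ^ 2 / ((i : ℝ) ^ 2 - (k : ℝ) ^ 2) :=
    div_nonneg (mul_nonneg (by linarith) (sq_nonneg _)) hc.le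
  linarith

/-- special case of a zero of the derivative -/
theorem sonin_zero {i k : ℕ} (hk : k < i) {x y : ℝ} (hxy : |x| ≤ y) (hy : y ≤ 1)
    (h0 : TJ i (k + 1) y = 0) : TJ i k x ^ 2 ≤ TJ i k y ^ 2 := by
  have := sonin hk hxy hy
  rw [h0] at this
  simpa using this

end Pool.LKX
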