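import Pool.Agent.LKX.CD
import Pool.Agent.LKX.Sonin

/-!
# LKX/LowB: the part of the Chebyshev sum below `n`

`p = n - 1`, `A_i = TJ i k`, `B_i = TJ i (k+1)`, `h_i = hh i k`.  For `k < i < n`
 (`sonin` with `y = X`): `A_i(x)² ≤ A_i(X)² + (1-X²) B_i(X)²/(i²-k²)`, `hh i (k+1) = h_i (i²-k²)`, so
 `A_i(x)² ≤ h_i [A_i(X)²/h_i + (1-X²) B_i(X)²/hh i (k+1)] ≤ h_p [...]` (`hh_mono`; `[...] ≥ 0`), and for
 `i = k` `A_k(x) = A_k(X)` (`TJ_const`), `h_k ≤ h_p`.  Sum, `cd_zero`, `cd_zero'`: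
 `∑_{k ≤ i < n} A_i(x)² ≤ h_p [∑_{i=k}^p A_i(X)²/h_i + (1-X²) ∑_{i=k+1}^p B_i(X)²/hh i (k+1)]
   = p (n-k)²/(2n²) A_n(X)² [1 + (n+k)/(n-1+k)]`,
 and `1 + (n+k)/(n+k-1) = 2 + 1/(n+k-1)`, `(lo n k)² = ((n-k)/n)² (n-1) (2 + 1/(n+k-1))`.
-/

namespace Pool.LKX

open Pool.LK1 (TJ)

theorem lowB {n k : ℕ} (hk : 1 ≤ k) (hn : k + 2 ≤ n) {x X : ℝ} (hx : |x| ≤ X) (hX : X ≤ 1)
    (h0 : TJ n (k + 1) X = 0) :
    2 * ∑ i ∈ Finset.Ico k n, TJ i k x ^ 2 ≤ lo n k ^ 2 * TJ n k X ^ 2 := by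
  obtain ⟨p, rfl⟩ : ∃ p, n = p + 1 := ⟨n - 1, by omega⟩
  have hkp : k + 1 ≤ p := by omega
  have hX0 : 0 ≤ X := (abs_nonneg x).trans hx
  have hX2 : 0 ≤ 1 - X ^ 2 := by nlinarith
  have hP := hh_pos (show k ≤ p by omega)
  -- termwise bound for `i > k`
  have hterm : ∀ i ∈ Finset.Icc (k + 1) p, TJ i k x ^ 2 ≤
      hh p k * (TJ i k X ^ 2 / hh i k + (1 - X ^ 2) * (TJ i (k + 1) X ^ 2 / hh i (k + 1))) := by
    intro i hi
    rw [Finset.mem_Icc] at hi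
    have hki : k < i := hi.1
    have hi0 := hh_pos hki.le
    have hi1 := hh_pos (show k + 1 ≤ i from hki)
    have hd : 0 < (i : ℝ) ^ 2 - (k : ℝ) ^ 2 := by
      have h1 : (k : ℝ) < i := by exact_mod_cast hki
      have h2 : (0 : ℝ) ≤ k := Nat.cast_nonneg k
      nlinarith
    have h1 := sonin hki hx hX
    have h2 : TJ i k X ^ 2 + (1 - X ^ 2) * TJ i (k + 1) X ^ 2 / ((i : ℝ) ^ 2 - (k : ℝ) ^ 2) =
        hh i k * (TJ i k X ^ 2 / hh i k + (1 - X ^ 2) * (TJ i (k + 1) X ^ 2 / hh i (k + 1))) := by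
      rw [hh_succ]
      have := hi0.ne'
      have := hd.ne'
      field_simp
    rw [h2] at h1
    refine h1.trans (mul_le_mul_of_nonneg_right (hh_mono hki.le hi.2) ?_)
    positivity
  have hterm0 : TJ k k x ^ 2 ≤ hh p k * (TJ k k X ^ 2 / hh k k) := by
    rw [TJ_const k x X]
    have h1 := hh_pos (le_refl k)
    have h2 : TJ k k X ^ 2 = hh k k * (TJ k k X ^ 2 / hh k k) := by
      field_simp
    calc TJ k k X ^ 2 = hh k k * (TJ k k X ^ 2 / hh k k) := h2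
      _ ≤ hh p k * (TJ k k X ^ 2 / hh k k) :=
          mul_le_mul_of_nonneg_right (hh_mono le_rfl (by omega)) (by positivity)
  have hsplit : ∀ f : ℕ → ℝ, ∑ i ∈ Finset.Icc k p, f i = f k + ∑ i ∈ Finset.Icc (k + 1) p, f i := by
    intro f
    rw [← Finset.insert_Icc_succ_left_eq_Icc (show k ≤ p by omega), Finset.sum_insert]
    · rfl
    · simp
  have hIco : Finset.Ico k (p + 1) = Finset.Icc k p := by
    ext i
    simp only [Finset.mem_Ico, Finset.mem_Icc]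
    omega
  have hsum : ∑ i ∈ Finset.Icc k p, TJ i k x ^ 2 ≤
      hh p k * (∑ i ∈ Finset.Icc k p, TJ i k X ^ 2 / hh i k +
        (1 - X ^ 2) * ∑ i ∈ Finset.Icc (k + 1) p, TJ i (k + 1) X ^ 2 / hh i (k + 1)) := by
    rw [hsplit, hsplit (fun i => TJ i k X ^ 2 / hh i k)]
    have h3 := Finset.sum_le_sum hterm
    have h4 : ∑ i ∈ Finset.Icc (k + 1) p,
        hh p k * (TJ i k X ^ 2 / hh i k + (1 - X ^ 2) * (TJ i (k + 1) X ^ 2 / hh i (k + 1))) =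
        hh p k * (∑ i ∈ Finset.Icc (k + 1) p, TJ i k X ^ 2 / hh i k +
        (1 - X ^ 2) * ∑ i ∈ Finset.Icc (k + 1) p, TJ i (k + 1) X ^ 2 / hh i (k + 1)) := by
      rw [← Finset.mul_sum, Finset.sum_add_distrib, ← Finset.mul_sum]
    rw [h4] at h3
    have h5 : hh p k * (TJ k k X ^ 2 / hh k k + ∑ i ∈ Finset.Icc (k + 1) p, TJ i k X ^ 2 / hh i k +
        (1 - X ^ 2) * ∑ i ∈ Finset.Icc (k + 1) p, TJ i (k + 1) X ^ 2 / hh i (k + 1)) =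
        hh p k * (TJ k k X ^ 2 / hh k k) +
        hh p k * (∑ i ∈ Finset.Icc (k + 1) p, TJ i k X ^ 2 / hh i k +
        (1 - X ^ 2) * ∑ i ∈ Finset.Icc (k + 1) p, TJ i (k + 1) X ^ 2 / hh i (k + 1)) := by
      ring
    rw [h5]
    exact add_le_add hterm0 h3
  rw [cd_zero hk (by omega) h0, cd_zero' hk hkp h0] at hsum
  rw [hIco]
  have hk1 : (1 : ℝ) ≤ k := by exact_mod_cast hk
  have hkp1 : (k : ℝ) + 1 ≤ p := by exact_mod_cast hkp
  have hp1 : (0 : ℝ) < (p : ℝ) + 1 := by positivity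
  have hpk : (0 : ℝ) < (p : ℝ) + k := by linarith
  have hlo : lo (p + 1) k ^ 2 = (((p : ℝ) + 1 - k) / ((p : ℝ) + 1)) ^ 2 *
      ((p : ℝ) * (2 + 1 / ((p : ℝ) + k))) := by
    unfold lo
    push_cast
    have e1 : (p : ℝ) + 1 - 1 = p := by ring
    have e2 : (p : ℝ) + 1 + k - 1 = p + k := by ring
    rw [e1, e2, mul_pow, Real.sq_sqrt]
    have : (0 : ℝ) ≤ p := by positivity
    positivity
  rw [hlo]
  refine (mul_le_mul_of_nonneg_left hsum (by norm_num : (0 : ℝ) ≤ 2)).trans (le_of_eq ?_)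
  have := hP.ne'
  field_simp
  ring

theorem lo_nonneg {n k : ℕ} (hk : 1 ≤ k) (hn : k + 2 ≤ n) : 0 ≤ lo n k := by
  unfold lo
  have h1 : (k : ℝ) + 2 ≤ n := by exact_mod_cast hn
  have h2 : (0 : ℝ) ≤ (n : ℝ) - k := by linarith
  have h3 : (0 : ℝ) ≤ n := by positivity
  exact mul_nonneg (div_nonneg h2 h3) (Real.sqrt_nonneg _)

end Pool.LKX
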