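import Pool.Agent.LKX.HH

/-!
# LKX/Orth: orthogonality of the derivatives of the Chebyshev polynomials

`J k i j = ∫_0^π T_i^(k)(cos t) T_j^(k)(cos t) sin^(2k) t dt`.  With `x = cos t` (`TJ_ode i k`)
 `d/dt [TJ i (k+1) (cos t) sin^(2k+1) t] = sin^(2k) t [(2k+1) x TJ i (k+1) x - (1-x²) TJ i (k+2) x]
   = (i²-k²) TJ i k (cos t) sin^(2k) t`, so by parts (the boundary terms vanish, `sin 0 = sin π = 0`)
 `(i²-k²) J k i j = ∫ (TJ i (k+1) (cos t) sin^(2k+1) t)' TJ j k (cos t) dt
   = ∫ TJ i (k+1) (cos t) sin^(2k+1) t · TJ j (k+1) (cos t) sin t dt = J (k+1) i j`.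
 `J 0 i j = ∫_0^π cos(it) cos(jt) dt`.
-/

namespace Pool.LKX

open Pool.LK1 (TJ)

/-- `∫_0^π T_i^(k)(cos t) T_j^(k)(cos t) sin^(2k) t dt` -/
noncomputable def JJ (k i j : ℕ) : ℝ :=
  ∫ t in (0 : ℝ)..Real.pi, TJ i k (Real.cos t) * TJ j k (Real.cos t) * Real.sin t ^ (2 * k)

private theorem Orth_cont (q j : ℕ) : Continuous fun t : ℝ => TJ q j (Real.cos t) := by
  have h : Continuous (TJ q j) :=
    continuous_iff_continuousAt.2 fun x => (Pool.LK1.TJ_hasDerivAt q j x).continuousAt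
  exact h.comp Real.continuous_cos

private theorem Orth_deriv (q j : ℕ) (t : ℝ) :
    HasDerivAt (fun t : ℝ => TJ q j (Real.cos t)) (-(Real.sin t * TJ q (j + 1) (Real.cos t))) t := by
  have h := (Pool.LK1.TJ_hasDerivAt q j (Real.cos t)).comp t (Real.hasDerivAt_cos t)
  convert! h using 1
  ring

theorem JJ_succ (k i j : ℕ) : JJ (k + 1) i j = ((i : ℝ) ^ 2 - (k : ℝ) ^ 2) * JJ k i j := by
  have hu : ∀ t : ℝ, HasDerivAt (fun t : ℝ => TJ i (k + 1) (Real.cos t) * Real.sin t ^ (2 * k + 1))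
      (((i : ℝ) ^ 2 - (k : ℝ) ^ 2) * TJ i k (Real.cos t) * Real.sin t ^ (2 * k)) t := by
    intro t
    have h1 := (Orth_deriv i (k + 1) t).mul ((Real.hasDerivAt_sin t).pow (2 * k + 1))
    convert! h1 using 1
    have h2 := TJ_ode i k (Real.cos t)
    have h3 : 1 - Real.cos t ^ 2 = Real.sin t ^ 2 := by
      have := Real.sin_sq_add_cos_sq t
      linarith
    rw [h3] at h2
    rw [Nat.add_sub_cancel]
    push_cast
    simp only [Pi.pow_apply]
    have h4 : Real.sin t ^ (2 * k + 1) = Real.sin t ^ (2 * k) * Real.sin t := pow_succ _ _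
    rw [h4]
    linear_combination (Real.sin t ^ (2 * k)) * h2
  have hv : ∀ t : ℝ, HasDerivAt (fun t : ℝ => TJ j k (Real.cos t))
      (-(Real.sin t * TJ j (k + 1) (Real.cos t))) t := Orth_deriv j k
  have hparts := intervalIntegral.integral_mul_deriv_eq_deriv_mul (a := 0) (b := Real.pi)
    (u := fun t : ℝ => TJ i (k + 1) (Real.cos t) * Real.sin t ^ (2 * k + 1))
    (v := fun t : ℝ => TJ j k (Real.cos t))
    (u' := fun t : ℝ => ((i : ℝ) ^ 2 - (k : ℝ) ^ 2) * TJ i k (Real.cos t) * Real.sin t ^ (2 * k))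
    (v' := fun t : ℝ => -(Real.sin t * TJ j (k + 1) (Real.cos t)))
    (fun t _ => hu t) (fun t _ => hv t)
    ((((continuous_const.mul (Orth_cont i k)).mul (Real.continuous_sin.pow _))).intervalIntegrable _ _)
    (((Real.continuous_sin.mul (Orth_cont j (k + 1))).neg).intervalIntegrable _ _)
  simp only [Real.sin_pi, Real.sin_zero, zero_pow (Nat.succ_ne_zero (2 * k)), mul_zero, zero_mul,
    sub_self, zero_sub] at hparts
  unfold JJ
  rw [← intervalIntegral.integral_const_mul]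
  have e1 : (∫ t in (0 : ℝ)..Real.pi, TJ i (k + 1) (Real.cos t) * TJ j (k + 1) (Real.cos t) *
      Real.sin t ^ (2 * (k + 1))) =
      -∫ t in (0 : ℝ)..Real.pi, TJ i (k + 1) (Real.cos t) * Real.sin t ^ (2 * k + 1) *
        -(Real.sin t * TJ j (k + 1) (Real.cos t)) := by
    rw [← intervalIntegral.integral_neg]
    refine intervalIntegral.integral_congr fun t _ => ?_
    have h4 : Real.sin t ^ (2 * (k + 1)) = Real.sin t ^ (2 * k + 1) * Real.sin t := by
      rw [← pow_succ]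
      congr 1
    rw [h4]
    ring
  rw [e1, hparts, neg_neg]
  refine intervalIntegral.integral_congr fun t _ => ?_
  ring

private theorem Orth_cos {m : ℤ} (hm : m ≠ 0) :
    ∫ t in (0 : ℝ)..Real.pi, Real.cos ((m : ℝ) * t) = 0 := by
  have hm' : (m : ℝ) ≠ 0 := Int.cast_ne_zero.2 hm
  have h : ∀ t ∈ Set.uIcc (0 : ℝ) Real.pi,
      HasDerivAt (fun t : ℝ => Real.sin ((m : ℝ) * t) / m) (Real.cos ((m : ℝ) * t)) t := by
    intro t _
    have h1 : HasDerivAt (fun t : ℝ => (m : ℝ) * t) (m : ℝ) t := by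
      simpa using (hasDerivAt_id t).const_mul (m : ℝ)
    have h2 := (h1.sin).div_const (m : ℝ)
    rwa [mul_div_cancel_right₀ _ hm'] at h2
  rw [intervalIntegral.integral_eq_sub_of_hasDerivAt h
    ((Real.continuous_cos.comp (continuous_const.mul continuous_id)).intervalIntegrable _ _),
    Real.sin_int_mul_pi]
  simp

private theorem Orth_zero (i j : ℕ) :
    JJ 0 i j = ((∫ t in (0 : ℝ)..Real.pi, Real.cos (((i : ℤ) - (j : ℤ) : ℤ) * t)) +
      ∫ t in (0 : ℝ)..Real.pi, Real.cos (((i : ℤ) + (j : ℤ) : ℤ) * t)) / 2 := by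
  unfold JJ
  rw [← intervalIntegral.integral_add, ← intervalIntegral.integral_div]
  · refine intervalIntegral.integral_congr fun t _ => ?_
    simp only [mul_zero, pow_zero, mul_one]
    rw [Pool.LK1.TJ_cos, Pool.LK1.TJ_cos]
    push_cast
    rw [sub_mul, add_mul, Real.cos_sub, Real.cos_add]
    ring
  · exact (Real.continuous_cos.comp (continuous_const.mul continuous_id)).intervalIntegrable _ _
  · exact (Real.continuous_cos.comp (continuous_const.mul continuous_id)).intervalIntegrable _ _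

theorem JJ_ne (k : ℕ) {i j : ℕ} (h : i ≠ j) : JJ k i j = 0 := by
  induction k with
  | zero =>
    rw [Orth_zero, Orth_cos (by omega), Orth_cos (by omega)]
    simp
  | succ k ih => rw [JJ_succ, ih, mul_zero]

theorem JJ_self (k : ℕ) {i : ℕ} (h : 1 ≤ i) : JJ k i i = Real.pi / 2 * hh i k := by
  induction k with
  | zero =>
    rw [Orth_zero, Orth_cos (m := (i : ℤ) + (i : ℤ)) (by omega)]
    unfold hh
    simp
  | succ k ih =>
    rw [JJ_succ, ih]
    unfold hh
    rw [Finset.prod_range_succ]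
    ring

theorem JJ_zero_zero : JJ 0 0 0 = Real.pi := by
  rw [Orth_zero]
  simp

end Pool.LKX
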