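import Pool.Agent.LKX.I1L
import Pool.Agent.LK2.Phi

/-!
# LKX/Q2A: (this file: part (A)) explicit inequality for `7k ≤ 4n`, `n ≥ 19`

`κ = k + 3/2`, `N0 = n² - (k+1)²`, `S = Sq n k = κ(k+11/2)/(n²+3k+17/4)`.

(A) `log_Th_le`: `-½ log Th ≥ 0.4818 k + 6k/(4k+3) + 22k/(4k+11) - 2.048` (`k ≥ 7`, `7k ≤ 4n`, `n ≥ 19`).
 `-½ log Th = log Pi2 + k log S + ½ log N0 - log n - 2 log (dfo k)`, and
 * `log Pi2 = 2k log n + ∑_{i<k} log (1-i²/n²) ≥ 2k log n - 0.1319 k`: `-log (1-t) ≤ 1.211 t` for `0 ≤ t ≤ 16/49`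
   (convexity of `-log (1-t)`, `log (49/33) ≤ 0.3954`), `∑_{i<k} i² ≤ k³/3`, `k² ≤ (16/49) n²`;
 * `k log S = k log ((k+3/2)(k+11/2)) - k log (n²+3k+17/4)`
   `≥ 2k log k + 6k/(4k+3) + 22k/(4k+11) - 2k log n - k(3k+17/4)/n²` (`log (1+z) ≥ 2z/(2+z)`, `log (1+z) ≤ z`),
   `k(3k+17/4)/n² ≤ 3·16/49 + (17/4)(4/7)/19 ≤ 1.1075`;
 * `½ log N0 - log n = ½ log (1-((k+1)/n)²) ≥ -0.2468` (`(k+1)/n ≤ 4/7 + 1/19`, `½ log 0.6105`);
 * `2 log (dfo k) ≤ log 2 + 2k log (2k) - 2k`: `dfo k · 2^k k! = (2k)!` and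
   `log (2k)! - log k! ≤ ½ log 2 + 2k log (2k) - k log k - k` (`Stirling.stirlingSeq'_antitone`,
   `Stirling.log_stirlingSeq_formula`).
 Sum: `k (2 - 2 log 2 - 0.1319) + ... - 1.1075 - 0.2468 - log 2`.
(B) `β² = min (N0 + κ) (3κ(2-S)/S²)`.  Both conditions hold: `S(n²-1/4) - κ(k-1/2) = 3κ(2-S)`
 (`(k+11/2)(3k+9/2) = 3κ(k+11/2)`).  It remains `3kπ/β < -½ log Th`, i.e. with (A):
 * branch `β² = N0 + κ`: `7 ≤ k ≤ 10`: `N0 + κ ≥ 361 - (k+1)² + κ`, `3kπ/β ≤ 3.78, 4.44, 5.15, 5.95` and the bound (A)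
   is `6.62, 7.26, 7.88, 8.47`; `k ≥ 11`: `n ≥ 7k/4`, `N0 + κ ≥ 2.0625 k² - k + 1/2`, `3kπ/β ≤ 6.71`, (A) `≥ 9.05`
   (`6k/(4k+3) + 22k/(4k+11) ≥ 5.8` for `k ≥ 11`).
 * branch `β² = 3κ(2-S)/S²`: `S ≤ 0.506` (`k = 7..10`: `n ≥ 19`, `S ≤ 0.4511`; `k ≥ 11`: `n ≥ 7k/4`,
   `S ≤ κ(k+11/2)/((49/16)k²+3k+17/4) ≤ 0.506`), `S/√(2-S) ≤ 0.4140`, so
   `3kπ/β ≤ 9.4248 · 0.4140 k/√(3κ) ≤ 2.2528 √k`; `k = 7..10`: `5.97, 6.38, 6.76, 7.13`; `k ≥ 11`:
   `2.2528 √k < 0.4818 k + 3.75` (discriminant `< 0`).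
All numbers checked numerically.
-/

namespace Pool.LKX

open Real
open Pool.LK2 (Pi2 Sq Th dfo)

private theorem qa_log_one_sub {t : ℝ} (h0 : 0 ≤ t) (h1 : t ≤ 16 / 49) :
    -(1.211 * t) ≤ Real.log (1 - t) := by
  have h2 : (49 : ℝ) / 33 ≤ Real.exp 0.3954 := by
    have h3 := Real.sum_le_exp_of_nonneg (x := 0.3954) (by norm_num) 6
    refine le_trans ?_ h3
    simp only [Finset.sum_range_succ, Finset.sum_range_zero, Nat.factorial]
    norm_num
  have h4 : -(0.3954 : ℝ) ≤ Real.log (33 / 49) := by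
    rw [Real.le_log_iff_exp_le (by norm_num), Real.exp_neg,
      inv_le_comm₀ (Real.exp_pos _) (by norm_num)]
    refine le_trans ?_ h2
    norm_num
  have hc := strictConcaveOn_log_Ioi.concaveOn.2 (show (1 : ℝ) ∈ Set.Ioi 0 from Set.mem_Ioi.2 one_pos)
    (show (33 / 49 : ℝ) ∈ Set.Ioi 0 from by norm_num [Set.mem_Ioi])
    (show (0 : ℝ) ≤ 1 - 49 / 16 * t by linarith) (show (0 : ℝ) ≤ 49 / 16 * t by linarith) (by ring)
  rw [smul_eq_mul, smul_eq_mul, smul_eq_mul, smul_eq_mul, Real.log_one, mul_zero, zero_add] at hc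
  have e1 : (1 - 49 / 16 * t) * 1 + 49 / 16 * t * (33 / 49) = 1 - t := by ring
  rw [e1] at hc
  refine le_trans ?_ hc
  have h5 := mul_le_mul_of_nonneg_left h4 (show (0 : ℝ) ≤ 49 / 16 * t by linarith)
  linarith

private theorem qa_sum_sq (k : ℕ) : ∑ i ∈ Finset.range k, (i : ℝ) ^ 2 ≤ (k : ℝ) ^ 3 / 3 := by
  induction k with
  | zero => simp
  | succ k ih =>
    rw [Finset.sum_range_succ]
    push_cast
    have h : (0 : ℝ) ≤ k := Nat.cast_nonneg k
    nlinarith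

private theorem qa_Pi2 {n k : ℕ} (h : 7 * k ≤ 4 * n) (h19 : 19 ≤ n) :
    2 * (k : ℝ) * Real.log n - 0.1319 * k ≤ Real.log (Pi2 n k) := by
  have hn : (0 : ℝ) < n := by exact_mod_cast (by omega : 0 < n)
  have hk0 : (0 : ℝ) ≤ k := Nat.cast_nonneg k
  have hkn : 7 * (k : ℝ) ≤ 4 * n := by exact_mod_cast h
  have hi : ∀ i ∈ Finset.range k, 7 * (i : ℝ) ≤ 4 * n := by
    intro i hi
    have h1 : (i : ℝ) ≤ k := by exact_mod_cast (Finset.mem_range.1 hi).le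
    linarith
  have hlog : Real.log (Pi2 n k) = ∑ i ∈ Finset.range k, Real.log ((n : ℝ) ^ 2 - (i : ℝ) ^ 2) := by
    unfold Pool.LK2.Pi2
    rw [Real.log_prod]
    intro i hi'
    have h1 := hi i hi'
    have h2 : (0 : ℝ) ≤ i := Nat.cast_nonneg i
    have h3 : 0 < (n : ℝ) ^ 2 - (i : ℝ) ^ 2 := by nlinarith
    exact h3.ne'
  rw [hlog]
  have h1 : ∀ i ∈ Finset.range k, 2 * Real.log n - 1.211 * ((i : ℝ) ^ 2 / (n : ℝ) ^ 2) ≤
      Real.log ((n : ℝ) ^ 2 - (i : ℝ) ^ 2) := by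
    intro i hi'
    have h2 := hi i hi'
    have h3 : (0 : ℝ) ≤ i := Nat.cast_nonneg i
    have h4 : (i : ℝ) ^ 2 / (n : ℝ) ^ 2 ≤ 16 / 49 := by
      rw [div_le_div_iff₀ (by positivity) (by norm_num)]
      nlinarith
    have h5 := qa_log_one_sub (by positivity) h4
    have h6 : (n : ℝ) ^ 2 - (i : ℝ) ^ 2 = (n : ℝ) ^ 2 * (1 - (i : ℝ) ^ 2 / (n : ℝ) ^ 2) := by
      field_simp
    have h7 : (0 : ℝ) < 1 - (i : ℝ) ^ 2 / (n : ℝ) ^ 2 := by linarith
    rw [h6, Real.log_mul (by positivity) h7.ne', Real.log_pow]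
    push_cast
    linarith
  refine le_trans ?_ (Finset.sum_le_sum h1)
  rw [Finset.sum_sub_distrib, Finset.sum_const, Finset.card_range, nsmul_eq_mul, ← Finset.mul_sum,
    ← Finset.sum_div]
  have h2 := qa_sum_sq k
  have h3 : (∑ i ∈ Finset.range k, (i : ℝ) ^ 2) / (n : ℝ) ^ 2 ≤ 16 / 147 * k := by
    rw [div_le_iff₀ (by positivity)]
    refine h2.trans ?_
    have h4 : 49 * (k : ℝ) ^ 2 ≤ 16 * (n : ℝ) ^ 2 := by nlinarith
    have h5 := mul_le_mul_of_nonneg_left h4 hk0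
    nlinarith
  nlinarith

private theorem qa_dfo_fact (k : ℕ) :
    dfo k * (2 ^ k * (k.factorial : ℝ)) = ((2 * k).factorial : ℝ) := by
  induction k with
  | zero =>
    unfold Pool.LK2.dfo
    simp
  | succ k ih =>
    have h1 : dfo (k + 1) = dfo k * (2 * (k : ℝ) + 1) := by
      unfold Pool.LK2.dfo
      rw [Finset.prod_range_succ]
    have h2 : 2 * (k + 1) = 2 * k + 1 + 1 := by ring
    rw [h1, h2, Nat.factorial_succ, Nat.factorial_succ, Nat.factorial_succ]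
    push_cast
    rw [← ih]
    ring

private theorem qa_dfo_pos (k : ℕ) : 0 < dfo k := by
  unfold Pool.LK2.dfo
  exact Finset.prod_pos fun j _ => by positivity

private theorem qa_dfo {k : ℕ} (hk : 1 ≤ k) :
    2 * Real.log (dfo k) ≤ Real.log 2 + 2 * k * Real.log (2 * k) - 2 * k := by
  have hk0 : (0 : ℝ) < k := by exact_mod_cast hk
  have hS : Real.log (Stirling.stirlingSeq (2 * k)) ≤ Real.log (Stirling.stirlingSeq k) := by
    obtain ⟨j, rfl⟩ := Nat.exists_eq_add_of_le' hk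
    have h1 := Stirling.stirlingSeq'_antitone (show j ≤ 2 * j + 1 by omega)
    have h2 : Nat.succ (2 * j + 1) = 2 * (j + 1) := by omega
    simp only [Function.comp_apply, h2] at h1
    apply Real.log_le_log _ h1
    have := Stirling.stirlingSeq'_pos (2 * j + 1)
    rw [show 2 * j + 1 + 1 = 2 * (j + 1) by ring] at this
    exact this
  rw [Stirling.log_stirlingSeq_formula, Stirling.log_stirlingSeq_formula] at hS
  push_cast at hS
  have e1 : Real.log (2 * (2 * (k : ℝ))) = Real.log 2 + Real.log (2 * k) :=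
    Real.log_mul (by norm_num) (by positivity)
  have e2 : Real.log (2 * (k : ℝ) / Real.exp 1) = Real.log (2 * k) - 1 := by
    rw [Real.log_div (by positivity) (Real.exp_pos 1).ne', Real.log_exp]
  have e3 : Real.log ((k : ℝ) / Real.exp 1) = Real.log k - 1 := by
    rw [Real.log_div hk0.ne' (Real.exp_pos 1).ne', Real.log_exp]
  have e4 : Real.log (2 * (k : ℝ)) = Real.log 2 + Real.log k :=
    Real.log_mul (by norm_num) hk0.ne'
  rw [e1, e2, e3] at hS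
  have h3 : Real.log (dfo k) + (k * Real.log 2 + Real.log (k.factorial : ℝ)) =
      Real.log ((2 * k).factorial : ℝ) := by
    rw [← qa_dfo_fact k, Real.log_mul (qa_dfo_pos k).ne' (by positivity),
      Real.log_mul (by positivity) (by positivity), Real.log_pow]
  rw [e4] at hS ⊢
  nlinarith

private theorem qa_N0 {n k : ℕ} (h : 7 * k ≤ 4 * n) (h19 : 19 ≤ n) :
    -0.2468 ≤ 1 / 2 * Real.log ((n : ℝ) ^ 2 - ((k : ℝ) + 1) ^ 2) - Real.log n := by
  have hn : (19 : ℝ) ≤ n := by exact_mod_cast h19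
  have hn0 : (0 : ℝ) < n := by linarith
  have hk0 : (0 : ℝ) ≤ k := Nat.cast_nonneg k
  have hkn : 7 * (k : ℝ) ≤ 4 * n := by exact_mod_cast h
  have h1 : ((k : ℝ) + 1) ≤ 83 / 133 * n := by linarith
  have h2 : ((k : ℝ) + 1) ^ 2 ≤ (83 / 133 * n) ^ 2 := pow_le_pow_left₀ (by positivity) h1 2
  have h3 : 10800 / 17689 * (n : ℝ) ^ 2 ≤ (n : ℝ) ^ 2 - ((k : ℝ) + 1) ^ 2 := by nlinarith
  have h4 : Real.log (10800 / 17689 * (n : ℝ) ^ 2) ≤
      Real.log ((n : ℝ) ^ 2 - ((k : ℝ) + 1) ^ 2) := Real.log_le_log (by positivity) h3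
  rw [Real.log_mul (by norm_num) (by positivity), Real.log_pow] at h4
  push_cast at h4
  have h5 : (17689 : ℝ) / 10800 ≤ Real.exp 0.4936 := by
    have h3 := Real.sum_le_exp_of_nonneg (x := 0.4936) (by norm_num) 7
    refine le_trans ?_ h3
    simp only [Finset.sum_range_succ, Finset.sum_range_zero, Nat.factorial]
    norm_num
  have h6 : -(0.4936 : ℝ) ≤ Real.log (10800 / 17689) := by
    rw [Real.le_log_iff_exp_le (by norm_num), Real.exp_neg,
      inv_le_comm₀ (Real.exp_pos _) (by norm_num)]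
    refine le_trans ?_ h5
    norm_num
  linarith

private theorem qa_Sq {n k : ℕ} (hk : 1 ≤ k) (h : 7 * k ≤ 4 * n) (h19 : 19 ≤ n) :
    2 * (k : ℝ) * Real.log k + 6 * k / (4 * k + 3) + 22 * k / (4 * k + 11) -
      2 * k * Real.log n - 1.1075 ≤ k * Real.log (Sq n k) := by
  have hn : (19 : ℝ) ≤ n := by exact_mod_cast h19
  have hn0 : (0 : ℝ) < n := by linarith
  have hk0 : (0 : ℝ) < k := by exact_mod_cast hk
  have hkn : 7 * (k : ℝ) ≤ 4 * n := by exact_mod_cast h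
  have e1 : Real.log (Sq n k) = Real.log ((k : ℝ) + 3 / 2) + Real.log ((k : ℝ) + 11 / 2) -
      Real.log ((n : ℝ) ^ 2 + 3 * k + 17 / 4) := by
    unfold Pool.LK2.Sq
    rw [Real.log_div (by positivity) (by positivity), Real.log_mul (by positivity) (by positivity)]
  have a1 : Real.log k + 6 / (4 * k + 3) ≤ Real.log ((k : ℝ) + 3 / 2) := by
    have e2 : (k : ℝ) + 3 / 2 = k * (1 + 3 / (2 * k)) := by field_simp
    have h2 := Real.le_log_one_add_of_nonneg (x := 3 / (2 * (k : ℝ))) (by positivity)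
    have e3 : 2 * (3 / (2 * (k : ℝ))) / (3 / (2 * (k : ℝ)) + 2) = 6 / (4 * k + 3) := by
      field_simp
      ring
    rw [e3] at h2
    rw [e2, Real.log_mul hk0.ne' (by positivity)]
    linarith
  have a2 : Real.log k + 22 / (4 * k + 11) ≤ Real.log ((k : ℝ) + 11 / 2) := by
    have e2 : (k : ℝ) + 11 / 2 = k * (1 + 11 / (2 * k)) := by field_simp
    have h2 := Real.le_log_one_add_of_nonneg (x := 11 / (2 * (k : ℝ))) (by positivity)
    have e3 : 2 * (11 / (2 * (k : ℝ))) / (11 / (2 * (k : ℝ)) + 2) = 22 / (4 * k + 11) := by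
      field_simp
      ring
    rw [e3] at h2
    rw [e2, Real.log_mul hk0.ne' (by positivity)]
    linarith
  have a3 : Real.log ((n : ℝ) ^ 2 + 3 * k + 17 / 4) ≤
      2 * Real.log n + (3 * k + 17 / 4) / (n : ℝ) ^ 2 := by
    have e2 : (n : ℝ) ^ 2 + 3 * k + 17 / 4 = (n : ℝ) ^ 2 * (1 + (3 * k + 17 / 4) / (n : ℝ) ^ 2) := by
      field_simp
      ring
    have h2 := Real.log_le_sub_one_of_pos
      (show (0 : ℝ) < 1 + (3 * k + 17 / 4) / (n : ℝ) ^ 2 by positivity)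
    rw [e2, Real.log_mul (by positivity) (by positivity), Real.log_pow]
    push_cast
    linarith
  have a4 : (k : ℝ) * ((3 * k + 17 / 4) / (n : ℝ) ^ 2) ≤ 1.1075 := by
    rw [← mul_div_assoc, div_le_iff₀ (by positivity)]
    have h3 : 49 * (k : ℝ) ^ 2 ≤ 16 * (n : ℝ) ^ 2 := by nlinarith
    have h4 : 19 * (k : ℝ) ≤ k * n := by nlinarith
    have h5 : 7 * ((k : ℝ) * n) ≤ 4 * (n : ℝ) ^ 2 := by nlinarith
    nlinarith
  rw [e1]
  have b1 := mul_le_mul_of_nonneg_left a1 hk0.le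
  have b2 := mul_le_mul_of_nonneg_left a2 hk0.le
  have b3 := mul_le_mul_of_nonneg_left a3 hk0.le
  have c1 : (k : ℝ) * (6 / (4 * k + 3)) = 6 * k / (4 * k + 3) := by ring
  have c2 : (k : ℝ) * (22 / (4 * k + 11)) = 22 * k / (4 * k + 11) := by ring
  rw [mul_add, c1] at b1
  rw [mul_add, c2] at b2
  rw [mul_add] at b3
  rw [mul_sub, mul_add]
  linarith

theorem log_Th_le {n k : ℕ} (hk : 7 ≤ k) (h : 7 * k ≤ 4 * n) (h19 : 19 ≤ n) :
    0.4818 * (k : ℝ) + 6 * k / (4 * k + 3) + 22 * k / (4 * k + 11) - 2.048 ≤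
      -(1 / 2 * Real.log (Th n k)) := by
  have hn : (19 : ℝ) ≤ n := by exact_mod_cast h19
  have hn0 : (0 : ℝ) < n := by linarith
  have hk7 : (7 : ℝ) ≤ k := by exact_mod_cast hk
  have hk0 : (0 : ℝ) < k := by linarith
  have hkn : 7 * (k : ℝ) ≤ 4 * n := by exact_mod_cast h
  have hPi : 0 < Pi2 n k := by
    unfold Pool.LK2.Pi2
    refine Finset.prod_pos fun j hj => ?_
    have h1 : (j : ℝ) ≤ k := by exact_mod_cast (Finset.mem_range.1 hj).le
    have h3 : (0 : ℝ) ≤ j := Nat.cast_nonneg j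
    nlinarith
  have hd := qa_dfo_pos k
  have hS : 0 < Sq n k := by
    unfold Pool.LK2.Sq
    positivity
  have hN : 0 < (n : ℝ) ^ 2 - ((k : ℝ) + 1) ^ 2 := by nlinarith
  have e : Real.log (Th n k) = 2 * Real.log n + 4 * Real.log (dfo k) -
      (2 * Real.log (Pi2 n k) + 2 * k * Real.log (Sq n k) +
        Real.log ((n : ℝ) ^ 2 - ((k : ℝ) + 1) ^ 2)) := by
    unfold Pool.LK2.Th
    rw [Real.log_div (by positivity) (by positivity), Real.log_mul (by positivity) (by positivity),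
      Real.log_mul (by positivity) hN.ne', Real.log_mul (by positivity) (by positivity),
      Real.log_pow, Real.log_pow, Real.log_pow, Real.log_pow]
    push_cast
    ring
  have h1 := qa_Pi2 h h19
  have h2 := qa_dfo (show 1 ≤ k by omega)
  have h3 := qa_N0 h h19
  have h4 := qa_Sq (show 1 ≤ k by omega) h h19
  have h5 := Real.log_two_lt_d9
  have e4 : Real.log (2 * (k : ℝ)) = Real.log 2 + Real.log k :=
    Real.log_mul (by norm_num) hk0.ne'
  rw [e4] at h2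
  rw [e]
  have h6 : (k : ℝ) * Real.log 2 ≤ k * 0.6931471808 := mul_le_mul_of_nonneg_left h5.le hk0.le
  nlinarith

end Pool.LKX
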