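import Pool.Agent.LKX.Cauchy

/-!
# LKX/RMat: the matrix `R`

`γ = π/(2(n+1))`, `bt n k = ∏_{i<k} cot((i+1)γ)`, indices `0, ..., n` (`Fin (n+1)`),
`RM n k l = (-1)^(k+l) bt n k · bt n l / sin((k+l+1)γ)`.  For `k, l ≤ n`: `0 < (k+l+1)γ < π`.
* `bt_pos`: `(i+1)γ < π/2` for `i < k ≤ n`.  `bt_n`: `bt n n = 1`, as `cot((i+1)γ) cot((n-i)γ) = 1`
  (`(i+1)γ + (n-i)γ = π/2`): `(bt n n)² = 1`.
* `bt_symm`: `bt n (n-k) = bt n k` (`bt n n = bt n (n-k) ∏_{n-k≤i<n} cot((i+1)γ)` and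
  `∏_{n-k≤i<n} cot((i+1)γ) = ∏_{i<k} cot((n-i)γ) = 1/bt n k`).
* `RM_pos`: with `a_k = (k+1/2)γ ∈ (0, π/2)`, `sin(a_k + a_l) = cos a_k cos a_l (tan a_k + tan a_l)`, so
  `∑ v_k v_l R_kl = ∑ w_k w_l/(tan a_k + tan a_l)` with `w_k = (-1)^k bt n k v_k/cos a_k`; `cauchy_pos`.
* `RM_rec`: `cot a + cot b = sin(a+b)/(sin a sin b)`: for `j, l ≤ n`, `j, l < n`:
  `R_{j+1,l} + R_{j,l+1} = (-1)^(j+l+1) bt_j bt_l (cot((j+1)γ) + cot((l+1)γ))/sin((j+l+2)γ)
    = -R_{j0} R_{l0}`.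
* `RM_last`: `(n+1)γ = π/2`, so for `j < n` `R_{j+1,n} = (-1)^(j+1+n) bt_{j+1} bt_n/sin((j+1)γ + π/2)
    = (-1)^(j+n+1) bt_j/sin((j+1)γ) = -R_{j0} R_{n0}` (`R_{n0} = (-1)^n`, `sin((n+1)γ) = 1`).
* `RM_nn`: `R_{nn} = 1/sin((2n+1)γ) = 1/sin γ = R_{00}`.
-/

namespace Pool.LKX

open Real

/-- `∏_{i<k} cot((i+1) π/(2(n+1)))` -/
noncomputable def bt (n k : ℕ) : ℝ :=
  ∏ i ∈ Finset.range k, Real.cot (((i : ℝ) + 1) * (Real.pi / (2 * ((n : ℝ) + 1))))

/-- the matrix `R` -/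
noncomputable def RM (n k l : ℕ) : ℝ :=
  (-1) ^ (k + l) * bt n k * bt n l / Real.sin (((k : ℝ) + l + 1) * (Real.pi / (2 * ((n : ℝ) + 1))))

/-- the basic angle -/
private noncomputable def ga (n : ℕ) : ℝ := Real.pi / (2 * ((n : ℝ) + 1))

private theorem ga_pos (n : ℕ) : 0 < ga n := by
  unfold ga
  have := Real.pi_pos
  positivity

private theorem ga_mul (n : ℕ) : ((n : ℝ) + 1) * ga n = Real.pi / 2 := by
  unfold ga
  have : (n : ℝ) + 1 ≠ 0 := by positivity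
  field_simp

private theorem ga_lt {n : ℕ} {x : ℝ} (h : x < (n : ℝ) + 1) : x * ga n < Real.pi / 2 := by
  rw [← ga_mul n]
  exact mul_lt_mul_of_pos_right h (ga_pos n)

private theorem ga_lt' {n : ℕ} {x : ℝ} (h : x < 2 * ((n : ℝ) + 1)) : x * ga n < Real.pi := by
  have h1 : 2 * ((n : ℝ) + 1) * ga n = Real.pi := by
    rw [mul_assoc, ga_mul]
    ring
  rw [← h1]
  exact mul_lt_mul_of_pos_right h (ga_pos n)

private theorem bt_def (n k : ℕ) :
    bt n k = ∏ i ∈ Finset.range k, Real.cot (((i : ℝ) + 1) * ga n) := rfl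

private theorem RM_def (n k l : ℕ) :
    RM n k l = (-1) ^ (k + l) * bt n k * bt n l / Real.sin (((k : ℝ) + l + 1) * ga n) := rfl

private theorem bt_zero (n : ℕ) : bt n 0 = 1 := by
  rw [bt_def]
  simp

private theorem bt_succ (n k : ℕ) : bt n (k + 1) = bt n k * Real.cot (((k : ℝ) + 1) * ga n) := by
  rw [bt_def, bt_def, Finset.prod_range_succ]

theorem bt_pos {n k : ℕ} (h : k ≤ n) : 0 < bt n k := by
  rw [bt_def]
  refine Finset.prod_pos fun i hi => ?_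
  rw [Finset.mem_range] at hi
  have hi' : (i : ℝ) + 1 ≤ n := by
    have : i + 1 ≤ n := by omega
    exact_mod_cast this
  have h1 : 0 < ((i : ℝ) + 1) * ga n := mul_pos (by positivity) (ga_pos n)
  have h2 : ((i : ℝ) + 1) * ga n < Real.pi / 2 := ga_lt (by linarith)
  have h3 := Real.pi_pos
  rw [Real.cot_eq_cos_div_sin]
  exact div_pos (Real.cos_pos_of_mem_Ioo ⟨by linarith, h2⟩)
    (Real.sin_pos_of_pos_of_lt_pi h1 (by linarith))

private theorem cot_mul {n : ℕ} {a b : ℝ} (ha : 0 < a) (hb : 0 < b) (h : a + b = (n : ℝ) + 1) :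
    Real.cot (a * ga n) * Real.cot (b * ga n) = 1 := by
  have h1 : 0 < a * ga n := mul_pos ha (ga_pos n)
  have h2 : a * ga n < Real.pi / 2 := ga_lt (by linarith)
  have h3 := Real.pi_pos
  have e : b * ga n = Real.pi / 2 - a * ga n := by
    rw [← ga_mul n, ← h]
    ring
  rw [e, Real.cot_eq_cos_div_sin, Real.cot_eq_cos_div_sin, Real.cos_pi_div_two_sub,
    Real.sin_pi_div_two_sub]
  have h4 : Real.sin (a * ga n) ≠ 0 := (Real.sin_pos_of_pos_of_lt_pi h1 (by linarith)).ne'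
  have h5 : Real.cos (a * ga n) ≠ 0 := (Real.cos_pos_of_mem_Ioo ⟨by linarith, h2⟩).ne'
  field_simp

private theorem bt_mul {n k : ℕ} (h : k ≤ n) :
    bt n k * ∏ i ∈ Finset.range k, Real.cot (((n : ℝ) - i) * ga n) = 1 := by
  rw [bt_def, ← Finset.prod_mul_distrib]
  refine Finset.prod_eq_one fun i hi => ?_
  rw [Finset.mem_range] at hi
  have hi' : (i : ℝ) + 1 ≤ n := by
    have : i + 1 ≤ n := by omega
    exact_mod_cast this
  exact cot_mul (by positivity) (by linarith) (by ring)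

private theorem bt_refl {n k : ℕ} (h : k ≤ n) :
    bt n (n - k) * ∏ i ∈ Finset.range k, Real.cot (((n : ℝ) - i) * ga n) = bt n n := by
  have e : ∏ i ∈ Finset.range k, Real.cot (((n : ℝ) - i) * ga n) =
      ∏ i ∈ Finset.range k, Real.cot ((((n - k + i : ℕ) : ℝ) + 1) * ga n) := by
    rw [← Finset.prod_range_reflect]
    refine Finset.prod_congr rfl fun i hi => ?_
    rw [Finset.mem_range] at hi
    have : (n : ℝ) - ((k - 1 - i : ℕ) : ℝ) = ((n - k + i : ℕ) : ℝ) + 1 := by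
      rw [Nat.cast_add, Nat.cast_sub h, show k - 1 - i = k - (i + 1) by omega,
        Nat.cast_sub (by omega : i + 1 ≤ k)]
      push_cast
      ring
    rw [this]
  rw [e, bt_def, ← Finset.prod_range_add (fun i : ℕ => Real.cot (((i : ℝ) + 1) * ga n)) (n - k) k,
    Nat.sub_add_cancel h, bt_def]

theorem bt_n (n : ℕ) : bt n n = 1 := by
  have h1 := bt_mul (le_refl n)
  have h2 := bt_refl (le_refl n)
  rw [Nat.sub_self, bt_zero, one_mul] at h2
  rw [h2] at h1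
  have h3 := bt_pos (le_refl n)
  nlinarith

theorem bt_symm {n k : ℕ} (h : k ≤ n) : bt n (n - k) = bt n k := by
  have h1 := bt_mul h
  have h2 := bt_refl h
  rw [bt_n, ← h1] at h2
  refine mul_right_cancel₀ ?_ h2
  intro h3
  rw [h3, mul_zero] at h1
  exact zero_ne_one h1

theorem RM_symm (n k l : ℕ) : RM n k l = RM n l k := by
  rw [RM_def, RM_def, add_comm k l, add_comm (k : ℝ) l]
  ring

theorem RM_pos {n : ℕ} (v : ℕ → ℝ) (hv : ∃ i ≤ n, v i ≠ 0) :
    0 < ∑ k ∈ Finset.range (n + 1), ∑ l ∈ Finset.range (n + 1), v k * v l * RM n k l := by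
  have hpi := Real.pi_pos
  have hmem : ∀ k ∈ Finset.range (n + 1), 0 < ((k : ℝ) + 1 / 2) * ga n ∧
      ((k : ℝ) + 1 / 2) * ga n < Real.pi / 2 := by
    intro k hk
    rw [Finset.mem_range] at hk
    have hk' : (k : ℝ) ≤ n := by
      have : k ≤ n := by omega
      exact_mod_cast this
    exact ⟨mul_pos (by positivity) (ga_pos n), ga_lt (by linarith)⟩
  have hcos : ∀ k ∈ Finset.range (n + 1), 0 < Real.cos (((k : ℝ) + 1 / 2) * ga n) := by
    intro k hk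
    obtain ⟨h1, h2⟩ := hmem k hk
    exact Real.cos_pos_of_mem_Ioo ⟨by linarith, h2⟩
  have hsin : ∀ k ∈ Finset.range (n + 1), 0 < Real.sin (((k : ℝ) + 1 / 2) * ga n) := by
    intro k hk
    obtain ⟨h1, h2⟩ := hmem k hk
    exact Real.sin_pos_of_pos_of_lt_pi h1 (by linarith)
  have key := cauchy_pos (Finset.range (n + 1)) (fun k : ℕ => Real.tan (((k : ℝ) + 1 / 2) * ga n))
    (fun k hk => by
      show 0 < Real.tan _
      rw [Real.tan_eq_sin_div_cos]
      exact div_pos (hsin k hk) (hcos k hk))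
    (fun k hk l hl hkl => by
      obtain ⟨h1, h2⟩ := hmem k hk
      obtain ⟨h3, h4⟩ := hmem l hl
      have h5 := Real.injOn_tan (x₁ := ((k : ℝ) + 1 / 2) * ga n) ⟨by linarith, h2⟩
        (x₂ := ((l : ℝ) + 1 / 2) * ga n) ⟨by linarith, h4⟩ hkl
      have h6 := mul_right_cancel₀ (ga_pos n).ne' h5
      have h7 : (k : ℝ) = l := by linarith
      exact_mod_cast h7)
    (fun k : ℕ => v k * ((-1) ^ k * bt n k / Real.cos (((k : ℝ) + 1 / 2) * ga n)))
    (by
      obtain ⟨i, hi, hvi⟩ := hv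
      have hi' : i ∈ Finset.range (n + 1) := by
        rw [Finset.mem_range]
        omega
      refine ⟨i, hi', mul_ne_zero hvi (div_ne_zero (mul_ne_zero ?_ (bt_pos hi).ne')
        (hcos i hi').ne')⟩
      exact pow_ne_zero _ (by norm_num))
  refine lt_of_lt_of_eq key ?_
  refine Finset.sum_congr rfl fun k hk => Finset.sum_congr rfl fun l hl => ?_
  rw [RM_def]
  have hck := (hcos k hk).ne'
  have hcl := (hcos l hl).ne'
  have e1 : ((k : ℝ) + l + 1) * ga n = ((k : ℝ) + 1 / 2) * ga n + ((l : ℝ) + 1 / 2) * ga n := by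
    ring
  have hs : Real.sin (((k : ℝ) + l + 1) * ga n) =
      Real.cos (((k : ℝ) + 1 / 2) * ga n) * Real.cos (((l : ℝ) + 1 / 2) * ga n) *
        (Real.tan (((k : ℝ) + 1 / 2) * ga n) + Real.tan (((l : ℝ) + 1 / 2) * ga n)) := by
    rw [e1]
    generalize ((k : ℝ) + 1 / 2) * ga n = A at hck
    generalize ((l : ℝ) + 1 / 2) * ga n = B at hcl
    rw [Real.sin_add, Real.tan_eq_sin_div_cos, Real.tan_eq_sin_div_cos, mul_add,
      mul_assoc (Real.cos A) (Real.cos B), mul_assoc (Real.cos A) (Real.cos B),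
      mul_div_cancel₀ _ hcl, mul_comm (Real.cos B), ← mul_assoc, mul_div_cancel₀ _ hck]
  have ht : 0 < Real.tan (((k : ℝ) + 1 / 2) * ga n) + Real.tan (((l : ℝ) + 1 / 2) * ga n) := by
    rw [Real.tan_eq_sin_div_cos, Real.tan_eq_sin_div_cos]
    exact add_pos (div_pos (hsin k hk) (hcos k hk)) (div_pos (hsin l hl) (hcos l hl))
  have ht' := ht.ne'
  rw [hs, pow_add]
  show v k * ((-1) ^ k * bt n k / Real.cos (((k : ℝ) + 1 / 2) * ga n)) *
    (v l * ((-1) ^ l * bt n l / Real.cos (((l : ℝ) + 1 / 2) * ga n))) /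
      (Real.tan (((k : ℝ) + 1 / 2) * ga n) + Real.tan (((l : ℝ) + 1 / 2) * ga n)) = _
  generalize Real.tan (((k : ℝ) + 1 / 2) * ga n) + Real.tan (((l : ℝ) + 1 / 2) * ga n) = T at ht'
  generalize Real.cos (((k : ℝ) + 1 / 2) * ga n) = ck at hck
  generalize Real.cos (((l : ℝ) + 1 / 2) * ga n) = cl at hcl
  field_simp

theorem RM_rec {n j l : ℕ} (hj : j < n) (hl : l < n) :
    RM n (j + 1) l + RM n j (l + 1) = - (RM n j 0 * RM n l 0) := by
  have hj' : (j : ℝ) + 1 ≤ n := by exact_mod_cast hj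
  have hl' : (l : ℝ) + 1 ≤ n := by exact_mod_cast hl
  have hpi := Real.pi_pos
  have hsj : 0 < Real.sin (((j : ℝ) + 1) * ga n) :=
    Real.sin_pos_of_pos_of_lt_pi (mul_pos (by positivity) (ga_pos n)) (ga_lt' (by linarith))
  have hsl : 0 < Real.sin (((l : ℝ) + 1) * ga n) :=
    Real.sin_pos_of_pos_of_lt_pi (mul_pos (by positivity) (ga_pos n)) (ga_lt' (by linarith))
  have hs : 0 < Real.sin (((j : ℝ) + 1) * ga n + ((l : ℝ) + 1) * ga n) := by
    rw [← add_mul]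
    exact Real.sin_pos_of_pos_of_lt_pi (mul_pos (by positivity) (ga_pos n)) (ga_lt' (by linarith))
  rw [RM_def, RM_def, RM_def, RM_def, bt_succ, bt_succ, bt_zero, Real.cot_eq_cos_div_sin,
    Real.cot_eq_cos_div_sin]
  have e1 : (((j + 1 : ℕ) : ℝ) + l + 1) * ga n = ((j : ℝ) + 1) * ga n + ((l : ℝ) + 1) * ga n := by
    push_cast
    ring
  have e2 : ((j : ℝ) + ((l + 1 : ℕ) : ℝ) + 1) * ga n =
      ((j : ℝ) + 1) * ga n + ((l : ℝ) + 1) * ga n := by
    push_cast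
    ring
  have e3 : ((j : ℝ) + ((0 : ℕ) : ℝ) + 1) * ga n = ((j : ℝ) + 1) * ga n := by
    push_cast
    ring
  have e4 : ((l : ℝ) + ((0 : ℕ) : ℝ) + 1) * ga n = ((l : ℝ) + 1) * ga n := by
    push_cast
    ring
  rw [e1, e2, e3, e4]
  have hadd := Real.sin_add (((j : ℝ) + 1) * ga n) (((l : ℝ) + 1) * ga n)
  rw [hadd] at hs ⊢
  have hs' := hs.ne'
  have hsj' := hsj.ne'
  have hsl' := hsl.ne'
  generalize Real.sin (((j : ℝ) + 1) * ga n) = sj at *
  generalize Real.sin (((l : ℝ) + 1) * ga n) = sl at *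
  generalize Real.cos (((j : ℝ) + 1) * ga n) = cj at *
  generalize Real.cos (((l : ℝ) + 1) * ga n) = cl at *
  have e5 : (-1 : ℝ) ^ (j + 1 + l) = -((-1) ^ j * (-1) ^ l) := by
    rw [pow_add, pow_succ]
    ring
  have e6 : (-1 : ℝ) ^ (j + (l + 1)) = -((-1) ^ j * (-1) ^ l) := by
    rw [pow_add, pow_succ]
    ring
  rw [e5, e6, add_zero, add_zero]
  field_simp
  ring

theorem RM_last {n j : ℕ} (hj : j < n) : RM n (j + 1) n = - (RM n j 0 * RM n n 0) := by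
  have hj' : (j : ℝ) + 1 ≤ n := by exact_mod_cast hj
  have hpi := Real.pi_pos
  have hsj : 0 < Real.sin (((j : ℝ) + 1) * ga n) :=
    Real.sin_pos_of_pos_of_lt_pi (mul_pos (by positivity) (ga_pos n)) (ga_lt' (by linarith))
  have hcj : 0 < Real.cos (((j : ℝ) + 1) * ga n) :=
    Real.cos_pos_of_mem_Ioo ⟨by
      have : 0 < ((j : ℝ) + 1) * ga n := mul_pos (by positivity) (ga_pos n)
      linarith, ga_lt (by linarith)⟩
  rw [RM_def, RM_def, RM_def, bt_succ, bt_zero, bt_n, Real.cot_eq_cos_div_sin]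
  have e1 : (((j + 1 : ℕ) : ℝ) + n + 1) * ga n = ((j : ℝ) + 1) * ga n + Real.pi / 2 := by
    rw [← ga_mul n]
    push_cast
    ring
  have e3 : ((j : ℝ) + ((0 : ℕ) : ℝ) + 1) * ga n = ((j : ℝ) + 1) * ga n := by
    push_cast
    ring
  have e4 : ((n : ℝ) + ((0 : ℕ) : ℝ) + 1) * ga n = Real.pi / 2 := by
    rw [← ga_mul n]
    push_cast
    ring
  rw [e1, e3, e4, Real.sin_add_pi_div_two, Real.sin_pi_div_two]
  have hsj' := hsj.ne'
  have hcj' := hcj.ne'
  have e5 : (-1 : ℝ) ^ (j + 1 + n) = -((-1) ^ j * (-1) ^ n) := by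
    rw [pow_add, pow_succ]
    ring
  rw [e5, add_zero, add_zero]
  field_simp

theorem RM_n0 (n : ℕ) : RM n n 0 ^ 2 = 1 := by
  have e4 : ((n : ℝ) + ((0 : ℕ) : ℝ) + 1) * ga n = Real.pi / 2 := by
    rw [← ga_mul n]
    push_cast
    ring
  rw [RM_def, bt_zero, bt_n, e4, Real.sin_pi_div_two, add_zero, mul_one, mul_one, div_one,
    ← pow_mul, mul_comm n 2, pow_mul]
  norm_num

theorem RM_nn (n : ℕ) : RM n n n = RM n 0 0 := by
  have e4 : ((n : ℝ) + (n : ℝ) + 1) * ga n = Real.pi - ga n := by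
    have : Real.pi = 2 * (((n : ℝ) + 1) * ga n) := by
      rw [ga_mul n]
      ring
    rw [this]
    ring
  have e5 : (((0 : ℕ) : ℝ) + ((0 : ℕ) : ℝ) + 1) * ga n = ga n := by
    push_cast
    ring
  rw [RM_def, RM_def, bt_zero, bt_n, e4, e5, Real.sin_pi_sub, ← two_mul, pow_mul]
  norm_num

theorem RM_00_pos (n : ℕ) : 0 < RM n 0 0 := by
  have e5 : (((0 : ℕ) : ℝ) + ((0 : ℕ) : ℝ) + 1) * ga n = ga n := by
    push_cast
    ring
  have h1 : ga n < Real.pi := by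
    have := ga_lt' (n := n) (x := 1) (by
      have : (0 : ℝ) ≤ n := Nat.cast_nonneg n
      linarith)
    linarith
  have h2 := Real.sin_pos_of_pos_of_lt_pi (ga_pos n) h1
  rw [RM_def, bt_zero, e5]
  simpa using h2

end Pool.LKX
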