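import Pool.Agent.LK1.ChebJ

/-!
# LKX/Rec: recurrences for the derivatives of the Chebyshev polynomials

`TJ q j x = T_q^(j)(x)`.
-/

namespace Pool.LKX

open Set Polynomial
open Pool.LK1 (TJ TJ_hasDerivAt)

/-- differential equation -/
theorem TJ_ode (q k : ℕ) (x : ℝ) :
    (1 - x ^ 2) * TJ q (k + 2) x =
      (2 * k + 1) * x * TJ q (k + 1) x - ((q : ℝ) ^ 2 - (k : ℝ) ^ 2) * TJ q k x := by
  have h := Chebyshev.one_sub_X_sq_mul_iterate_derivative_T_eval (R := ℝ) (q : ℤ) k x
  unfold TJ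
  push_cast at h
  exact h

/-- `p T_{p+1}^(k+1) = (p+1) (x T_p^(k+1) + (p+k) T_p^(k))` -/
theorem TJ_up' (p k : ℕ) (x : ℝ) :
    (p : ℝ) * TJ (p + 1) (k + 1) x = (p + 1) * (x * TJ p (k + 1) x + (p + k) * TJ p k x) := by
  induction k generalizing x with
  | zero =>
    have h1 := congr_arg (fun q : ℝ[X] => q.eval x)
      (Chebyshev.U_eq_X_mul_U_add_T (R := ℝ) ((p : ℤ) - 1))
    simp only [sub_add_cancel, eval_add, eval_mul, eval_X] at h1
    unfold TJ
    simp only [zero_add, Function.iterate_one, Function.iterate_zero, id,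
      Chebyshev.T_derivative_eq_U, eval_mul]
    push_cast
    simp only [add_sub_cancel_right, h1, eval_add, eval_natCast, eval_one]
    ring
  | succ k ih =>
    have e : (fun y => (p : ℝ) * TJ (p + 1) (k + 1) y) =
        fun y => (p + 1) * (y * TJ p (k + 1) y + (p + k) * TJ p k y) := funext fun y => ih y
    have h1 : HasDerivAt (fun y => (p : ℝ) * TJ (p + 1) (k + 1) y) ((p : ℝ) * TJ (p + 1) (k + 1 + 1) x) x :=
      (TJ_hasDerivAt _ _ x).const_mul _
    have h2 : HasDerivAt (fun y => ((p : ℝ) + 1) * (y * TJ p (k + 1) y + (p + k) * TJ p k y))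
        (((p : ℝ) + 1) * ((1 * TJ p (k + 1) x + x * TJ p (k + 1 + 1) x) + (p + k) * TJ p (k + 1) x)) x :=
      (((hasDerivAt_id' x).mul (TJ_hasDerivAt p (k + 1) x)).add
        ((TJ_hasDerivAt p k x).const_mul _)).const_mul _
    rw [e] at h1
    have := h1.unique h2
    rw [this]
    push_cast
    ring

/-- `(p+1) T_p^(k+1) = p (x T_{p+1}^(k+1) - (p+1-k) T_{p+1}^(k))` -/
theorem TJ_down' (p k : ℕ) (x : ℝ) :
    ((p : ℝ) + 1) * TJ p (k + 1) x =
      p * (x * TJ (p + 1) (k + 1) x - (p + 1 - k) * TJ (p + 1) k x) := by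
  induction k generalizing x with
  | zero =>
    have h1 := congr_arg (fun q : ℝ[X] => q.eval x)
      (Chebyshev.add_one_mul_self_mul_T_eq_poly_in_T (R := ℝ) (p : ℤ))
    simp only [eval_add, eval_sub, eval_mul, eval_X, eval_intCast, eval_one] at h1
    unfold TJ
    simp only [zero_add, Function.iterate_one, Function.iterate_zero, id]
    push_cast at h1 ⊢
    linear_combination h1
  | succ k ih =>
    have e : (fun y => ((p : ℝ) + 1) * TJ p (k + 1) y) =
        fun y => p * (y * TJ (p + 1) (k + 1) y - (p + 1 - k) * TJ (p + 1) k y) := funext fun y => ih y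
    have h1 : HasDerivAt (fun y => ((p : ℝ) + 1) * TJ p (k + 1) y) (((p : ℝ) + 1) * TJ p (k + 1 + 1) x) x :=
      (TJ_hasDerivAt _ _ x).const_mul _
    have h2 : HasDerivAt (fun y => (p : ℝ) * (y * TJ (p + 1) (k + 1) y - (p + 1 - k) * TJ (p + 1) k y))
        ((p : ℝ) * ((1 * TJ (p + 1) (k + 1) x + x * TJ (p + 1) (k + 1 + 1) x)
          - (p + 1 - k) * TJ (p + 1) (k + 1) x)) x :=
      (((hasDerivAt_id' x).mul (TJ_hasDerivAt (p + 1) (k + 1) x)).sub
        ((TJ_hasDerivAt (p + 1) k x).const_mul _)).const_mul _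
    rw [e] at h1
    have := h1.unique h2
    rw [this]
    push_cast
    ring

/-- `p (p+1-k) T_{p+1}^(k) = (p+1) ((p+k) x T_p^(k) - (1-x^2) T_p^(k+1))` -/
theorem TJ_up (p k : ℕ) (x : ℝ) :
    (p : ℝ) * (p + 1 - k) * TJ (p + 1) k x =
      (p + 1) * ((p + k) * x * TJ p k x - (1 - x ^ 2) * TJ p (k + 1) x) := by
  have h1 := TJ_up' p k x
  have h2 := TJ_down' p k x
  linear_combination h2 + x * h1

/-- `(p+1) (p+k) T_p^(k) = p ((1-x^2) T_{p+1}^(k+1) + (p+1-k) x T_{p+1}^(k))` -/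
theorem TJ_down (p k : ℕ) (x : ℝ) :
    ((p : ℝ) + 1) * (p + k) * TJ p k x =
      p * ((1 - x ^ 2) * TJ (p + 1) (k + 1) x + (p + 1 - k) * x * TJ (p + 1) k x) := by
  have h1 := TJ_up' p k x
  have h2 := TJ_down' p k x
  linear_combination -h1 - x * h2

/-- three term recurrence -/
theorem TJ_three (p k : ℕ) (x : ℝ) :
    2 * p * ((p : ℝ) + 2) * x * TJ (p + 1) k x =
      p * (p + 2 - k) * TJ (p + 2) k x + (p + 2) * (p + k) * TJ p k x := by
  have h1 := TJ_up (p + 1) k x
  have h2 := TJ_down p k x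
  push_cast at h1
  have hp : ((p : ℝ) + 1) ≠ 0 := by positivity
  apply mul_left_cancel₀ hp
  linear_combination (-(p : ℝ)) * h1 - ((p : ℝ) + 2) * h2

/-- derivative of the three term recurrence -/
theorem TJ_three' (p k : ℕ) (x : ℝ) :
    2 * p * ((p : ℝ) + 2) * (TJ (p + 1) k x + x * TJ (p + 1) (k + 1) x) =
      p * (p + 2 - k) * TJ (p + 2) (k + 1) x + (p + 2) * (p + k) * TJ p (k + 1) x := by
  have e : (fun y => 2 * p * ((p : ℝ) + 2) * (y * TJ (p + 1) k y)) =
      fun y => p * (p + 2 - k) * TJ (p + 2) k y + (p + 2) * (p + k) * TJ p k y :=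
    funext fun y => by rw [← TJ_three p k y]; ring
  have h1 : HasDerivAt (fun y => 2 * p * ((p : ℝ) + 2) * (y * TJ (p + 1) k y))
      (2 * p * ((p : ℝ) + 2) * (1 * TJ (p + 1) k x + x * TJ (p + 1) (k + 1) x)) x :=
    ((hasDerivAt_id' x).mul (TJ_hasDerivAt (p + 1) k x)).const_mul _
  have h2 : HasDerivAt (fun y => (p : ℝ) * (p + 2 - k) * TJ (p + 2) k y + (p + 2) * (p + k) * TJ p k y)
      ((p : ℝ) * (p + 2 - k) * TJ (p + 2) (k + 1) x + (p + 2) * (p + k) * TJ p (k + 1) x) x :=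
    ((TJ_hasDerivAt (p + 2) k x).const_mul _).add ((TJ_hasDerivAt p k x).const_mul _)
  rw [e] at h1
  have := h1.unique h2
  rw [← this, one_mul]

/-- the derivatives of order greater than the degree vanish -/
theorem TJ_zero_of_lt (q j : ℕ) (h : q < j) (x : ℝ) : TJ q j x = 0 := by
  unfold TJ
  rw [iterate_derivative_eq_zero_of_degree_lt, eval_zero]
  rw [Chebyshev.degree_T]
  simpa using h

/-- the derivative of order `q` is constant -/
theorem TJ_const (q : ℕ) (x y : ℝ) : TJ q q x = TJ q q y := by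
  rw [Pool.LK1.TJ_diag, Pool.LK1.TJ_diag]

/-- parity -/
theorem TJ_neg_sq (q j : ℕ) (x : ℝ) : TJ q j (-x) ^ 2 = TJ q j x ^ 2 := by
  have key : ∀ j x, TJ q j (-x) = (-1) ^ (q + j) * TJ q j x := by
    intro j
    induction j with
    | zero =>
      intro x
      unfold TJ
      simp only [Function.iterate_zero, id, Chebyshev.T_eval_neg, add_zero]
      simp
    | succ j ih =>
      intro x
      have h1 : HasDerivAt (fun y => TJ q j (-y)) (-TJ q (j + 1) (-x)) x := by
        have := (TJ_hasDerivAt q j (-x)).comp x (hasDerivAt_neg x)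
        rw [mul_neg_one] at this
        exact this
      have h2 : HasDerivAt (fun y => (-1) ^ (q + j) * TJ q j y) ((-1) ^ (q + j) * TJ q (j + 1) x) x :=
        (TJ_hasDerivAt q j x).const_mul _
      rw [show (fun y => TJ q j (-y)) = fun y => (-1) ^ (q + j) * TJ q j y from funext fun y => ih y] at h1
      have := h1.unique h2
      rw [← add_assoc, pow_succ]
      linarith
  rw [key j x, mul_pow, ← pow_mul, mul_comm (q + j) 2, pow_mul]
  simp

end Pool.LKX
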