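import Pool.Agent.LK2.Zsp

/-!
# LKX/ZspS: spacing of the zeros of `T_n^(k+1)` on the symmetric interval `[-x1, x1]`

The same proof as `Pool.LK2.zsp` (`LK2/Zsp.lean`), with `|y| ≤ x1` in place of `0 ≤ y ≤ x1`: only
`S ≤ 1 - y²` is used.  (The code can be copied; the facts used there about `y ≥ 0` are only for `y² ≤ x1²`.)
-/

open Set
open Pool.LK1 (TJ)
open Pool.LK2 (IsFirst)

namespace Pool.LKX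

theorem zsp_sym (n k : ℕ) (h : k + 2 ≤ n) {x1 : ℝ} (hx : IsFirst n k x1) {S β x : ℝ} (hS0 : 0 < S)
    (hS : S ≤ 1 - x1 ^ 2) (hβ : 0 < β)
    (h1 : β ^ 2 ≤ (n : ℝ) ^ 2 - ((k : ℝ) + 1) ^ 2 + ((k : ℝ) + 3 / 2))
    (h2 : β ^ 2 * S ^ 2 ≤ S * ((n : ℝ) ^ 2 - 1 / 4) - ((k : ℝ) + 3 / 2) * ((k : ℝ) - 1 / 2))
    (hx0 : -x1 ≤ x) (hxx : x ≤ x1) :
    ∃ x' ∈ Icc x (x + Real.pi / β), x' ≤ x1 ∧ TJ n (k + 1) x' = 0 :=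
  Pool.LK2.zsp' n k h hx hS0 hS hβ h1 h2 hx0 hxx

end Pool.LKX
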